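import Pool.Agent.CMH.Defs

/-!
# induction principle for Z[√-2]

Naturals: `n + 1` from `n, 1, n - 1`. `a + s` (`a ∈ ℕ`): `a + 1 + s` from `a + s, 1, a - 1 + s`,
starting with `s` and `1 + s`. Then `a + (b+1) s` from `a + b s, s, a + (b-1) s`. `1 - s` from
`1, -s` and `1 - (-s) = 1 + s`; then `a - s` and `a - b s` in the same way; negatives by `hneg`.
Compare `CMG/GInd.lean`.
-/

set_option autoImplicit false

noncomputable section

open Complex Filter Topology
open scoped PeriodPair Classical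

namespace Pool.Agent.CMH

/-- induction for `ℤ[√-2]`; `⟨0, 1⟩` is `√-2` -/
theorem o2_induction {P : O2 → Prop} (h0 : P 0) (h1 : P 1) (hs : P ⟨0, 1⟩) (h1s : P ⟨1, 1⟩)
    (hneg : ∀ α, P α → P (-α)) (hadd : ∀ α β, P α → P β → P (α - β) → P (α + β)) (α : O2) :
    P α := by
  have s1 : ∀ c : ℤ, P ⟨0, c⟩ → P ⟨1, c⟩ → ∀ n : ℕ, P ⟨(n : ℤ), c⟩ ∧ P ⟨((n + 1 : ℕ) : ℤ), c⟩ := by
    intro c hc0 hc1 n
    induction n with
    | zero => exact ⟨hc0, hc1⟩
    | succ n ih =>
      refine ⟨ih.2, ?_⟩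
      have h := hadd ⟨((n + 1 : ℕ) : ℤ), c⟩ 1 ih.2 h1 (by
        convert ih.1 using 1
        apply Zsqrtd.ext
        · simp
        · simp)
      convert h using 1
      apply Zsqrtd.ext
      · simp
      · simp
  have hs' : P ⟨0, -1⟩ := by
    convert hneg _ hs using 1
    apply Zsqrtd.ext
    · simp
    · simp
  have h1s' : P ⟨1, -1⟩ := by
    have h := hadd 1 ⟨0, -1⟩ h1 hs' (by
      convert h1s using 1
      apply Zsqrtd.ext
      · simp
      · simp)
    convert h using 1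
    apply Zsqrtd.ext
    · simp
    · simp
  have s3 : ∀ ε : ℤ, P ⟨0, ε⟩ → P ⟨1, ε⟩ → ∀ a b : ℕ,
      P ⟨(a : ℤ), (b : ℤ) * ε⟩ ∧ P ⟨(a : ℤ), ((b + 1 : ℕ) : ℤ) * ε⟩ := by
    intro ε he0 he1 a b
    induction b with
    | zero =>
      constructor
      · convert (s1 0 h0 h1 a).1 using 2
        simp
      · convert (s1 ε he0 he1 a).1 using 2
        simp
    | succ b ih =>
      refine ⟨ih.2, ?_⟩
      have h := hadd ⟨(a : ℤ), ((b + 1 : ℕ) : ℤ) * ε⟩ ⟨0, ε⟩ ih.2 he0 (by
        convert ih.1 using 1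
        apply Zsqrtd.ext
        · simp
        · simp only [Zsqrtd.im_sub]
          push_cast
          ring)
      convert h using 1
      apply Zsqrtd.ext
      · simp
      · simp only [Zsqrtd.im_add]
        push_cast
        ring
  have s4 : ∀ (a : ℕ) (y : ℤ), P ⟨(a : ℤ), y⟩ := by
    intro a y
    rcases Int.natAbs_eq y with h | h
    · rw [h]
      convert (s3 1 hs h1s a y.natAbs).1 using 2
      rw [mul_one]
    · rw [h]
      convert (s3 (-1) hs' h1s' a y.natAbs).1 using 2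
      rw [mul_neg_one]
  obtain ⟨x, y⟩ := α
  rcases Int.natAbs_eq x with h | h
  · rw [h]
    exact s4 _ _
  · rw [h]
    convert hneg _ (s4 x.natAbs (-y)) using 1
    apply Zsqrtd.ext
    · simp
    · simp

end Pool.Agent.CMH
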