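import Pool.Agent.CMH.Defs

/-!
# `ℤ[√-2]` is a principal ideal domain; the embedding is injective
-/

set_option autoImplicit false

noncomputable section

open Complex Filter Topology
open scoped PeriodPair

namespace Pool.Agent.CMH

theorem toC_injective : Function.Injective (toC : O2 → ℂ) := by
  rw [injective_iff_map_eq_zero]
  intro a ha
  have h : (a.re : ℂ) + a.im * s2 = 0 := ha
  have h1 := congrArg Complex.re h
  have h2 := congrArg Complex.im h
  simp [s2_re, s2_im] at h1 h2
  exact Zsqrtd.ext h1 h2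

theorem coe_ne_zero {a : O2} (ha : a ≠ 0) : (a : ℂ) ≠ 0 := by
  intro h
  exact ha (toC_injective (h.trans (map_zero toC).symm))

instance : NoZeroDivisors O2 :=
  toC_injective.noZeroDivisors _ (map_zero _) (map_mul _)

instance : IsDomain O2 := NoZeroDivisors.to_isDomain _

theorem norm_pos' {a : O2} (ha : a ≠ 0) : 0 < Zsqrtd.norm a := by
  rw [Zsqrtd.norm_def]
  have h : a.re ≠ 0 ∨ a.im ≠ 0 := by
    by_contra hc
    push Not at hc
    exact ha (Zsqrtd.ext hc.1 hc.2)
  rcases h with h | h
  · nlinarith [mul_self_pos.2 h, mul_self_nonneg a.im]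
  · nlinarith [mul_self_pos.2 h, mul_self_nonneg a.re]

theorem norm_nonneg' (a : O2) : 0 ≤ Zsqrtd.norm a := by
  rw [Zsqrtd.norm_def]
  nlinarith [mul_self_nonneg a.im, mul_self_nonneg a.re]

/-- the quotient -/
def quo (x y : O2) : O2 :=
  ⟨round (((x * star y).re : ℚ) / Zsqrtd.norm y), round (((x * star y).im : ℚ) / Zsqrtd.norm y)⟩

theorem norm_sub_quo_lt (x : O2) {y : O2} (hy : y ≠ 0) :
    Zsqrtd.norm (x - y * quo x y) < Zsqrtd.norm y := by
  have hN := norm_pos' hy
  have hNQ : (0 : ℚ) < Zsqrtd.norm y := by exact_mod_cast hN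
  set n : ℤ := Zsqrtd.norm y with hn
  set u : O2 := x * star y with hu
  set a : ℤ := (quo x y).re with ha
  set b : ℤ := (quo x y).im with hb
  have h1 : |(u.re : ℚ) / n - a| ≤ 1 / 2 := abs_sub_round _
  have h2 : |(u.im : ℚ) / n - b| ≤ 1 / 2 := abs_sub_round _
  -- `norm (x - y q) * n = norm (u - n q)`
  have h3 : Zsqrtd.norm (x - y * quo x y) * n = (u.re - n * a) ^ 2 + 2 * (u.im - n * b) ^ 2 := by
    have h4 : Zsqrtd.norm (x - y * quo x y) * n =
        Zsqrtd.norm ((x - y * quo x y) * star y) := by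
      rw [Zsqrtd.norm_mul, Zsqrtd.norm_conj]
    rw [h4]
    have h5 : (x - y * quo x y) * star y = u - (n : O2) * quo x y := by
      have h6 : (n : O2) = y * star y := Zsqrtd.norm_eq_mul_conj y
      rw [h6, hu]
      ring
    rw [h5, Zsqrtd.norm_def]
    have h7 : (u - (n : O2) * quo x y).re = u.re - n * a := by
      simp [ha]
    have h8 : (u - (n : O2) * quo x y).im = u.im - n * b := by
      simp [hb]
    rw [h7, h8]
    ring
  have h9 : ((u.re : ℚ) - n * a) ^ 2 ≤ (n : ℚ) ^ 2 / 4 := by
    have : (u.re : ℚ) - n * a = n * ((u.re : ℚ) / n - a) := by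
      field_simp
    rw [this, mul_pow]
    have h10 : ((u.re : ℚ) / n - a) ^ 2 ≤ 1 / 4 := by
      have := sq_le_sq' (abs_le.1 h1).1 (abs_le.1 h1).2
      linarith
    nlinarith [sq_nonneg (n : ℚ)]
  have h10 : ((u.im : ℚ) - n * b) ^ 2 ≤ (n : ℚ) ^ 2 / 4 := by
    have : (u.im : ℚ) - n * b = n * ((u.im : ℚ) / n - b) := by
      field_simp
    rw [this, mul_pow]
    have h10 : ((u.im : ℚ) / n - b) ^ 2 ≤ 1 / 4 := by
      have := sq_le_sq' (abs_le.1 h2).1 (abs_le.1 h2).2
      linarith
    nlinarith [sq_nonneg (n : ℚ)]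
  have h11 : ((Zsqrtd.norm (x - y * quo x y) * n : ℤ) : ℚ) < (n : ℚ) * n := by
    rw [h3]
    push_cast
    nlinarith
  have h12 : Zsqrtd.norm (x - y * quo x y) * n < n * n := by exact_mod_cast h11
  exact lt_of_mul_lt_mul_right h12 hN.le

/-- `ℤ[√-2]` is Euclidean -/
def euclid : EuclideanDomain O2 :=
  { (inferInstance : CommRing O2), (inferInstance : Nontrivial O2) with
    quotient := fun x y => if y = 0 then 0 else quo x y
    remainder := fun x y => if y = 0 then x else x - y * quo x y
    quotient_zero := fun x => by simp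
    quotient_mul_add_remainder_eq := fun x y => by
      by_cases hy : y = 0
      · simp [hy]
      · simp [hy]
    r := fun x y => (Zsqrtd.norm x).natAbs < (Zsqrtd.norm y).natAbs
    r_wellFounded := (measure fun x : O2 => (Zsqrtd.norm x).natAbs).wf
    remainder_lt := fun x y hy => by
      simp only [hy, if_false]
      have h1 := norm_sub_quo_lt x hy
      have h2 := norm_nonneg' (x - y * quo x y)
      omega
    mul_left_not_lt := fun x y hy => by
      rw [not_lt, Zsqrtd.norm_mul, Int.natAbs_mul]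
      exact Nat.le_mul_of_pos_right _ (Int.natAbs_pos.2 (norm_pos' hy).ne') }

instance : IsPrincipalIdealRing O2 :=
  @EuclideanDomain.to_principal_ideal_domain O2 euclid

/-- the units are `1` and `-1` -/
theorem isUnit_iff {ε : O2} : IsUnit ε ↔ ε = 1 ∨ ε = -1 := by
  constructor
  · intro h
    have h1 := (Zsqrtd.norm_eq_one_iff.2 h)
    have h2 := norm_nonneg' ε
    have h3 : Zsqrtd.norm ε = 1 := by omega
    rw [Zsqrtd.norm_def] at h3
    have h4 : ε.im = 0 := by nlinarith [mul_self_nonneg ε.re, mul_self_nonneg ε.im]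
    rw [h4] at h3
    have h5 : ε.re * ε.re = 1 := by linarith
    rcases Int.isUnit_iff.1 (IsUnit.of_mul_eq_one _ h5) with h | h
    · exact Or.inl (Zsqrtd.ext h h4)
    · exact Or.inr (Zsqrtd.ext (by simpa using h) (by simpa using h4))
  · rintro (h | h)
    · rw [h]
      exact isUnit_one
    · rw [h]
      exact isUnit_one.neg

end Pool.Agent.CMH
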