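import Pool.Agent.CMH.Isog
import Pool.Agent.CMH.Euclid

/-!
# torsion points of C/Z[√-2]

Elementary; copy of `CMG/Tors.lean`: `mem_LH`, arithmetic of `ℤ[√-2]` (`Euclid.lean`). `card_quot`: for
instance the determinant of multiplication by `a + b√-2` on `ℤ ⊕ ℤ√-2` is `a² + 2b²`.
-/

set_option autoImplicit false

noncomputable section

open Complex Filter Topology
open scoped PeriodPair Classical

namespace Pool.Agent.CMH

theorem nH_eq (α : O2) : (nH α : ℝ) = ‖(α : ℂ)‖ ^ 2 := by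
  rw [← Complex.normSq_eq_norm_sq]
  unfold nH
  rw [Nat.cast_natAbs, abs_of_nonneg (norm_nonneg' α), coe_def, Complex.normSq_apply,
    Zsqrtd.norm_def]
  have h2 : Real.sqrt 2 * Real.sqrt 2 = 2 := Real.mul_self_sqrt (by norm_num)
  simp [s2_re, s2_im]
  linear_combination (-(α.im : ℝ) * α.im) * h2

theorem nH_mul (α β : O2) : nH (α * β) = nH α * nH β := by
  unfold nH
  rw [Zsqrtd.norm_mul, Int.natAbs_mul]

theorem IsOddH.ne_zero {α : O2} (hα : IsOddH α) : α ≠ 0 := by
  rintro rfl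
  simp [IsOddH, nH] at hα

/-- the basis `1, √-2` of `ℤ[√-2]` -/
private def torsBasis : Module.Basis (Fin 2) ℤ O2 := Module.Basis.ofEquivFun
  { toFun := fun z => ![z.re, z.im]
    invFun := fun v => ⟨v 0, v 1⟩
    left_inv := fun z => rfl
    right_inv := fun v => by ext i; fin_cases i <;> rfl
    map_add' := fun x y => by ext i; fin_cases i <;> simp
    map_smul' := fun c x => by ext i; fin_cases i <;> simp }

private theorem norm_eq (α : O2) : Algebra.norm ℤ α = Zsqrtd.norm α := by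
  rw [Algebra.norm_eq_matrix_det torsBasis, Matrix.det_fin_two]
  simp only [Algebra.leftMulMatrix_eq_repr_mul]
  have h0 : (torsBasis 0 : O2) = ⟨1, 0⟩ := by
    rw [torsBasis, Module.Basis.coe_ofEquivFun]
    refine Zsqrtd.ext ?_ ?_
    · show (Pi.single 0 1 : Fin 2 → ℤ) 0 = 1
      simp
    · show (Pi.single 0 1 : Fin 2 → ℤ) 1 = 0
      simp
  have h1 : (torsBasis 1 : O2) = ⟨0, 1⟩ := by
    rw [torsBasis, Module.Basis.coe_ofEquivFun]
    refine Zsqrtd.ext ?_ ?_
    · show (Pi.single 1 1 : Fin 2 → ℤ) 0 = 0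
      simp
    · show (Pi.single 1 1 : Fin 2 → ℤ) 1 = 1
      simp
  have hr : ∀ (z : O2) (j : Fin 2), torsBasis.repr z j = ![z.re, z.im] j := by
    intro z j
    rfl
  rw [hr, hr, hr, hr, h0, h1]
  simp [Zsqrtd.norm]
  try ring

private theorem card_quot_aux {α : O2} : Nat.card (O2 ⧸ Ideal.span {α}) = nH α := by
  have : Module.Free ℤ O2 := Module.Free.of_basis torsBasis
  have : Module.Finite ℤ O2 := Module.Finite.of_basis torsBasis
  have : IsDedekindDomain O2 := inferInstance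
  rw [← Submodule.cardQuot_apply, ← Ideal.absNorm_apply, Ideal.absNorm_span_singleton, norm_eq]
  rfl

theorem card_quot {α : O2} (hα : α ≠ 0) : Nat.card (O2 ⧸ Ideal.span {α}) = nH α := by
  have _ := hα
  exact card_quot_aux

theorem finite_quot {α : O2} (hα : α ≠ 0) : Finite (O2 ⧸ Ideal.span {α}) := by
  apply Nat.finite_of_card_ne_zero
  rw [card_quot hα]
  unfold nH
  intro h
  exact (norm_pos' hα).ne' (Int.natAbs_eq_zero.1 h)

theorem div_mem_iff {a n : O2} (hn : n ≠ 0) : (a : ℂ) / n ∈ LH.lattice ↔ n ∣ a := by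
  rw [mem_LH]
  constructor
  · rintro ⟨k, hk⟩
    rw [eq_div_iff (coe_ne_zero hn), ← map_mul] at hk
    exact ⟨k, by rw [← toC_injective hk, mul_comm]⟩
  · rintro ⟨k, rfl⟩
    refine ⟨k, ?_⟩
    rw [map_mul, mul_div_cancel_left₀ _ (coe_ne_zero hn)]

private theorem mk_out {α : O2} (q : O2 ⧸ Ideal.span {α}) :
    Ideal.Quotient.mk (Ideal.span {α}) (Quotient.out q) = q :=
  Quotient.out_eq q

theorem exists_tor {α : O2} (hα : α ≠ 0) {w : ℂ} (hw : α * w ∈ LH.lattice) :
    ∃! q : O2 ⧸ Ideal.span {α}, w - torH α q ∈ LH.lattice := by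
  obtain ⟨a, ha⟩ := mem_LH.1 hw
  have hw' : w = (a : ℂ) / α := by
    rw [ha, mul_div_cancel_left₀ _ (coe_ne_zero hα)]
  have key : ∀ q : O2 ⧸ Ideal.span {α}, w - torH α q ∈ LH.lattice ↔
      Ideal.Quotient.mk (Ideal.span {α}) a = q := by
    intro q
    have h1 : w - torH α q = ((a - Quotient.out q : O2) : ℂ) / α := by
      rw [hw', torH, map_sub, sub_div]
    rw [h1, div_mem_iff hα, ← Ideal.mem_span_singleton, ← Ideal.Quotient.eq, mk_out]
  exact ⟨Ideal.Quotient.mk (Ideal.span {α}) a, (key _).2 rfl, fun q hq => ((key q).1 hq).symm⟩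

theorem mul_tor_mem {α : O2} (hα : α ≠ 0) (q : O2 ⧸ Ideal.span {α}) :
    α * torH α q ∈ LH.lattice := by
  rw [torH, mul_div_cancel₀ _ (coe_ne_zero hα)]
  exact mem_LH.2 ⟨_, rfl⟩

theorem tor_mem_iff {α : O2} (hα : α ≠ 0) (q : O2 ⧸ Ideal.span {α}) :
    torH α q ∈ LH.lattice ↔ q = 0 := by
  rw [torH, div_mem_iff hα, ← Ideal.mem_span_singleton, ← Ideal.Quotient.eq_zero_iff_mem, mk_out]

theorem HSH_finite {α : O2} (hα : α ≠ 0) : (HSH α).Finite := by
  have := finite_quot hα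
  apply (Set.finite_range (fun q : O2 ⧸ Ideal.span {α} => XH (torH α q))).subset
  rintro t ⟨w, ⟨-, hw⟩, rfl⟩
  obtain ⟨q, hq, -⟩ := exists_tor hα hw
  refine ⟨q, ?_⟩
  have h : ℘[LH] (torH α q + (w - torH α q)) = ℘[LH] (torH α q) :=
    LH.weierstrassP_add_coe _ ⟨_, hq⟩
  rw [add_sub_cancel] at h
  simp only [XH, h]

/-- a point killed by coprime elements is in the lattice -/
theorem mem_of_coprime {α β : O2} (h : IsCoprime α β) {w : ℂ} (hα : α * w ∈ LH.lattice)
    (hβ : β * w ∈ LH.lattice) : w ∈ LH.lattice := by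
  obtain ⟨a, b, hab⟩ := h
  have h1 : w = (a : ℂ) * (α * w) + (b : ℂ) * (β * w) := by
    have h2 : ((a * α + b * β : O2) : ℂ) = 1 := by
      rw [hab, map_one]
    rw [map_add, map_mul, map_mul] at h2
    calc w = ((a : ℂ) * α + b * β) * w := by rw [h2, one_mul]
      _ = _ := by ring
  rw [h1]
  exact add_mem (mul_mem_LH a hα) (mul_mem_LH b hβ)

end Pool.Agent.CMH
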