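import Pool.Agent.CMH.XTau
import Pool.Agent.CMH.Tors
import Pool.Agent.CMH.Ind

/-!
# XH at torsion points is algebraic

Copy of `CMG/AlgX.lean`: `o2_induction` for the statement `α = 0` or there are `A, B`. `√-2`:
`XH_mul_s` (`XH z ≠ 0` if `s z ∉ L`); `1 + √-2`: `XH_one_add_s`; `-α`: `XH_neg`. From `α, β, α - β` to `α + β` (all
nonzero): `XH_sum` with `u = αz, v = βz`; the polynomial `A_α B_β - A_β B_α` is not `0` since `XH (αz) ≠ XH (βz)`
for some `z`; `α = β`: `XH_dup`. `isAlgebraic_XH`: for `z ∉ L`, `z' → z`: `XH (n z') → ∞` while `A(XH z')` stays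
bounded, so `B(XH z) = 0`, `B ≠ 0`; `ℚ(√-2)` is algebraic over `ℚ`.
-/

set_option autoImplicit false

noncomputable section

open Complex Filter Topology
open scoped PeriodPair Classical

namespace Pool.Agent.CMH

private theorem alg_countL : ((LH.lattice : Set ℂ)).Countable := by
  have h : (LH.lattice : Set ℂ) ⊆ Set.range (fun a : O2 => (a : ℂ)) := by
    intro z hz
    exact mem_LH.1 hz
  have hc : Countable O2 := by
    have : Function.Injective (fun a : O2 => (a.re, a.im)) := by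
      intro a b hab
      simp only [Prod.mk.injEq] at hab
      exact Zsqrtd.ext hab.1 hab.2
    exact this.countable
  exact (Set.countable_range _).mono h

private theorem alg_cast_ne {γ : O2} (hγ : γ ≠ 0) : (γ : ℂ) ≠ 0 := coe_ne_zero hγ

private theorem alg_countMul {γ : O2} (hγ : γ ≠ 0) :
    {z : ℂ | (γ : ℂ) * z ∈ LH.lattice}.Countable := by
  have h : Set.InjOn (fun z : ℂ => (γ : ℂ) * z) {z : ℂ | (γ : ℂ) * z ∈ LH.lattice} := by
    intro a _ b _ hab
    exact mul_left_cancel₀ (alg_cast_ne hγ) hab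
  refine Set.MapsTo.countable_of_injOn (f := fun z : ℂ => (γ : ℂ) * z)
    (t := (LH.lattice : Set ℂ)) ?_ h alg_countL
  intro z hz
  exact hz

private theorem alg_countFib (c : ℂ) : {z : ℂ | z ∉ LH.lattice ∧ XH z = c}.Countable := by
  by_cases h : ∃ v, v ∉ LH.lattice ∧ XH v = c
  · obtain ⟨v, hv, hvc⟩ := h
    have h1 : {z : ℂ | z ∉ LH.lattice ∧ XH z = c} ⊆
        (fun l : ℂ => l + v) '' (LH.lattice : Set ℂ) ∪
          (fun l : ℂ => l - v) '' (LH.lattice : Set ℂ) := by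
      rintro z ⟨hz, hzc⟩
      rcases XH_inj hz hv (hzc.trans hvc.symm) with h | h
      · exact Or.inl ⟨z - v, h, by simp⟩
      · exact Or.inr ⟨z + v, h, by simp⟩
    exact ((alg_countL.image _).union (alg_countL.image _)).mono h1
  · have h1 : {z : ℂ | z ∉ LH.lattice ∧ XH z = c} = ∅ := by
      ext z
      simp only [Set.mem_ofPred_eq, Set.mem_empty_iff_false, iff_false]
      exact fun hz => h ⟨z, hz⟩
    rw [h1]
    exact Set.countable_empty

private theorem alg_countPoly {B : Polynomial Q2} (hB : B ≠ 0) :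
    {z : ℂ | z ∉ LH.lattice ∧ Polynomial.aeval (XH z) B = 0}.Countable := by
  have hB' : B.map (algebraMap Q2 ℂ) ≠ 0 := (Polynomial.map_ne_zero_iff
    (algebraMap Q2 ℂ).injective).2 hB
  have h1 : {z : ℂ | z ∉ LH.lattice ∧ Polynomial.aeval (XH z) B = 0} ⊆
      ⋃ c ∈ ((B.map (algebraMap Q2 ℂ)).roots.toFinset : Set ℂ),
        {z : ℂ | z ∉ LH.lattice ∧ XH z = c} := by
    rintro z ⟨hz, hzB⟩
    simp only [Set.mem_iUnion]
    refine ⟨XH z, ?_, hz, rfl⟩
    simp only [Finset.mem_coe, Multiset.mem_toFinset]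
    rw [Polynomial.mem_roots hB', Polynomial.IsRoot.def, Polynomial.eval_map_algebraMap]
    exact hzB
  refine Set.Countable.mono h1 ?_
  refine Set.Countable.biUnion (Finset.countable_toSet _) fun c _ => alg_countFib c

private theorem alg_exists {S : Set ℂ} (hS : S.Countable) : ∃ z, z ∉ S := by
  obtain ⟨z, hz⟩ := (hS.dense_compl ℂ).nonempty
  exact ⟨z, hz⟩

/-- extension by continuity -/
private theorem alg_extend {γ : O2} {A B : Polynomial Q2} {S : Set ℂ} (hS : S.Countable)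
    (h : ∀ z, z ∉ S → z ∉ LH.lattice → γ * z ∉ LH.lattice →
      XH (γ * z) * Polynomial.aeval (XH z) B = Polynomial.aeval (XH z) A)
    {z : ℂ} (hz : z ∉ LH.lattice) (hγz : γ * z ∉ LH.lattice) :
    XH (γ * z) * Polynomial.aeval (XH z) B = Polynomial.aeval (XH z) A := by
  have hopen : IsOpen ((LH.lattice : Set ℂ)ᶜ) := LH.isClosed_lattice.isOpen_compl
  have c1 : ContinuousAt XH z := (XH_diff.differentiableAt (hopen.mem_nhds hz)).continuousAt
  have c2 : ContinuousAt (fun w : ℂ => XH (γ * w)) z := by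
    have := (XH_diff.differentiableAt (hopen.mem_nhds hγz)).continuousAt
    exact ContinuousAt.comp (f := fun w : ℂ => (γ : ℂ) * w) (g := XH) this (by fun_prop)
  have c3 : ∀ P : Polynomial Q2, ContinuousAt (fun w : ℂ => Polynomial.aeval (XH w) P) z := by
    intro P
    exact (P.continuous_aeval.continuousAt).comp c1
  have c4 : ContinuousAt (fun w : ℂ => XH (γ * w) * Polynomial.aeval (XH w) B -
      Polynomial.aeval (XH w) A) z := (c2.mul (c3 B)).sub (c3 A)
  have hd : Dense Sᶜ := hS.dense_compl ℂ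
  have hev : ∀ᶠ w in 𝓝 z, w ∉ LH.lattice ∧ γ * w ∉ LH.lattice := by
    have e1 : ∀ᶠ w in 𝓝 z, w ∈ (LH.lattice : Set ℂ)ᶜ := hopen.mem_nhds hz
    have e2 : ∀ᶠ w in 𝓝 z, (γ : ℂ) * w ∈ (LH.lattice : Set ℂ)ᶜ := by
      have : ContinuousAt (fun w : ℂ => (γ : ℂ) * w) z := by fun_prop
      exact this.eventually_mem (hopen.mem_nhds hγz)
    filter_upwards [e1, e2] with w h1 h2 using ⟨h1, h2⟩
  have hfr : ∃ᶠ w in 𝓝 z, XH (γ * w) * Polynomial.aeval (XH w) B -
      Polynomial.aeval (XH w) A = 0 := by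
    have h1 : ∃ᶠ w in 𝓝 z, w ∈ Sᶜ := mem_closure_iff_frequently.1 (hd z)
    refine (h1.and_eventually hev).mono ?_
    rintro w ⟨hw, hw1, hw2⟩
    rw [h w hw hw1 hw2, sub_self]
  have hcl := isClosed_singleton (x := (0 : ℂ))
  have := hcl.mem_of_frequently_of_tendsto hfr c4
  exact sub_eq_zero.1 this

private def AlgP (α : O2) : Prop := ∃ A B : Polynomial Q2, B ≠ 0 ∧
    ∀ z : ℂ, z ∉ LH.lattice → α * z ∉ LH.lattice →
      XH (α * z) * Polynomial.aeval (XH z) B = Polynomial.aeval (XH z) A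

private def iQ : Q2 := ⟨s2, IntermediateField.mem_adjoin_simple_self ℚ s2⟩

private theorem alg_dbl {α : O2} (hα : α ≠ 0) (h : AlgP α) : AlgP (α + α) := by
  obtain ⟨A, B, hB, hAB⟩ := h
  have h2α : α + α ≠ 0 := by
    intro h
    exact hα (by simpa using add_self_eq_zero.1 h)
  refine ⟨(A ^ 2 - 2 * B ^ 2) ^ 2, 4 * (A ^ 3 * B + 4 * A ^ 2 * B ^ 2 + 2 * A * B ^ 3), ?_, ?_⟩
  · intro h0
    have h0' : A ^ 3 * B + 4 * A ^ 2 * B ^ 2 + 2 * A * B ^ 3 = 0 := by
      rcases mul_eq_zero.1 h0 with h | h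
      · exact absurd h (by norm_num)
      · exact h
    obtain ⟨z, hz⟩ := alg_exists ((((alg_countL).union (alg_countMul hα)).union
      (alg_countMul h2α)).union (alg_countPoly hB))
    simp only [Set.mem_union, not_or, Set.mem_ofPred_eq, SetLike.mem_coe] at hz
    obtain ⟨⟨⟨z1, z2⟩, z3⟩, z4⟩ := hz
    have z4' : Polynomial.aeval (XH z) B ≠ 0 := fun h => z4 ⟨z1, h⟩
    have e1 := hAB z z1 z2
    have e2 := congrArg (Polynomial.aeval (XH z)) h0'
    simp only [map_add, map_mul, map_pow, map_zero, map_ofNat] at e2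
    rw [← e1] at e2
    have e3 : (XH (α * z) ^ 3 + 4 * XH (α * z) ^ 2 + 2 * XH (α * z)) *
        Polynomial.aeval (XH z) B ^ 4 = 0 := by
      rw [← e2]; ring
    have e4 : XH (α * z) ^ 3 + 4 * XH (α * z) ^ 2 + 2 * XH (α * z) = 0 := by
      rcases mul_eq_zero.1 e3 with h | h
      · exact h
      · exact absurd h (pow_ne_zero _ z4')
    have e5 := (XH_two_mul_mem_iff z2).2 e4
    apply z3
    have : ((α + α : O2) : ℂ) * z = 2 * (α * z) := by rw [map_add]; ring
    rw [this]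
    exact e5
  · intro z z1 z2
    have hc : ((α + α : O2) : ℂ) * z = 2 * (α * z) := by rw [map_add]; ring
    rw [hc] at z2 ⊢
    have z3 : (α : ℂ) * z ∉ LH.lattice := by
      intro h
      apply z2
      rw [two_mul]
      exact add_mem h h
    have e1 := hAB z z1 z3
    have e2 := XH_dup z3 z2
    simp only [map_sub, map_mul, map_pow, map_add, map_ofNat]
    rw [← e1]
    linear_combination (Polynomial.aeval (XH z) B) ^ 4 * e2

private theorem alg_add {α β : O2} (hα : α ≠ 0) (hβ : β ≠ 0) (hs : α + β ≠ 0)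
    (hd : α - β ≠ 0) (h1 : AlgP α) (h2 : AlgP β) (h3 : AlgP (α - β)) : AlgP (α + β) := by
  obtain ⟨A₁, B₁, hB₁, hAB₁⟩ := h1
  obtain ⟨A₂, B₂, hB₂, hAB₂⟩ := h2
  obtain ⟨A₃, B₃, hB₃, hAB₃⟩ := h3
  have hS : ((((LH.lattice : Set ℂ) ∪ {z : ℂ | (α : ℂ) * z ∈ LH.lattice}) ∪
      {z : ℂ | (β : ℂ) * z ∈ LH.lattice}) ∪ {z : ℂ | ((α + β : O2) : ℂ) * z ∈ LH.lattice} ∪
      {z : ℂ | ((α - β : O2) : ℂ) * z ∈ LH.lattice}).Countable :=
    ((((alg_countL).union (alg_countMul hα)).union (alg_countMul hβ)).union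
      (alg_countMul hs)).union (alg_countMul hd)
  refine ⟨2 * B₃ * ((A₁ * A₂ + 2 * (B₁ * B₂)) * (A₁ * B₂ + A₂ * B₁) +
      8 * (A₁ * A₂ * B₁ * B₂)) - A₃ * (A₁ * B₂ - A₂ * B₁) ^ 2,
    B₃ * (A₁ * B₂ - A₂ * B₁) ^ 2, ?_, ?_⟩
  · refine mul_ne_zero hB₃ (pow_ne_zero _ ?_)
    intro h0
    obtain ⟨z, hz⟩ := alg_exists ((hS.union (alg_countPoly hB₁)).union (alg_countPoly hB₂))
    simp only [Set.mem_union, not_or, Set.mem_ofPred_eq, SetLike.mem_coe] at hz
    obtain ⟨⟨⟨⟨⟨⟨z1, z2⟩, z3⟩, z4⟩, z5⟩, z6⟩, z7⟩ := hz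
    have z6' : Polynomial.aeval (XH z) B₁ ≠ 0 := fun h => z6 ⟨z1, h⟩
    have z7' : Polynomial.aeval (XH z) B₂ ≠ 0 := fun h => z7 ⟨z1, h⟩
    have e1 := hAB₁ z z1 z2
    have e2 := hAB₂ z z1 z3
    have e3 := congrArg (Polynomial.aeval (XH z)) h0
    simp only [map_sub, map_mul, map_zero] at e3
    rw [← e1, ← e2] at e3
    have e4 : (XH (α * z) - XH (β * z)) *
        (Polynomial.aeval (XH z) B₁ * Polynomial.aeval (XH z) B₂) = 0 := by
      rw [← e3]; ring
    have e5 : XH (α * z) = XH (β * z) := by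
      rcases mul_eq_zero.1 e4 with h | h
      · exact sub_eq_zero.1 h
      · exact absurd h (mul_ne_zero z6' z7')
    rcases XH_inj z2 z3 e5 with h | h
    · apply z5
      have : ((α - β : O2) : ℂ) * z = α * z - β * z := by rw [map_sub]; ring
      rw [this]; exact h
    · apply z4
      have : ((α + β : O2) : ℂ) * z = α * z + β * z := by rw [map_add]; ring
      rw [this]; exact h
  · intro z hz hz'
    refine alg_extend hS ?_ hz hz'
    intro z hz z1 z4
    simp only [Set.mem_union, not_or, Set.mem_ofPred_eq, SetLike.mem_coe] at hz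
    obtain ⟨⟨⟨⟨_, z2⟩, z3⟩, _⟩, z5⟩ := hz
    have e1 := hAB₁ z z1 z2
    have e2 := hAB₂ z z1 z3
    have e3 := hAB₃ z z1 z5
    have cs : ((α + β : O2) : ℂ) * z = α * z + β * z := by rw [map_add]; ring
    have cd : ((α - β : O2) : ℂ) * z = α * z - β * z := by rw [map_sub]; ring
    rw [cs] at z4 ⊢
    rw [cd] at z5 e3
    have e4 := XH_sum z2 z3 z4 z5
    simp only [map_sub, map_mul, map_pow, map_add, map_ofNat]
    rw [← e1, ← e2, ← e3]
    linear_combination (Polynomial.aeval (XH z) B₁) ^ 2 * (Polynomial.aeval (XH z) B₂) ^ 2 *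
      (Polynomial.aeval (XH z) B₃) * e4

private theorem s2_ne_zero : s2 ≠ 0 := by
  intro h
  have := s2_mul_s2
  rw [h] at this
  norm_num at this

private theorem alg_all (α : O2) : α = 0 ∨ AlgP α := by
  refine o2_induction (P := fun α => α = 0 ∨ AlgP α) (Or.inl rfl) (Or.inr ?_) (Or.inr ?_)
    (Or.inr ?_) ?_ ?_ α
  · refine ⟨Polynomial.X, 1, one_ne_zero, fun z _ _ => ?_⟩
    simp
  · refine ⟨-(Polynomial.X ^ 2 + 4 * Polynomial.X + 2), 2 * Polynomial.X, ?_, fun z hz hz' => ?_⟩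
    · exact mul_ne_zero (by norm_num) Polynomial.X_ne_zero
    · rw [coe_sqrtd] at hz' ⊢
      have e1 := XH_mul_s hz'
      simp only [map_neg, map_mul, map_add, map_pow, Polynomial.aeval_X, map_ofNat]
      linear_combination e1
  · refine ⟨Polynomial.X * (Polynomial.X + Polynomial.C (2 - iQ)) ^ 2,
      (Polynomial.C (1 + iQ) * Polynomial.X + Polynomial.C iQ) ^ 2, ?_, fun z hz hz' => ?_⟩
    · refine pow_ne_zero _ ?_
      intro h
      have h1 := congrArg (Polynomial.coeff · 0) h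
      simp only [Polynomial.coeff_add, Polynomial.coeff_C_mul, Polynomial.coeff_X_zero, mul_zero,
        Polynomial.coeff_C_zero, zero_add, Polynomial.coeff_zero] at h1
      exact s2_ne_zero (congrArg (algebraMap Q2 ℂ) h1)
    · have hc : ((⟨1, 1⟩ : O2) : ℂ) = 1 + s2 := by
        rw [coe_def]; simp
      rw [hc] at hz' ⊢
      have e1 := XH_one_add_s hz'
      have e2 : algebraMap Q2 ℂ iQ = s2 := rfl
      simp only [map_mul, map_add, map_sub, map_pow, map_one, Polynomial.aeval_X,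
        Polynomial.aeval_C, e2, map_ofNat]
      linear_combination e1
  · rintro α (rfl | ⟨A, B, hB, hAB⟩)
    · left; simp
    · right
      refine ⟨A, B, hB, fun z hz hz' => ?_⟩
      have hc : ((-α : O2) : ℂ) = -(α : ℂ) := map_neg _ _
      rw [hc, neg_mul] at hz' ⊢
      rw [XH_neg, hAB z hz]
      intro h
      exact hz' (neg_mem h)
  · intro α β h1 h2 h3
    rcases eq_or_ne α 0 with rfl | hα
    · rw [zero_add]; exact h2
    rcases eq_or_ne β 0 with rfl | hβ
    · rw [add_zero]; exact h1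
    rcases eq_or_ne (α + β) 0 with h0 | hs
    · exact Or.inl h0
    have h1' := h1.resolve_left hα
    have h2' := h2.resolve_left hβ
    rcases eq_or_ne α β with rfl | hne
    · exact Or.inr (alg_dbl hα h1')
    · have hd : α - β ≠ 0 := sub_ne_zero.2 hne
      exact Or.inr (alg_add hα hβ hs hd h1' h2' (h3.resolve_left hd))

/-- `XH (α z)` is a rational function of `XH z` with coefficients in `ℚ(i)` -/
theorem exists_mul_poly (α : O2) (hα : α ≠ 0) : ∃ A B : Polynomial Q2, B ≠ 0 ∧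
    ∀ z : ℂ, z ∉ LH.lattice → α * z ∉ LH.lattice →
      XH (α * z) * Polynomial.aeval (XH z) B = Polynomial.aeval (XH z) A :=
  (alg_all α).resolve_left hα

theorem isAlgebraic_XH {n : O2} (hn : n ≠ 0) {z : ℂ} (hz : n * z ∈ LH.lattice) :
    IsAlgebraic ℚ (XH z) := by
  by_cases hzL : z ∈ LH.lattice
  · rw [XH_of_mem hzL]
    have h1 : (-4 / 3 : ℂ) = algebraMap ℚ ℂ (-4 / 3) := by
      simp
    rw [h1]
    exact isAlgebraic_algebraMap _
  obtain ⟨A, B, hB, hAB⟩ := exists_mul_poly n hn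
  have hn' := alg_cast_ne hn
  have hopen : IsOpen ((LH.lattice : Set ℂ)ᶜ) := LH.isClosed_lattice.isOpen_compl
  have c1 : ContinuousAt XH z := (XH_diff.differentiableAt (hopen.mem_nhds hzL)).continuousAt
  have c3 : ∀ P : Polynomial Q2, ContinuousAt (fun w : ℂ => Polynomial.aeval (XH w) P) z := by
    intro P
    exact (P.continuous_aeval.continuousAt).comp c1
  -- approach `z`
  have t1 : Tendsto (fun w : ℂ => z + w / n) (𝓝[≠] 0) (𝓝 z) := by
    have : ContinuousAt (fun w : ℂ => z + w / n) 0 := by fun_prop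
    have h2 := this.tendsto
    simp only [zero_div, add_zero] at h2
    exact h2.mono_left nhdsWithin_le_nhds
  have hev : ∀ᶠ w : ℂ in 𝓝[≠] 0, z + w / n ∉ LH.lattice ∧ w ∉ LH.lattice := by
    have e1 : ∀ᶠ w : ℂ in 𝓝[≠] 0, z + w / n ∈ (LH.lattice : Set ℂ)ᶜ :=
      t1.eventually (hopen.mem_nhds hzL)
    have e2 : ∀ᶠ w : ℂ in 𝓝[≠] 0, w ∈ ((LH.lattice : Set ℂ) \ {0})ᶜ :=
      nhdsWithin_le_nhds (LH.compl_lattice_sdiff_singleton_mem_nhds 0)
    filter_upwards [e1, e2, self_mem_nhdsWithin] with w h1 h2 h3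
    exact ⟨h1, fun h => h2 ⟨h, h3⟩⟩
  have heq : ∀ᶠ w : ℂ in 𝓝[≠] 0, (w ^ 2 * XH w) * Polynomial.aeval (XH (z + w / n)) B =
      w ^ 2 * Polynomial.aeval (XH (z + w / n)) A := by
    filter_upwards [hev] with w hw
    have h1 : (n : ℂ) * (z + w / n) = w + n * z := by field_simp; ring
    have h2 : (n : ℂ) * (z + w / n) ∉ LH.lattice := by
      rw [h1]
      intro h
      apply hw.2
      have := sub_mem h hz
      simpa using this
    have h3 := hAB _ hw.1 h2
    rw [h1, XH_add_coe _ hz] at h3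
    rw [mul_assoc, h3]
  have l1 : Tendsto (fun w : ℂ => (w ^ 2 * XH w) * Polynomial.aeval (XH (z + w / n)) B) (𝓝[≠] 0)
      (𝓝 (4 / (3 * ℘[LH] tauH) * Polynomial.aeval (XH z) B)) :=
    XH_tendsto.mul ((c3 B).tendsto.comp t1)
  have l2 : Tendsto (fun w : ℂ => w ^ 2 * Polynomial.aeval (XH (z + w / n)) A) (𝓝[≠] 0)
      (𝓝 (0 * Polynomial.aeval (XH z) A)) := by
    refine Tendsto.mul ?_ ((c3 A).tendsto.comp t1)
    have : ContinuousAt (fun w : ℂ => w ^ 2) 0 := by fun_prop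
    have h2 := this.tendsto
    simp only [ne_eq, OfNat.ofNat_ne_zero, not_false_eq_true, zero_pow] at h2
    exact h2.mono_left nhdsWithin_le_nhds
  have l3 := tendsto_nhds_unique (l1.congr' heq) l2
  rw [zero_mul] at l3
  have hB0 : Polynomial.aeval (XH z) B = 0 := by
    rcases mul_eq_zero.1 l3 with h | h
    · exact absurd h (div_ne_zero (by norm_num) (mul_ne_zero (by norm_num) g_eq.1))
    · exact h
  have hI : IsAlgebraic ℚ s2 := by
    refine ⟨Polynomial.X ^ 2 + Polynomial.C 2, ?_, by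
      rw [map_add, map_pow, Polynomial.aeval_X, Polynomial.aeval_C, pow_two, s2_mul_s2, map_ofNat]
      norm_num⟩
    intro h
    have := congrArg (Polynomial.eval (0 : ℚ)) h
    simp at this
  have hQ : Algebra.IsAlgebraic ℚ Q2 :=
    (IntermediateField.isAlgebraic_adjoin (S := {s2}) fun x hx => by
      rw [Set.mem_singleton_iff] at hx
      rw [hx]
      exact hI.isIntegral)
  have h1 : IsAlgebraic Q2 (XH z) := ⟨B, hB, hB0⟩
  exact h1.restrictScalars ℚ

end Pool.Agent.CMH
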