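import Mathlib

/-!
# The elliptic curve `y² = x³ + 4x² + 2x` over `ℚ(√-2)` and its elliptic units: definitions

The same theory as in `Pool/Agent/CMG` for `ℤ[√-2]` instead of `ℤ[i]`: the element `1 + i` of norm
`2` is replaced by `√-2`, the Weber function is `XH`, and the relation
`XG ((1+i)z) = (XG z² - 1)/(2i XG z)` is replaced by `XH (√-2 z) = -(XH z² + 4 XH z + 2)/(2 XH z)`.
-/

set_option autoImplicit false

noncomputable section

open Complex Filter Topology
open scoped PeriodPair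

namespace Pool.Agent.CMH

/-- the number `√-2` -/
def s2 : ℂ := (Real.sqrt 2 : ℝ) * I

theorem s2_mul_s2 : s2 * s2 = -2 := by
  have h : ((Real.sqrt 2 : ℝ) : ℂ) * ((Real.sqrt 2 : ℝ) : ℂ) = 2 := by
    rw [← Complex.ofReal_mul, Real.mul_self_sqrt (by norm_num)]
    norm_num
  unfold s2
  linear_combination (I * I) * h + 2 * I_mul_I

theorem s2_re : s2.re = 0 := by simp [s2]

theorem s2_im : s2.im = Real.sqrt 2 := by simp [s2]

/-- the ring `ℤ[√-2]` -/
abbrev O2 : Type := Zsqrtd (-2)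

/-- the embedding of `ℤ[√-2]` into `ℂ` -/
def toC : O2 →+* ℂ := Zsqrtd.lift ⟨s2, by rw [s2_mul_s2]; norm_num⟩

instance : Coe O2 ℂ := ⟨toC⟩

theorem coe_def (a : O2) : (a : ℂ) = a.re + a.im * s2 := rfl

/-- the lattice `ℤ + ℤ √-2` -/
def LH : PeriodPair where
  ω₁ := 1
  ω₂ := s2
  indep := by
    rw [LinearIndependent.pair_iff]
    intro s t h
    have h1 := congrArg Complex.re h
    have h2 := congrArg Complex.im h
    simp [s2_re, s2_im] at h1 h2
    exact ⟨h1, h2⟩

/-- the nontrivial point of order `√-2` -/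
def tauH : ℂ := s2 / 2

/-- the function with `XH'² = 3 ℘(τ) (XH³ + 4 XH² + 2 XH)` -/
def XH (z : ℂ) : ℂ := 4 * (℘[LH] z - ℘[LH] tauH) / (3 * ℘[LH] tauH)

/-- the norm -/
def nH (α : O2) : ℕ := (Zsqrtd.norm α).natAbs

/-- `α` is prime to `√-2` -/
def IsOddH (α : O2) : Prop := Odd (nH α)

/-- the torsion point belonging to a class modulo `α` -/
def torH (α : O2) (q : O2 ⧸ Ideal.span {α}) : ℂ := ((Quotient.out q : O2) : ℂ) / (α : ℂ)

/-- the values of `XH` at the nonzero points of `E[α]` -/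
def HSH (α : O2) : Set ℂ := XH '' {w : ℂ | w ∉ LH.lattice ∧ (α : ℂ) * w ∈ LH.lattice}

/-- the elliptic function with divisor `N(α) (0) - E[α]` -/
def PsiH (α : O2) (z : ℂ) : ℂ := ∏ᶠ t ∈ HSH α, (2 * t / (XH z - t))

/-- the subfield `ℚ(√-2)` of `ℂ` -/
abbrev Q2 : IntermediateField ℚ ℂ := IntermediateField.adjoin ℚ {s2}

end Pool.Agent.CMH
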