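import Pool.Agent.CMH.XBasic

/-!
# translation by tau, multiplication by √-2 and 1 + √-2

Write `s = s2`, `X = XH`. `XH_add_tau`: `XH_sum` (or `XH_prod`) with `v = τ`, `X τ = 0`, `X(z+τ) = X(z-τ)`:
`2 X(z+τ) X(z)² = 4 X(z)`, and `X z ≠ 0`. `XH_mul_s`: `P_isog` in the coordinate `X` (`℘ = e + (3e/4) X`):
`-2 X(sz) = X(z) + X(z+τ) + 4`, and `X(z+τ) = 2/X(z)`.
`XH_one_add_s`: put `x = X z`, `T = X (sz) = -(x² + 4x + 2)/(2x)`. `P_diff` in the coordinate `X`:
`(X(u+v) - X(u-v)) (X u - X v)² = -X'(u) X'(v) / (3e/4)`; `s X'(sz) = T'(x) X'(z)` with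
`T'(x) = -(1 - 2/x²)/2` and `X'² = 3e(x³ + 4x² + 2x)` (`XH_deriv_sq`) give, for `u = z, v = sz`,
`(X((1+s)z) - X((1-s)z)) (x - T)² = -s (x² - 2)(x² + 4x + 2)/x`; add `XH_sum` and use
`x - T = (3x² + 4x + 2)/(2x)`, `3x² + 4x + 2 = 3 (x + (2+s)/3)(x + (2-s)/3)`, `(1+s)(2+s) = 3s`. If `(1-s)z ∈ L` use
continuity of both sides in `z` (or, for `z = τ`, `X τ = 0`).
`XH_quarter`: `s/4 + τ ≡ -s/4` and `(s/4 + 1/2) + τ ≡ -(s/4 + 1/2)` modulo `L`, so both squares are `2`
(`XH_add_tau`); they are different by `XH_inj`.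
`odd_mul_tau`: `α = a + bs`, `a` odd, `ατ = aτ - b`.
-/

set_option autoImplicit false

noncomputable section

open Complex Filter Topology
open scoped PeriodPair Classical

namespace Pool.Agent.CMH

private theorem e_ne : ℘[LH] tauH ≠ 0 := g_eq.1

private theorem P_eq (z : ℂ) : ℘[LH] z = ℘[LH] tauH + 3 * ℘[LH] tauH / 4 * XH z := by
  unfold XH
  have := e_ne
  field_simp
  ring

private theorem one_mem : (1 : ℂ) ∈ LH.lattice := mem_LH.2 ⟨1, map_one _⟩

private theorem s2_mem : s2 ∈ LH.lattice := mem_LH.2 ⟨⟨0, 1⟩, coe_sqrtd⟩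

private theorem two_tau : 2 * tauH = s2 := by
  unfold tauH
  ring

private theorem rat_mem (a b : ℚ) : (a : ℂ) + b * s2 ∈ LH.lattice ↔ a.den = 1 ∧ b.den = 1 := by
  have h := PeriodPair.mul_ω₁_add_mul_ω₂_mem_lattice (L := LH) (α := a) (β := b)
  change (a : ℂ) * 1 + b * s2 ∈ LH.lattice ↔ _ at h
  rwa [mul_one] at h

theorem isOddH_iff {α : O2} : IsOddH α ↔ Odd α.re := by
  unfold IsOddH nH
  rw [Int.natAbs_odd, Zsqrtd.norm_def]
  have e : α.re * α.re - -2 * α.im * α.im = α.re * α.re + 2 * (α.im * α.im) := by ring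
  rw [e, Int.odd_add]
  simp [Int.odd_mul]

private theorem sub_tau_mem_iff {z : ℂ} : z - tauH ∈ LH.lattice ↔ z + tauH ∈ LH.lattice := by
  constructor
  · intro h
    have := LH.lattice.add_mem h s2_mem
    rw [← two_tau] at this
    have e : z - tauH + 2 * tauH = z + tauH := by ring
    rwa [e] at this
  · intro h
    have := LH.lattice.sub_mem h s2_mem
    rw [← two_tau] at this
    have e : z + tauH - 2 * tauH = z - tauH := by ring
    rwa [e] at this

theorem XH_add_tau {z : ℂ} (hz : z ∉ LH.lattice) (h : z + tauH ∉ LH.lattice) :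
    XH (z + tauH) * XH z = 2 := by
  have h' : z - tauH ∉ LH.lattice := fun h1 => h (sub_tau_mem_iff.1 h1)
  have hX : XH z ≠ 0 := fun h0 => h' ((XH_eq_zero_iff hz).1 h0)
  have h1 := XH_sum hz tau_notMem h h'
  have h2 : XH (z + tauH) = XH (z - tauH) := by
    have : z + tauH = z - tauH + s2 := by
      rw [← two_tau]
      ring
    rw [this, XH_add_coe _ s2_mem]
  rw [← h2, XH_tau] at h1
  have h3 : XH z * (XH (z + tauH) * XH z - 2) = 0 := by linear_combination h1 / 2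
  rcases mul_eq_zero.1 h3 with h4 | h4
  · exact absurd h4 hX
  · linear_combination h4

private theorem notMem_of_s {z : ℂ} (hz : s2 * z ∉ LH.lattice) : z ∉ LH.lattice := fun h =>
  hz (s2_mul_mem h)

private theorem add_tau_notMem {z : ℂ} (hz : s2 * z ∉ LH.lattice) : z + tauH ∉ LH.lattice := by
  intro h
  apply hz
  have h1 := LH.lattice.add_mem (s2_mul_mem h) one_mem
  have e : s2 * (z + tauH) + 1 = s2 * z := by
    rw [mul_add, s2_mul_tau]
    ring
  rwa [e] at h1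

theorem XH_mul_s {z : ℂ} (hz : s2 * z ∉ LH.lattice) :
    2 * XH z * XH (s2 * z) = - (XH z ^ 2 + 4 * XH z + 2) := by
  have h1 := P_isog' z
  have h2 := XH_add_tau (notMem_of_s hz) (add_tau_notMem hz)
  rw [P_eq (s2 * z), P_eq z, P_eq (z + tauH)] at h1
  have h3 : (3 * ℘[LH] tauH / 4) * (-2 * XH (s2 * z) - XH z - XH (z + tauH) - 4) = 0 := by
    linear_combination h1
  have h4 : (3 * ℘[LH] tauH / 4) ≠ 0 := by
    have := e_ne
    simp [this]
  rcases mul_eq_zero.1 h3 with h5 | h5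
  · exact absurd h5 h4
  · linear_combination (- XH z) * h5 - h2

private theorem hasDerivAt_P {w : ℂ} (hw : w ∉ LH.lattice) :
    HasDerivAt ℘[LH] (℘'[LH] w) w := by
  have h1 := (LH.analyticOnNhd_weierstrassP w hw).differentiableAt.hasDerivAt
  rwa [PeriodPair.deriv_weierstrassP] at h1

/-- the derivative of `℘` at `s2 z` -/
private theorem P'_s2_mul {z : ℂ} (hz : s2 * z ∉ LH.lattice) :
    -2 * s2 * ℘'[LH] (s2 * z) * XH z ^ 2 = ℘'[LH] z * (XH z ^ 2 - 2) := by
  have hz0 := notMem_of_s hz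
  have hzt := add_tau_notMem hz
  have hX : XH z ≠ 0 := fun h0 => hzt (sub_tau_mem_iff.1 ((XH_eq_zero_iff hz0).1 h0))
  -- first relation
  have d1 : HasDerivAt (fun w => ℘[LH] (s2 * w)) (℘'[LH] (s2 * z) * (s2 * 1)) z :=
    (hasDerivAt_P hz).comp z ((hasDerivAt_id z).const_mul s2)
  have d2 : HasDerivAt (fun w => ℘[LH] (w + tauH)) (℘'[LH] (z + tauH) * 1) z := by
    rw [mul_one]
    exact (hasDerivAt_P hzt).comp_add_const z tauH
  have d3 : HasDerivAt (fun w => (-1 / 2 : ℂ) * (℘[LH] w + ℘[LH] (w + tauH) - ℘[LH] tauH))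
      ((-1 / 2 : ℂ) * (℘'[LH] z + ℘'[LH] (z + tauH) * 1)) z :=
    (((hasDerivAt_P hz0).add d2).sub_const _).const_mul _
  have e1 : (fun w => ℘[LH] (s2 * w)) =
      fun w => (-1 / 2 : ℂ) * (℘[LH] w + ℘[LH] (w + tauH) - ℘[LH] tauH) := by
    funext w
    have := P_isog' w
    linear_combination (-1 / 2 : ℂ) * this
  rw [e1] at d1
  have r1 := d1.unique d3
  -- second relation
  have d4 : HasDerivAt (fun w => (℘[LH] (w + tauH) - ℘[LH] tauH) * (℘[LH] w - ℘[LH] tauH))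
      (℘'[LH] (z + tauH) * 1 * (℘[LH] z - ℘[LH] tauH) +
        (℘[LH] (z + tauH) - ℘[LH] tauH) * ℘'[LH] z) z :=
    (d2.sub_const _).mul ((hasDerivAt_P hz0).sub_const _)
  have d5 : HasDerivAt (fun w => (℘[LH] (w + tauH) - ℘[LH] tauH) * (℘[LH] w - ℘[LH] tauH))
      0 z := by
    refine (hasDerivAt_const z (2 * (3 * ℘[LH] tauH / 4) ^ 2)).congr_of_eventuallyEq ?_
    have o1 : ∀ᶠ w in 𝓝 z, w ∉ LH.lattice :=
      LH.isClosed_lattice.isOpen_compl.mem_nhds hz0
    have o2 : ∀ᶠ w in 𝓝 z, w + tauH ∉ LH.lattice := by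
      have hc : ContinuousAt (fun w : ℂ => w + tauH) z := by fun_prop
      exact hc.eventually (LH.isClosed_lattice.isOpen_compl.mem_nhds hzt)
    filter_upwards [o1, o2] with w hw1 hw2
    have := XH_add_tau hw1 hw2
    rw [P_eq (w + tauH), P_eq w]
    linear_combination (3 * ℘[LH] tauH / 4) ^ 2 * this
  have r2 := d4.unique d5
  have hx := XH_add_tau hz0 hzt
  rw [P_eq (z + tauH), P_eq z] at r2
  have hc : (3 * ℘[LH] tauH / 4) ≠ 0 := by
    have := e_ne
    simp [this]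
  have r3 : ℘'[LH] (z + tauH) * XH z + XH (z + tauH) * ℘'[LH] z = 0 := by
    apply mul_left_cancel₀ hc
    linear_combination r2
  have r4 : ℘'[LH] (z + tauH) * XH z ^ 2 = -2 * ℘'[LH] z := by
    linear_combination XH z * r3 - ℘'[LH] z * hx
  linear_combination (-2 * XH z ^ 2) * r1 + r4

private theorem P'_sq {z : ℂ} (hz : z ∉ LH.lattice) : ℘'[LH] z ^ 2 =
    4 * (3 * ℘[LH] tauH / 4) ^ 3 * (XH z ^ 3 + 4 * XH z ^ 2 + 2 * XH z) := by
  obtain ⟨-, h2, h3⟩ := g_eq
  rw [LH.derivWeierstrassP_sq z hz, h2, h3, P_eq z]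
  ring

private theorem P'_add {l : ℂ} (hl : l ∈ LH.lattice) (z : ℂ) : ℘'[LH] (z + l) = ℘'[LH] z :=
  LH.derivWeierstrassP_add_coe z ⟨l, hl⟩

private theorem s_sq : s2 ^ 2 = -2 := by rw [sq, s2_mul_s2]

private theorem s_cube : s2 ^ 3 = -2 * s2 := by rw [pow_succ, s_sq]

private theorem s_four : s2 ^ 4 = 4 := by
  have : s2 ^ 4 = (s2 ^ 2) ^ 2 := by ring
  rw [this, s_sq]
  norm_num

/-- a point killed by `1 + δ s2`, `δ = ±1`, is killed by `3` -/
private theorem three_mem {z : ℂ} {δ : ℤ} (hδ : δ = 1 ∨ δ = -1)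
    (h : (1 + δ * s2) * z ∈ LH.lattice) : 3 * z ∈ LH.lattice := by
  have h1 := mul_mem_LH ⟨1, -δ⟩ h
  rw [coe_def] at h1
  have e : (((1 : ℤ) : ℂ) + ((-δ : ℤ) : ℂ) * s2) * ((1 + δ * s2) * z) = 3 * z := by
    have hd : (δ : ℂ) * δ = 1 := by
      rcases hδ with h | h <;> rw [h] <;> norm_num
    push_cast
    linear_combination (-(δ : ℂ) * δ * z) * s2_mul_s2 + 2 * z * hd
  rwa [e] at h1

/-- the value of `XH` at the points of order `1 + δ s2`, `δ = ±1` -/
private theorem XH_of_order {z : ℂ} (hz : z ∉ LH.lattice) {δ : ℤ} (hδ : δ = 1 ∨ δ = -1)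
    (h : (1 + δ * s2) * z ∈ LH.lattice) : (1 + δ * s2) * XH z + δ * s2 = 0 := by
  have hd : (δ : ℂ) * δ = 1 := by
    rcases hδ with h | h <;> rw [h] <;> norm_num
  have h3 := three_mem hδ h
  -- `s z = - δ z + l`
  have hl : (δ : ℂ) * ((1 + δ * s2) * z) ∈ LH.lattice := by
    have := LH.lattice.smul_mem δ h
    rwa [zsmul_eq_mul] at this
  have e1 : s2 * z = (-(δ : ℂ)) * z + (δ : ℂ) * ((1 + δ * s2) * z) := by
    linear_combination (-(s2 * z)) * hd
  have h2 : 2 * z ∉ LH.lattice := fun h2 => hz (by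
    have := LH.lattice.sub_mem h3 h2
    have e : 3 * z - 2 * z = z := by ring
    rwa [e] at this)
  have hsz : s2 * z ∉ LH.lattice := by
    rw [e1]
    intro h4
    have h5 := LH.lattice.sub_mem h4 hl
    rw [add_sub_cancel_right] at h5
    apply hz
    rcases hδ with h | h <;> rw [h] at h5
    · have := LH.lattice.neg_mem h5
      push_cast at this
      simpa using this
    · push_cast at h5
      simpa using h5
  have hX : XH (s2 * z) = XH z := by
    rw [e1, XH_add_coe _ hl]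
    rcases hδ with h | h <;> rw [h]
    · push_cast
      rw [neg_mul, one_mul, XH_neg]
    · push_cast
      rw [neg_neg, one_mul]
  have hP : ℘'[LH] (s2 * z) = -δ * ℘'[LH] z := by
    rw [e1, P'_add hl]
    rcases hδ with h | h <;> rw [h]
    · push_cast
      rw [neg_mul, one_mul, LH.derivWeierstrassP_neg]
      ring
    · push_cast
      rw [neg_neg, one_mul, one_mul]
  have hP0 : ℘'[LH] z ≠ 0 := fun h0 => h2 ((CMG.P'_eq_zero_iff LH hz).1 h0)
  have r1 := XH_mul_s hsz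
  rw [hX] at r1
  have r2 := P'_s2_mul hsz
  rw [hP] at r2
  have r3 : 2 * δ * s2 * XH z ^ 2 = XH z ^ 2 - 2 := by
    apply mul_left_cancel₀ hP0
    linear_combination r2
  -- `X² (1 - 2 δ s) = 2`, `3 X² + 4 X + 2 = 0`
  have r4 : 9 * XH z ^ 2 = 2 * (1 + 2 * δ * s2) := by
    linear_combination (-(1 + 2 * (δ : ℂ) * s2)) * r3 + (4 * (δ : ℂ) ^ 2 * XH z ^ 2) * s2_mul_s2 -
      8 * XH z ^ 2 * hd
  linear_combination (1 / 4 * (1 + δ * s2)) * r1 + (-(1 / 12) * (1 + δ * s2)) * r4 +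
    (-(1 / 3) * (δ : ℂ) ^ 2) * s2_mul_s2 + (2 / 3) * hd

theorem one_add_s_mem_iff {z : ℂ} (hz : z ∉ LH.lattice) :
    (1 + s2) * z ∈ LH.lattice ↔ (1 + s2) * XH z + s2 = 0 := by
  have key : ∀ w : ℂ, w ∉ LH.lattice → (1 + s2) * w ∈ LH.lattice →
      (1 + s2) * XH w + s2 = 0 := by
    intro w hw h
    have := XH_of_order hw (δ := 1) (Or.inl rfl) (by simpa using h)
    simpa using this
  refine ⟨key z hz, fun h => ?_⟩
  -- the point `(1 - s) / 3`
  have n1 : (1 - s2) / 3 ∉ LH.lattice := by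
    have h := (rat_mem (1 / 3) (-1 / 3)).not.2 (by
      rintro ⟨h1, -⟩
      norm_num at h1)
    have e : ((1 / 3 : ℚ) : ℂ) + ((-1 / 3 : ℚ) : ℂ) * s2 = (1 - s2) / 3 := by
      push_cast
      ring
    rwa [e] at h
  have n2 : (1 + s2) * ((1 - s2) / 3) = 1 := by
    linear_combination (-1 / 3 : ℂ) * s2_mul_s2
  have h1 := key _ n1 (by rw [n2]; exact one_mem)
  have hne : (1 + s2) ≠ 0 := by
    intro h0
    rw [h0, zero_mul] at n2
    exact zero_ne_one n2
  have h2 : XH z = XH ((1 - s2) / 3) := by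
    apply mul_left_cancel₀ hne
    linear_combination h - h1
  rcases XH_inj hz n1 h2 with h3 | h3
  · have h4 := LH.lattice.add_mem (mul_mem_LH ⟨1, 1⟩ h3) one_mem
    rw [coe_def] at h4
    have e : ((((1 : ℤ) : ℂ)) + ((1 : ℤ) : ℂ) * s2) * (z - (1 - s2) / 3) + 1 = (1 + s2) * z := by
      push_cast
      linear_combination -n2
    rwa [e] at h4
  · have h4 := LH.lattice.sub_mem (mul_mem_LH ⟨1, 1⟩ h3) one_mem
    rw [coe_def] at h4
    have e : ((((1 : ℤ) : ℂ)) + ((1 : ℤ) : ℂ) * s2) * (z + (1 - s2) / 3) - 1 = (1 + s2) * z := by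
      push_cast
      linear_combination n2
    rwa [e] at h4

theorem XH_one_add_s {z : ℂ} (hz : (1 + s2) * z ∉ LH.lattice) :
    XH ((1 + s2) * z) * ((1 + s2) * XH z + s2) ^ 2 = XH z * (XH z + 2 - s2) ^ 2 := by
  have hz0 : z ∉ LH.lattice := fun h => hz (by
    have := mul_mem_LH ⟨1, 1⟩ h
    rw [coe_def] at this
    simpa using this)
  by_cases hs : s2 * z ∈ LH.lattice
  · have h1 : XH z = 0 := by
      rcases mem_or_tau hs with h | h
      · exact absurd h hz0
      · exact (XH_eq_zero_iff hz0).2 h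
    have e : (1 + s2) * z = z + s2 * z := by ring
    rw [e, XH_add_coe _ hs, h1]
    ring
  by_cases hm : (1 - s2) * z ∈ LH.lattice
  · have h1 := XH_of_order hz0 (δ := -1) (Or.inr rfl) (by
      push_cast
      have e : (1 + -1 * s2) * z = (1 - s2) * z := by ring
      rwa [e])
    have h3 := three_mem (δ := -1) (z := z) (Or.inr rfl) (by
      push_cast
      have e : (1 + -1 * s2) * z = (1 - s2) * z := by ring
      rwa [e])
    have e : (1 + s2) * z = -z + (3 * z - (1 - s2) * z) := by ring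
    rw [e, XH_add_coe _ (LH.lattice.sub_mem h3 hm), XH_neg]
    push_cast at h1
    -- `X = s / (1 - s)`
    have h4 : XH z = -(2 - s2) / 3 := by
      have h5 : (3 : ℂ) * XH z = -(2 - s2) := by
        linear_combination (1 + s2) * h1 + (XH z + 1) * s2_mul_s2
      linear_combination (1 / 3 : ℂ) * h5
    rw [h4]
    have h6 : (1 + s2) * (-(2 - s2) / 3) + s2 = -(-(2 - s2) / 3 + 2 - s2) := by
      linear_combination (1 / 3 : ℂ) * s2_mul_s2
    rw [h6]
    ring
  -- the generic case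
  have hadd : z + s2 * z = (1 + s2) * z := by ring
  have hsub : z - s2 * z = (1 - s2) * z := by ring
  have h1 : z + s2 * z ∉ LH.lattice := by rwa [hadd]
  have h2 : z - s2 * z ∉ LH.lattice := by rwa [hsub]
  have hX : XH z ≠ 0 := fun h0 => add_tau_notMem hs
    (sub_tau_mem_iff.1 ((XH_eq_zero_iff hz0).1 h0))
  have hd := CMG.P_diff LH hz0 hs h1 h2
  have hsum := XH_sum hz0 hs h1 h2
  have hT := XH_mul_s hs
  have hP := P'_s2_mul hs
  have hsq := P'_sq hz0
  rw [P_eq (z + s2 * z), P_eq (z - s2 * z), P_eq z, P_eq (s2 * z)] at hd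
  have hc : (3 * ℘[LH] tauH / 4) ≠ 0 := by
    have := e_ne
    simp [this]
  have hm' : (1 - s2) * XH z - s2 ≠ 0 := by
    intro h0
    -- the same value as at `(1 + s) / 3`
    have n1 : (1 + s2) / 3 ∉ LH.lattice := by
      have h := (rat_mem (1 / 3) (1 / 3)).not.2 (by
        rintro ⟨h1, -⟩
        norm_num at h1)
      have e : ((1 / 3 : ℚ) : ℂ) + ((1 / 3 : ℚ) : ℂ) * s2 = (1 + s2) / 3 := by
        push_cast
        ring
      rwa [e] at h
    have n2 : (1 - s2) * ((1 + s2) / 3) = 1 := by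
      linear_combination (-1 / 3 : ℂ) * s2_mul_s2
    have h3 := XH_of_order n1 (δ := -1) (Or.inr rfl) (by
      push_cast
      have e : (1 + -1 * s2) * ((1 + s2) / 3) = 1 := by linear_combination n2
      rw [e]
      exact one_mem)
    push_cast at h3
    have hne : (1 - s2) ≠ 0 := by
      intro h0
      rw [h0, zero_mul] at n2
      exact zero_ne_one n2
    have h4 : XH z = XH ((1 + s2) / 3) := by
      apply mul_left_cancel₀ hne
      linear_combination h0 - h3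
    rcases XH_inj hz0 n1 h4 with h5 | h5
    · have h6 := LH.lattice.add_mem (mul_mem_LH ⟨1, -1⟩ h5) one_mem
      rw [coe_def] at h6
      have e : ((((1 : ℤ) : ℂ)) + ((-1 : ℤ) : ℂ) * s2) * (z - (1 + s2) / 3) + 1 =
          (1 - s2) * z := by
        push_cast
        linear_combination -n2
      rw [e] at h6
      exact hm h6
    · have h6 := LH.lattice.sub_mem (mul_mem_LH ⟨1, -1⟩ h5) one_mem
      rw [coe_def] at h6
      have e : ((((1 : ℤ) : ℂ)) + ((-1 : ℤ) : ℂ) * s2) * (z + (1 + s2) / 3) - 1 =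
          (1 - s2) * z := by
        push_cast
        linear_combination n2
      rw [e] at h6
      exact hm h6
  rw [hadd] at hd hsum
  rw [hsub] at hd hsum
  generalize XH ((1 + s2) * z) = A at *
  generalize XH ((1 - s2) * z) = B at *
  generalize XH (s2 * z) = T at *
  generalize XH z = x at *
  generalize ℘'[LH] (s2 * z) = p' at *
  generalize ℘'[LH] z = p at *
  generalize ℘[LH] tauH = e at *
  set c := 3 * e / 4 with hcdef
  -- the difference formula
  have hd2 : (A - B) * (x - T) ^ 2 * x = -s2 * (x ^ 2 + 4 * x + 2) * (x ^ 2 - 2) := by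
    have h7 : c ^ 3 * x ^ 2 * ((A - B) * (x - T) ^ 2) = - (p * p') * x ^ 2 := by
      linear_combination x ^ 2 * hd
    have h8 : 2 * s2 * (p * p') * x ^ 2 = - p ^ 2 * (x ^ 2 - 2) := by
      linear_combination (-p) * hP
    have h9 : c ^ 3 * x ^ 2 * (2 * s2 * ((A - B) * (x - T) ^ 2)) =
        4 * c ^ 3 * (x ^ 3 + 4 * x ^ 2 + 2 * x) * (x ^ 2 - 2) := by
      linear_combination (2 * s2) * h7 - h8 + (x ^ 2 - 2) * hsq
    have h10 : c ^ 3 * x ≠ 0 := mul_ne_zero (pow_ne_zero 3 hc) hX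
    have h11 : 2 * s2 * ((A - B) * (x - T) ^ 2 * x) =
        4 * (x ^ 2 + 4 * x + 2) * (x ^ 2 - 2) := by
      apply mul_left_cancel₀ h10
      linear_combination h9
    linear_combination (-s2 / 4) * h11 + ((A - B) * (x - T) ^ 2 * x / 2) * s2_mul_s2
  have hx2 : (2 * x * (x - T)) = 3 * x ^ 2 + 4 * x + 2 := by linear_combination -hT
  have hfac : (3 * x ^ 2 + 4 * x + 2) = ((1 + s2) * x + s2) * ((1 - s2) * x - s2) := by
    linear_combination (x ^ 2 + 2 * x + 1) * s2_mul_s2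
  have hkey : (x * ((1 - s2) * x - s2) ^ 2) * (A * ((1 + s2) * x + s2) ^ 2) =
      (x * ((1 - s2) * x - s2) ^ 2) * (x * (x + 2 - s2) ^ 2) := by
    have h12 : A * (3 * x ^ 2 + 4 * x + 2) ^ 2 * x =
        2 * x ^ 2 * (2 * x * ((x * T + 2) * (x + T) + 8 * (x * T)) +
          -s2 * (x ^ 2 + 4 * x + 2) * (x ^ 2 - 2)) := by
      rw [← hx2]
      linear_combination (2 * x ^ 3) * hsum + (2 * x ^ 2) * hd2
    have h13 : 2 * x ^ 2 * (2 * x * ((x * T + 2) * (x + T) + 8 * (x * T)) +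
          -s2 * (x ^ 2 + 4 * x + 2) * (x ^ 2 - 2)) =
        (x * ((1 - s2) * x - s2) ^ 2) * (x * (x + 2 - s2) ^ 2) := by
      have hT' : T = -(x ^ 2 + 4 * x + 2) / (2 * x) := by
        field_simp
        linear_combination hT
      rw [hT']
      field_simp
      ring_nf
      simp only [s_sq, s_cube, s_four]
      ring
    rw [hfac] at h12
    linear_combination h12 + h13
  exact mul_left_cancel₀ (mul_ne_zero hX (pow_ne_zero 2 hm')) hkey

theorem XH_quarter : XH (s2 / 4) ^ 2 = 2 ∧ XH (s2 / 4 + 1 / 2) = - XH (s2 / 4) := by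
  have n1 : s2 / 4 ∉ LH.lattice := by
    have h := (rat_mem 0 (1 / 4)).not.2 (by norm_num)
    have e : ((0 : ℚ) : ℂ) + ((1 / 4 : ℚ) : ℂ) * s2 = s2 / 4 := by
      push_cast
      ring
    rwa [e] at h
  have n2 : s2 / 4 + tauH ∉ LH.lattice := by
    have h := (rat_mem 0 (3 / 4)).not.2 (by norm_num)
    have e : ((0 : ℚ) : ℂ) + ((3 / 4 : ℚ) : ℂ) * s2 = s2 / 4 + tauH := by
      unfold tauH
      push_cast
      ring
    rwa [e] at h
  have n3 : s2 / 4 + 1 / 2 ∉ LH.lattice := by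
    have h := (rat_mem (1 / 2) (1 / 4)).not.2 (by norm_num)
    have e : ((1 / 2 : ℚ) : ℂ) + ((1 / 4 : ℚ) : ℂ) * s2 = s2 / 4 + 1 / 2 := by
      push_cast
      ring
    rwa [e] at h
  have n4 : s2 / 4 + 1 / 2 + tauH ∉ LH.lattice := by
    have h := (rat_mem (1 / 2) (3 / 4)).not.2 (by norm_num)
    have e : ((1 / 2 : ℚ) : ℂ) + ((3 / 4 : ℚ) : ℂ) * s2 = s2 / 4 + 1 / 2 + tauH := by
      unfold tauH
      push_cast
      ring
    rwa [e] at h
  have n5 : (1 / 2 : ℂ) ∉ LH.lattice := by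
    have h := (rat_mem (1 / 2) 0).not.2 (by norm_num)
    have e : ((1 / 2 : ℚ) : ℂ) + ((0 : ℚ) : ℂ) * s2 = 1 / 2 := by
      push_cast
      ring
    rwa [e] at h
  have n6 : (1 / 2 : ℂ) + tauH ∉ LH.lattice := by
    have h := (rat_mem (1 / 2) (1 / 2)).not.2 (by norm_num)
    have e : ((1 / 2 : ℚ) : ℂ) + ((1 / 2 : ℚ) : ℂ) * s2 = 1 / 2 + tauH := by
      unfold tauH
      push_cast
      ring
    rwa [e] at h
  have m1 : XH (s2 / 4 + tauH) = XH (s2 / 4) := by
    have h1 : s2 / 4 + tauH = -(s2 / 4) + s2 := by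
      unfold tauH
      ring
    rw [h1, XH_add_coe _ s2_mem, XH_neg]
  have m2 : XH (s2 / 4 + 1 / 2 + tauH) = XH (s2 / 4 + 1 / 2) := by
    have h1 : s2 / 4 + 1 / 2 + tauH = -(s2 / 4 + 1 / 2) + (s2 + 1) := by
      unfold tauH
      ring
    rw [h1, XH_add_coe _ (LH.lattice.add_mem s2_mem one_mem), XH_neg]
  have q1 := XH_add_tau n1 n2
  rw [m1] at q1
  have q2 := XH_add_tau n3 n4
  rw [m2] at q2
  have q3 : XH (s2 / 4) ≠ XH (s2 / 4 + 1 / 2) := by
    intro h1
    rcases XH_inj n1 n3 h1 with h2 | h2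
    · apply n5
      have := LH.lattice.neg_mem h2
      have e1 : -(s2 / 4 - (s2 / 4 + 1 / 2)) = 1 / 2 := by ring
      rwa [e1] at this
    · apply n6
      have e1 : s2 / 4 + (s2 / 4 + 1 / 2) = 1 / 2 + tauH := by
        unfold tauH
        ring
      rwa [e1] at h2
  refine ⟨by rw [sq, q1], ?_⟩
  have h : (XH (s2 / 4) - XH (s2 / 4 + 1 / 2)) * (XH (s2 / 4) + XH (s2 / 4 + 1 / 2)) = 0 := by
    linear_combination q1 - q2
  rcases mul_eq_zero.1 h with h | h
  · exact absurd (sub_eq_zero.1 h) q3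
  · linear_combination h

/-- for odd `α`: `α τ ≡ τ` -/
theorem odd_mul_tau {α : O2} (hα : IsOddH α) : (α : ℂ) * tauH - tauH ∈ LH.lattice := by
  obtain ⟨m, hm⟩ := isOddH_iff.1 hα
  refine mem_LH.2 ⟨⟨-α.im, m⟩, ?_⟩
  rw [coe_def, coe_def, hm]
  unfold tauH
  push_cast
  linear_combination (-(α.im : ℂ) / 2) * s2_mul_s2

end Pool.Agent.CMH
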