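import Pool.Agent.CMG.AnKron
import Pool.Agent.CMH.XTau

/-!
# distribution relation for BB under √-2

Compare `CMG/KDistr.lean`. `kron_rect` with `r = √2` for the three points `z, z + τ, sz` (none in `L`;
`z = x + r y i`) gives `Z₁, Z₂, Z₃`. For `Re t > 1`: `s(z + ω)` and `s(z + τ + ω) = sz - 1 + sω`
(`ω ∈ ℤ[√-2]`) run exactly through `sz + ℤ[√-2]` (`s(a+bs) = -2b + as`), so `Z₁(t) + Z₂(t) = 2^t Z₃(t)`
(`|s|² = 2`); identity theorem on `{1}ᶜ`; derivative at `0`, `Z₃(0) = 0`.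
-/

set_option autoImplicit false

noncomputable section

open Complex Filter Topology
open scoped PeriodPair Classical

namespace Pool.Agent.CMH

open Pool.Agent.CMG (BB PP ee liouville)

open Pool.Agent.CMG (IsRect kron_rect)

private theorem kd_sum {x y : ℝ} {Z₁ Z₂ Z₃ : ℂ → ℂ} (h1 : IsRect (Real.sqrt 2) x y Z₁)
    (h2 : IsRect (Real.sqrt 2) x (y + 1 / 2) Z₂) (h3 : IsRect (Real.sqrt 2) (-2 * y) x Z₃) {s : ℂ}
    (hs : 1 < s.re) : Z₁ s + Z₂ s = 2 ^ s * Z₃ s := by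
  have hr : Real.sqrt 2 ^ 2 = 2 := Real.sq_sqrt (by norm_num)
  set f : ℤ × ℤ → ℂ := fun p =>
    (((-2 * y + p.1) ^ 2 + (Real.sqrt 2) ^ 2 * (x + p.2) ^ 2 : ℝ) : ℂ) ^ (-s) with hf
  set g₁ : ℤ × ℤ → ℤ × ℤ := fun p => (-2 * p.2, p.1) with hg₁
  set g₂ : ℤ × ℤ → ℤ × ℤ := fun p => (-2 * p.2 - 1, p.1) with hg₂
  have i1 : Function.Injective g₁ := by
    rintro ⟨a, b⟩ ⟨c, d⟩ h
    simp only [hg₁, Prod.mk.injEq] at h
    ext <;> simp only <;> omega
  have i2 : Function.Injective g₂ := by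
    rintro ⟨a, b⟩ ⟨c, d⟩ h
    simp only [hg₂, Prod.mk.injEq] at h
    ext <;> simp only <;> omega
  have hc : IsCompl (Set.range g₁) (Set.range g₂) := by
    refine ⟨?_, ?_⟩
    · rw [Set.disjoint_left]
      rintro p ⟨⟨a, b⟩, rfl⟩ ⟨⟨c, d⟩, h⟩
      simp only [hg₁, hg₂, Prod.mk.injEq] at h
      omega
    · rw [codisjoint_iff]
      ext ⟨a, b⟩
      simp only [Set.sup_eq_union, Set.mem_union, Set.mem_range, Set.top_eq_univ, Set.mem_univ,
        iff_true]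
      rcases Int.even_or_odd a with ⟨c, hc⟩ | ⟨c, hc⟩
      · left
        exact ⟨(b, -c), Prod.ext (show -2 * (-c) = a by omega) rfl⟩
      · right
        exact ⟨(b, -c - 1), Prod.ext (show -2 * (-c - 1) - 1 = a by omega) rfl⟩
  have key : ∀ u : ℝ, 0 ≤ u → (((2 * u : ℝ)) : ℂ) ^ (-s) = (2 : ℂ) ^ (-s) * (u : ℂ) ^ (-s) := by
    intro u hu
    rw [Complex.ofReal_mul, Complex.mul_cpow_ofReal_nonneg (by norm_num) hu]
    norm_num
  have s1 : HasSum (f ∘ g₁) ((2 : ℂ) ^ (-s) * Z₁ s) := by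
    have h := (h1.sum s hs).mul_left ((2 : ℂ) ^ (-s))
    refine h.congr_fun ?_
    intro p
    simp only [Function.comp, hf, hg₁]
    rw [← key _ (by positivity), hr]
    congr 2
    push_cast
    ring
  have s2 : HasSum (f ∘ g₂) ((2 : ℂ) ^ (-s) * Z₂ s) := by
    have h := (h2.sum s hs).mul_left ((2 : ℂ) ^ (-s))
    refine h.congr_fun ?_
    intro p
    simp only [Function.comp, hf, hg₂]
    rw [← key _ (by positivity), hr]
    congr 2
    push_cast
    ring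
  have t1 : HasSum (f ∘ ((↑) : Set.range g₁ → ℤ × ℤ)) ((2 : ℂ) ^ (-s) * Z₁ s) :=
    i1.hasSum_range_iff.mpr s1
  have t2 : HasSum (f ∘ ((↑) : Set.range g₂ → ℤ × ℤ)) ((2 : ℂ) ^ (-s) * Z₂ s) :=
    i2.hasSum_range_iff.mpr s2
  have s3 : HasSum f _ := HasSum.add_isCompl hc t1 t2
  have s4 := (h3.sum s hs).unique s3
  rw [s4, ← mul_add, ← mul_assoc, ← Complex.cpow_add _ _ two_ne_zero]
  simp

theorem BB_distr {z : ℂ} (hz : s2 * z ∉ LH.lattice) :
    BB (Real.sqrt 2) z + BB (Real.sqrt 2) (z + tauH) = BB (Real.sqrt 2) (s2 * z) := by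
  have hr0 : (0 : ℝ) < Real.sqrt 2 := Real.sqrt_pos.mpr (by norm_num)
  have hrr : Real.sqrt 2 * Real.sqrt 2 = 2 := Real.mul_self_sqrt (by norm_num)
  have ee : ∀ w : ℂ, ((w.re : ℂ) + ((Real.sqrt 2 : ℝ) : ℂ) * ((w.im / Real.sqrt 2 : ℝ) : ℂ) * I)
      = w := by
    intro w
    rw [← Complex.ofReal_mul, mul_div_cancel₀ _ hr0.ne']
    exact Complex.re_add_im w
  have hI : ∀ w : ℂ, w ∉ LH.lattice →
      ((w.re : UnitAddCircle) ≠ 0 ∨ ((w.im / Real.sqrt 2 : ℝ) : UnitAddCircle) ≠ 0) := by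
    intro w hw
    by_contra hcon
    push Not at hcon
    obtain ⟨ha, hb⟩ := hcon
    rw [AddCircle.coe_eq_zero_iff] at ha hb
    obtain ⟨m, hm⟩ := ha
    obtain ⟨n, hn⟩ := hb
    apply hw
    rw [PeriodPair.mem_lattice]
    refine ⟨m, n, ?_⟩
    simp only [zsmul_eq_mul, mul_one] at hm hn
    rw [← ee w, ← hm, ← hn]
    simp only [LH, s2]
    push_cast
    ring
  have hImul : ∀ w : ℂ, w ∈ LH.lattice → s2 * w ∈ LH.lattice := by
    intro w hw
    rw [PeriodPair.mem_lattice] at hw ⊢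
    obtain ⟨m, n, h⟩ := hw
    refine ⟨-2 * n, m, ?_⟩
    rw [← h]
    simp only [LH]
    push_cast
    linear_combination (-(n : ℂ)) * s2_mul_s2
  have hz1 : z ∉ LH.lattice := fun h => hz (hImul z h)
  have h1L : (1 : ℂ) ∈ LH.lattice := LH.ω₁_mem_lattice
  have hst : s2 * tauH = -1 := by
    unfold tauH
    linear_combination (1 / 2) * s2_mul_s2
  have hz2 : z + tauH ∉ LH.lattice := by
    intro h
    apply hz
    have h' := hImul _ h
    rw [mul_add, hst] at h'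
    have := Submodule.add_mem _ h' h1L
    simpa using this
  obtain ⟨Z₁, r1, d1⟩ := kron_rect hr0 (hI z hz1)
  obtain ⟨Z₂, r2, d2⟩ := kron_rect hr0 (hI _ hz2)
  obtain ⟨Z₃, r3, d3⟩ := kron_rect hr0 (hI _ hz)
  rw [ee] at d1 d2 d3
  have e2 : (z + tauH).re = z.re ∧
      (z + tauH).im / Real.sqrt 2 = z.im / Real.sqrt 2 + 1 / 2 := by
    constructor
    · simp [tauH, s2_re]
    · have : (z + tauH).im = z.im + Real.sqrt 2 / 2 := by simp [tauH, s2_im]
      rw [this]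
      field_simp
  have e3 : (s2 * z).re = -2 * (z.im / Real.sqrt 2) ∧ (s2 * z).im / Real.sqrt 2 = z.re := by
    constructor
    · rw [Complex.mul_re, s2_re, s2_im]
      field_simp
      linear_combination (-z.im) * hrr
    · rw [Complex.mul_im, s2_re, s2_im]
      field_simp
      ring
  rw [e2.1, e2.2] at r2
  rw [e3.1, e3.2] at r3
  have hopen : IsOpen ({1}ᶜ : Set ℂ) := isOpen_compl_singleton
  have hpre : IsPreconnected ({1}ᶜ : Set ℂ) :=
    (isConnected_compl_singleton_of_one_lt_rank (by simp) _).isPreconnected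
  have hdL : DifferentiableOn ℂ (fun s => Z₁ s + Z₂ s) {1}ᶜ := r1.diff.add r2.diff
  have hdp : Differentiable ℂ (fun s : ℂ => (2 : ℂ) ^ s) := by
    intro s
    exact (differentiableAt_id.const_cpow (Or.inl two_ne_zero))
  have hdR : DifferentiableOn ℂ (fun s => (2 : ℂ) ^ s * Z₃ s) {1}ᶜ :=
    hdp.differentiableOn.mul r3.diff
  have hev : (fun s => Z₁ s + Z₂ s) =ᶠ[𝓝 2] (fun s => (2 : ℂ) ^ s * Z₃ s) := by
    have : ∀ᶠ s : ℂ in 𝓝 2, 1 < s.re :=
      (Complex.continuous_re.tendsto 2).eventually (lt_mem_nhds (by norm_num))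
    filter_upwards [this] with s hs
    exact kd_sum r1 r2 r3 hs
  have heq := (hdL.analyticOnNhd hopen).eqOn_of_preconnected_of_eventuallyEq
    (hdR.analyticOnNhd hopen) hpre (z₀ := 2) (by simp) hev
  have h0 : (fun s => Z₁ s + Z₂ s) =ᶠ[𝓝 0] (fun s => (2 : ℂ) ^ s * Z₃ s) := by
    filter_upwards [hopen.mem_nhds (show (0 : ℂ) ∈ ({1}ᶜ : Set ℂ) by simp)] with s hs
    exact heq hs
  have hder := h0.deriv_eq
  have n0 : ({1}ᶜ : Set ℂ) ∈ 𝓝 (0 : ℂ) := hopen.mem_nhds (by simp)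
  have D1 := r1.diff.differentiableAt n0
  have D2 := r2.diff.differentiableAt n0
  have D3 := r3.diff.differentiableAt n0
  have l1 : deriv (fun s => Z₁ s + Z₂ s) 0 = deriv Z₁ 0 + deriv Z₂ 0 := deriv_fun_add D1 D2
  have l2 : deriv (fun s => (2 : ℂ) ^ s * Z₃ s) 0 = deriv Z₃ 0 := by
    rw [deriv_fun_mul (hdp 0) D3, r3.zero]
    simp
  rw [l1, l2, d1, d2, d3] at hder
  exact_mod_cast hder

end Pool.Agent.CMH
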