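import Pool.Agent.CMH.PsiOrd

/-!
# distribution relation for PsiH under √-2 (exact)

`x = XH z`; `XH (z + τ) = 2/x` (`XH_add_tau`), `XH (sz) = T x`, `T x = -(x² + 4x + 2)/(2x)` (`XH_mul_s`).
`T x - T t = -(x-t)(xt-2)/(2xt)`. `t ↦ T t` permutes `HSH α` (`w ↦ sw` permutes `E[α] ∖ 0`, `α` odd). So
`PsiH α (sz) = ∏_t 2(T t)/(T x - T t)` with `∏ T t = ∏ t`, and
`PsiH α z PsiH α (z+τ) / PsiH α (sz) = ∏_t 2t (T x - T t) / ((x-t)(2/x - t)) = ∏_t 1`, because
`(x-t)(2/x-t) = (x-t)(2-xt)/x`. (`x ≠ 0`: `z ∉ τ + L` as `αsz ∉ L`.)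
-/

set_option autoImplicit false

noncomputable section

open Complex Filter Topology
open scoped PeriodPair Classical

namespace Pool.Agent.CMH

private theorem pd_PsiH_eq {α : O2} (hα : α ≠ 0) (z : ℂ) : PsiH α z =
    ∏ t ∈ (HSH_finite hα).toFinset, (2 * t / (XH z - t)) := by
  unfold PsiH
  rw [finprod_mem_eq_finite_toFinset_prod _ (HSH_finite hα)]

private theorem pd_coprime_two {α : O2} (hα : IsOddH α) : IsCoprime α 2 := by
  obtain ⟨k, hk⟩ := hα
  have h1 : ((Zsqrtd.norm α : ℤ) : O2) = α * star α := Zsqrtd.norm_eq_mul_conj α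
  have h2 : (Zsqrtd.norm α : ℤ) = 2 * k + 1 := by
    have h3 : (0 : ℤ) ≤ Zsqrtd.norm α := norm_nonneg' α
    unfold nH at hk
    omega
  refine ⟨star α, -(k : O2), ?_⟩
  have h4 : α * star α = 2 * (k : O2) + 1 := by
    rw [← h1, h2]
    push_cast
    ring
  linear_combination h4

private theorem pd_s2 {α : O2} (hα : IsOddH α) {w : ℂ} (hw : w ∉ LH.lattice)
    (hαw : α * w ∈ LH.lattice) : s2 * w ∉ LH.lattice := by
  intro h
  apply hw
  refine mem_of_coprime (pd_coprime_two hα) hαw ?_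
  rw [map_ofNat]
  have h1 := LH.lattice.neg_mem (s2_mul_mem h)
  have h2 : -(s2 * (s2 * w)) = 2 * w := by
    linear_combination (-w) * s2_mul_s2
  rwa [h2] at h1

/-- the map `T` on the values -/
private def TT (t : ℂ) : ℂ := -(t ^ 2 + 4 * t + 2) / (2 * t)

private theorem pd_TT {w : ℂ} (hw : s2 * w ∉ LH.lattice) (h0 : XH w ≠ 0) :
    TT (XH w) = XH (s2 * w) := by
  have h := XH_mul_s hw
  rw [TT, div_eq_iff (mul_ne_zero (by norm_num) h0)]
  linear_combination -h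

private theorem pd_ne {α : O2} (hα : IsOddH α) {t : ℂ} (ht : t ∈ HSH α) : t ≠ 0 := by
  rintro rfl
  exact zero_notMem_HSH hα ht

private theorem pd_maps {α : O2} (hα : IsOddH α) {t : ℂ} (ht : t ∈ HSH α) : TT t ∈ HSH α := by
  have h0 := pd_ne hα ht
  obtain ⟨w, ⟨hw, hαw⟩, rfl⟩ := ht
  have h1 := pd_s2 hα hw hαw
  rw [pd_TT h1 h0]
  refine ⟨s2 * w, ⟨h1, ?_⟩, rfl⟩
  have h2 := s2_mul_mem hαw
  have h3 : s2 * ((α : ℂ) * w) = α * (s2 * w) := by ring
  rwa [h3] at h2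

private theorem pd_notMem_tau {z : ℂ} (hz : s2 * z ∉ LH.lattice) :
    z ∉ LH.lattice ∧ z + tauH ∉ LH.lattice := by
  refine ⟨fun h => hz (s2_mul_mem h), fun h => hz ?_⟩
  have h0 : (1 : ℂ) ∈ LH.lattice := mem_LH.2 ⟨1, map_one toC⟩
  have h1 := LH.lattice.add_mem (s2_mul_mem h) h0
  have h2 : s2 * (z + tauH) + 1 = s2 * z := by
    rw [mul_add, s2_mul_tau]
    ring
  rwa [h2] at h1

private theorem pd_add_tau {z : ℂ} (hz : s2 * z ∉ LH.lattice) :
    XH (z + tauH) * XH z = 2 := by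
  obtain ⟨h1, h2⟩ := pd_notMem_tau hz
  exact XH_add_tau h1 h2

private theorem pd_inj {α : O2} (hα : IsOddH α) {t t' : ℂ} (ht : t ∈ HSH α) (ht' : t' ∈ HSH α)
    (h : TT t = TT t') : t = t' := by
  have h0 := pd_ne hα ht
  have h0' := pd_ne hα ht'
  obtain ⟨w, ⟨hw, hαw⟩, rfl⟩ := ht
  obtain ⟨w', ⟨hw', hαw'⟩, rfl⟩ := ht'
  have h1 : (XH w - XH w') * (XH w * XH w' - 2) = 0 := by
    rw [TT, TT, div_eq_div_iff (mul_ne_zero (by norm_num) h0)
      (mul_ne_zero (by norm_num) h0')] at h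
    linear_combination (-1 / 2) * h
  rcases mul_eq_zero.1 h1 with h2 | h2
  · exact sub_eq_zero.1 h2
  · exfalso
    have h3 := pd_s2 hα hw hαw
    obtain ⟨_, h4⟩ := pd_notMem_tau h3
    have h5 : XH (w + tauH) = XH w' := by
      apply mul_right_cancel₀ h0
      rw [pd_add_tau h3]
      linear_combination -h2
    apply tau_notMem
    rcases (XH_eq_iff h4 hw').1 h5 with h6 | h6
    · have h7 := mul_mem_LH α h6
      have h10 := LH.lattice.sub_mem (LH.lattice.sub_mem (LH.lattice.add_mem h7 hαw') hαw)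
        (odd_mul_tau hα)
      have h11 : (α : ℂ) * (w + tauH - w') + (α * w') - α * w - (α * tauH - tauH) = tauH := by
        ring
      rwa [h11] at h10
    · have h7 := mul_mem_LH α h6
      have h10 := LH.lattice.sub_mem (LH.lattice.sub_mem (LH.lattice.sub_mem h7 hαw') hαw)
        (odd_mul_tau hα)
      have h11 : (α : ℂ) * (w + tauH + w') - (α * w') - α * w - (α * tauH - tauH) = tauH := by
        ring
      rwa [h11] at h10

theorem PsiH_distr {α : O2} (hα : IsOddH α) {z : ℂ} (hz : α * (s2 * z) ∉ LH.lattice) :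
    PsiH α z * PsiH α (z + tauH) = PsiH α (s2 * z) := by
  have hα0 := hα.ne_zero
  set S := (HSH_finite hα0).toFinset with hS
  have hmS : ∀ t, t ∈ S ↔ t ∈ HSH α := fun t => by rw [hS, Set.Finite.mem_toFinset]
  have hz1 : s2 * z ∉ LH.lattice := fun h => hz (mul_mem_LH α h)
  have hx : XH (z + tauH) * XH z = 2 := pd_add_tau hz1
  have hx0 : XH z ≠ 0 := by
    intro h
    rw [h, mul_zero] at hx
    norm_num at hx
  have hy := pd_TT hz1 hx0
  have ht0 : ∀ t ∈ S, t ≠ 0 := fun t ht => pd_ne hα ((hmS t).1 ht)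
  -- the permutation
  have himg : S.image TT = S := by
    apply Finset.eq_of_subset_of_card_le
    · intro t ht
      obtain ⟨s, hs, rfl⟩ := Finset.mem_image.1 ht
      exact (hmS _).2 (pd_maps hα ((hmS s).1 hs))
    · rw [Finset.card_image_of_injOn]
      intro t ht t' ht' h
      exact pd_inj hα ((hmS t).1 ht) ((hmS t').1 ht') h
  have hinj : ∀ t ∈ S, ∀ t' ∈ S, TT t = TT t' → t = t' := fun t ht t' ht' h =>
    pd_inj hα ((hmS t).1 ht) ((hmS t').1 ht') h
  have hperm : ∀ g : ℂ → ℂ, ∏ t ∈ S, g t = ∏ t ∈ S, g (TT t) := by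
    intro g
    conv_lhs => rw [← himg]
    rw [Finset.prod_image hinj]
  have hfac : ∀ t ∈ S, (XH z - t) * (XH (z + tauH) - t) =
      2 * t * (XH (s2 * z) - TT t) := by
    intro t ht
    have h1 : XH (z + tauH) = 2 / XH z := by
      rw [eq_div_iff hx0]
      exact hx
    have h2 := ht0 t ht
    rw [← hy, h1, TT, TT]
    field_simp
    ring
  have hden : ∏ t ∈ S, (XH (s2 * z) - t) = ∏ t ∈ S, (XH (s2 * z) - TT t) :=
    hperm fun t => XH (s2 * z) - t
  rw [pd_PsiH_eq hα0, pd_PsiH_eq hα0, pd_PsiH_eq hα0, ← hS, ← Finset.prod_mul_distrib]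
  have h1 : ∏ t ∈ S, (2 * t / (XH z - t) * (2 * t / (XH (z + tauH) - t))) =
      ∏ t ∈ S, (2 * t / (XH (s2 * z) - TT t)) := by
    refine Finset.prod_congr rfl fun t ht => ?_
    rw [div_mul_div_comm, hfac t ht, mul_div_mul_left]
    exact mul_ne_zero two_ne_zero (ht0 t ht)
  rw [h1, Finset.prod_div_distrib, Finset.prod_div_distrib, hden]

end Pool.Agent.CMH
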