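import Pool.Agent.CMH.KConst
import Pool.Agent.CMH.KDistr
import Pool.Agent.CMH.PsiDistr

/-!
# Kronecker limit formula for PsiH

`d` from `kron_const`; choose `z₀` with `αsz₀ ∉ L` and add the formula at `z₀` and `z₀ + τ`, subtract the
one at `sz₀`. By `BB_distr` at `z₀` and at `αz₀` (`α(z₀+τ) ≡ αz₀ + τ`, `odd_mul_tau`, `BB_periodic`) the
`BB` terms cancel, and `PsiH_distr` gives `d = 0`.
-/

set_option autoImplicit false

noncomputable section

open Complex Filter Topology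
open scoped PeriodPair Classical

namespace Pool.Agent.CMH

open Pool.Agent.CMG (BB PP ee liouville)

open Pool.Agent.CMG (PP_eq_zero_iff BB_periodic)

private theorem sqrt_two_pos : (0 : ℝ) < Real.sqrt 2 := Real.sqrt_pos.2 (by norm_num)

theorem PP_sqrt_ne_zero {z : ℂ} (hz : z ∉ LH.lattice) : PP (Real.sqrt 2) z ≠ 0 := by
  intro h
  obtain ⟨m, n, hmn⟩ := (PP_eq_zero_iff sqrt_two_pos z).1 h
  refine hz (mem_LH.2 ⟨⟨m, n⟩, ?_⟩)
  rw [coe_def, hmn]
  unfold s2
  push_cast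
  ring

theorem BB_add_coe {z l : ℂ} (hz : z ∉ LH.lattice) (hl : l ∈ LH.lattice) :
    BB (Real.sqrt 2) (z + l) = BB (Real.sqrt 2) z := by
  obtain ⟨a, ha⟩ := mem_LH.1 hl
  have h := BB_periodic sqrt_two_pos (PP_sqrt_ne_zero hz) a.re a.im
  rw [← h]
  congr 1
  rw [← ha, coe_def]
  unfold s2
  ring

theorem kronH {α : O2} (hα : IsOddH α) {z : ℂ} (hz : α * z ∉ LH.lattice) :
    nH α * BB (Real.sqrt 2) z - BB (Real.sqrt 2) (α * z) = - 2 * Real.log ‖PsiH α z‖ := by
  obtain ⟨d, hd⟩ := kron_const hα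
  have hα0 : (α : ℂ) ≠ 0 := coe_ne_zero hα.ne_zero
  have hs : s2 ≠ 0 := by
    intro h
    have := s2_mul_s2
    rw [h] at this
    norm_num at this
  have hhalf : (1 / 2 : ℂ) ∉ LH.lattice := LH.ω₁_div_two_notMem_lattice
  set z₀ : ℂ := 1 / 2 / (α * s2) with hz₀
  have e0 : α * s2 * z₀ = 1 / 2 := by
    rw [hz₀]
    field_simp
  have e1 : s2 * (α * z₀) = 1 / 2 := by rw [← e0]; ring
  have e2 : α * (s2 * z₀) = 1 / 2 := by rw [← e0]; ring
  have n0 : α * z₀ ∉ LH.lattice := fun h => hhalf (e1 ▸ s2_mul_mem h)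
  have n1 : α * (s2 * z₀) ∉ LH.lattice := by rwa [e2]
  have n2 : s2 * z₀ ∉ LH.lattice := fun h => n1 (mul_mem_LH α h)
  have n3 : α * (z₀ + tauH) ∉ LH.lattice := by
    intro h
    have h1 := s2_mul_mem h
    have h2 : s2 * (α * (z₀ + tauH)) = 1 / 2 - α * 1 := by
      linear_combination e1 + (α : ℂ) * s2_mul_tau
    rw [h2] at h1
    have h3 : (α : ℂ) * 1 ∈ LH.lattice := mul_mem_LH α (LH.ω₁_mem_lattice)
    exact hhalf (by simpa using add_mem h1 h3)
  have n4 : α * z₀ + tauH ∉ LH.lattice := by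
    intro h
    refine n3 ?_
    have := add_mem h (odd_mul_tau hα)
    convert this using 1
    ring
  have E1 := hd z₀ n0
  have E2 := hd (z₀ + tauH) n3
  have E3 := hd (s2 * z₀) n1
  have D1 := BB_distr n2
  have D2 := BB_distr (z := α * z₀) (by rwa [e1])
  have P1 : BB (Real.sqrt 2) (α * (z₀ + tauH)) = BB (Real.sqrt 2) (α * z₀ + tauH) := by
    rw [← BB_add_coe n4 (odd_mul_tau hα)]
    congr 1
    ring
  have P2 : α * (s2 * z₀) = s2 * (α * z₀) := by ring
  have H := congrArg norm (PsiH_distr hα n1)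
  rw [norm_mul] at H
  have H' := congrArg Real.log H
  rw [Real.log_mul (norm_ne_zero_iff.2 (PsiH_ne_zero hα n0))
    (norm_ne_zero_iff.2 (PsiH_ne_zero hα n3))] at H'
  rw [P1] at E2
  rw [P2] at E3
  have hd0 : d = 0 := by
    linear_combination (nH α : ℝ) * D1 - D2 + 2 * H' - E1 - E2 + E3
  have := hd z hz
  rw [hd0] at this
  linarith

end Pool.Agent.CMH
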