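import Pool.Agent.CMH.PsiDistr

/-!
# symmetry relation for PsiH

Both sides are `L`-periodic with the same orders: `NαNβ [z ∈ L] - [αβz ∈ L]` (`PsiH_order`; check the
cases `z ∈ L`; `αz ∈ L`, `z ∉ L`; `βz ∈ L`, `z ∉ L`; `αβz ∈ L`; else). So left side = `κ` · right side with a
constant `κ ≠ 0` (`liouville`, and continuity for every `z` with `αβz ∉ L`). Both sides `f` satisfy
`f(z) f(z+τ) = f(sz)` if `αβsz ∉ L` (`PsiH_distr`, `β(z+τ) ≡ βz + τ` by `odd_mul_tau`, `PsiH_add_coe`,
`α(sz) = s(αz)`), so `κ² = κ` and `κ = 1`.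
-/

set_option autoImplicit false

noncomputable section

open Complex Filter Topology
open scoped PeriodPair Classical

namespace Pool.Agent.CMH

private lemma ps_ne_zero {α : O2} (hα : IsOddH α) : (α : ℂ) ≠ 0 := coe_ne_zero hα.ne_zero

private lemma ps_ord_eq {α β : O2} (hα : IsOddH α) (hβ : IsOddH β) (z : ℂ) :
    meromorphicOrderAt (fun z => PsiH α z ^ nH β * PsiH β (α * z)) z =
    (((if z ∈ LH.lattice then (nH α * nH β : ℤ) - 1 else
      if α * β * z ∈ LH.lattice then -1 else 0 : ℤ)) : WithTop ℤ) := by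
  have ha := ps_ne_zero hα
  have h1 : MeromorphicAt (PsiH α ^ nH β) z := (PsiH_meromorphic α z).pow _
  have hg : AnalyticAt ℂ (fun z : ℂ => (α : ℂ) * z) z := by fun_prop
  have hg' : deriv (fun z : ℂ => (α : ℂ) * z) z ≠ 0 := by
    have : HasDerivAt (fun z : ℂ => (α : ℂ) * z) (α : ℂ) z := by
      simpa using (hasDerivAt_id z).const_mul (α : ℂ)
    rw [this.deriv]
    exact ha
  have h2 : MeromorphicAt (fun z => PsiH β (α * z)) z :=
    (PsiH_meromorphic β (α * z)).comp_analyticAt hg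
  have h3 : meromorphicOrderAt (fun z => PsiH β (α * z)) z =
      meromorphicOrderAt (PsiH β) (α * z) :=
    meromorphicOrderAt_comp_of_deriv_ne_zero (f := PsiH β) hg hg'
  have h4 : meromorphicOrderAt (fun z => PsiH α z ^ nH β * PsiH β (α * z)) z =
      (nH β : WithTop ℤ) * meromorphicOrderAt (PsiH α) z + meromorphicOrderAt (PsiH β) (α * z) := by
    rw [← h3, ← meromorphicOrderAt_pow (PsiH_meromorphic α z)]
    exact meromorphicOrderAt_mul h1 h2
  rw [h4, PsiH_order hα, PsiH_order hβ]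
  have h5 : ∀ x y : ℤ, ((nH β : ℕ) : WithTop ℤ) * ((x : ℤ) : WithTop ℤ) + ((y : ℤ) : WithTop ℤ) =
      ((nH β * x + y : ℤ) : WithTop ℤ) := by
    intro x y
    push_cast
    rfl
  rw [h5]
  congr 1
  have e1 : (β : ℂ) * (α * z) = α * β * z := by ring
  by_cases hz : z ∈ LH.lattice
  · have haz : (α : ℂ) * z ∈ LH.lattice := mul_mem_LH α hz
    rw [if_pos hz, if_pos haz, if_pos hz]
    ring
  · rw [if_neg hz, if_neg hz, e1]
    by_cases haz : (α : ℂ) * z ∈ LH.lattice
    · have habz : (α : ℂ) * β * z ∈ LH.lattice := by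
        rw [← e1]
        exact mul_mem_LH β haz
      rw [if_pos haz, if_pos haz, if_pos habz]
      ring
    · rw [if_neg haz, if_neg haz]
      ring

theorem PsiH_symm {α β : O2} (hα : IsOddH α) (hβ : IsOddH β) {z : ℂ}
    (hz : α * β * z ∉ LH.lattice) :
    PsiH α z ^ nH β * PsiH β (α * z) = PsiH β z ^ nH α * PsiH α (β * z) := by
  set Nu : ℂ → ℂ := fun z => PsiH α z ^ nH β * PsiH β (α * z) with hNu
  set De : ℂ → ℂ := fun z => PsiH β z ^ nH α * PsiH α (β * z) with hDe
  have hmer : ∀ (γ δ : O2) (z : ℂ),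
      MeromorphicAt (fun z => PsiH γ z ^ nH δ * PsiH δ (γ * z)) z := by
    intro γ δ z
    refine ((PsiH_meromorphic γ z).pow _).mul ?_
    exact (PsiH_meromorphic δ (γ * z)).comp_analyticAt
      (show AnalyticAt ℂ (fun z : ℂ => (γ : ℂ) * z) z by fun_prop)
  have hNm : ∀ z, MeromorphicAt Nu z := hmer α β
  have hDm : ∀ z, MeromorphicAt De z := hmer β α
  have hord : ∀ z, meromorphicOrderAt Nu z = meromorphicOrderAt De z := by
    intro z
    rw [hNu, hDe, ps_ord_eq hα hβ, ps_ord_eq hβ hα, mul_comm (nH β : ℤ), mul_comm (β : ℂ)]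
  have hordne : ∀ z, meromorphicOrderAt De z ≠ ⊤ := by
    intro z
    rw [hDe, ps_ord_eq hβ hα]
    exact WithTop.coe_ne_top
  have hord0 : ∀ z, meromorphicOrderAt (fun z => Nu z / De z) z = 0 := by
    intro z
    have h1 : meromorphicOrderAt (fun z => Nu z / De z) z =
        meromorphicOrderAt Nu z - meromorphicOrderAt De z := by
      exact meromorphicOrderAt_div (hNm z) (hDm z)
    rw [h1, hord z]
    exact LinearOrderedAddCommGroupWithTop.sub_self_eq_zero_of_ne_top (hordne z)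
  -- periodicity
  have hperg : ∀ (γ δ : O2) (z l : ℂ), l ∈ LH.lattice →
      PsiH γ (z + l) ^ nH δ * PsiH δ (γ * (z + l)) = PsiH γ z ^ nH δ * PsiH δ (γ * z) := by
    intro γ δ z l hl
    rw [PsiH_add_coe γ z hl, mul_add, PsiH_add_coe δ _ (mul_mem_LH γ hl)]
  obtain ⟨c, hc⟩ := CMG.liouville LH (F := fun z => Nu z / De z) (fun z => (hNm z).div (hDm z))
    (fun z => (hord0 z).ge) (fun l hl => Eventually.of_forall fun z => by
      simp only [hNu, hDe]
      rw [hperg α β z l hl, hperg β α z l hl])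
  have hcz : ∀ x : ℂ, ∀ᶠ z in 𝓝[≠] x, Nu z / De z = c := by
    intro x
    have h1 := mem_codiscreteWithin.1 hc x (Set.mem_univ x)
    rw [disjoint_principal_right] at h1
    filter_upwards [h1] with w hw
    by_contra h2
    exact hw ⟨Set.mem_univ _, h2⟩
  -- continuity
  have hcont : ∀ (γ δ : O2) (z : ℂ), IsOddH γ → IsOddH δ → (γ : ℂ) * δ * z ∉ LH.lattice →
      ContinuousAt (fun z => PsiH γ z ^ nH δ * PsiH δ (γ * z)) z := by
    intro γ δ z hγ hδ h
    have h1 : (γ : ℂ) * z ∉ LH.lattice := by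
      intro h2
      apply h
      have := mul_mem_LH δ h2
      rwa [show (δ : ℂ) * (γ * z) = γ * δ * z by ring] at this
    have h2 : (δ : ℂ) * (γ * z) ∉ LH.lattice := by
      rwa [show (δ : ℂ) * (γ * z) = γ * δ * z by ring]
    refine ((PsiH_analytic hγ h1).continuousAt.pow _).mul ?_
    have h3 : ContinuousAt (fun z : ℂ => (γ : ℂ) * z) z := by fun_prop
    exact ContinuousAt.comp (f := fun z : ℂ => (γ : ℂ) * z) (PsiH_analytic hδ h2).continuousAt h3
  have hcontN : ∀ w : ℂ, (α : ℂ) * β * w ∉ LH.lattice → ContinuousAt Nu w ∧ ContinuousAt De w :=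
    fun w hw => ⟨hcont α β w hα hβ hw, hcont β α w hβ hα (by rwa [mul_comm (β : ℂ)])⟩
  have hne : ∀ (γ δ : O2) (w : ℂ), IsOddH γ → IsOddH δ → (γ : ℂ) * δ * w ∉ LH.lattice →
      PsiH γ w ^ nH δ * PsiH δ (γ * w) ≠ 0 := by
    intro γ δ w hγ hδ h
    have h2 : (δ : ℂ) * (γ * w) ∉ LH.lattice := by
      rwa [show (δ : ℂ) * (γ * w) = γ * δ * w by ring]
    have h1 : (γ : ℂ) * w ∉ LH.lattice := fun h3 => h2 (mul_mem_LH δ h3)
    exact mul_ne_zero (pow_ne_zero _ (PsiH_ne_zero hγ h1)) (PsiH_ne_zero hδ h2)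
  -- the quotient is constant outside the poles
  have hall : ∀ w : ℂ, (α : ℂ) * β * w ∉ LH.lattice → Nu w = c * De w := by
    intro w hw
    obtain ⟨hN, hD⟩ := hcontN w hw
    have hDne : De w ≠ 0 := hne β α w hβ hα (by rwa [mul_comm (β : ℂ)])
    have h1 : Tendsto (fun z => Nu z / De z) (𝓝[≠] w) (𝓝 (Nu w / De w)) :=
      (hN.div hD hDne).tendsto.mono_left nhdsWithin_le_nhds
    have h2 := tendsto_nhds_unique h1
      (tendsto_const_nhds.congr' ((hcz w).mono fun _ h => h.symm))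
    rw [div_eq_iff hDne] at h2
    exact h2
  -- the constant is `1`
  have hdis : ∀ (γ δ : O2) (w : ℂ), IsOddH γ → IsOddH δ → (γ : ℂ) * δ * (s2 * w) ∉ LH.lattice →
      (PsiH γ w ^ nH δ * PsiH δ (γ * w)) *
        (PsiH γ (w + tauH) ^ nH δ * PsiH δ (γ * (w + tauH))) =
      PsiH γ (s2 * w) ^ nH δ * PsiH δ (γ * (s2 * w)) := by
    intro γ δ w hγ hδ h
    have h2 : (δ : ℂ) * (s2 * (γ * w)) ∉ LH.lattice := by
      rwa [show (δ : ℂ) * (s2 * (γ * w)) = γ * δ * (s2 * w) by ring]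
    have h1 : (γ : ℂ) * (s2 * w) ∉ LH.lattice := by
      intro h3
      apply h2
      have h4 := mul_mem_LH δ h3
      rwa [show (δ : ℂ) * (γ * (s2 * w)) = δ * (s2 * (γ * w)) by ring] at h4
    have h3 := PsiH_distr hγ h1
    have h4 := PsiH_distr hδ h2
    have h5 : PsiH δ (γ * (w + tauH)) = PsiH δ (γ * w + tauH) := by
      have h6 := PsiH_add_coe δ ((γ : ℂ) * w + tauH) (odd_mul_tau hγ)
      rw [← h6]
      congr 1
      ring
    rw [h5, show (γ : ℂ) * (s2 * w) = s2 * (γ * w) by ring, ← h3, ← h4, mul_pow]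
    ring
  have hc1 : c = 1 := by
    have hs0 : s2 ≠ 0 := by
      intro h0
      have h1 := s2_mul_s2
      rw [h0, mul_zero] at h1
      norm_num at h1
    obtain ⟨w, hw⟩ : ∃ w : ℂ, (α : ℂ) * β * (s2 * w) = tauH := by
      refine ⟨tauH / (α * β * s2), ?_⟩
      have ha := ps_ne_zero hα
      have hb := ps_ne_zero hβ
      field_simp
    have h1 : (α : ℂ) * β * (s2 * w) ∉ LH.lattice := by
      rw [hw]
      exact tau_notMem
    have h2 : (α : ℂ) * β * w ∉ LH.lattice := by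
      intro h3
      apply h1
      have h4 := s2_mul_mem h3
      rwa [show s2 * ((α : ℂ) * β * w) = α * β * (s2 * w) by ring] at h4
    have h3 : (α : ℂ) * β * (w + tauH) ∉ LH.lattice := by
      intro h3
      apply h1
      have h4 := s2_mul_mem h3
      have h5 : ((α * β : O2) : ℂ) ∈ LH.lattice := mem_LH.2 ⟨α * β, rfl⟩
      have h6 := LH.lattice.add_mem h4 h5
      rw [map_mul] at h6
      have h7 : s2 * ((α : ℂ) * β * (w + tauH)) + α * β = α * β * (s2 * w) := by
        linear_combination (α : ℂ) * β * s2_mul_tau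
      rwa [h7] at h6
    have e1 := hall w h2
    have e2 := hall _ h3
    have e3 := hall _ h1
    have e4 : Nu w * Nu (w + tauH) = Nu (s2 * w) := hdis α β w hα hβ h1
    have e5 : De w * De (w + tauH) = De (s2 * w) :=
      hdis β α w hβ hα (by rwa [mul_comm (β : ℂ)])
    have e6 : De (s2 * w) ≠ 0 := hne β α _ hβ hα (by rwa [mul_comm (β : ℂ)])
    have e7 : Nu (s2 * w) ≠ 0 := hne α β _ hα hβ h1
    have e8 : c ≠ 0 := by
      rintro rfl
      rw [zero_mul] at e3
      exact e7 e3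
    have e9 : c * c = c * 1 := by
      apply mul_right_cancel₀ e6
      rw [mul_one, ← e3, ← e4, e1, e2, ← e5]
      ring
    exact mul_left_cancel₀ e8 e9
  have h := hall z hz
  rw [hc1, one_mul] at h
  exact h

end Pool.Agent.CMH
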