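import Pool.Agent.CMH.ValTors

/-!
# Kronecker congruence and injectivity of reduction

`frobH`: `s2^{Nπ-1} XH (πu) = ∏_q XH (u + torH π q)` (`T5`), every factor is congruent to `XH u` modulo
the maximal ideal (`InH_of_prime`, `XH_add_InH`), `v(XH u) ≤ 1`, and there are `nH π` factors; by Fermat in
the field `ℤ[√-2]/π` with `Nπ` elements (`card_quot`), in which the class of `√-2` is not `0`:
`π ∣ (√-2)^{Nπ-1} - 1`, so `s2^{Nπ-1} ≡ 1` modulo the maximal ideal.
`red_injH`: `u, w ∉ InH` by `mem_of_InH`; `InH_of_XH_sub` gives `u ± w ∈ InH`, hence in `L` by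
`mem_of_InH`; so `XH u = XH w`.
-/

set_option autoImplicit false

noncomputable section

open Complex Filter Topology
open scoped PeriodPair Classical

namespace Pool.Agent.CMH

section val

variable {V : ValuationSubring ℂ}

theorem valFrob_coe_le (α : O2) : V.valuation (α : ℂ) ≤ 1 := by
  rw [ValuationSubring.valuation_le_one_iff, coe_def]
  have hs : s2 ∈ V := by
    rcases V.mem_or_inv_mem s2 with h | h
    · exact h
    · have h1 : s2 = ((-2 : ℤ) : ℂ) * s2⁻¹ := by
        have h0 : s2 ≠ 0 := by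
          intro h0
          have h2 := s2_mul_s2
          rw [h0] at h2
          norm_num at h2
        field_simp
        rw [pow_two, s2_mul_s2]
        norm_num
      rw [h1]
      exact V.mul_mem _ _ (intCast_mem V _) h
  exact V.add_mem _ _ (intCast_mem V _) (V.mul_mem _ _ (intCast_mem V _) hs)

theorem valFrob_prod_sub_pow_lt {ι : Type*} (s : Finset ι) (f : ι → ℂ) {a : ℂ}
    (ha : V.valuation a ≤ 1) (hf : ∀ i ∈ s, V.valuation (f i - a) < 1) :
    V.valuation (∏ i ∈ s, f i - a ^ s.card) < 1 := by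
  induction s using Finset.induction_on with
  | empty => simp
  | insert i s hi ih =>
    have ih' := ih (fun j hj => hf j (Finset.mem_insert_of_mem hj))
    have h1 := hf i (Finset.mem_insert_self i s)
    rw [Finset.prod_insert hi, Finset.card_insert_of_notMem hi]
    have hfi : V.valuation (f i) ≤ 1 := by
      have : f i = (f i - a) + a := by ring
      rw [this]
      exact (V.valuation.map_add _ _).trans (max_le h1.le ha)
    have hap : V.valuation (a ^ s.card) ≤ 1 := by
      rw [map_pow]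
      exact pow_le_one' ha _
    have he : f i * ∏ j ∈ s, f j - a ^ (s.card + 1)
        = f i * (∏ j ∈ s, f j - a ^ s.card) + (f i - a) * a ^ s.card := by ring
    rw [he]
    refine V.valuation.map_add_lt ?_ ?_
    · rw [map_mul, mul_comm]
      exact mul_lt_one_of_lt_of_le ih' hfi
    · rw [map_mul]
      exact mul_lt_one_of_lt_of_le h1 hap

/-- Fermat: `π ∣ (√-2)^{Nπ-1} - 1` -/
theorem valFrob_fermat {π : O2} (hπ : Prime π) (hπ' : IsOddH π) :
    π ∣ (⟨0, 1⟩ : O2) ^ (nH π - 1) - 1 := by
  have hfin : Finite (O2 ⧸ Ideal.span {π}) := finite_quot hπ.ne_zero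
  have hmax : (Ideal.span {π}).IsMaximal :=
    PrincipalIdealRing.isMaximal_of_irreducible hπ.irreducible
  let _ : Field (O2 ⧸ Ideal.span {π}) := Ideal.Quotient.field _
  have hft : Fintype (O2 ⧸ Ideal.span {π}) := Fintype.ofFinite _
  have hcard : Fintype.card (O2 ⧸ Ideal.span {π}) = nH π := by
    rw [← card_quot hπ.ne_zero, Nat.card_eq_fintype_card]
  have hne : (Ideal.Quotient.mk (Ideal.span {π}) (⟨0, 1⟩ : O2)) ≠ 0 := by
    intro h
    rw [Ideal.Quotient.eq_zero_iff_mem, Ideal.mem_span_singleton] at h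
    obtain ⟨β, hβ⟩ := h
    have h1 : nH (⟨0, 1⟩ : O2) = nH π * nH β := by rw [hβ, nH_mul]
    have h2 : nH (⟨0, 1⟩ : O2) = 2 := by
      unfold nH
      rw [Zsqrtd.norm_def]
      norm_num
    rw [h2] at h1
    have h3 : nH π ∣ 2 := ⟨_, h1⟩
    rcases (Nat.dvd_prime Nat.prime_two).1 h3 with h4 | h4
    · have h5 : IsUnit π := by
        have h6 : Zsqrtd.norm π = 1 ∨ Zsqrtd.norm π = -1 := by
          have : (Zsqrtd.norm π).natAbs = 1 := h4
          exact Int.natAbs_eq_iff.1 this
        exact Zsqrtd.norm_eq_one_iff.1 h4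
      exact hπ.not_isUnit h5
    · have h5 : Odd (nH π) := hπ'
      rw [h4] at h5
      exact absurd h5 (by decide)
  have h := FiniteField.pow_card_sub_one_eq_one _ hne
  rw [hcard, ← map_pow] at h
  rw [← Ideal.mem_span_singleton, ← Ideal.Quotient.eq_zero_iff_mem, map_sub, map_one, h, sub_self]

theorem frobH {π : O2} (hπ : Prime π) (hπ' : IsOddH π) (hV : V.valuation (π : ℂ) < 1)
    {u : ℂ} (hu : ¬ InH V u) (hu' : π * u ∉ LH.lattice) :
    V.valuation (XH (π * u) - XH u ^ nH π) < 1 := by
  obtain ⟨hT, -⟩ := T5 hπ'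
  have hX := hT u hu'
  have hfin : Finite (O2 ⧸ Ideal.span {π}) := finite_quot hπ.ne_zero
  have hft : Fintype (O2 ⧸ Ideal.span {π}) := Fintype.ofFinite _
  rw [finprod_eq_prod_of_fintype] at hX
  have hXu : V.valuation (XH u) ≤ 1 := by
    by_contra hc
    exact hu (Or.inr (not_le.mp hc))
  have hcard : (Finset.univ : Finset (O2 ⧸ Ideal.span {π})).card = nH π := by
    rw [← card_quot hπ.ne_zero, Finset.card_univ, Nat.card_eq_fintype_card]
  have key := valFrob_prod_sub_pow_lt (V := V) (Finset.univ : Finset (O2 ⧸ Ideal.span {π}))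
    (fun q => XH (u + torH π q)) hXu
    (fun q _ => XH_add_InH hu (InH_of_prime hπ hπ' hV (mul_tor_mem hπ.ne_zero q)))
  rw [hcard, hX] at key
  set s : ℂ := s2 ^ (nH π - 1) with hs
  have hs1 : V.valuation (s - 1) < 1 := by
    obtain ⟨β, hβ⟩ := valFrob_fermat hπ hπ'
    have h1 : s - 1 = (π : ℂ) * (β : ℂ) := by
      rw [← map_mul, ← hβ, map_sub, map_one, map_pow, coe_sqrtd]
    rw [h1, map_mul]
    exact mul_lt_one_of_lt_of_le hV (valFrob_coe_le β)
  have hs2 : V.valuation s = 1 := by
    have h1 : s = 1 + (s - 1) := by ring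
    rw [h1]
    have h2 : V.valuation (1 : ℂ) = 1 := map_one _
    rw [V.valuation.map_add_eq_of_lt_left (by rw [h2]; exact hs1), h2]
  have hP : V.valuation (XH (π * u)) ≤ 1 := by
    have h1 : V.valuation (s * XH (π * u)) ≤ 1 := by
      have : s * XH (π * u) = (s * XH (π * u) - XH u ^ nH π) + XH u ^ nH π := by ring
      rw [this]
      refine (V.valuation.map_add _ _).trans (max_le key.le ?_)
      rw [map_pow]
      exact pow_le_one' hXu _
    rwa [map_mul, hs2, one_mul] at h1
  have he : XH (π * u) - XH u ^ nH π = (s * XH (π * u) - XH u ^ nH π) - (s - 1) * XH (π * u) := by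
    ring
  rw [he]
  refine V.valuation.map_sub_lt key ?_
  rw [map_mul]
  exact mul_lt_one_of_lt_of_le hs1 hP

theorem red_injH {n : O2} (hn : V.valuation (n : ℂ) = 1) (h2 : V.valuation (2 : ℂ) = 1)
    {u w : ℂ} (hu : n * u ∈ LH.lattice) (hw : n * w ∈ LH.lattice) (hu' : u ∉ LH.lattice)
    (hw' : w ∉ LH.lattice) (h : V.valuation (XH u - XH w) < 1) : XH u = XH w := by
  have hnu : ¬ InH V u := fun hc => hu' (mem_of_InH hn hu hc)
  have hnw : ¬ InH V w := fun hc => hw' (mem_of_InH hn hw hc)
  rcases InH_of_XH_sub h2 hnu hnw h with h1 | h1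
  · have h3 : u + w ∈ LH.lattice := by
      refine mem_of_InH hn ?_ h1
      rw [mul_add]
      exact add_mem hu hw
    have h4 := XH_add_coe (-w) h3
    have h5 : -w + (u + w) = u := by ring
    rw [h5, XH_neg] at h4
    exact h4
  · have h3 : u - w ∈ LH.lattice := by
      refine mem_of_InH hn ?_ h1
      rw [mul_sub]
      exact sub_mem hu hw
    have h4 := XH_add_coe w h3
    have h5 : w + (u - w) = u := by ring
    rw [h5] at h4
    exact h4

end val

end Pool.Agent.CMH
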