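import Pool.Agent.CMH.HSet

/-!
# orders and zeros of PsiH

Compare `CMG/PsiOrd.lean`. Orders of `XH z - t`, `t = XH w`, from `XH_order_sub` (`2w ∉ L` for
`w ∈ E[α] ∖ 0`, `α` odd): `-2` on `L`, `1` on `± w + L`, else `0`. Sum over `t ∈ HSH α`,
`2 |HSH α| = N α - 1` (`HSH_card`); every nonzero `z ∈ E[α]` belongs to exactly one `t` (`XH_eq_iff`). The
numerators `2t` are not `0` (`zero_notMem_HSH`). `PsiH_eq` writes `PsiH` as a constant over
`∏ (XH z - t)`.
-/

set_option autoImplicit false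

noncomputable section

open Complex Filter Topology
open scoped PeriodPair Classical

namespace Pool.Agent.CMH

private theorem PsiH_eq' {α : O2} (hα : α ≠ 0) : PsiH α = fun z =>
    (∏ t ∈ (HSH_finite hα).toFinset, 2 * t) / ∏ t ∈ (HSH_finite hα).toFinset, (XH z - t) := by
  funext z
  unfold PsiH
  rw [finprod_mem_eq_finite_toFinset_prod _ (HSH_finite hα), Finset.prod_div_distrib]

private theorem PsiH_zero : PsiH 0 = fun _ => 1 := by
  funext z
  unfold PsiH
  apply finprod_mem_eq_one_of_infinite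
  refine (Set.finite_singleton (XH z / 3)).infinite_compl.mono ?_
  intro t ht
  refine ⟨?_, ?_⟩
  · obtain ⟨w, hw, h⟩ := XH_surj t
    exact ⟨w, ⟨hw, by simp⟩, h⟩
  · rw [Function.mem_mulSupport]
    intro h
    apply ht
    have h0 : XH z - t ≠ 0 := by
      intro h0
      rw [h0, div_zero] at h
      exact zero_ne_one h
    rw [div_eq_one_iff_eq h0] at h
    rw [Set.mem_singleton_iff]
    linear_combination (1 / 3) * h

private theorem sub_meromorphic (t z : ℂ) : MeromorphicAt (fun z => XH z - t) z :=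
  (XH_meromorphic z).sub (MeromorphicAt.const t z)

theorem PsiH_meromorphic (α : O2) (z : ℂ) : MeromorphicAt (PsiH α) z := by
  by_cases hα : α = 0
  · rw [hα, PsiH_zero]
    exact MeromorphicAt.const 1 z
  · rw [PsiH_eq' hα]
    exact (MeromorphicAt.const _ z).div (MeromorphicAt.fun_prod fun t _ => sub_meromorphic t z)

private theorem coprime_two {α : O2} (hα : IsOddH α) : IsCoprime α 2 := by
  obtain ⟨k, hk⟩ := hα
  have h1 : ((Zsqrtd.norm α : ℤ) : O2) = α * star α := Zsqrtd.norm_eq_mul_conj α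
  have h2 : (Zsqrtd.norm α : ℤ) = 2 * k + 1 := by
    have h3 : (0 : ℤ) ≤ Zsqrtd.norm α := norm_nonneg' α
    unfold nH at hk
    omega
  refine ⟨star α, -(k : O2), ?_⟩
  have h4 : α * star α = 2 * (k : O2) + 1 := by
    rw [← h1, h2]
    push_cast
    ring
  linear_combination h4

private theorem two_mul_notMem {α : O2} (hα : IsOddH α) {w : ℂ} (hw : w ∉ LH.lattice)
    (hαw : α * w ∈ LH.lattice) : 2 * w ∉ LH.lattice := by
  intro h
  apply hw
  refine mem_of_coprime (coprime_two hα) hαw ?_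
  rw [map_ofNat]
  exact h

/-- the order of `XH - t` at points of the lattice and outside -/
private theorem order_sub {α : O2} (hα : IsOddH α) {t : ℂ} (ht : t ∈ HSH α) (z : ℂ) :
    meromorphicOrderAt (fun z => XH z - t) z =
      ((if z ∈ LH.lattice then -2 else if XH z = t then 1 else 0 : ℤ) : WithTop ℤ) := by
  obtain ⟨w, ⟨hw, hαw⟩, rfl⟩ := ht
  have h2w := two_mul_notMem hα hw hαw
  rw [XH_order_sub hw, if_neg h2w]
  congr 1
  by_cases hz : z ∈ LH.lattice
  · simp only [if_pos hz]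
  · simp only [if_neg hz]
    simp only [XH_eq_iff hz hw]

private theorem XH_mem_iff {α : O2} {z : ℂ} (hz : z ∉ LH.lattice) :
    XH z ∈ HSH α ↔ α * z ∈ LH.lattice := by
  constructor
  · rintro ⟨w, ⟨hw, hαw⟩, h⟩
    rcases (XH_eq_iff hz hw).1 h.symm with h1 | h1
    · have h2 := LH.lattice.add_mem (mul_mem_LH α h1) hαw
      have h3 : (α : ℂ) * (z - w) + α * w = α * z := by ring
      rwa [h3] at h2
    · have h2 := LH.lattice.sub_mem (mul_mem_LH α h1) hαw
      have h3 : (α : ℂ) * (z + w) - α * w = α * z := by ring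
      rwa [h3] at h2
  · intro h
    exact ⟨z, ⟨hz, h⟩, rfl⟩

private theorem notMem_of {α : O2} {z : ℂ} (hz : α * z ∉ LH.lattice) : z ∉ LH.lattice :=
  fun h => hz (mul_mem_LH α h)

private theorem num_ne_zero {α : O2} (hα : IsOddH α) :
    (∏ t ∈ (HSH_finite hα.ne_zero).toFinset, 2 * t) ≠ 0 := by
  refine Finset.prod_ne_zero_iff.2 fun t ht => mul_ne_zero two_ne_zero ?_
  rintro rfl
  rw [Set.Finite.mem_toFinset] at ht
  exact zero_notMem_HSH hα ht

theorem PsiH_order {α : O2} (hα : IsOddH α) (z : ℂ) : meromorphicOrderAt (PsiH α) z =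
    ((if z ∈ LH.lattice then (nH α : ℤ) - 1 else if α * z ∈ LH.lattice then -1 else 0 : ℤ) :
      WithTop ℤ) := by
  have hα0 := hα.ne_zero
  set S := (HSH_finite hα0).toFinset with hS
  have hmS : ∀ t, t ∈ S ↔ t ∈ HSH α := fun t => by rw [hS, Set.Finite.mem_toFinset]
  have hcard : 2 * S.card + 1 = nH α := by
    rw [← HSH_card hα, hS, ← Set.ncard_eq_toFinset_card _ (HSH_finite hα0)]
  have hprod : MeromorphicAt (fun z => ∏ t ∈ S, (XH z - t)) z :=
    MeromorphicAt.fun_prod fun t _ => sub_meromorphic t z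
  have hord : meromorphicOrderAt (fun z => ∏ t ∈ S, (XH z - t)) z =
      ((∑ t ∈ S, (if z ∈ LH.lattice then -2 else if XH z = t then 1 else 0) : ℤ) :
        WithTop ℤ) := by
    rw [meromorphicOrderAt_fun_prod fun t _ => sub_meromorphic t z]
    have h1 : ∀ T : Finset ℂ, (∀ t ∈ T, t ∈ HSH α) →
        ∑ t ∈ T, meromorphicOrderAt (fun z => XH z - t) z =
        ((∑ t ∈ T, (if z ∈ LH.lattice then -2 else if XH z = t then 1 else 0) : ℤ) :
          WithTop ℤ) := by
      intro T
      induction T using Finset.induction_on with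
      | empty =>
        intro _
        simp
      | insert a T ha ih =>
        intro hT
        rw [Finset.sum_insert ha, Finset.sum_insert ha, WithTop.coe_add,
          ih (fun t ht => hT t (Finset.mem_insert_of_mem ht)),
          order_sub hα (hT a (Finset.mem_insert_self a T))]
    exact h1 S fun t ht => (hmS t).1 ht
  have hc1 := num_ne_zero hα
  have hP : PsiH α = (fun _ => (∏ t ∈ S, 2 * t)) / (fun z => ∏ t ∈ S, (XH z - t)) := by
    rw [PsiH_eq' hα0]
    rfl
  rw [hP, meromorphicOrderAt_div (MeromorphicAt.const _ z) hprod,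
    meromorphicOrderAt_const, if_neg hc1, hord, zero_sub]
  have hneg : ∀ n : ℤ, -((n : ℤ) : WithTop ℤ) = ((-n : ℤ) : WithTop ℤ) := fun n => rfl
  rw [hneg]
  congr 1
  by_cases hz : z ∈ LH.lattice
  · simp only [if_pos hz, Finset.sum_const, nsmul_eq_mul]
    push_cast [← hcard]
    ring
  · simp only [if_neg hz]
    by_cases hαz : α * z ∈ LH.lattice
    · rw [if_pos hαz, Finset.sum_ite_eq, if_pos ((hmS _).2 ((XH_mem_iff hz).2 hαz))]
    · rw [if_neg hαz, Finset.sum_ite_eq, if_neg fun h => hαz ((XH_mem_iff hz).1 ((hmS _).1 h)),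
        neg_zero]

private theorem den_ne_zero {α : O2} (hα0 : α ≠ 0) {z : ℂ} (hz : α * z ∉ LH.lattice) :
    ∏ t ∈ (HSH_finite hα0).toFinset, (XH z - t) ≠ 0 := by
  refine Finset.prod_ne_zero_iff.2 ?_
  intro t ht h0
  rw [Set.Finite.mem_toFinset] at ht
  rw [← sub_eq_zero.1 h0] at ht
  exact hz ((XH_mem_iff (notMem_of hz)).1 ht)

theorem PsiH_ne_zero {α : O2} (hα : IsOddH α) {z : ℂ} (hz : α * z ∉ LH.lattice) :
    PsiH α z ≠ 0 := by
  rw [PsiH_eq' hα.ne_zero]
  exact div_ne_zero (num_ne_zero hα) (den_ne_zero hα.ne_zero hz)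

theorem PsiH_analytic {α : O2} (hα : IsOddH α) {z : ℂ} (hz : α * z ∉ LH.lattice) :
    AnalyticAt ℂ (PsiH α) z := by
  have hX : AnalyticAt ℂ XH z :=
    XH_diff.analyticAt (LH.isClosed_lattice.isOpen_compl.mem_nhds (notMem_of hz))
  rw [PsiH_eq' hα.ne_zero]
  refine AnalyticAt.div analyticAt_const ?_ (den_ne_zero hα.ne_zero hz)
  exact Finset.analyticAt_fun_prod _ fun t _ => hX.sub analyticAt_const

theorem PsiH_add_coe (α : O2) (z : ℂ) {l : ℂ} (hl : l ∈ LH.lattice) :
    PsiH α (z + l) = PsiH α z := by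
  unfold PsiH
  rw [XH_add_coe z hl]

end Pool.Agent.CMH
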