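import Pool.Agent.CMH.ValTwo
import Pool.Agent.CMH.PsiOrd

/-!
# valuations over 2: N not a power of 2

`e = -log v`, `e(2) = 1` as in `ValTwo.lean`, `s = s2`. `N = 2^n N'`, `N' > 1` odd, prime to `α`. `z = a/N`,
`z_j = s^j z`; `z_{2n}` has odd order, `N' z_{2n} ∈ L`, no `z_j` is killed by `α` or by a power of `s`.
Claim: for all `j ≤ 2n` and `w ∈ E[α] ∖ 0`: `e(XH z_j - XH w) = 3/2` (i.e. `v(..)² = v(8)`) . `j = 2n`:
`val_odd_odd` with `β = α N'`. From `j+1` to `j`: `x = XH z_j`, `y = XH w`, `e(y) = 1/2`. First `e(x) = 1/2`: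
by the claim for `(j+1, sw)` and `val_odd`, `x' = XH z_{j+1}` has `e(x') = 1/2`, and
`2xx' = -(x² + 4x + 2)`: `e(x) < 1/2` would give `3/2 + e(x) = 2e(x)`, `e(x) > 1/2` would give
`3/2 + e(x) = 1`, both absurd. `T_sub` and the claim for `(j+1, sw)`:
`e(x-y) + e(xy-2) = 1 + 1/2 + 1/2 + 3/2 = 7/2`. `xy - 2 = y(x-y) + (y²-2)`, `e(y² - 2) > 2`: if
`d = e(x-y) < 3/2` then `e(xy-2) = d + 1/2` and the sum is `2d + 1/2 < 7/2`; if `d > 3/2` then
`e(xy-2) > 2` and the sum is `> 7/2`. So `d = 3/2`.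
Then `PsiH α z = ∏_t 2t/(XH z - t)`, every factor has `e = 1 + 1/2 - 3/2 = 0`.
-/

set_option autoImplicit false

noncomputable section

open Complex Filter Topology
open scoped PeriodPair Classical

namespace Pool.Agent.CMH

section val

variable {V : ValuationSubring ℂ}

private theorem vh_four : V.valuation (4 : ℂ) = V.valuation (2 : ℂ) ^ 2 := by
  rw [← map_pow]
  congr 1
  norm_num

private theorem vh_eight : V.valuation (8 : ℂ) = V.valuation (2 : ℂ) ^ 3 := by
  rw [← map_pow]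
  congr 1
  norm_num

private theorem vh_isOdd {α : O2} (h : IsCoprime α ((2 : ℕ) : O2)) : IsOddH α := by
  obtain ⟨u, v, huv⟩ := h
  have h1 := congrArg Zsqrtd.re huv
  rw [Zsqrtd.re_add, Zsqrtd.re_mul, Zsqrtd.re_mul, Zsqrtd.re_natCast, Zsqrtd.im_natCast,
    Zsqrtd.re_one] at h1
  rw [isOddH_iff]
  by_contra hne
  rw [Int.not_odd_iff_even] at hne
  obtain ⟨t, ht⟩ := hne
  rw [ht] at h1
  have h2 : (2 : ℤ) ∣ 1 := ⟨u.re * t - u.im * α.im + v.re, by
    rw [← h1]
    push_cast
    ring⟩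
  exact absurd h2 (by decide)

private theorem vh_nat_mem {α : O2} {w : ℂ} (h : α * w ∈ LH.lattice) :
    ((nH α : O2) : ℂ) * w ∈ LH.lattice := by
  have h1 := mul_mem_LH (star α) h
  have h2 : ((nH α : ℕ) : ℤ) = α.norm := Int.natAbs_of_nonneg (norm_nonneg' α)
  have h3 : (nH α : O2) = star α * α := by
    rw [mul_comm, ← Zsqrtd.norm_eq_mul_conj, ← h2]
    push_cast
    rfl
  rw [h3, map_mul, mul_assoc]
  exact h1

/-- multiplication by `√-2` on points of odd order -/
private theorem vh_mul_s {α : O2} (hα : IsOddH α) {w : ℂ} (hw : w ∉ LH.lattice)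
    (h : α * w ∈ LH.lattice) : s2 * w ∉ LH.lattice ∧ α * (s2 * w) ∈ LH.lattice := by
  constructor
  · intro h1
    apply hw
    have h2 : ((2 : O2) : ℂ) * w ∈ LH.lattice := by
      have h3 := neg_mem (s2_mul_mem h1)
      have h4 : ((2 : O2) : ℂ) * w = -(s2 * (s2 * w)) := by
        have : ((2 : O2) : ℂ) = 2 := map_ofNat toC 2
        rw [this]
        linear_combination w * s2_mul_s2
      rw [h4]
      exact h3
    have h7 : IsCoprime (2 : O2) (nH α : O2) := by
      have h8 : Nat.Coprime 2 (nH α) := (Nat.coprime_two_left).2 hα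
      have h9 := (Nat.isCoprime_iff_coprime.2 h8).map (Int.castRingHom O2)
      simpa using h9
    exact mem_of_coprime h7 h2 (vh_nat_mem h)
  · have h1 := s2_mul_mem h
    have h2 : (α : ℂ) * (s2 * w) = s2 * (α * w) := by ring
    rw [h2]
    exact h1

/-- the backward step -/
private theorem vh_step (h2 : V.valuation (2 : ℂ) < 1) {α : O2} (hα : IsOddH α) {z : ℂ}
    (hz : s2 * z ∉ LH.lattice)
    (H : ∀ w : ℂ, w ∉ LH.lattice → α * w ∈ LH.lattice →
      V.valuation (XH (s2 * z) - XH w) ^ 2 = V.valuation (8 : ℂ)) :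
    ∀ w : ℂ, w ∉ LH.lattice → α * w ∈ LH.lattice →
      V.valuation (XH z - XH w) ^ 2 = V.valuation (8 : ℂ) := by
  intro w hw hαw
  have h20 : V.valuation (2 : ℂ) ≠ 0 := (Valuation.ne_zero_iff _).2 (by norm_num)
  have h2pos : 0 < V.valuation (2 : ℂ) := zero_lt_iff.2 h20
  obtain ⟨hw1, hw2⟩ := vh_mul_s hα hw hαw
  obtain ⟨hy1, hy2⟩ := val_odd h2 hw hα hαw
  obtain ⟨hy1', -⟩ := val_odd h2 hw1 hα hw2
  have hT := T_sub (x := XH z) (y := XH w) rfl rfl hz hw1
  have hH1 := H _ hw1 hw2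
  have hdup := XH_mul_s hz
  rw [vh_eight] at hH1 ⊢
  rw [vh_four] at hy2
  have e32 : V.valuation (2 : ℂ) ^ 3 < V.valuation (2 : ℂ) := by
    have h3 : V.valuation (2 : ℂ) ^ 3 < V.valuation (2 : ℂ) ^ 1 :=
      pow_lt_pow_right_of_lt_one₀ h2pos h2 (by norm_num)
    rwa [pow_one] at h3
  -- the valuation of `x'`
  have hx' : V.valuation (XH (s2 * z)) ^ 2 = V.valuation (2 : ℂ) := by
    have e : XH (s2 * z) = XH (s2 * w) + (XH (s2 * z) - XH (s2 * w)) := by ring
    have hlt : V.valuation (XH (s2 * z) - XH (s2 * w)) < V.valuation (XH (s2 * w)) := by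
      refine lt_of_pow_lt_pow_left₀ 2 zero_le ?_
      rw [hH1, hy1']
      exact e32
    rw [e, Valuation.map_add_eq_of_lt_left V.valuation hlt, hy1']
  -- the valuation of `x`
  have hdup' : V.valuation (2 : ℂ) ^ 3 * V.valuation (XH z) ^ 2 =
      V.valuation (XH z ^ 2 + 4 * XH z + 2) ^ 2 := by
    have h3 := congrArg V.valuation hdup
    rw [map_mul, map_mul, Valuation.map_neg] at h3
    rw [← h3, mul_pow, mul_pow, hx']
    simp only [pow_succ, pow_zero, one_mul]
    ac_rfl
  have hx : V.valuation (XH z) ^ 2 = V.valuation (2 : ℂ) := by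
    rcases lt_trichotomy (V.valuation (XH z) ^ 2) (V.valuation (2 : ℂ)) with h | h | h
    · exfalso
      have hX1 : V.valuation (XH z) ≤ 1 := by
        refine (pow_le_one_iff two_ne_zero).1 ?_
        exact (h.trans h2).le
      have h4 : V.valuation (XH z ^ 2 + 4 * XH z) < V.valuation (2 : ℂ) := by
        refine Valuation.map_add_lt V.valuation ?_ ?_
        · rw [map_pow]
          exact h
        · rw [map_mul, vh_four, sq]
          have h5 : V.valuation (2 : ℂ) * (V.valuation (2 : ℂ) * V.valuation (XH z)) <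
              V.valuation (2 : ℂ) * 1 := by
            refine mul_lt_mul_of_pos_left ?_ h2pos
            exact mul_lt_one_of_lt_of_le h2 hX1
          rwa [mul_one, ← mul_assoc] at h5
      rw [Valuation.map_add_eq_of_lt_right V.valuation h4] at hdup'
      have h5 : V.valuation (2 : ℂ) * V.valuation (XH z) ^ 2 = 1 := by
        apply mul_left_cancel₀ (pow_ne_zero 2 h20)
        rw [mul_one, ← mul_assoc, ← pow_succ]
        exact hdup'
      have h6 := mul_lt_one_of_lt_of_le h2 (h.trans h2).le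
      rw [h5] at h6
      exact lt_irrefl _ h6
    · exact h
    · exfalso
      have hX0 : V.valuation (XH z) ≠ 0 := by
        intro h0
        rw [h0, zero_pow two_ne_zero] at h
        exact absurd h (not_lt.2 zero_le)
      have hXpos : 0 < V.valuation (XH z) := zero_lt_iff.2 hX0
      have h4X : V.valuation (2 : ℂ) ^ 2 < V.valuation (XH z) := by
        refine lt_of_pow_lt_pow_left₀ 2 zero_le ?_
        refine lt_of_le_of_lt ?_ h
        have h3 : (V.valuation (2 : ℂ) ^ 2) ^ 2 ≤ V.valuation (2 : ℂ) ^ 1 := by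
          rw [← pow_mul]
          exact pow_le_pow_of_le_one zero_le h2.le (by norm_num)
        rwa [pow_one] at h3
      have h4 : V.valuation (4 * XH z + 2) < V.valuation (XH z ^ 2) := by
        refine Valuation.map_add_lt V.valuation ?_ ?_
        · rw [map_mul, vh_four, map_pow, sq (V.valuation (XH z))]
          exact mul_lt_mul_of_pos_right h4X hXpos
        · rw [map_pow]
          exact h
      rw [add_assoc, Valuation.map_add_eq_of_lt_left V.valuation h4, map_pow] at hdup'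
      have h5 : V.valuation (2 : ℂ) ^ 3 = V.valuation (XH z) ^ 2 := by
        apply mul_right_cancel₀ (pow_ne_zero 2 hX0)
        rw [hdup', sq (V.valuation (XH z) ^ 2)]
      rw [← h5] at h
      exact lt_asymm h e32
  -- the valuation of `x - y`
  have hprod : V.valuation (2 : ℂ) ^ 7 =
      V.valuation (XH z - XH w) ^ 2 * V.valuation (XH z * XH w - 2) ^ 2 := by
    have h3 := congrArg V.valuation hT
    rw [map_mul, map_mul, map_mul, Valuation.map_neg, map_mul] at h3
    rw [← mul_pow, ← h3, mul_pow, mul_pow, mul_pow, hx, hy1, hH1]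
    simp only [pow_succ, pow_zero, one_mul]
    ac_rfl
  have e : XH z * XH w - 2 = XH w * (XH z - XH w) + (XH w ^ 2 - 2) := by ring
  have e1 : V.valuation (XH w * (XH z - XH w)) ^ 2 =
      V.valuation (2 : ℂ) * V.valuation (XH z - XH w) ^ 2 := by
    rw [map_mul, mul_pow, hy1]
  rcases lt_trichotomy (V.valuation (XH z - XH w) ^ 2) (V.valuation (2 : ℂ) ^ 3) with h | h | h
  · exfalso
    have h5 : V.valuation (XH w * (XH z - XH w)) < V.valuation (2 : ℂ) ^ 2 := by
      refine lt_of_pow_lt_pow_left₀ 2 zero_le ?_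
      rw [e1]
      have h6 := mul_lt_mul_of_pos_left h h2pos
      refine h6.trans_eq ?_
      simp only [pow_succ, pow_zero, one_mul]
      ac_rfl
    have h6 : V.valuation (XH z * XH w - 2) < V.valuation (2 : ℂ) ^ 2 := by
      rw [e]
      exact Valuation.map_add_lt V.valuation h5 hy2
    have h7 := mul_lt_mul'' h (pow_lt_pow_left₀ h6 zero_le two_ne_zero) zero_le zero_le
    rw [← hprod] at h7
    have h8 : V.valuation (2 : ℂ) ^ 3 * (V.valuation (2 : ℂ) ^ 2) ^ 2 =
        V.valuation (2 : ℂ) ^ 7 := by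
      simp only [pow_succ, pow_zero, one_mul]
      ac_rfl
    rw [h8] at h7
    exact lt_irrefl _ h7
  · exact h
  · exfalso
    have h5 : V.valuation (2 : ℂ) ^ 2 < V.valuation (XH w * (XH z - XH w)) := by
      refine lt_of_pow_lt_pow_left₀ 2 zero_le ?_
      rw [e1]
      have h6 := mul_lt_mul_of_pos_left h h2pos
      refine lt_of_eq_of_lt ?_ h6
      simp only [pow_succ, pow_zero, one_mul]
      ac_rfl
    have h6 : V.valuation (XH z * XH w - 2) = V.valuation (XH w * (XH z - XH w)) := by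
      rw [e, Valuation.map_add_eq_of_lt_left V.valuation (hy2.trans h5)]
    rw [h6, e1] at hprod
    have h7 := mul_lt_mul'' h (mul_lt_mul_of_pos_left h h2pos) zero_le zero_le
    rw [← hprod] at h7
    have h8 : V.valuation (2 : ℂ) ^ 3 * (V.valuation (2 : ℂ) * V.valuation (2 : ℂ) ^ 3) =
        V.valuation (2 : ℂ) ^ 7 := by
      simp only [pow_succ, pow_zero, one_mul]
      ac_rfl
    rw [h8] at h7
    exact lt_irrefl _ h7

private theorem vh_iter (h2 : V.valuation (2 : ℂ) < 1) {α : O2} (hα : IsOddH α) (j : ℕ) :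
    ∀ {z : ℂ}, s2 ^ j * z ∉ LH.lattice →
    (∀ w : ℂ, w ∉ LH.lattice → α * w ∈ LH.lattice →
      V.valuation (XH (s2 ^ j * z) - XH w) ^ 2 = V.valuation (8 : ℂ)) →
    ∀ w : ℂ, w ∉ LH.lattice → α * w ∈ LH.lattice →
      V.valuation (XH z - XH w) ^ 2 = V.valuation (8 : ℂ) := by
  induction j with
  | zero =>
    intro z hz H
    simpa using H
  | succ j ih =>
    intro z hz H
    have e : s2 ^ (j + 1) * z = s2 ^ j * (s2 * z) := by ring
    rw [e] at hz H
    have h1 := ih hz H
    refine vh_step h2 hα ?_ h1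
    intro h3
    apply hz
    have h4 := mul_mem_LH ((⟨0, 1⟩ : O2) ^ j) h3
    rw [map_pow, coe_sqrtd] at h4
    exact h4

/-- the value from the valuations of the differences -/
private theorem vh_PsiH (h2 : V.valuation (2 : ℂ) < 1) {α : O2} (hα : IsOddH α) {z : ℂ}
    (H : ∀ w : ℂ, w ∉ LH.lattice → α * w ∈ LH.lattice →
      V.valuation (XH z - XH w) ^ 2 = V.valuation (8 : ℂ)) :
    V.valuation (PsiH α z) = 1 := by
  have h20 : V.valuation (2 : ℂ) ≠ 0 := (Valuation.ne_zero_iff _).2 (by norm_num)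
  have hfin := HSH_finite hα.ne_zero
  unfold PsiH
  rw [finprod_mem_eq_finite_toFinset_prod _ hfin, map_prod]
  refine Finset.prod_eq_one fun t ht => ?_
  rw [Set.Finite.mem_toFinset] at ht
  obtain ⟨w, ⟨hw, hαw⟩, rfl⟩ := ht
  have h3 := H w hw hαw
  have h4 := (val_odd h2 hw hα hαw).1
  refine (pow_left_inj₀ zero_le zero_le two_ne_zero).1 ?_
  rw [one_pow, map_div₀, map_mul, div_pow, mul_pow, h3, h4, vh_eight, ← pow_succ]
  exact div_self (pow_ne_zero 3 h20)

theorem val_PsiH_not_pow (h2 : V.valuation (2 : ℂ) < 1) {α : O2} {N : ℕ} (hN : 4 ∣ N)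
    (hN0 : N ≠ 0) (hN' : ¬ IsPrimePow N) (hα : IsCoprime α (N : O2)) {a : O2}
    (ha : IsCoprime a (N : O2)) : V.valuation (PsiH α (a / N)) = 1 := by
  obtain ⟨n, N', hodd, hNe⟩ := Nat.exists_eq_two_pow_mul_odd hN0
  have hn0 : n ≠ 0 := by
    rintro rfl
    rw [pow_zero, one_mul] at hNe
    rw [hNe] at hN
    exact (Nat.not_even_iff_odd.2 hodd) ((even_iff_two_dvd).2 (dvd_trans (by norm_num) hN))
  have hN'1 : N' ≠ 1 := by
    rintro rfl
    apply hN'
    rw [hNe, mul_one]
    exact (Nat.prime_two.isPrimePow).pow hn0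
  have hN'C : (N' : ℂ) ≠ 0 := by
    have : N' ≠ 0 := by
      rintro rfl
      exact absurd hodd (by decide)
    exact_mod_cast this
  have hcoe : ((N' : O2) : ℂ) = (N' : ℂ) := map_natCast toC N'
  have hN'0 : (N' : O2) ≠ 0 := by
    intro h0
    apply hN'C
    rw [← hcoe, h0, map_zero]
  -- alpha is odd
  have hdvd : ((2 : ℕ) : O2) ∣ (N : O2) := Nat.cast_dvd_cast (dvd_trans (by norm_num : 2 ∣ 4) hN)
  have hαodd : IsOddH α := vh_isOdd (hα.of_isCoprime_of_dvd_right hdvd)
  have hN'dvd : (N' : O2) ∣ (N : O2) := Nat.cast_dvd_cast ⟨2 ^ n, by rw [hNe, mul_comm]⟩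
  have hN'α : IsCoprime (N' : O2) α := (hα.of_isCoprime_of_dvd_right hN'dvd).symm
  have hN'a : IsCoprime (N' : O2) a := (ha.of_isCoprime_of_dvd_right hN'dvd).symm
  refine vh_PsiH h2 hαodd ?_
  set b : O2 := (-1) ^ n * a with hb
  have hIu : IsUnit ((-1 : O2) ^ n) := IsUnit.pow n isUnit_one.neg
  have hz2 : s2 ^ (2 * n) * ((a : ℂ) / (N : ℂ)) = (b : ℂ) / ((N' : O2) : ℂ) := by
    have e1 : s2 ^ (2 * n) = (-1) ^ n * 2 ^ n := by
      rw [pow_mul, ← mul_pow]
      congr 1
      rw [sq, s2_mul_s2]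
      ring
    rw [e1, hcoe, hb, map_mul, map_pow, map_neg, map_one, hNe]
    push_cast
    field_simp
  have hαz : α * ((b : ℂ) / ((N' : O2) : ℂ)) ∉ LH.lattice := by
    intro h
    have e1 : (α : ℂ) * ((b : ℂ) / ((N' : O2) : ℂ)) = ((α * b : O2) : ℂ) / ((N' : O2) : ℂ) := by
      rw [toC.map_mul α b, mul_div_assoc]
    rw [e1, div_mem_iff hN'0] at h
    have h3 := hN'a.dvd_of_dvd_mul_right (hN'α.dvd_of_dvd_mul_left h)
    have h4 := isUnit_of_dvd_unit h3 hIu
    rw [← Zsqrtd.norm_eq_one_iff, Zsqrtd.norm_natCast] at h4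
    apply hN'1
    have h5 : N' * N' = 1 := by
      have : ((N' : ℤ) * (N' : ℤ)).natAbs = N' * N' := by
        rw [Int.natAbs_mul]
        simp
      rw [← this]
      exact h4
    exact Nat.eq_one_of_mul_eq_one_right h5
  have hz : (b : ℂ) / ((N' : O2) : ℂ) ∉ LH.lattice := fun h => hαz (mul_mem_LH α h)
  have hNz : ((N' : O2) : ℂ) * ((b : ℂ) / ((N' : O2) : ℂ)) ∈ LH.lattice := by
    rw [mul_div_cancel₀ _ (by rw [hcoe]; exact hN'C)]
    exact mem_LH.2 ⟨b, rfl⟩
  have hβ : IsOddH (α * (N' : O2)) := by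
    unfold IsOddH
    rw [nH_mul]
    refine Nat.odd_mul.2 ⟨hαodd, ?_⟩
    unfold nH
    rw [Zsqrtd.norm_natCast, Int.natAbs_mul]
    simpa using hodd.mul hodd
  refine vh_iter h2 hαodd (2 * n) ?_ ?_
  · rw [hz2]
    exact hz
  · rw [hz2]
    intro w hw hαw
    refine val_odd_odd h2 hz hw hβ ?_ ?_ ?_
    · rw [map_mul, mul_assoc]
      exact mul_mem_LH α hNz
    · rw [map_mul, mul_comm (α : ℂ), mul_assoc]
      exact mul_mem_LH _ hαw
    · intro heq
      apply hαz
      rcases (XH_eq_iff hz hw).1 heq with hε | hε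
      · have h3 := mul_mem_LH α hε
        have h5 : (α : ℂ) * ((b : ℂ) / ((N' : O2) : ℂ)) =
            α * ((b : ℂ) / ((N' : O2) : ℂ) - w) + α * w := by ring
        rw [h5]
        exact add_mem h3 hαw
      · have h3 := mul_mem_LH α hε
        have h5 : (α : ℂ) * ((b : ℂ) / ((N' : O2) : ℂ)) =
            α * ((b : ℂ) / ((N' : O2) : ℂ) + w) - α * w := by ring
        rw [h5]
        exact sub_mem h3 hαw

end val

end Pool.Agent.CMH
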