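import Pool.Agent.CMH.ValTwo
import Pool.Agent.CMH.PsiOrd

/-!
# valuations over 2: N a power of 2

`e = -log v`, `e(2) = 1` as in `ValTwo.lean`, `s = s2`. Let `u` have exact order `s^m`, `m ≥ 1` (`s^m u ∈ L`,
`s^{m-1} u ∉ L`), `w ∈ E[α] ∖ 0`, `t = XH w`, `A_m = e(XH u - t)`. Claim: `A_m = 3/2 - 2^{-(m-1)}`, i.e.
`(v(XH u - t)²)^{2^{m-1}} = v(2)^{3·2^{m-1} - 2}`. `m = 1`: `u ≡ τ`, `XH u = 0`, `A_1 = e(t) = 1/2`
(`val_odd`). Step `m ≥ 2`: `x = XH u` has `e(x) = 1/2` (`m = 2`: `x² + 4x + 2 = 0`; `m > 2`: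
`2xx' = -(x² + 4x + 2)`, `e(x') = 1/2`, as in `ValNP.lean`). `T_sub` for `u, w`:
`2 + A_{m-1} = A_m + e(xt - 2)`, `xt - 2 = t(x-t) + (t²-2)`, `e(t² - 2) > 2`. If `A_m ≥ 3/2` then
`e(xt-2) ≥ 2` and `A_{m-1} ≥ 3/2`, contradiction to the induction hypothesis; so `A_m < 3/2`,
`e(xt-2) = A_m + 1/2` and `2A_m = A_{m-1} + 3/2`. For `u = a/2^n`, `m = 2n` (`2 = -s²`).
`PsiH α u = ∏_t 2t/(XH u - t)`, `(Nα-1)/2` factors with `e = 3/2 - A_{2n} = 2^{-(2n-1)}`.
-/

set_option autoImplicit false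

noncomputable section

open Complex Filter Topology
open scoped PeriodPair Classical

namespace Pool.Agent.CMH

section val

variable {V : ValuationSubring ℂ}

private theorem vq_four : V.valuation (4 : ℂ) = V.valuation (2 : ℂ) ^ 2 := by
  rw [← map_pow]
  congr 1
  norm_num

/-- `e(x) = 1/2` from `e(x') ≥ 1/2` -/
private theorem vq_x (h2 : V.valuation (2 : ℂ) < 1) {x x' : ℂ}
    (hdup : 2 * x * x' = -(x ^ 2 + 4 * x + 2))
    (hx' : V.valuation x' ^ 2 ≤ V.valuation (2 : ℂ)) : V.valuation x ^ 2 = V.valuation (2 : ℂ) := by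
  have h20 : V.valuation (2 : ℂ) ≠ 0 := (Valuation.ne_zero_iff _).2 (by norm_num)
  have h2pos : 0 < V.valuation (2 : ℂ) := zero_lt_iff.2 h20
  have hdup' : V.valuation (2 : ℂ) ^ 2 * V.valuation x ^ 2 * V.valuation x' ^ 2 =
      V.valuation (x ^ 2 + 4 * x + 2) ^ 2 := by
    have h3 := congrArg V.valuation hdup
    rw [map_mul, map_mul, Valuation.map_neg] at h3
    rw [← h3, mul_pow, mul_pow]
  rcases lt_trichotomy (V.valuation x ^ 2) (V.valuation (2 : ℂ)) with h | h | h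
  · exfalso
    have hX1 : V.valuation x ≤ 1 := by
      refine (pow_le_one_iff two_ne_zero).1 ?_
      exact (h.trans h2).le
    have h4 : V.valuation (x ^ 2 + 4 * x) < V.valuation (2 : ℂ) := by
      refine Valuation.map_add_lt V.valuation ?_ ?_
      · rw [map_pow]
        exact h
      · rw [map_mul, vq_four, sq]
        have h5 : V.valuation (2 : ℂ) * (V.valuation (2 : ℂ) * V.valuation x) <
            V.valuation (2 : ℂ) * 1 := by
          refine mul_lt_mul_of_pos_left ?_ h2pos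
          exact mul_lt_one_of_lt_of_le h2 hX1
        rwa [mul_one, ← mul_assoc] at h5
    rw [Valuation.map_add_eq_of_lt_right V.valuation h4] at hdup'
    have h5 : V.valuation x ^ 2 * V.valuation x' ^ 2 = 1 := by
      apply mul_left_cancel₀ (pow_ne_zero 2 h20)
      rw [mul_one, ← mul_assoc]
      exact hdup'
    have h6 := mul_lt_one_of_lt_of_le (h.trans h2) (hx'.trans h2.le)
    rw [h5] at h6
    exact lt_irrefl _ h6
  · exact h
  · exfalso
    have hX0 : V.valuation x ≠ 0 := by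
      intro h0
      rw [h0, zero_pow two_ne_zero] at h
      exact absurd h (not_lt.2 zero_le)
    have hXpos : 0 < V.valuation x := zero_lt_iff.2 hX0
    have h4X : V.valuation (2 : ℂ) ^ 2 < V.valuation x := by
      refine lt_of_pow_lt_pow_left₀ 2 zero_le ?_
      refine lt_of_le_of_lt ?_ h
      have h3 : (V.valuation (2 : ℂ) ^ 2) ^ 2 ≤ V.valuation (2 : ℂ) ^ 1 := by
        rw [← pow_mul]
        exact pow_le_pow_of_le_one zero_le h2.le (by norm_num)
      rwa [pow_one] at h3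
    have h4 : V.valuation (4 * x + 2) < V.valuation (x ^ 2) := by
      refine Valuation.map_add_lt V.valuation ?_ ?_
      · rw [map_mul, vq_four, map_pow, sq (V.valuation x)]
        exact mul_lt_mul_of_pos_right h4X hXpos
      · rw [map_pow]
        exact h
    rw [add_assoc, Valuation.map_add_eq_of_lt_left V.valuation h4, map_pow] at hdup'
    have h5 : V.valuation (2 : ℂ) ^ 2 * V.valuation x' ^ 2 = V.valuation x ^ 2 := by
      apply mul_right_cancel₀ (pow_ne_zero 2 hX0)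
      rw [mul_assoc, mul_comm (V.valuation x' ^ 2), ← mul_assoc, hdup',
        sq (V.valuation x ^ 2)]
    rw [← h5] at h
    have h6 : V.valuation (2 : ℂ) ^ 2 * V.valuation x' ^ 2 ≤ 1 * V.valuation (2 : ℂ) :=
      mul_le_mul' (pow_le_one₀ zero_le h2.le) hx'
    rw [one_mul] at h6
    exact absurd h (not_lt.2 h6)

private theorem vq_nat_mem {α : O2} {w : ℂ} (h : α * w ∈ LH.lattice) :
    ((nH α : O2) : ℂ) * w ∈ LH.lattice := by
  have h1 := mul_mem_LH (star α) h
  have h2 : ((nH α : ℕ) : ℤ) = α.norm := Int.natAbs_of_nonneg (norm_nonneg' α)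
  have h3 : (nH α : O2) = star α * α := by
    rw [mul_comm, ← Zsqrtd.norm_eq_mul_conj, ← h2]
    push_cast
    rfl
  rw [h3, map_mul, mul_assoc]
  exact h1

private theorem vq_of_s {w : ℂ} (h : s2 * w ∈ LH.lattice) : ((2 : O2) : ℂ) * w ∈ LH.lattice := by
  have h3 := neg_mem (s2_mul_mem h)
  have h4 : ((2 : O2) : ℂ) * w = -(s2 * (s2 * w)) := by
    have : ((2 : O2) : ℂ) = 2 := map_ofNat toC 2
    rw [this]
    linear_combination w * s2_mul_s2
  rw [h4]
  exact h3

/-- multiplication by `√-2` on points of odd order -/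
private theorem vq_mul_s {α : O2} (hα : IsOddH α) {w : ℂ} (hw : w ∉ LH.lattice)
    (h : α * w ∈ LH.lattice) : s2 * w ∉ LH.lattice ∧ α * (s2 * w) ∈ LH.lattice := by
  constructor
  · intro h1
    apply hw
    have h7 : IsCoprime (2 : O2) (nH α : O2) := by
      have h8 : Nat.Coprime 2 (nH α) := (Nat.coprime_two_left).2 hα
      have h9 := (Nat.isCoprime_iff_coprime.2 h8).map (Int.castRingHom O2)
      simpa using h9
    exact mem_of_coprime h7 (vq_of_s h1) (vq_nat_mem h)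
  · have h1 := s2_mul_mem h
    have h2 : (α : ℂ) * (s2 * w) = s2 * (α * w) := by ring
    rw [h2]
    exact h1

private theorem vq_pow_mul {z : ℂ} (m : ℕ) (hz : z ∈ LH.lattice) : s2 ^ m * z ∈ LH.lattice := by
  induction m with
  | zero => simpa using hz
  | succ m ih =>
    have := s2_mul_mem ih
    rwa [← mul_assoc, ← pow_succ'] at this

/-- `XH` vanishes at the nontrivial point killed by `√-2` -/
private theorem vq_tau {u : ℂ} (h : s2 * u ∈ LH.lattice) (hu : u ∉ LH.lattice) : XH u = 0 := by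
  exact (XH_eq_zero_iff hu).2 ((mem_or_tau h).resolve_left hu)

private theorem vq_claim (h2 : V.valuation (2 : ℂ) < 1) {α : O2} (hα : IsOddH α) (m : ℕ) :
    ∀ u : ℂ, s2 ^ (m + 1) * u ∈ LH.lattice → s2 ^ m * u ∉ LH.lattice →
      V.valuation (XH u) ^ 2 ≤ V.valuation (2 : ℂ) ∧
      ∀ w : ℂ, w ∉ LH.lattice → (α : ℂ) * w ∈ LH.lattice →
        V.valuation (2 : ℂ) ^ 3 < V.valuation (XH u - XH w) ^ 2 ∧
        (V.valuation (XH u - XH w) ^ 2) ^ (2 ^ m) = V.valuation (2 : ℂ) ^ (3 * 2 ^ m - 2) := by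
  have h20 : V.valuation (2 : ℂ) ≠ 0 := (Valuation.ne_zero_iff _).2 (by norm_num)
  have h2pos : 0 < V.valuation (2 : ℂ) := zero_lt_iff.2 h20
  induction m with
  | zero =>
    intro u h1 h3
    rw [zero_add, pow_one] at h1
    rw [pow_zero, one_mul] at h3
    have h5 : XH u = 0 := vq_tau h1 h3
    refine ⟨?_, fun w hw hαw => ?_⟩
    · rw [h5, map_zero, zero_pow two_ne_zero]
      exact zero_le
    have h6 : V.valuation (XH u - XH w) ^ 2 = V.valuation (2 : ℂ) := by
      rw [h5, zero_sub, Valuation.map_neg]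
      exact (val_odd h2 hw hα hαw).1
    rw [h6]
    refine ⟨?_, ?_⟩
    · have h3 : V.valuation (2 : ℂ) ^ 3 < V.valuation (2 : ℂ) ^ 1 :=
        pow_lt_pow_right_of_lt_one₀ h2pos h2 (by norm_num)
      rwa [pow_one] at h3
    · simp
  | succ m ih =>
    intro u h1 h3
    have h5 : s2 ^ (m + 1) * (s2 * u) ∈ LH.lattice := by
      rw [← mul_assoc, ← pow_succ]
      exact h1
    have h6 : s2 ^ m * (s2 * u) ∉ LH.lattice := by
      rw [← mul_assoc, ← pow_succ]
      exact h3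
    have hz : s2 * u ∉ LH.lattice := fun h => h6 (vq_pow_mul m h)
    obtain ⟨ih1, ih2⟩ := ih _ h5 h6
    have hx : V.valuation (XH u) ^ 2 = V.valuation (2 : ℂ) := vq_x h2 (XH_mul_s hz) ih1
    refine ⟨hx.le, fun w hw hαw => ?_⟩
    obtain ⟨hw', hαw'⟩ := vq_mul_s hα hw hαw
    obtain ⟨h7, h8⟩ := ih2 _ hw' hαw'
    obtain ⟨hy, hy2⟩ := val_odd h2 hw hα hαw
    rw [vq_four] at hy2
    have hT := T_sub (x := XH u) (y := XH w) rfl rfl hz hw'
    have hT' : V.valuation (2 : ℂ) ^ 4 * V.valuation (XH (s2 * u) - XH (s2 * w)) ^ 2 =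
        V.valuation (XH u - XH w) ^ 2 * V.valuation (XH u * XH w - 2) ^ 2 := by
      have h3 := congrArg V.valuation hT
      rw [map_mul, map_mul, map_mul, Valuation.map_neg, map_mul] at h3
      rw [← mul_pow, ← h3, mul_pow, mul_pow, mul_pow, hx, hy, ← pow_succ, ← pow_succ]
    have hxy : XH u * XH w - 2 = XH w * (XH u - XH w) + (XH w ^ 2 - 2) := by ring
    have e1 : V.valuation (XH w * (XH u - XH w)) ^ 2 =
        V.valuation (2 : ℂ) * V.valuation (XH u - XH w) ^ 2 := by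
      rw [map_mul, mul_pow, hy]
    have e4 : (V.valuation (2 : ℂ) ^ 2) ^ 2 = V.valuation (2 : ℂ) * V.valuation (2 : ℂ) ^ 3 := by
      rw [← pow_mul, ← pow_succ']
    have hgt : V.valuation (2 : ℂ) ^ 3 < V.valuation (XH u - XH w) ^ 2 := by
      by_contra hle
      rw [not_lt] at hle
      have h9 : V.valuation (XH u * XH w - 2) ≤ V.valuation (2 : ℂ) ^ 2 := by
        rw [hxy]
        refine Valuation.map_add_le _ ?_ hy2.le
        refine (pow_le_pow_iff_left₀ zero_le zero_le two_ne_zero).1 ?_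
        rw [e1, e4]
        exact mul_le_mul' le_rfl hle
      have h10 := mul_le_mul' hle (pow_le_pow_left₀ zero_le h9 2)
      rw [← hT', ← pow_mul, mul_comm] at h10
      have h40 : (0 : V.ValueGroup) < V.valuation (2 : ℂ) ^ 4 := pow_pos h2pos 4
      exact absurd h7 (not_lt.2 (le_of_mul_le_mul_right h10 h40))
    have h9 : V.valuation (XH u * XH w - 2) = V.valuation (XH w * (XH u - XH w)) := by
      rw [hxy, Valuation.map_add_eq_of_lt_left]
      refine hy2.trans ?_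
      refine lt_of_pow_lt_pow_left₀ 2 zero_le ?_
      rw [e1, e4]
      exact mul_lt_mul_of_pos_left hgt h2pos
    rw [h9, e1] at hT'
    have hT2 : V.valuation (2 : ℂ) ^ 3 * V.valuation (XH (s2 * u) - XH (s2 * w)) ^ 2 =
        (V.valuation (XH u - XH w) ^ 2) ^ 2 := by
      apply mul_left_cancel₀ h20
      rw [← mul_assoc, ← pow_succ', hT', sq (V.valuation (XH u - XH w) ^ 2), mul_left_comm]
    refine ⟨hgt, ?_⟩
    have h10 : 2 ^ (m + 1) = 2 * 2 ^ m := by rw [pow_succ]; ring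
    have h11 : 1 ≤ 2 ^ m := Nat.one_le_two_pow
    rw [h10, pow_mul _ 2 (2 ^ m), ← hT2, mul_pow, h8, ← pow_mul, ← pow_add]
    congr 1
    omega

theorem val_PsiH_pow (h2 : V.valuation (2 : ℂ) < 1) {α : O2} {n : ℕ} (hn : 2 ≤ n)
    (hα : IsOddH α) {a : O2} (ha : IsOddH a) :
    V.valuation (PsiH α (a / (2 ^ n : ℕ))) ^ (2 ^ (2 * n - 1)) =
      V.valuation (2 : ℂ) ^ ((nH α - 1) / 2) := by
  have h20 : V.valuation (2 : ℂ) ≠ 0 := (Valuation.ne_zero_iff _).2 (by norm_num)
  set u : ℂ := (a : ℂ) / (2 ^ n : ℕ) with hu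
  have h2n : ((2 ^ n : ℕ) : ℂ) = 2 ^ n := by push_cast; ring
  have hpow : s2 ^ (2 * n) * u = (-1) ^ n * a := by
    have e1 : s2 ^ (2 * n) = (-1) ^ n * 2 ^ n := by
      rw [pow_mul, ← mul_pow]
      congr 1
      rw [sq, s2_mul_s2]
      ring
    rw [e1, hu, h2n]
    have : (2 : ℂ) ^ n ≠ 0 := pow_ne_zero _ two_ne_zero
    field_simp
  have h1 : s2 ^ (2 * n - 1 + 1) * u ∈ LH.lattice := by
    have h3 : 2 * n - 1 + 1 = 2 * n := by omega
    rw [h3, hpow]
    have h4 : ((-1) ^ n * (a : ℂ)) = (((-1) ^ n * a : O2) : ℂ) := by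
      rw [map_mul, map_pow, map_neg, map_one]
    rw [h4]
    exact mem_LH.2 ⟨_, rfl⟩
  have h3 : s2 ^ (2 * n - 1) * u ∉ LH.lattice := by
    intro h
    obtain ⟨c, hc⟩ := mem_LH.1 h
    have h4 : s2 * (c : ℂ) = (-1) ^ n * a := by
      rw [hc, ← hpow, ← mul_assoc, ← pow_succ']
      congr 2
      omega
    have h4' : (⟨0, 1⟩ : O2) * c = (-1) ^ n * a := by
      apply toC_injective
      rw [map_mul, coe_sqrtd, h4, map_mul, map_pow, map_neg, map_one]
    have h5 := congrArg nH h4'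
    rw [nH_mul, nH_mul] at h5
    have h6 : nH (⟨0, 1⟩ : O2) = 2 := by decide
    have h7 : nH ((-1) ^ n : O2) = 1 := by
      have h8 : IsUnit ((-1 : O2) ^ n) := IsUnit.pow n isUnit_one.neg
      exact Zsqrtd.norm_eq_one_iff.2 h8
    rw [h6, h7, one_mul] at h5
    have h8 : Odd (nH a) := ha
    rw [← h5] at h8
    exact (Nat.not_odd_iff_even.2 (even_two_mul _)) h8
  have hcl := (vq_claim h2 hα (2 * n - 1) u h1 h3).2
  set e := 2 ^ (2 * n - 1) with he
  have he1 : 1 ≤ e := Nat.one_le_two_pow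
  have hfin := HSH_finite hα.ne_zero
  have hcard := HSH_card hα
  rw [Set.ncard_eq_toFinset_card _ hfin] at hcard
  have hN : (nH α - 1) / 2 = hfin.toFinset.card := by omega
  rw [hN]
  unfold PsiH
  rw [finprod_mem_eq_finite_toFinset_prod _ hfin, map_prod, ← Finset.prod_pow,
    ← Finset.prod_const]
  refine Finset.prod_congr rfl fun t ht => ?_
  obtain ⟨w, ⟨hw, hαw⟩, rfl⟩ := (Set.Finite.mem_toFinset hfin).1 ht
  have h5 := (hcl w hw hαw).2
  have h6 := (val_odd h2 hw hα hαw).1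
  refine (pow_left_inj₀ zero_le zero_le two_ne_zero).1 ?_
  rw [← pow_mul, mul_comm e 2, pow_mul, map_div₀, map_mul, div_pow, mul_pow, h6, ← pow_succ,
    div_pow, h5, ← pow_mul]
  rw [div_eq_iff (pow_ne_zero _ h20), ← pow_add]
  congr 1
  omega

end val

end Pool.Agent.CMH
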