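import Pool.Agent.CMH.ValTors
import Pool.Agent.CMH.PsiOrd

/-!
# valuations: PsiH is a unit at odd places

`z = a/N`, `PsiH α z = ∏_{t ∈ HSH α} 2t/(XH z - t)`, so it is enough that `v(XH z - XH w) = v(XH w)` for
every `w ∈ E[α] ∖ 0`. `z ∉ InH`: otherwise `(N/2) z ∈ InH` is killed by `2`, so it is in `L` (`mem_of_InH`,
`v(2) = 1`), but `a` is prime to `N`. If `w ∈ InH` then `v(XH z) ≤ 1 < v(XH w)` and
`v(XH z - XH w) = v(XH w)`. If `w ∉ InH`: `v(XH z - XH w) = 1`, otherwise `z ± w ∈ InH` (`InH_of_XH_sub`),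
so `αz ∈ InH` and `N w ∈ InH`, thus `w ∈ InH` (`N` is prime to `α`, `αw ∈ L`), a contradiction; moreover
`v(XH w) = 1`: otherwise `v(XH w - XH τ) < 1` (`XH τ = 0`, `τ ∉ InH`), `w ± τ ∈ InH`,
`α(w ± τ) ≡ ±τ ∈ InH` (`odd_mul_tau`), contradiction.
-/

set_option autoImplicit false

noncomputable section

open Complex Filter Topology
open scoped PeriodPair Classical

namespace Pool.Agent.CMH

section val

variable {V : ValuationSubring ℂ}

private theorem vu_isOdd {α : O2} (h : IsCoprime α ((2 : ℕ) : O2)) : IsOddH α := by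
  obtain ⟨u, v, huv⟩ := h
  have h1 := congrArg Zsqrtd.re huv
  rw [Zsqrtd.re_add, Zsqrtd.re_mul, Zsqrtd.re_mul, Zsqrtd.re_natCast, Zsqrtd.im_natCast,
    Zsqrtd.re_one] at h1
  rw [isOddH_iff]
  by_contra hne
  rw [Int.not_odd_iff_even] at hne
  obtain ⟨t, ht⟩ := hne
  rw [ht] at h1
  have h2 : (2 : ℤ) ∣ 1 := ⟨u.re * t - u.im * α.im + v.re, by
    rw [← h1]
    push_cast
    ring⟩
  exact absurd h2 (by decide)

private theorem InH_of_mem {u : ℂ} (h : u ∈ LH.lattice) : InH V u := Or.inl h

private theorem not_InH_tau : ¬ InH V tauH := by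
  rintro (h | h)
  · exact tau_notMem h
  · rw [XH_tau, map_zero] at h
    exact absurd h (not_lt.2 zero_le)

private theorem not_InH_div (h2 : V.valuation (2 : ℂ) = 1) {N : ℕ} (hN : 4 ∣ N)
    (hN0 : N ≠ 0) {a : O2} (ha : IsCoprime a (N : O2)) :
    ¬ InH V ((a : ℂ) / N) := by
  intro h
  obtain ⟨M, rfl⟩ := hN
  have hM : (M : ℂ) ≠ 0 := by
    intro h0
    apply hN0
    have : M = 0 := by exact_mod_cast h0
    rw [this]
  have h1 := h.mul ((2 * M : ℕ) : O2)
  have hc : (((2 : O2)) : ℂ) = 2 := map_ofNat toC 2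
  have e1 : (((2 * M : ℕ) : O2) : ℂ) * ((a : ℂ) / ((4 * M : ℕ) : ℂ)) =
      (a : ℂ) / ((2 : O2) : ℂ) := by
    rw [hc]
    simp only [map_natCast]
    push_cast
    field_simp
    ring
  rw [e1] at h1
  have h3 : (2 : O2) ∣ a := by
    have h20 : (2 : O2) ≠ 0 := by decide
    rw [← div_mem_iff h20]
    refine mem_of_InH (V := V) (α := (2 : O2)) (by rw [hc]; exact h2) ?_ h1
    rw [mem_LH]
    refine ⟨a, ?_⟩
    rw [hc]
    field_simp
  obtain ⟨u, v, huv⟩ := ha
  have h4 : (2 : O2) ∣ 1 := by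
    rw [← huv]
    refine dvd_add (h3.mul_left u) (Dvd.dvd.mul_left ?_ v)
    exact ⟨((2 * M : ℕ) : O2), by push_cast; ring⟩
  obtain ⟨c, hc'⟩ := h4
  have := congrArg Zsqrtd.re hc'
  obtain ⟨x, y⟩ := c
  simp [Zsqrtd.re_mul] at this
  omega

theorem val_PsiH_of_two (h2 : V.valuation (2 : ℂ) = 1) {α : O2} {N : ℕ} (hN : 4 ∣ N)
    (hN0 : N ≠ 0) (hα : IsCoprime α (N : O2)) {a : O2} (ha : IsCoprime a (N : O2)) :
    V.valuation (PsiH α (a / N)) = 1 := by
  have hdvd : ((2 : ℕ) : O2) ∣ (N : O2) := Nat.cast_dvd_cast (dvd_trans (by norm_num : 2 ∣ 4) hN)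
  have hodd : IsOddH α := vu_isOdd (hα.of_isCoprime_of_dvd_right hdvd)
  have hNC : (N : ℂ) ≠ 0 := by exact_mod_cast hN0
  have hzin : ¬ InH V ((a : ℂ) / N) := not_InH_div h2 hN hN0 ha
  set z : ℂ := (a : ℂ) / N with hz
  have hzv : V.valuation (XH z) ≤ 1 := by
    by_contra h
    exact hzin (Or.inr (not_le.1 h))
  -- the valuations of the factors
  have key : ∀ w : ℂ, w ∉ LH.lattice → (α : ℂ) * w ∈ LH.lattice →
      V.valuation (XH z - XH w) = V.valuation (XH w) := by
    intro w hwL hαw
    by_cases hwin : InH V w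
    · have h1 : 1 < V.valuation (XH w) := by
        rcases hwin with h | h
        · exact absurd h hwL
        · exact h
      exact Valuation.map_sub_eq_of_lt_right _ (lt_of_le_of_lt hzv h1)
    · have hwv : V.valuation (XH w) ≤ 1 := by
        by_contra h
        exact hwin (Or.inr (not_le.1 h))
      have h1 : V.valuation (XH w) = 1 := by
        refine le_antisymm hwv (not_lt.1 fun hlt => ?_)
        have h3 : V.valuation (XH w - XH tauH) < 1 := by rw [XH_tau, sub_zero]; exact hlt
        rcases InH_of_XH_sub h2 hwin not_InH_tau h3 with h | h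
        · have h4 := (h.mul α).add ((InH_of_mem (V := V) hαw).neg.add
            (InH_of_mem (V := V) (odd_mul_tau hodd)).neg)
          apply not_InH_tau (V := V)
          convert h4 using 1; ring
        · have h4 := (h.mul α).add ((InH_of_mem (V := V) hαw).neg.add
            (InH_of_mem (V := V) (odd_mul_tau hodd)))
          apply not_InH_tau (V := V)
          convert h4.neg using 1; ring
      rw [h1]
      refine le_antisymm ((Valuation.map_sub _ _ _).trans (max_le hzv hwv))
        (not_lt.1 fun hlt => ?_)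
      have haL : InH V (a : ℂ) := InH_of_mem (mem_LH.2 ⟨a, rfl⟩)
      have hNz : ((N : O2) : ℂ) * z = a := by
        rw [hz, map_natCast]
        field_simp
      have hNw : InH V (((N : O2) : ℂ) * w) := by
        rcases InH_of_XH_sub h2 hzin hwin hlt with h | h
        · have h4 := (h.mul (N : O2)).add haL.neg
          convert h4 using 1
          linear_combination -hNz
        · have h4 := (h.mul (N : O2)).add haL.neg
          convert h4.neg using 1
          linear_combination hNz
      obtain ⟨u, v, huv⟩ := hα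
      apply hwin
      have h5 := ((InH_of_mem (V := V) hαw).mul u).add (hNw.mul v)
      convert h5 using 1
      have h6 := congrArg toC huv
      rw [map_add, map_mul, map_mul, map_one] at h6
      linear_combination (-w) * h6
  have hfin := HSH_finite hodd.ne_zero
  unfold PsiH
  rw [finprod_mem_eq_finite_toFinset_prod _ hfin, map_prod]
  refine Finset.prod_eq_one fun t ht => ?_
  obtain ⟨w, ⟨hw, hαw⟩, rfl⟩ := (Set.Finite.mem_toFinset hfin).1 ht
  have h3 : V.valuation (XH w) ≠ 0 := by
    rw [Valuation.ne_zero_iff]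
    intro h0
    exact zero_notMem_HSH hodd ⟨w, ⟨hw, hαw⟩, h0⟩
  rw [map_div₀, map_mul, h2, one_mul, key w hw hαw]
  exact div_self h3

end val

end Pool.Agent.CMH
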