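import Pool.Agent.CMH.Eps
import Pool.Agent.CMH.KronH
import Pool.Agent.CMH.GalTN
import Pool.Agent.CMH.ValFrob
import Pool.Agent.CMH.ValUnit
import Pool.Agent.CMH.ValNP
import Pool.Agent.CMH.ValPow
import Pool.Agent.CMH.PsiSymm
import Pool.Agent.CMG.SMisc

/-!
# assembly: EllData for Q(√-2)

Compare `CMG/EllG.lean`. `h = XH`, `Ψ α = PsiH (e α)`, `e` from `exists_iso`, `N₀ = 4`, `m = 1`, `B = 2`. `α`
prime to `N`, `4 ∣ N` implies `α` odd (`isOddH_of_coprime`). `pid`: `Euclid.lean` and `e`. `val`: if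
`N = 2^n`: `K = 2^{2n-1}`, `L = (Nα - 1)/2` (both sides `1` if `v(2) = 1`, `val_PsiH_of_two`); otherwise
`K = 1`, `L = 0`. `nrm α = nH (e α)`: `nrm_eq_of`, `nH_eq`.
-/

set_option autoImplicit false

noncomputable section

open Complex Filter Topology NumberField
open scoped PeriodPair Classical

namespace Pool.Agent.CMH

open Pool.Agent.CMG (EllData pt nrm nrm_eq_of)

private theorem eh_natCast (N : ℕ) : (((N : ℕ) : O2) : ℂ) = (N : ℂ) := map_natCast toC N

private theorem eh_cast_ne {N : ℕ} (hN0 : N ≠ 0) : ((N : ℕ) : O2) ≠ 0 := by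
  intro h
  have h1 := congrArg Zsqrtd.re h
  rw [Zsqrtd.re_natCast, Zsqrtd.re_zero] at h1
  exact hN0 (by exact_mod_cast h1)

private theorem eh_div_mem {N : ℕ} (hN0 : N ≠ 0) (a : O2) :
    (a : ℂ) / (N : ℂ) ∈ LH.lattice ↔ (N : O2) ∣ a := by
  rw [← div_mem_iff (a := a) (eh_cast_ne hN0), eh_natCast]

private theorem eh_congr {α : O2} {z w : ℂ} (h : XH z = XH w) : PsiH α z = PsiH α w := by
  unfold PsiH
  rw [h]

private theorem eh_unit_mul {ε : O2} (hε : IsUnit ε) (z : ℂ) : XH (ε * z) = XH z := by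
  rcases isUnit_iff.1 hε with h | h
  · rw [h, map_one, one_mul]
  · rw [h, map_neg, map_one, neg_one_mul, XH_neg]

private theorem eh_mul_div_notMem {N : ℕ} (hN : 4 ∣ N) (hN0 : N ≠ 0) {α a : O2}
    (hα : IsCoprime α (N : O2)) (ha : IsCoprime a (N : O2)) :
    (α : ℂ) * (a / N) ∉ LH.lattice := by
  have := notMem_of_coprime hN hN0 (hα.mul_left ha)
  rwa [map_mul, mul_div_assoc] at this

section vals

variable {V : ValuationSubring ℂ}

private theorem eh_val_natCast {π : O2} {N : ℕ} (hπ : IsCoprime π (N : O2))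
    (hV : V.valuation (π : ℂ) < 1) : V.valuation (N : ℂ) = 1 := by
  refine le_antisymm (by simp) ?_
  by_contra h
  rw [not_le] at h
  obtain ⟨x, y, hxy⟩ := hπ
  have h1 : (x : ℂ) * π + y * N = 1 := by
    have := congrArg toC hxy
    simpa using this
  have h2 : V.valuation ((x : ℂ) * π + y * N) < 1 := by
    refine Valuation.map_add_lt _ ?_ ?_
    · rw [map_mul]
      exact (mul_le_of_le_one_left' (val_coe_le x)).trans_lt hV
    · rw [map_mul]
      exact (mul_le_of_le_one_left' (val_coe_le y)).trans_lt h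
  rw [h1, map_one] at h2
  exact lt_irrefl _ h2

private theorem eh_val_two_of {N : ℕ} (hN : 4 ∣ N) (h : V.valuation (N : ℂ) = 1) :
    V.valuation (2 : ℂ) = 1 := by
  obtain ⟨t, rfl⟩ := hN
  refine le_antisymm (by simp) ?_
  by_contra h2
  rw [not_le] at h2
  have h1 : ((4 * t : ℕ) : ℂ) = 2 * ((2 * t : ℕ) : ℂ) := by push_cast; ring
  rw [h1, map_mul] at h
  have h3 : V.valuation ((2 * t : ℕ) : ℂ) ≤ 1 :=
    (V.valuation_le_one_iff _).2 (natCast_mem V _)
  have h4 := (mul_le_of_le_one_right' h3).trans_lt h2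
  rw [h] at h4
  exact lt_irrefl _ h4

private theorem eh_notInH {N : ℕ} (hN : 4 ∣ N) (hN0 : N ≠ 0) {π a : O2}
    (hπ : IsCoprime π (N : O2)) (hV : V.valuation (π : ℂ) < 1)
    (ha : IsCoprime a (N : O2)) : ¬ InH V (a / N : ℂ) := by
  intro h
  refine notMem_of_coprime hN hN0 ha (mem_of_InH (α := (N : O2)) ?_ ?_ h)
  · rw [eh_natCast]
    exact eh_val_natCast hπ hV
  · rw [eh_natCast, mul_div_cancel₀ _ (Nat.cast_ne_zero.2 hN0)]
    exact mem_LH.2 ⟨a, rfl⟩

private theorem eh_frob {N : ℕ} (hN : 4 ∣ N) (hN0 : N ≠ 0) {π a : O2} (hπp : Prime π)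
    (hπ : IsCoprime π (N : O2)) (hV : V.valuation (π : ℂ) < 1)
    (ha : IsCoprime a (N : O2)) :
    XH (a / N) ∈ V ∧ V.valuation (XH (π * a / N) - XH (a / N) ^ nH π) < 1 := by
  have h1 := eh_notInH hN hN0 hπ hV ha
  constructor
  · rw [← ValuationSubring.valuation_le_one_iff]
    rw [InH, not_or, not_lt] at h1
    exact h1.2
  · rw [mul_div_assoc]
    exact frobH hπp (isOddH_of_coprime hN hπ) hV h1 (eh_mul_div_notMem hN hN0 hπ ha)

private theorem eh_red {N : ℕ} (hN : 4 ∣ N) (hN0 : N ≠ 0) {π a b : O2}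
    (hπ : IsCoprime π (N : O2)) (hV : V.valuation (π : ℂ) < 1)
    (ha : IsCoprime a (N : O2)) (hb : IsCoprime b (N : O2))
    (h : V.valuation (XH (a / N) - XH (b / N)) < 1) : XH (a / N) = XH (b / N) := by
  have h1 := eh_val_natCast hπ hV
  have h2 : ∀ c : O2, ((N : O2) : ℂ) * (c / N) ∈ LH.lattice := by
    intro c
    rw [eh_natCast, mul_div_cancel₀ _ (Nat.cast_ne_zero.2 hN0)]
    exact mem_LH.2 ⟨c, rfl⟩
  exact red_injH (n := (N : O2)) (by rwa [eh_natCast]) (eh_val_two_of hN h1)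
    (h2 a) (h2 b) (notMem_of_coprime hN hN0 ha) (notMem_of_coprime hN hN0 hb) h

private theorem eh_two_lt (h : ¬ V.valuation (2 : ℂ) < 1) : V.valuation (2 : ℂ) = 1 :=
  le_antisymm (by simp) (not_lt.1 h)

private theorem eh_val_one {N : ℕ} (hN : 4 ∣ N) (hN0 : N ≠ 0) (hN' : ¬ IsPrimePow N) {α a : O2}
    (hα : IsCoprime α (N : O2)) (ha : IsCoprime a (N : O2)) :
    V.valuation (PsiH α (a / N)) = 1 := by
  by_cases h2 : V.valuation (2 : ℂ) < 1
  · exact val_PsiH_not_pow h2 hN hN0 hN' hα ha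
  · exact val_PsiH_of_two (eh_two_lt h2) hN hN0 hα ha

end vals

private theorem eh_val {N : ℕ} (hN : 4 ∣ N) (hN0 : N ≠ 0) {α : O2}
    (hα : IsCoprime α (N : O2)) :
    ∃ K L : ℕ, 0 < K ∧ ∀ (V : ValuationSubring ℂ) (a : O2),
      IsCoprime a (N : O2) →
      V.valuation (PsiH α (a / N)) ^ K = V.valuation ((2 : ℕ) : ℂ) ^ L := by
  by_cases hN' : IsPrimePow N
  · obtain ⟨p, n, hp, hn, rfl⟩ := (isPrimePow_nat_iff _).1 hN'
    have hp2 : p = 2 := by
      have h1 : 2 ∣ p ^ n := dvd_trans (by norm_num) hN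
      exact ((Nat.prime_dvd_prime_iff_eq Nat.prime_two hp).1 (Nat.prime_two.dvd_of_dvd_pow h1)).symm
    subst hp2
    have hn2 : 2 ≤ n := by
      have h1 : 2 ^ 2 ∣ 2 ^ n := hN
      exact (Nat.pow_dvd_pow_iff_le_right (by norm_num)).1 h1
    refine ⟨2 ^ (2 * n - 1), (nH α - 1) / 2, by positivity, fun V a ha => ?_⟩
    rw [Nat.cast_ofNat]
    by_cases h2 : V.valuation (2 : ℂ) < 1
    · exact val_PsiH_pow h2 hn2 (isOddH_of_coprime hN hα) (isOddH_of_coprime hN ha)
    · rw [val_PsiH_of_two (eh_two_lt h2) hN hN0 hα ha, eh_two_lt h2, one_pow, one_pow]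
  · refine ⟨1, 0, one_pos, fun V a ha => ?_⟩
    rw [pow_one, pow_zero]
    exact eh_val_one hN hN0 hN' hα ha

private theorem eh_act {k : Type} [Field k] [NumberField k] [Algebra k ℂ]
    (hI : ∃ j : k, algebraMap k ℂ j = s2) {N : ℕ} (hN : 4 ∣ N) (hN0 : N ≠ 0)
    {x : ℂ} (hx : x = 1 / N)
    (h1 : ∀ a : O2, IsCoprime a (N : O2) →
      XH (a / N) ∈ IntermediateField.adjoin k {XH x})
    (h2 : ∀ α a : O2, IsCoprime α (N : O2) → IsCoprime a (N : O2) →
      PsiH α (a / N) ∈ IntermediateField.adjoin k {XH x})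
    (τ : IntermediateField.adjoin k {XH x} ≃ₐ[k] IntermediateField.adjoin k {XH x}) :
    ∃ c : O2, IsCoprime c (N : O2) ∧
    (∀ (a : O2) (ha : IsCoprime a (N : O2)),
      (τ ⟨XH (a / N), h1 a ha⟩ : ℂ) = XH (c * a / N)) ∧
    ∀ (α a : O2) (hα : IsCoprime α (N : O2))
      (ha : IsCoprime a (N : O2)),
      (τ ⟨PsiH α (a / N), h2 α a hα ha⟩ : ℂ) = PsiH α (c * a / N) := by
  subst hx
  exact act_TN hI hN hN0 τ

theorem exists_ellData {k : Type} [Field k] [NumberField k] [Algebra k ℂ]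
    (hk : Module.finrank ℚ k = 2) (hI : ∃ j : k, algebraMap k ℂ j = s2) :
    ∃ D : EllData k, D.N₀ = 4 ∧ D.m = 1 ∧ D.h = XH := by
  obtain ⟨e, he⟩ := exists_iso hk hI
  have hc := isTotallyComplex_of_s2 hk hI
  have hpt : ∀ (a : 𝓞 k) (N : ℕ), pt a N = (e a : ℂ) / N := fun a N => by rw [pt, ← he]
  have hpt1 : ∀ N : ℕ, pt (1 : 𝓞 k) N = 1 / N := fun N => by rw [hpt, map_one, map_one]
  have hcop : ∀ {a : 𝓞 k} {N : ℕ}, IsCoprime a (N : 𝓞 k) →
      IsCoprime (e a) (N : O2) := by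
    intro a N h
    have := h.map (e : 𝓞 k →+* O2)
    simpa using this
  have hcop1 : ∀ {a : 𝓞 k} {N : ℕ}, IsCoprime a ((1 * N : ℕ) : 𝓞 k) →
      IsCoprime (e a) (N : O2) := by
    intro a N h
    rw [one_mul] at h
    exact hcop h
  have hnrm : ∀ α : 𝓞 k, nrm α = nH (e α) := by
    intro α
    have h1 := nrm_eq_of hk hc α
    rw [← he, ← nH_eq] at h1
    exact_mod_cast h1
  have hdvd : ∀ {a b : 𝓞 k} {N : ℕ}, N ≠ 0 → (N : 𝓞 k) ∣ a - b → ∃ l ∈ LH.lattice,
      pt a N = pt b N + l := by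
    intro a b N hN0 ⟨c, hc⟩
    refine ⟨e c, mem_LH.2 ⟨e c, rfl⟩, ?_⟩
    rw [hpt, hpt]
    have h1 : e a = e b + N * e c := by
      have := congrArg e hc
      rw [map_sub, map_mul, map_natCast] at this
      linear_combination this
    have hN : (N : ℂ) ≠ 0 := Nat.cast_ne_zero.2 hN0
    rw [h1, map_add, map_mul, eh_natCast]
    field_simp
  have hunit : ∀ ε : (𝓞 k)ˣ, IsUnit (e (ε : 𝓞 k)) := fun ε => ε.isUnit.map e
  have hcongr : ∀ (N : ℕ) (a b : 𝓞 k), N ≠ 0 → (N : 𝓞 k) ∣ a - b →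
      XH (pt a N) = XH (pt b N) := by
    intro N a b hN0 h
    obtain ⟨l, hl, h'⟩ := hdvd hN0 h
    rw [h', XH_add_coe _ hl]
  have hhunit : ∀ (N : ℕ) (a : 𝓞 k) (ε : (𝓞 k)ˣ), XH (pt ((ε : 𝓞 k) * a) N) = XH (pt a N) := by
    intro N a ε
    rw [hpt, hpt, map_mul, map_mul, mul_div_assoc]
    exact eh_unit_mul (hunit ε) _
  refine ⟨{
    pid := IsPrincipalIdealRing.of_surjective (e.symm : O2 →+* 𝓞 k) e.symm.surjective
    finrank_eq := hk
    isComplex := hc
    N₀ := 4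
    m := 1
    B := 2
    N₀_pos := by norm_num
    m_pos := by norm_num
    B_pos := by norm_num
    two_dvd := by norm_num
    h := XH
    Ψ := fun α => PsiH (e α)
    units_inj := ?_
    h_congr := fun N a b _ hN0 h => hcongr N a b hN0 h
    h_unit := hhunit
    h_inj := ?_
    isGalois := ?_
    finite := ?_
    h_mem := ?_
    Ψ_mem := ?_
    act := ?_
    Ψ_congr := ?_
    Ψ_unit := ?_
    Ψ_ne := ?_
    frob := ?_
    red_inj := ?_
    Ψ_symm := ?_
    val := ?_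
    val_one := ?_
    epstein := ?_
    kron := ?_ }, rfl, rfl, rfl⟩
  · -- units_inj
    rintro ε ⟨t, ht⟩
    have h1 : e (ε : 𝓞 k) - 1 = (4 : ℕ) * e t := by
      have := congrArg e ht
      rwa [map_sub, map_one, map_mul, map_natCast] at this
    refine Units.ext (e.injective ?_)
    rw [Units.val_one, map_one]
    rcases isUnit_iff.1 (hunit ε) with h | h
    · exact h
    · exfalso
      rw [h] at h1
      have h2 := congrArg Zsqrtd.re h1
      simp at h2
      omega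
  · -- h_inj
    intro N a b hN hN0 ha hb h
    rw [hpt, hpt, XH_eq_iff (notMem_of_coprime hN hN0 (hcop ha))
      (notMem_of_coprime hN hN0 (hcop hb))] at h
    rcases h with h | h
    · refine ⟨1, ?_⟩
      have h1 : (e a : ℂ) / N - e b / N = ((e a - e b : O2) : ℂ) / N := by
        rw [map_sub]
        ring
      rw [h1, eh_div_mem hN0] at h
      have h2 := map_dvd (e.symm : O2 →+* 𝓞 k) h
      rw [Units.val_one, one_mul]
      simpa using h2
    · refine ⟨-1, ?_⟩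
      have h1 : (e a : ℂ) / N + e b / N = ((e a + e b : O2) : ℂ) / N := by
        rw [map_add]
        ring
      rw [h1, eh_div_mem hN0] at h
      have h2 := map_dvd (e.symm : O2 →+* 𝓞 k) h
      rw [Units.val_neg, Units.val_one, neg_one_mul, sub_neg_eq_add]
      simpa using h2
  · intro N hN hN0
    rw [hpt1]
    exact isGalois_TN hI hN hN0
  · intro N hN hN0
    rw [hpt1]
    exact finite_TN hI hN hN0
  · intro N a hN hN0 ha
    rw [hpt1, hpt]
    exact XH_mem hI hN hN0 (hcop ha)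
  · intro N α a hN hN0 hα ha
    rw [hpt1, hpt]
    exact PsiH_mem hI hN hN0 (hcop1 hα) (hcop ha)
  · -- act
    intro N hN hN0 τ
    obtain ⟨c, hcN, hc1, hc2⟩ := eh_act hI hN hN0 (hpt1 N)
      (fun a ha => by rw [hpt1]; exact XH_mem hI hN hN0 ha)
      (fun α a hα ha => by rw [hpt1]; exact PsiH_mem hI hN hN0 hα ha) τ
    have hc' : ∀ a : 𝓞 k, pt (e.symm c * a) N = c * e a / N := by
      intro a
      rw [hpt, map_mul, RingEquiv.apply_symm_apply, map_mul]
    refine ⟨e.symm c, ?_, ?_, ?_⟩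
    · have := hcN.map (e.symm : O2 →+* 𝓞 k)
      simpa using this
    · intro a ha
      rw [hc', ← hc1 (e a) (hcop ha)]
      exact congrArg (fun x => (τ x : ℂ)) (Subtype.ext (congrArg XH (hpt a N)))
    · intro α a hα ha
      rw [hc', ← hc2 (e α) (e a) (hcop1 hα) (hcop ha)]
      exact congrArg (fun x => (τ x : ℂ)) (Subtype.ext (congrArg (PsiH (e α)) (hpt a N)))
  · intro N α a b hN hN0 _ h
    exact eh_congr (hcongr N a b hN0 h)
  · intro N α a ε hN hN0 _
    exact eh_congr (hhunit N a ε)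
  · intro N α a hN hN0 hα ha
    rw [hpt]
    exact PsiH_ne_zero (isOddH_of_coprime hN (hcop1 hα))
      (eh_mul_div_notMem hN hN0 (hcop1 hα) (hcop ha))
  · intro N V π a hN hN0 hπp hπ hV ha
    rw [← he] at hV
    rw [hpt, hpt, map_mul, map_mul, hnrm]
    exact eh_frob hN hN0 ((MulEquiv.prime_iff e).2 hπp) (hcop hπ) hV (hcop ha)
  · intro N V π a b hN hN0 hπp hπ hV ha hb h
    rw [← he] at hV
    rw [hpt, hpt] at h ⊢
    exact eh_red hN hN0 (hcop hπ) hV (hcop ha) (hcop hb) h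
  · -- symmetry
    intro N α β a hN hN0 hα hβ ha
    have h1 : ∀ x : 𝓞 k, pt (x * a) N = (e x : ℂ) * (e a / N) := by
      intro x
      rw [hpt, map_mul, map_mul, mul_div_assoc]
    rw [h1, h1, hpt, hnrm, hnrm]
    refine PsiH_symm (isOddH_of_coprime hN (hcop1 hα)) (isOddH_of_coprime hN (hcop1 hβ)) ?_
    have := eh_mul_div_notMem hN hN0 ((hcop1 hα).mul_left (hcop1 hβ)) (hcop ha)
    rwa [map_mul] at this
  · intro N α hN hN0 hα
    obtain ⟨K, L, hK, h⟩ := eh_val hN hN0 (hcop1 hα)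
    refine ⟨K, L, hK, fun V a ha => ?_⟩
    rw [hpt]
    exact h V (e a) (hcop ha)
  · intro N α V a hN hN0 hN' hα ha
    rw [hpt]
    exact eh_val_one hN hN0 hN' (hcop1 hα) (hcop ha)
  · intro N a hN hN0 ha
    rw [hpt]
    exact exists_epstein hk hI (notMem_of_coprime hN hN0 (hcop ha))
  · -- Kronecker
    intro N α a Z₁ Z₂ hN hN0 hα ha h1 h2
    have h3 : pt (α * a) N = (e α : ℂ) * (e a / N) := by
      rw [hpt, map_mul, map_mul, mul_div_assoc]
    rw [hpt] at h1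
    rw [h3] at h2
    have n1 := notMem_of_coprime hN hN0 (hcop ha)
    have n2 := eh_mul_div_notMem hN hN0 (hcop1 hα) (hcop ha)
    rw [deriv_epstein hk hI n1 h1, deriv_epstein hk hI n2 h2, hpt, hnrm,
      ← kronH (isOddH_of_coprime hN (hcop1 hα)) n2]
    push_cast
    ring

end Pool.Agent.CMH
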