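import Pool.Agent.CMH.Defs
import Pool.Agent.CMG.Interface

/-!
# O_k = Z[√-2]

Compare `CMG/IsoG.lean`. `j² = -2`, `k = ℚ(j)` has basis `1, j`; an element `x + yj` is integral iff
`x, y ∈ ℤ`: trace `2x` and norm `x² + 2y²` are integers; `m = 2x`: `8y² = 4n - m² ...`, so `(4y)² = 2(4n - m²)`
is an integer, `4y ∈ ℤ`, it is even, `4y = 2l`, `2l² = 4n - m²`, so `m` is even, then `l` is even. (Or use
that `ℤ[√-2]` is integrally closed (PID, `Euclid.lean`) with fraction field `k`.) A real embedding would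
send `j` to a square root of `-2`.
-/

set_option autoImplicit false

noncomputable section

open Complex Filter Topology NumberField
open scoped PeriodPair Classical

namespace Pool.Agent.CMH

private theorem s2_sq : s2 ^ 2 = -2 := by rw [sq, s2_mul_s2]

private theorem sqrt_two_ne : Real.sqrt 2 ≠ 0 := by positivity

private theorem toC_inj : Function.Injective (toC : O2 → ℂ) := by
  rw [injective_iff_map_eq_zero]
  intro a ha
  have h : (a.re : ℂ) + a.im * s2 = 0 := ha
  have h1 := congrArg Complex.re h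
  have h2 := congrArg Complex.im h
  simp [s2_re, s2_im] at h1 h2
  exact Zsqrtd.ext h1 h2

private theorem j_sq {k : Type} [Field k] [Algebra k ℂ] {j : k} (hj : algebraMap k ℂ j = s2) :
    j ^ 2 = -2 := by
  apply (algebraMap k ℂ).injective
  rw [map_pow, hj, map_neg, map_ofNat, s2_sq]

private theorem exists_coord {k : Type} [Field k] [NumberField k] [Algebra k ℂ]
    (hk : Module.finrank ℚ k = 2) {j : k} (hj : algebraMap k ℂ j = s2) (a : k) :
    ∃ x y : ℚ, algebraMap k ℂ a = (x : ℂ) + (y : ℂ) * s2 := by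
  have hli : LinearIndependent ℚ ![(1 : k), j] := by
    rw [LinearIndependent.pair_iff]
    intro s t hst
    have h1 : (s : ℂ) + (t : ℂ) * s2 = 0 := by
      have h2 := congrArg (algebraMap k ℂ) hst
      rw [map_add, Algebra.smul_def, Algebra.smul_def, map_mul, map_mul, map_one, hj, map_zero,
        mul_one] at h2
      simpa using h2
    have h3 := congrArg Complex.re h1
    have h4 := congrArg Complex.im h1
    simp [s2_re, s2_im] at h3 h4
    exact ⟨h3, h4⟩
  have hspan := hli.span_eq_top_of_card_eq_finrank (by rw [hk]; simp)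
  have ha : a ∈ Submodule.span ℚ (Set.range ![(1 : k), j]) := by
    rw [hspan]
    trivial
  rw [Matrix.range_cons, Matrix.range_cons, Matrix.range_empty, Set.union_empty,
    Set.singleton_union, Submodule.mem_span_pair] at ha
  obtain ⟨x, y, hxy⟩ := ha
  refine ⟨x, y, ?_⟩
  rw [← hxy, map_add, Algebra.smul_def, Algebra.smul_def, map_mul, map_mul, map_one, hj, mul_one]
  simp

private theorem int_of_rat {x : ℚ} (h : IsIntegral ℤ (x : ℂ)) : ∃ n : ℤ, (n : ℚ) = x := by
  have h1 : IsIntegral ℤ (algebraMap ℚ ℂ x) := by simpa using h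
  rw [isIntegral_algebraMap_iff (algebraMap ℚ ℂ).injective] at h1
  obtain ⟨n, hn⟩ := IsIntegrallyClosed.isIntegral_iff.1 h1
  exact ⟨n, by simpa using hn⟩

private theorem conj_s2 : (starRingEnd ℂ) s2 = -s2 := by
  apply Complex.ext
  · simp [s2_re]
  · simp [s2_im]

private theorem poly_s2 {R : Type} [CommRing R] {j : R} (hj : j ^ 2 = -2) : IsIntegral ℤ j := by
  refine ⟨Polynomial.X ^ 2 + Polynomial.C 2, Polynomial.monic_X_pow_add_C (2 : ℤ) two_ne_zero, ?_⟩
  simp [hj]

private theorem coord_int {x y : ℚ} (h : IsIntegral ℤ ((x : ℂ) + (y : ℂ) * s2)) :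
    ∃ m n : ℤ, (m : ℚ) = x ∧ (n : ℚ) = y := by
  have hI : IsIntegral ℤ s2 := poly_s2 s2_sq
  have hc : IsIntegral ℤ ((x : ℂ) - (y : ℂ) * s2) := by
    have h1 := h.map (Complex.conjAe.toAlgHom.restrictScalars ℤ)
    simpa [sub_eq_add_neg, conj_s2] using h1
  have h1 : IsIntegral ℤ (((2 * x : ℚ)) : ℂ) := by
    have e : (((2 * x : ℚ)) : ℂ) = ((x : ℂ) + (y : ℂ) * s2) + ((x : ℂ) - (y : ℂ) * s2) := by
      push_cast
      ring
    rw [e]
    exact h.add hc
  have h2 : IsIntegral ℤ (((4 * y : ℚ)) : ℂ) := by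
    have e : (((4 * y : ℚ)) : ℂ) =
        (((x : ℂ) + (y : ℂ) * s2) - ((x : ℂ) - (y : ℂ) * s2)) * (-s2) := by
      push_cast
      linear_combination (2 * (y : ℂ)) * s2_sq
    rw [e]
    exact (h.sub hc).mul hI.neg
  have h3 : IsIntegral ℤ (((x ^ 2 + 2 * y ^ 2 : ℚ)) : ℂ) := by
    have e : (((x ^ 2 + 2 * y ^ 2 : ℚ)) : ℂ) =
        ((x : ℂ) + (y : ℂ) * s2) * ((x : ℂ) - (y : ℂ) * s2) := by
      push_cast
      linear_combination ((y : ℂ) ^ 2) * s2_sq
    rw [e]
    exact h.mul hc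
  obtain ⟨a, ha⟩ := int_of_rat h1
  obtain ⟨b, hb⟩ := int_of_rat h2
  obtain ⟨c, hc'⟩ := int_of_rat h3
  have h4 : 2 * a ^ 2 + b ^ 2 = 8 * c := by
    have h5 : ((2 * a ^ 2 + b ^ 2 : ℤ) : ℚ) = ((8 * c : ℤ) : ℚ) := by
      push_cast
      rw [ha, hb, hc']
      ring
    exact_mod_cast h5
  have hbe : Even b := by
    rcases Int.even_or_odd b with h | h
    · exact h
    · exfalso
      obtain ⟨v, rfl⟩ := h
      ring_nf at h4
      omega
  obtain ⟨l, rfl⟩ := hbe
  have h5 : a ^ 2 + 2 * l ^ 2 = 4 * c := by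
    have : (l + l) ^ 2 = 4 * l ^ 2 := by ring
    rw [this] at h4
    omega
  have hae : Even a := by
    rcases Int.even_or_odd a with h | h
    · exact h
    · exfalso
      obtain ⟨v, rfl⟩ := h
      ring_nf at h5
      omega
  obtain ⟨m, rfl⟩ := hae
  have h6 : 2 * m ^ 2 + l ^ 2 = 2 * c := by
    have : (m + m) ^ 2 = 4 * m ^ 2 := by ring
    rw [this] at h5
    omega
  have hle : Even l := by
    rcases Int.even_or_odd l with h | h
    · exact h
    · exfalso
      obtain ⟨v, rfl⟩ := h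
      ring_nf at h6
      omega
  obtain ⟨n, rfl⟩ := hle
  refine ⟨m, n, ?_, ?_⟩
  · push_cast at ha
    linarith
  · push_cast at hb
    linarith

theorem exists_iso {k : Type} [Field k] [NumberField k] [Algebra k ℂ]
    (hk : Module.finrank ℚ k = 2) (hI : ∃ j : k, algebraMap k ℂ j = s2) :
    ∃ e : 𝓞 k ≃+* O2, ∀ a : 𝓞 k, ((e a : O2) : ℂ) = algebraMap k ℂ (a : k) := by
  obtain ⟨j, hj⟩ := hI
  have h1 : ∀ a : 𝓞 k, ∃ g : O2, (g : ℂ) = algebraMap k ℂ (a : k) := by
    intro a
    obtain ⟨x, y, hxy⟩ := exists_coord hk hj (a : k)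
    have h2 : IsIntegral ℤ (algebraMap k ℂ (a : k)) := a.isIntegral_coe.algebraMap
    rw [hxy] at h2
    obtain ⟨m, n, rfl, rfl⟩ := coord_int h2
    refine ⟨⟨m, n⟩, ?_⟩
    rw [hxy, coe_def]
    push_cast
    rfl
  have h2 : ∀ g : O2, ∃ a : 𝓞 k, algebraMap k ℂ (a : k) = (g : ℂ) := by
    intro g
    have hji : IsIntegral ℤ j := poly_s2 (j_sq hj)
    obtain ⟨w, hw⟩ : ∃ w : 𝓞 k, algebraMap (𝓞 k) k w = j := ⟨⟨j, hji⟩, rfl⟩
    refine ⟨(g.re : 𝓞 k) + (g.im : 𝓞 k) * w, ?_⟩
    change algebraMap k ℂ (algebraMap (𝓞 k) k ((g.re : 𝓞 k) + (g.im : 𝓞 k) * w)) = _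
    rw [map_add, map_mul, hw, map_add, map_mul, hj, map_intCast, map_intCast,
      map_intCast, map_intCast]
    exact (coe_def g).symm
  choose F hF using h1
  have hinj := toC_inj
  let f : 𝓞 k →+* O2 :=
    { toFun := F
      map_one' := hinj (by rw [hF]; simp)
      map_mul' := fun a b => hinj (by
        rw [hF, map_mul, hF, hF]; simp)
      map_zero' := hinj (by rw [hF]; simp)
      map_add' := fun a b => hinj (by
        rw [hF, map_add, hF, hF]; simp) }
  have hf : Function.Bijective f := by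
    constructor
    · intro a b hab
      have h3 : (F a : ℂ) = F b := congrArg _ hab
      rw [hF, hF] at h3
      exact RingOfIntegers.ext ((algebraMap k ℂ).injective h3)
    · intro g
      obtain ⟨a, ha⟩ := h2 g
      exact ⟨a, hinj (by rw [← ha]; exact hF a)⟩
  exact ⟨RingEquiv.ofBijective f hf, fun a => hF a⟩

theorem isTotallyComplex_of_s2 {k : Type} [Field k] [NumberField k] [Algebra k ℂ]
    (hk : Module.finrank ℚ k = 2) (hI : ∃ j : k, algebraMap k ℂ j = s2) : IsTotallyComplex k := by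
  obtain ⟨j, hj⟩ := hI
  refine ⟨fun v => ?_⟩
  rw [← InfinitePlace.not_isReal_iff_isComplex]
  intro hv
  rw [InfinitePlace.isReal_iff] at hv
  have h1 : v.embedding j ^ 2 = -2 := by
    rw [← map_pow, j_sq hj, map_neg, map_ofNat]
  have h2 : (starRingEnd ℂ) (v.embedding j) = v.embedding j := by
    have h3 := RingHom.congr_fun hv j
    simpa [ComplexEmbedding.conjugate] using h3
  obtain ⟨r, hr⟩ := Complex.conj_eq_iff_real.1 h2
  rw [hr] at h1
  have h4 : r ^ 2 = -2 := by exact_mod_cast h1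
  nlinarith [sq_nonneg r]

end Pool.Agent.CMH
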