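import Pool.Agent.CMH.Defs
import Pool.Agent.CMG.PProd

/-!
# the isogeny √-2: g₂ and g₃ of the lattice Z[√-2]

Put `s = s2`, `τ = s/2`, `e = ℘(τ)`. `mem_LH`: `LH.lattice` is spanned by `1, s`. `sτ = -1`, `2τ = s ∈ L`.
`P_isog`: `F(z) = ℘(sz) + (℘(z) + ℘(z+τ))/2` is `L`-periodic and has no poles: near `0`
`℘(sz) = 1/(s²z²) + O(z²) = -1/(2z²) + O(z²)` and `℘(z)/2 = 1/(2z²) + O(z²)` (`s² = -2`), the same near
`τ` since `s(τ+h) = -1 + sh`; elsewhere `sz ∉ L` (`sz ∈ L` implies `z ∈ L` or `z - τ ∈ L`). So `F` is constant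
(`liouville`), equal to `F(0) = e/2`.
`g_eq`: `℘'(τ) = 0`, so `4e³ - g₂e - g₃ = 0`; `P_sum` with `v = τ` (`℘(u+τ) = ℘(u-τ)`) gives
`(℘(u+τ) - e)(℘(u) - e) = b` with `b = 3e² - g₂/4`. With `X = ℘ - e`: `X(u+τ) X(u) = b` and by `P_isog`
`-2 X(sz) = X(z) + b/X(z) + 3e`. `b ≠ 0` (`X` vanishes only on `τ + L`, `P_inj`). Let `q = X(s/4)`,
`q' = X(s/4 + 1/2)`; `s/4 + τ ≡ -s/4`, so `q² = b`, `q'² = b` in the same way, and `q ≠ q'` by `P_inj`, so
`q' = -q`. `z = s/4`: `sz = -1/2`, `-2 X(1/2) = 2q + 3e`; `z = s/4 + 1/2`: `-2 X(1/2 + τ) = -2q + 3e`;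
`X(1/2) X(1/2 + τ) = b`. So `9e² - 4b = 4b`, `9e² = 8b`, `e ≠ 0`, `g₂ = 12e² - 4b = 15e²/2`,
`g₃ = 4e³ - g₂e = -7e³/2`.
-/

set_option autoImplicit false

noncomputable section

open Complex Filter Topology
open scoped PeriodPair Classical

namespace Pool.Agent.CMH

theorem mem_LH {z : ℂ} : z ∈ LH.lattice ↔ ∃ a : O2, (a : ℂ) = z := by
  rw [PeriodPair.mem_lattice]
  constructor
  · rintro ⟨m, n, h⟩
    refine ⟨⟨m, n⟩, ?_⟩
    rw [coe_def, ← h]
    change (m : ℂ) + n * s2 = m * 1 + n * s2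
    ring
  · rintro ⟨a, h⟩
    refine ⟨a.re, a.im, ?_⟩
    rw [← h, coe_def]
    change (a.re : ℂ) * 1 + a.im * s2 = _
    ring

theorem mul_mem_LH (α : O2) {z : ℂ} (hz : z ∈ LH.lattice) : (α : ℂ) * z ∈ LH.lattice := by
  obtain ⟨a, rfl⟩ := mem_LH.1 hz
  exact mem_LH.2 ⟨α * a, map_mul _ _ _⟩

theorem coe_sqrtd : ((⟨0, 1⟩ : O2) : ℂ) = s2 := by
  rw [coe_def]
  simp

theorem s2_mul_mem {z : ℂ} (hz : z ∈ LH.lattice) : s2 * z ∈ LH.lattice := by
  rw [← coe_sqrtd]
  exact mul_mem_LH _ hz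

private theorem rat_mem (a b : ℚ) : (a : ℂ) + b * s2 ∈ LH.lattice ↔ a.den = 1 ∧ b.den = 1 := by
  have h := PeriodPair.mul_ω₁_add_mul_ω₂_mem_lattice (L := LH) (α := a) (β := b)
  change (a : ℂ) * 1 + b * s2 ∈ LH.lattice ↔ _ at h
  rwa [mul_one] at h

private theorem one_mem : (1 : ℂ) ∈ LH.lattice := mem_LH.2 ⟨1, map_one _⟩

private theorem s2_mem : s2 ∈ LH.lattice := mem_LH.2 ⟨⟨0, 1⟩, coe_sqrtd⟩

theorem tau_notMem : tauH ∉ LH.lattice := by
  have h := (rat_mem 0 (1 / 2)).not.2 (by norm_num)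
  have e : ((0 : ℚ) : ℂ) + ((1 / 2 : ℚ) : ℂ) * s2 = tauH := by
    unfold tauH
    push_cast
    ring
  rwa [e] at h

theorem s2_mul_tau : s2 * tauH = -1 := by
  unfold tauH
  linear_combination (1 / 2 : ℂ) * s2_mul_s2

/-- points of order `√-2` -/
theorem mem_or_tau {z : ℂ} (hz : s2 * z ∈ LH.lattice) :
    z ∈ LH.lattice ∨ z - tauH ∈ LH.lattice := by
  obtain ⟨a, ha⟩ := mem_LH.1 hz
  rw [coe_def] at ha
  -- `z = a.im - (a.re / 2) s`
  have hz' : z = a.im - (a.re / 2) * s2 := by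
    have h : (-2 : ℂ) * z = s2 * (a.re + a.im * s2) := by
      rw [ha, ← mul_assoc, s2_mul_s2]
    linear_combination (-1 / 2 : ℂ) * h - (a.im : ℂ) / 2 * s2_mul_s2
  rcases Int.even_or_odd' a.re with ⟨m, hm | hm⟩
  · left
    refine mem_LH.2 ⟨⟨a.im, -m⟩, ?_⟩
    rw [coe_def, hz', hm]
    push_cast
    ring
  · right
    refine mem_LH.2 ⟨⟨a.im, -m - 1⟩, ?_⟩
    rw [coe_def, hz', hm, tauH]
    push_cast
    ring

private def FF (z : ℂ) : ℂ := ℘[LH] (s2 * z) + (℘[LH] z + ℘[LH] (z + tauH)) / 2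

private theorem P_add {l : ℂ} (hl : l ∈ LH.lattice) (z : ℂ) : ℘[LH] (z + l) = ℘[LH] z :=
  LH.weierstrassP_add_coe z ⟨l, hl⟩

private theorem FF_add {l : ℂ} (hl : l ∈ LH.lattice) (z : ℂ) : FF (z + l) = FF z := by
  unfold FF
  have h1 : s2 * (z + l) = s2 * z + s2 * l := by ring
  have h2 : z + l + tauH = z + tauH + l := by ring
  rw [h1, h2, P_add (s2_mul_mem hl), P_add hl, P_add hl]

private theorem FF_add_tau (z : ℂ) : FF (z + tauH) = FF z := by
  unfold FF
  have h1 : s2 * (z + tauH) = s2 * z + (-1) := by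
    rw [mul_add, s2_mul_tau]
  have h2 : z + tauH + tauH = z + s2 := by
    unfold tauH
    ring
  rw [h1, h2, P_add s2_mem, P_add (Submodule.neg_mem _ one_mem)]
  ring

private theorem FF_zero : FF 0 = ℘[LH] tauH / 2 := by
  unfold FF
  rw [mul_zero, zero_add, LH.weierstrassP_zero]
  ring

private theorem P_eq (z : ℂ) : ℘[LH] z = LH.weierstrassPExcept 0 z + 1 / z ^ 2 := by
  have h := LH.weierstrassPExcept_add 0 z
  rw [← h]
  simp

private theorem FF_analytic_zero : AnalyticAt ℂ FF 0 := by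
  have e : FF = fun z => LH.weierstrassPExcept 0 (s2 * z) + LH.weierstrassPExcept 0 z / 2 +
      ℘[LH] (z + tauH) / 2 := by
    funext z
    unfold FF
    rw [P_eq (s2 * z), P_eq z]
    have h : 1 / (s2 * z) ^ 2 + 1 / z ^ 2 / 2 = 0 := by
      rw [mul_pow]
      have : s2 ^ 2 = -2 := by rw [sq, s2_mul_s2]
      rw [this]
      by_cases hz : z = 0
      · simp [hz]
      · field_simp
        ring
    linear_combination h
  rw [e]
  have h1 : AnalyticAt ℂ (LH.weierstrassPExcept 0) 0 := LH.analyticAt_weierstrassPExcept 0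
  have h2 : AnalyticAt ℂ (fun z : ℂ => LH.weierstrassPExcept 0 (s2 * z)) 0 := by
    refine AnalyticAt.comp' (g := LH.weierstrassPExcept 0) (f := fun z : ℂ => s2 * z) ?_ ?_
    · rwa [mul_zero]
    · fun_prop
  have h3 : AnalyticAt ℂ (fun z : ℂ => ℘[LH] (z + tauH)) 0 := by
    refine AnalyticAt.comp' (g := ℘[LH]) (f := fun z : ℂ => z + tauH) ?_ ?_
    · rw [zero_add]
      exact LH.analyticOnNhd_weierstrassP _ tau_notMem
    · fun_prop
  fun_prop

private theorem FF_analytic (z : ℂ) : AnalyticAt ℂ FF z := by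
  by_cases hz : s2 * z ∈ LH.lattice
  · have key : ∀ w, FF (w - z) = FF w := by
      intro w
      rcases mem_or_tau hz with h | h
      · have := FF_add (Submodule.neg_mem _ h) w
        rwa [← sub_eq_add_neg] at this
      · have h1 := FF_add (Submodule.neg_mem _ h) (w - tauH)
        have h2 := FF_add_tau (w - tauH)
        rw [sub_add_cancel] at h2
        rw [h2, ← h1]
        congr 1
        ring
    have e : FF = fun w => FF (w - z) := (funext key).symm
    rw [e]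
    refine AnalyticAt.comp' (g := FF) (f := fun w : ℂ => w - z) ?_ ?_
    · rw [sub_self]
      exact FF_analytic_zero
    · fun_prop
  · have h1 : z ∉ LH.lattice := fun h => hz (s2_mul_mem h)
    have h2 : z + tauH ∉ LH.lattice := fun h => by
      apply hz
      have h3 := s2_mul_mem h
      rw [mul_add, s2_mul_tau] at h3
      have h4 := Submodule.add_mem _ h3 one_mem
      simpa using h4
    unfold FF
    have a1 : AnalyticAt ℂ (fun w : ℂ => ℘[LH] (s2 * w)) z := by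
      refine AnalyticAt.comp' (g := ℘[LH]) (f := fun w : ℂ => s2 * w) ?_ ?_
      · exact LH.analyticOnNhd_weierstrassP _ hz
      · fun_prop
    have a2 : AnalyticAt ℂ (fun w : ℂ => ℘[LH] (w + tauH)) z := by
      refine AnalyticAt.comp' (g := ℘[LH]) (f := fun w : ℂ => w + tauH) ?_ ?_
      · exact LH.analyticOnNhd_weierstrassP _ h2
      · fun_prop
    have a3 : AnalyticAt ℂ (fun w : ℂ => ℘[LH] w) z := LH.analyticOnNhd_weierstrassP _ h1
    fun_prop

private theorem FF_const (z : ℂ) : FF z = ℘[LH] tauH / 2 := by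
  obtain ⟨c, hc⟩ := CMG.liouville LH (F := FF) (fun z => (FF_analytic z).meromorphicAt)
    (fun z => (FF_analytic z).meromorphicOrderAt_nonneg)
    (fun l hl => Filter.Eventually.of_forall fun z => by rw [FF_add hl])
  have hcont : Continuous FF := continuous_iff_continuousAt.2 fun z => (FF_analytic z).continuousAt
  have hall : ∀ w, FF w = c := by
    intro w
    have h1 : ∀ᶠ y in 𝓝[≠] w, FF y = c := by
      have h2 : {y | FF y = c} ∈ codiscrete ℂ := hc
      rw [mem_codiscrete] at h2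
      have h3 := h2 w
      rw [disjoint_principal_right, compl_compl] at h3
      exact h3
    have h2 : Tendsto FF (𝓝[≠] w) (𝓝 (FF w)) := hcont.continuousAt.tendsto.mono_left
      nhdsWithin_le_nhds
    have h3 : Tendsto FF (𝓝[≠] w) (𝓝 c) := tendsto_const_nhds.congr' (by
      filter_upwards [h1] with y hy
      exact hy.symm)
    exact tendsto_nhds_unique h2 h3
  rw [hall z, ← hall 0, FF_zero]

/-- the isogeny relation; it holds for all `z`, the lattice points included -/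
theorem P_isog' (z : ℂ) :
    -2 * ℘[LH] (s2 * z) = ℘[LH] z + ℘[LH] (z + tauH) - ℘[LH] tauH := by
  have h := FF_const z
  unfold FF at h
  linear_combination -2 * h

theorem P_isog {z : ℂ} (hz : s2 * z ∉ LH.lattice) :
    -2 * ℘[LH] (s2 * z) = ℘[LH] z + ℘[LH] (z + tauH) - ℘[LH] tauH := P_isog' z

private theorem two_tau : 2 * tauH = s2 := by
  unfold tauH
  ring

private theorem e_rel : 4 * ℘[LH] tauH ^ 3 - LH.g₂ * ℘[LH] tauH - LH.g₃ = 0 := by
  have h1 := (CMG.P'_eq_zero_iff LH tau_notMem).2 (by rw [two_tau]; exact s2_mem)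
  have h2 := LH.derivWeierstrassP_sq tauH tau_notMem
  rw [h1] at h2
  linear_combination -h2

private theorem X_mul {u : ℂ} (hu : u ∉ LH.lattice) (h : u + tauH ∉ LH.lattice) :
    (℘[LH] (u + tauH) - ℘[LH] tauH) * (℘[LH] u - ℘[LH] tauH) =
      3 * ℘[LH] tauH ^ 2 - LH.g₂ / 4 := by
  have h' : u - tauH ∉ LH.lattice := fun hh => h (by
    have := Submodule.add_mem _ hh s2_mem
    rw [← two_tau] at this
    have e : u - tauH + 2 * tauH = u + tauH := by ring
    rwa [e] at this)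
  have hs := CMG.P_sum LH hu tau_notMem h h'
  have e1 : ℘[LH] (u - tauH) = ℘[LH] (u + tauH) := by
    have e : u + tauH = u - tauH + s2 := by
      rw [← two_tau]
      ring
    rw [e, P_add s2_mem]
  have hne : ℘[LH] u - ℘[LH] tauH ≠ 0 := by
    intro h0
    rcases CMG.P_inj LH hu tau_notMem (sub_eq_zero.1 h0) with h1 | h1
    · exact h' h1
    · exact h h1
  rw [e1] at hs
  have hr := e_rel
  apply mul_left_cancel₀ hne
  generalize ℘[LH] (u + tauH) = T at *
  generalize ℘[LH] u = a at *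
  generalize ℘[LH] tauH = e at *
  generalize LH.g₂ = g2 at *
  generalize LH.g₃ = g3 at *
  linear_combination (1 / 2 : ℂ) * hs + (1 / 2 : ℂ) * hr

theorem g_eq : ℘[LH] tauH ≠ 0 ∧ LH.g₂ = 15 / 2 * ℘[LH] tauH ^ 2 ∧
    LH.g₃ = - 7 / 2 * ℘[LH] tauH ^ 3 := by
  have n1 : s2 / 4 ∉ LH.lattice := by
    have h := (rat_mem 0 (1 / 4)).not.2 (by norm_num)
    have e : ((0 : ℚ) : ℂ) + ((1 / 4 : ℚ) : ℂ) * s2 = s2 / 4 := by
      push_cast
      ring
    rwa [e] at h
  have n2 : s2 / 4 + tauH ∉ LH.lattice := by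
    have h := (rat_mem 0 (3 / 4)).not.2 (by norm_num)
    have e : ((0 : ℚ) : ℂ) + ((3 / 4 : ℚ) : ℂ) * s2 = s2 / 4 + tauH := by
      unfold tauH
      push_cast
      ring
    rwa [e] at h
  have n3 : s2 / 4 + 1 / 2 ∉ LH.lattice := by
    have h := (rat_mem (1 / 2) (1 / 4)).not.2 (by norm_num)
    have e : ((1 / 2 : ℚ) : ℂ) + ((1 / 4 : ℚ) : ℂ) * s2 = s2 / 4 + 1 / 2 := by
      push_cast
      ring
    rwa [e] at h
  have n4 : s2 / 4 + 1 / 2 + tauH ∉ LH.lattice := by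
    have h := (rat_mem (1 / 2) (3 / 4)).not.2 (by norm_num)
    have e : ((1 / 2 : ℚ) : ℂ) + ((3 / 4 : ℚ) : ℂ) * s2 = s2 / 4 + 1 / 2 + tauH := by
      unfold tauH
      push_cast
      ring
    rwa [e] at h
  have n5 : (1 / 2 : ℂ) ∉ LH.lattice := by
    have h := (rat_mem (1 / 2) 0).not.2 (by norm_num)
    have e : ((1 / 2 : ℚ) : ℂ) + ((0 : ℚ) : ℂ) * s2 = 1 / 2 := by
      push_cast
      ring
    rwa [e] at h
  have n6 : (1 / 2 : ℂ) + tauH ∉ LH.lattice := by
    have h := (rat_mem (1 / 2) (1 / 2)).not.2 (by norm_num)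
    have e : ((1 / 2 : ℚ) : ℂ) + ((1 / 2 : ℚ) : ℂ) * s2 = 1 / 2 + tauH := by
      unfold tauH
      push_cast
      ring
    rwa [e] at h
  set e := ℘[LH] tauH with he
  set q := ℘[LH] (s2 / 4) - e with hq
  set q' := ℘[LH] (s2 / 4 + 1 / 2) - e with hq'
  set b := 3 * e ^ 2 - LH.g₂ / 4 with hb
  have m1 : ℘[LH] (s2 / 4 + tauH) = ℘[LH] (s2 / 4) := by
    have h1 : s2 / 4 + tauH = -(s2 / 4) + s2 := by
      unfold tauH
      ring
    rw [h1, P_add s2_mem, LH.weierstrassP_neg]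
  have m2 : ℘[LH] (s2 / 4 + 1 / 2 + tauH) = ℘[LH] (s2 / 4 + 1 / 2) := by
    have h1 : s2 / 4 + 1 / 2 + tauH = -(s2 / 4 + 1 / 2) + s2 + 1 := by
      unfold tauH
      ring
    rw [h1, P_add one_mem, P_add s2_mem, LH.weierstrassP_neg]
  have q1 : q * q = b := by
    have h := X_mul n1 n2
    rwa [m1] at h
  have q2 : q' * q' = b := by
    have h := X_mul n3 n4
    rwa [m2] at h
  have q3 : q ≠ q' := by
    intro h
    have h1 : ℘[LH] (s2 / 4) = ℘[LH] (s2 / 4 + 1 / 2) := by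
      have := congrArg (· + e) h
      simpa [hq, hq'] using this
    rcases CMG.P_inj LH n1 n3 h1 with h2 | h2
    · apply n5
      have := Submodule.neg_mem _ h2
      have e1 : -(s2 / 4 - (s2 / 4 + 1 / 2)) = 1 / 2 := by ring
      rwa [e1] at this
    · apply n6
      have e1 : s2 / 4 + (s2 / 4 + 1 / 2) = 1 / 2 + tauH := by
        unfold tauH
        ring
      rwa [e1] at h2
  have q4 : q' = -q := by
    have h : (q - q') * (q + q') = 0 := by linear_combination q1 - q2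
    rcases mul_eq_zero.1 h with h | h
    · exact absurd (sub_eq_zero.1 h) q3
    · linear_combination h
  have q5 : q ≠ 0 := by
    intro h
    apply q3
    rw [q4, h, neg_zero]
  have r1 : -2 * (℘[LH] (1 / 2) - e) = 2 * q + 3 * e := by
    have h := P_isog' (s2 / 4)
    have h1 : s2 * (s2 / 4) = -(1 / 2) := by
      linear_combination (1 / 4 : ℂ) * s2_mul_s2
    rw [h1, m1, LH.weierstrassP_neg] at h
    rw [hq]
    linear_combination h
  have r2 : -2 * (℘[LH] (1 / 2 + tauH) - e) = 2 * q' + 3 * e := by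
    have h := P_isog' (s2 / 4 + 1 / 2)
    have h1 : s2 * (s2 / 4 + 1 / 2) = (1 / 2 + tauH) + (-1) := by
      unfold tauH
      linear_combination (1 / 4 : ℂ) * s2_mul_s2
    rw [h1, m2, P_add (Submodule.neg_mem _ one_mem)] at h
    rw [hq']
    linear_combination h
  have r3 := X_mul n5 n6
  rw [← he, ← hb] at r3
  have r4 : 9 * e ^ 2 = 8 * b := by
    rw [q4] at r2
    have h : (-2 * (℘[LH] (1 / 2) - e)) * (-2 * (℘[LH] (1 / 2 + tauH) - e)) =
        (2 * q + 3 * e) * (2 * (-q) + 3 * e) := by rw [r1, r2]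
    linear_combination -h + 4 * r3 + 4 * q1
  have hb0 : b ≠ 0 := by
    rw [← q1]
    exact mul_ne_zero q5 q5
  have he0 : e ≠ 0 := by
    intro h
    rw [h] at r4
    apply hb0
    linear_combination (-1 / 8 : ℂ) * r4
  have hg2 : LH.g₂ = 15 / 2 * e ^ 2 := by
    linear_combination (4 : ℂ) * hb + (1 / 2 : ℂ) * r4
  refine ⟨he0, hg2, ?_⟩
  have hr := e_rel
  rw [← he] at hr
  linear_combination -hr - e * hg2

end Pool.Agent.CMH
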