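import Pool.Agent.CMG.AnKron
import Pool.Agent.CMH.Iso
import Pool.Agent.CMH.Isog

/-!
# Epstein zeta functions of k = Q(√-2)

Compare `CMG/EpsG.lean`. `kron_rect` with `r = √2`, `x = Re z`, `y = Im z / √2`; `(m,n) ↦ m + n√-2` is a
bijection of `ℤ × ℤ` with `𝓞 k` via `exists_iso`; `|z + m + n√-2|² = (x+m)² + 2(y+n)²`. Uniqueness of the
continuation: `CMG/SMisc.lean` (`IsEpstein.eqOn`).
-/

set_option autoImplicit false

noncomputable section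

open Complex Filter Topology NumberField
open scoped PeriodPair Classical

namespace Pool.Agent.CMH

open Pool.Agent.CMG (BB IsEpstein IsRect kron_rect)

private lemma eps_sqrt_pos : (0 : ℝ) < Real.sqrt 2 := Real.sqrt_pos.2 two_pos

private lemma eps_sqrt_mul (a : ℝ) : Real.sqrt 2 * (a / Real.sqrt 2) = a := by
  have := eps_sqrt_pos.ne'
  field_simp

/-- `𝓞 k ≃ ℤ × ℤ` from the isomorphism with `ℤ[√-2]` -/
private def epsEquiv {k : Type} [Field k] [NumberField k] (e : 𝓞 k ≃+* O2) :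
    𝓞 k ≃ ℤ × ℤ where
  toFun ω := ((e ω).re, (e ω).im)
  invFun p := e.symm ⟨p.1, p.2⟩
  left_inv ω := e.symm_apply_apply ω
  right_inv p := by
    simp

private lemma eps_norm {k : Type} [Field k] [NumberField k] [Algebra k ℂ]
    (e : 𝓞 k ≃+* O2)
    (he : ∀ a : 𝓞 k, ((e a : O2) : ℂ) = algebraMap k ℂ (a : k)) (z : ℂ) (ω : 𝓞 k) :
    (‖z + algebraMap k ℂ (ω : k)‖ ^ 2 : ℝ) =
      (z.re + (epsEquiv e ω).1) ^ 2 +
        (Real.sqrt 2 : ℝ) ^ 2 * (z.im / Real.sqrt 2 + (epsEquiv e ω).2) ^ 2 := by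
  rw [← he ω, coe_def, Complex.sq_norm, Complex.normSq_apply]
  have h1 : (epsEquiv e ω).1 = (e ω).re := rfl
  have h2 : (epsEquiv e ω).2 = (e ω).im := rfl
  rw [h1, h2]
  have h3 : (z + (((e ω).re : ℂ) + ((e ω).im : ℂ) * s2)).re = z.re + (e ω).re := by
    simp [s2_re]
  have h4 : (z + (((e ω).re : ℂ) + ((e ω).im : ℂ) * s2)).im =
      z.im + (e ω).im * Real.sqrt 2 := by
    simp [s2_im]
  rw [h3, h4]
  have h5 := eps_sqrt_mul z.im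
  have h6 : Real.sqrt 2 * (z.im / Real.sqrt 2 + ((e ω).im : ℝ)) =
      z.im + (e ω).im * Real.sqrt 2 := by
    rw [mul_add, h5, mul_comm (Real.sqrt 2)]
  rw [← mul_pow, h6]
  ring

private lemma eps_iff {k : Type} [Field k] [NumberField k] [Algebra k ℂ]
    (e : 𝓞 k ≃+* O2)
    (he : ∀ a : 𝓞 k, ((e a : O2) : ℂ) = algebraMap k ℂ (a : k)) (z : ℂ) (Z : ℂ → ℂ)
    (s : ℂ) :
    HasSum (fun ω : 𝓞 k => ((‖z + algebraMap k ℂ (ω : k)‖ ^ 2 : ℝ) : ℂ) ^ (-s)) (Z s) ↔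
    HasSum (fun p : ℤ × ℤ =>
      (((z.re + p.1) ^ 2 + (Real.sqrt 2 : ℝ) ^ 2 * (z.im / Real.sqrt 2 + p.2) ^ 2 : ℝ) : ℂ) ^
        (-s)) (Z s) := by
  rw [← (epsEquiv e).hasSum_iff]
  have h1 : (fun ω : 𝓞 k => ((‖z + algebraMap k ℂ (ω : k)‖ ^ 2 : ℝ) : ℂ) ^ (-s)) =
      (fun p : ℤ × ℤ =>
        (((z.re + p.1) ^ 2 + (Real.sqrt 2 : ℝ) ^ 2 * (z.im / Real.sqrt 2 + p.2) ^ 2 : ℝ) : ℂ) ^
          (-s)) ∘ (epsEquiv e) := by
    funext ω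
    rw [Function.comp_apply, eps_norm e he z ω]
  rw [h1]

private lemma eps_ne {z : ℂ} (hz : z ∉ LH.lattice) :
    (z.re : UnitAddCircle) ≠ 0 ∨ ((z.im / Real.sqrt 2 : ℝ) : UnitAddCircle) ≠ 0 := by
  by_contra hcon
  push Not at hcon
  obtain ⟨h1, h2⟩ := hcon
  rw [AddCircle.coe_eq_zero_iff] at h1 h2
  obtain ⟨m, hm⟩ := h1
  obtain ⟨n, hn⟩ := h2
  apply hz
  rw [mem_LH]
  refine ⟨⟨m, n⟩, ?_⟩
  rw [coe_def]
  have hn' : z.im = n * Real.sqrt 2 := by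
    rw [← eps_sqrt_mul z.im, ← hn]
    simp [mul_comm]
  apply Complex.ext
  · simp [s2_re] at hm ⊢
    exact hm
  · simp [s2_im] at hn' ⊢
    exact hn'.symm

private lemma eps_kron {z : ℂ} (hz : z ∉ LH.lattice) :
    ∃ Z : ℂ → ℂ, IsRect (Real.sqrt 2) z.re (z.im / Real.sqrt 2) Z ∧
      deriv Z 0 = (BB (Real.sqrt 2) z : ℝ) := by
  obtain ⟨Z, hZ, hd⟩ := kron_rect (r := Real.sqrt 2) (x := z.re) (y := z.im / Real.sqrt 2)
    eps_sqrt_pos (eps_ne hz)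
  refine ⟨Z, hZ, ?_⟩
  rw [hd]
  have h1 : (z.re : ℂ) + ((Real.sqrt 2 : ℝ) : ℂ) * ((z.im / Real.sqrt 2 : ℝ) : ℂ) * I = z := by
    rw [← Complex.ofReal_mul, eps_sqrt_mul]
    exact Complex.re_add_im z
  rw [h1]

private lemma eps_deriv {k : Type} [Field k] [NumberField k] [Algebra k ℂ] {z : ℂ}
    {Z Z' : ℂ → ℂ} (h : IsEpstein k z Z) (h' : IsEpstein k z Z') : deriv Z 0 = deriv Z' 0 := by
  have hopen : IsOpen ({1}ᶜ : Set ℂ) := isOpen_compl_singleton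
  have hmem : (0 : ℂ) ∈ ({1}ᶜ : Set ℂ) := by simp
  have hZ : AnalyticOnNhd ℂ Z {1}ᶜ := h.diff.analyticOnNhd hopen
  have hW : AnalyticOnNhd ℂ Z' {1}ᶜ := h'.diff.analyticOnNhd hopen
  have hconn : IsPreconnected ({1}ᶜ : Set ℂ) :=
    (isConnected_compl_singleton_of_one_lt_rank (by simp) 1).isPreconnected
  have hev : Z =ᶠ[𝓝 (2 : ℂ)] Z' := by
    have ho : IsOpen {s : ℂ | 1 < s.re} := isOpen_lt continuous_const Complex.continuous_re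
    filter_upwards [ho.mem_nhds (show (2 : ℂ) ∈ {s : ℂ | 1 < s.re} by simp)] with s hs
    exact (h.sum s hs).unique (h'.sum s hs)
  have hall := hZ.eqOn_of_preconnected_of_eventuallyEq hW hconn
    (show (2 : ℂ) ∈ ({1}ᶜ : Set ℂ) by simp) hev
  have h0 : Z =ᶠ[𝓝 (0 : ℂ)] Z' := by
    filter_upwards [hopen.mem_nhds hmem] with s hs
    exact hall hs
  exact h0.deriv_eq

private lemma eps_exists {k : Type} [Field k] [NumberField k] [Algebra k ℂ]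
    (hk : Module.finrank ℚ k = 2) (hI : ∃ j : k, algebraMap k ℂ j = s2) {z : ℂ}
    (hz : z ∉ LH.lattice) :
    ∃ Z : ℂ → ℂ, IsEpstein k z Z ∧ deriv Z 0 = (BB (Real.sqrt 2) z : ℝ) := by
  obtain ⟨e, he⟩ := exists_iso hk hI
  obtain ⟨Z, hZ, hd⟩ := eps_kron hz
  exact ⟨Z, ⟨hZ.diff, fun s hs => (eps_iff e he z Z s).2 (hZ.sum s hs), hZ.zero⟩, hd⟩

theorem exists_epstein {k : Type} [Field k] [NumberField k] [Algebra k ℂ]
    (hk : Module.finrank ℚ k = 2) (hI : ∃ j : k, algebraMap k ℂ j = s2) {z : ℂ}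
    (hz : z ∉ LH.lattice) :
    ∃ Z : ℂ → ℂ, IsEpstein k z Z := by
  obtain ⟨Z, hZ, _⟩ := eps_exists hk hI hz
  exact ⟨Z, hZ⟩

theorem deriv_epstein {k : Type} [Field k] [NumberField k] [Algebra k ℂ]
    (hk : Module.finrank ℚ k = 2) (hI : ∃ j : k, algebraMap k ℂ j = s2) {z : ℂ}
    (hz : z ∉ LH.lattice) {Z : ℂ → ℂ} (hZ : IsEpstein k z Z) :
    deriv Z 0 = (BB (Real.sqrt 2) z : ℝ) := by
  obtain ⟨Z', hZ', hd⟩ := eps_exists hk hI hz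
  rw [eps_deriv hZ hZ', hd]

end Pool.Agent.CMH
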