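import Pool.Agent.CMH.XTau
import Pool.Agent.CMH.Tors

/-!
# the set HSH α: cardinality and products over E[α]

The map `q ↦ XH (torH α q)` from the nonzero classes onto `HSH α` has fibres `{q, -q}` of size exactly
`2` (`XH_eq_iff`, `exists_tor`; `2q = 0` implies `q = 0` since `α` is odd: `α` is prime to `2`), and
`XH (torH α (-q)) = XH (torH α q)`. Compare `CMG/HSet.lean` (fibres of size `4` there).
-/

set_option autoImplicit false

noncomputable section

open Complex Filter Topology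
open scoped PeriodPair Classical

namespace Pool.Agent.CMH

private theorem tor_mul {α : O2} (hα : α ≠ 0) (ε : O2) (q : O2 ⧸ Ideal.span {α}) :
    (ε : ℂ) * torH α q - torH α (Ideal.Quotient.mk (Ideal.span {α}) ε * q) ∈ LH.lattice := by
  set q' := Ideal.Quotient.mk (Ideal.span {α}) ε * q with hq'
  have h1 : ε * (Quotient.out q : O2) - (Quotient.out q' : O2) ∈ Ideal.span {α} := by
    rw [← Ideal.Quotient.eq, map_mul]
    have e1 : Ideal.Quotient.mk (Ideal.span {α}) (Quotient.out q : O2) = q :=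
      Quotient.out_eq' q
    have e2 : Ideal.Quotient.mk (Ideal.span {α}) (Quotient.out q' : O2) = q' :=
      Quotient.out_eq' q'
    rw [e1, e2]
  obtain ⟨b, hb⟩ := Ideal.mem_span_singleton'.1 h1
  have hα' : (α : ℂ) ≠ 0 := coe_ne_zero hα
  rw [mem_LH]
  refine ⟨b, ?_⟩
  have hb' : (b : ℂ) * (α : ℂ) =
      (ε : ℂ) * ((Quotient.out q : O2) : ℂ) - ((Quotient.out q' : O2) : ℂ) := by
    have := congrArg (fun x : O2 => (x : ℂ)) hb
    simpa only [map_mul, map_sub] using this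
  rw [torH, torH]
  field_simp
  linear_combination hb'

section

variable {α : O2}

private theorem tor_neg (hα : α ≠ 0) (q : O2 ⧸ Ideal.span {α}) :
    - torH α q - torH α (-q) ∈ LH.lattice := by
  have h := tor_mul hα (-1 : O2) q
  have e : Ideal.Quotient.mk (Ideal.span {α}) (-1 : O2) * q = -q := by
    rw [map_neg, map_one]; ring
  rw [e, map_neg, map_one] at h
  simpa using h

private theorem XH_tor_neg (hα : α ≠ 0) (q : O2 ⧸ Ideal.span {α}) :
    XH (torH α (-q)) = XH (torH α q) := by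
  have h := tor_neg hα q
  rw [← XH_neg (torH α q), ← XH_add_coe (torH α (-q)) h]
  congr 1
  ring

private theorem two_mul_ne (hα : IsOddH α) {q : O2 ⧸ Ideal.span {α}} (hq : q ≠ 0) :
    2 * q ≠ 0 := by
  intro h
  obtain ⟨k, hk⟩ := hα
  have hn : Zsqrtd.norm α = 2 * (k : ℤ) + 1 := by
    have h0 : 0 ≤ Zsqrtd.norm α := norm_nonneg' α
    have : ((nH α : ℕ) : ℤ) = Zsqrtd.norm α := by
      rw [nH]; exact Int.natAbs_of_nonneg h0
    rw [← this, hk]; push_cast; ring
  have hz : (Ideal.Quotient.mk (Ideal.span {α}) (α * star α)) = 0 := by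
    rw [Ideal.Quotient.eq_zero_iff_mem]
    exact Ideal.mul_mem_right _ _ (Ideal.mem_span_singleton_self α)
  rw [← Zsqrtd.norm_eq_mul_conj, hn] at hz
  have h1 : (2 * (k : O2 ⧸ Ideal.span {α}) + 1) = 0 := by
    have h2 : (((2 * (k : ℤ) + 1 : ℤ)) : O2) = 2 * (k : O2) + 1 := by push_cast; ring
    rw [h2, map_add, map_mul, map_one, map_natCast, map_ofNat] at hz
    exact hz
  apply hq
  have : q = (2 * (k : O2 ⧸ Ideal.span {α}) + 1) * q - k * (2 * q) := by ring
  rw [this, h1, h]; ring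

private theorem ne_neg (hα : IsOddH α) {q : O2 ⧸ Ideal.span {α}} (hq : q ≠ 0) : q ≠ -q :=
  fun h => two_mul_ne hα hq (by linear_combination h)

private theorem XH_tor_eq_iff (hα : α ≠ 0) {q q' : O2 ⧸ Ideal.span {α}} (hq : q ≠ 0)
    (hq' : q' ≠ 0) : XH (torH α q) = XH (torH α q') ↔ q = q' ∨ q = -q' := by
  constructor
  · intro h
    have hn : torH α q ∉ LH.lattice := fun h => hq ((tor_mem_iff hα q).1 h)
    have hn' : torH α q' ∉ LH.lattice := fun h => hq' ((tor_mem_iff hα q').1 h)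
    rcases (XH_eq_iff hn hn').1 h with hm | hm
    · left
      exact (exists_tor hα (mul_tor_mem hα q)).unique (y₁ := q) (y₂ := q') (by simp) hm
    · right
      refine (exists_tor hα (mul_tor_mem hα q)).unique (y₁ := q) (y₂ := -q') (by simp) ?_
      have := LH.lattice.add_mem hm (tor_neg hα q')
      rwa [show torH α q + torH α q' + (- torH α q' - torH α (-q')) = torH α q - torH α (-q') by
        ring] at this
  · rintro (rfl | rfl)
    · rfl
    · exact XH_tor_neg hα q'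

variable [Fintype (O2 ⧸ Ideal.span {α})]

/-- the nonzero classes -/
private def SS (α : O2) [Fintype (O2 ⧸ Ideal.span {α})] :
    Finset (O2 ⧸ Ideal.span {α}) := Finset.univ.filter (· ≠ 0)

/-- the values -/
private def TT (α : O2) [Fintype (O2 ⧸ Ideal.span {α})] : Finset ℂ :=
  (SS α).image fun q => XH (torH α q)

private theorem mem_SS {q : O2 ⧸ Ideal.span {α}} : q ∈ SS α ↔ q ≠ 0 := by
  simp [SS]

private theorem fib (hα : IsOddH α) {q : O2 ⧸ Ideal.span {α}} (hq : q ≠ 0) :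
    (SS α).filter (fun q' => XH (torH α q') = XH (torH α q)) = {q, -q} := by
  ext q'
  rw [Finset.mem_filter, mem_SS]
  simp only [Finset.mem_insert, Finset.mem_singleton]
  constructor
  · rintro ⟨h1, h2⟩
    exact (XH_tor_eq_iff hα.ne_zero h1 hq).1 h2
  · intro h
    have h1 : q' ≠ 0 := by
      rcases h with rfl | rfl
      · exact hq
      · exact neg_ne_zero.2 hq
    exact ⟨h1, (XH_tor_eq_iff hα.ne_zero h1 hq).2 h⟩

private theorem HSH_eq (hα : IsOddH α) : HSH α = (TT α : Set ℂ) := by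
  ext t
  simp only [HSH, TT, Set.mem_image, Set.mem_ofPred_eq, Finset.coe_image, Finset.mem_coe, mem_SS]
  constructor
  · rintro ⟨w, ⟨h1, h2⟩, rfl⟩
    obtain ⟨q, hq, -⟩ := exists_tor hα.ne_zero h2
    refine ⟨q, ?_, ?_⟩
    · rintro rfl
      have h0 : torH α 0 ∈ LH.lattice := (tor_mem_iff hα.ne_zero 0).2 rfl
      exact h1 (by simpa using LH.lattice.add_mem hq h0)
    · rw [← XH_add_coe (torH α q) hq]
      congr 1; ring
  · rintro ⟨q, hq, rfl⟩
    exact ⟨torH α q, ⟨fun h => hq ((tor_mem_iff hα.ne_zero q).1 h), mul_tor_mem hα.ne_zero q⟩, rfl⟩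

private theorem card_SS (hα : IsOddH α) : (SS α).card + 1 = nH α := by
  have h1 : (SS α).card = Fintype.card (O2 ⧸ Ideal.span {α}) - 1 := by
    rw [SS, Finset.filter_ne', Finset.card_erase_of_mem (Finset.mem_univ _), Finset.card_univ]
  have h2 : 0 < Fintype.card (O2 ⧸ Ideal.span {α}) := Fintype.card_pos
  have h3 : Fintype.card (O2 ⧸ Ideal.span {α}) = nH α := by
    rw [← card_quot hα.ne_zero, Nat.card_eq_fintype_card]
  omega

private theorem key (hα : IsOddH α) (g : ℂ → ℂ) :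
    ∏ q ∈ SS α, g (XH (torH α q)) = (∏ t ∈ TT α, g t) ^ 2 := by
  rw [← Finset.prod_pow]
  rw [← Finset.prod_fiberwise_of_maps_to (s := SS α) (t := TT α)
    (g := fun q => XH (torH α q)) (fun q hq => Finset.mem_image_of_mem _ hq)]
  refine Finset.prod_congr rfl fun t ht => ?_
  obtain ⟨q, hq, rfl⟩ := Finset.mem_image.1 ht
  rw [mem_SS] at hq
  rw [fib hα hq, Finset.prod_pair (ne_neg hα hq), XH_tor_neg hα.ne_zero]
  ring

end

theorem HSH_card {α : O2} (hα : IsOddH α) : 2 * (HSH α).ncard + 1 = nH α := by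
  have := finite_quot hα.ne_zero
  letI := Fintype.ofFinite (O2 ⧸ Ideal.span {α})
  rw [HSH_eq hα, Set.ncard_coe_finset, ← card_SS hα]
  congr 1
  rw [Finset.card_eq_sum_card_fiberwise (s := SS α) (t := TT α)
    (f := fun q => XH (torH α q)) (fun q hq => Finset.mem_image_of_mem _ hq)]
  rw [Finset.sum_congr rfl (g := fun _ => 2) ?_]
  · rw [Finset.sum_const, smul_eq_mul, mul_comm]
  · intro t ht
    obtain ⟨q, hq, rfl⟩ := Finset.mem_image.1 ht
    rw [mem_SS] at hq
    rw [fib hα hq, Finset.card_pair (ne_neg hα hq)]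

private theorem finprod_ne {α : O2} [Fintype (O2 ⧸ Ideal.span {α})]
    (f : (O2 ⧸ Ideal.span {α}) → ℂ) :
    ∏ᶠ (q : O2 ⧸ Ideal.span {α}) (_ : q ≠ 0), f q = ∏ q ∈ SS α, f q := by
  rw [← finprod_mem_coe_finset]
  refine finprod_congr fun q => ?_
  have : (q ≠ 0) = (q ∈ (SS α : Set (O2 ⧸ Ideal.span {α}))) := by
    rw [Finset.mem_coe, mem_SS]
  rw [this]

theorem HSH_prod_sub {α : O2} (hα : IsOddH α) (z : ℂ) : (∏ᶠ t ∈ HSH α, (XH z - t)) ^ 2 =
    ∏ᶠ (q : O2 ⧸ Ideal.span {α}) (_ : q ≠ 0), (XH z - XH (torH α q)) := by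
  have := finite_quot hα.ne_zero
  letI := Fintype.ofFinite (O2 ⧸ Ideal.span {α})
  rw [HSH_eq hα, finprod_mem_coe_finset, finprod_ne]
  rw [key hα (fun x => XH z - x)]

theorem HSH_prod {α : O2} (hα : IsOddH α) : (∏ᶠ t ∈ HSH α, t) ^ 2 =
    ∏ᶠ (q : O2 ⧸ Ideal.span {α}) (_ : q ≠ 0), XH (torH α q) := by
  have := finite_quot hα.ne_zero
  letI := Fintype.ofFinite (O2 ⧸ Ideal.span {α})
  rw [HSH_eq hα, finprod_mem_coe_finset, finprod_ne]
  rw [key hα (fun x => x)]

/-- `0` is not in `HSH α` -/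
theorem zero_notMem_HSH {α : O2} (hα : IsOddH α) : (0 : ℂ) ∉ HSH α := by
  rintro ⟨w, ⟨h1, h2⟩, h0⟩
  have h3 := (XH_eq_zero_iff h1).1 h0
  have h4 := mul_mem_LH α h3
  rw [mul_sub] at h4
  have h5 := LH.lattice.sub_mem h2 (LH.lattice.add_mem h4 (odd_mul_tau hα))
  rw [show (α : ℂ) * w - (α * w - α * tauH + (α * tauH - tauH)) = tauH by ring] at h5
  exact tau_notMem h5

theorem PsiH_eq {α : O2} (hα : IsOddH α) (z : ℂ) :
    PsiH α z = 2 ^ ((nH α - 1) / 2) * (∏ᶠ t ∈ HSH α, t) / ∏ᶠ t ∈ HSH α, (XH z - t) := by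
  have hc := HSH_card hα
  have := finite_quot hα.ne_zero
  letI := Fintype.ofFinite (O2 ⧸ Ideal.span {α})
  rw [PsiH]
  rw [HSH_eq hα, Set.ncard_coe_finset] at hc
  rw [HSH_eq hα, finprod_mem_coe_finset, finprod_mem_coe_finset, finprod_mem_coe_finset,
    Finset.prod_div_distrib, Finset.prod_mul_distrib, Finset.prod_const]
  congr 3
  omega

end Pool.Agent.CMH
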