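import Pool.Agent.CMH.PsiOrd
import Pool.Agent.CMG.AnBB
import Pool.Agent.CMG.Liou
import Pool.Agent.CMH.Isog
import Pool.Agent.CMH.Euclid

/-!
# Kronecker formula up to a constant

Compare `CMG/KConst.lean` (`r = 1` there). `r = √2`, `P = PP r` has simple zeros exactly on `L`
(`CMG/AnPP`: `PP_eq_zero_iff`, `deriv_PP_zero_ne`, `PP_add_one`, `PP_add_rI`). With `α = a + bs`
(`s = s2 = √2 i`), `N = nH α = a² + 2b²` put
`F(z) = P(z)^N / P(αz) · exp(-π r Q(z))`, `Q(z) = b s α z² / 2 + i (N - α) z / √2 + (N-1)/6`.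
For `y = Im z`, `Y = Im (αz)`: `N((y/r)² - y/r + 1/6) - ((Y/r)² - Y/r + 1/6) = Re Q(z)`
(`N y² - Y² = Re (b s α z²)`, `N y - Y = -Re (i (N - α) z)`), so `N BB(z) - BB(αz) = -2 log |F(z)|` for
`αz ∉ L`. By `BB_periodic` `|F|` is `L`-periodic off `(1/α) L`; `F` has the order
`N [z ∈ L] - [αz ∈ L]`, the same as `PsiH α` (`PsiH_order`). So `F/PsiH α` has order `0` everywhere, and it is
constant by `liouville`; the constant is not `0`.
-/

set_option autoImplicit false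

noncomputable section

open Complex Filter Topology
open scoped PeriodPair Classical

namespace Pool.Agent.CMH

open Pool.Agent.CMG (BB PP ee liouville)
open Pool.Agent.CMG (PP_eq_zero_iff differentiable_PP PP_add_one PP_add_rI deriv_PP_zero_ne BB_periodic)

private abbrev rr : ℝ := Real.sqrt 2

private lemma rr_pos : 0 < rr := Real.sqrt_pos.2 (by norm_num)

private lemma s2_eq : s2 = rr * I := rfl

private lemma kc_mem {z : ℂ} : z ∈ LH.lattice ↔ ∃ m n : ℤ, z = m + n * s2 := by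
  rw [PeriodPair.mem_lattice]
  constructor
  · rintro ⟨m, n, rfl⟩
    refine ⟨m, n, ?_⟩
    show (m : ℂ) * 1 + n * s2 = _
    ring
  · rintro ⟨m, n, rfl⟩
    refine ⟨m, n, ?_⟩
    show (m : ℂ) * 1 + n * s2 = _
    ring

private lemma kc_zero (z : ℂ) : PP rr z = 0 ↔ z ∈ LH.lattice := by
  rw [PP_eq_zero_iff rr_pos, kc_mem, s2_eq]
  simp only [mul_assoc]

private lemma kc_an (z : ℂ) : AnalyticAt ℂ (PP rr) z := (differentiable_PP rr_pos).analyticAt z

private lemma kc_ord_add_one (z : ℂ) :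
    meromorphicOrderAt (PP rr) (z + 1) = meromorphicOrderAt (PP rr) z := by
  rw [← meromorphicOrderAt_comp_add_const_eq_meromorphicOrderAt]
  congr 1
  funext w
  exact PP_add_one rr w

private lemma kc_ord_add_I (z : ℂ) :
    meromorphicOrderAt (PP rr) (z + s2) = meromorphicOrderAt (PP rr) z := by
  rw [← meromorphicOrderAt_comp_add_const_eq_meromorphicOrderAt]
  have h : (PP rr) ∘ (· + s2) = (fun w => - ee (-w)) * PP rr := by
    funext w
    exact PP_add_rI rr_pos w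
  rw [h, meromorphicOrderAt_mul_of_ne_zero]
  · unfold ee
    fun_prop
  · unfold ee
    simp [Complex.exp_ne_zero]

private lemma kc_ord (z : ℂ) : meromorphicOrderAt (PP rr) z =
    ((if z ∈ LH.lattice then 1 else 0 : ℤ) : WithTop ℤ) := by
  split_ifs with h
  · obtain ⟨m, n, rfl⟩ := kc_mem.1 h
    have h1 : Function.Periodic (fun z => meromorphicOrderAt (PP rr) z) 1 := kc_ord_add_one
    have h2 : Function.Periodic (fun z => meromorphicOrderAt (PP rr) z) s2 := kc_ord_add_I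
    have h3 := h1.int_mul m 0
    have h4 := h2.int_mul n (m : ℂ)
    simp only [mul_one, zero_add] at h3 h4
    rw [h4, h3, (kc_an 0).meromorphicOrderAt_eq,
      (kc_an 0).analyticOrderAt_eq_one_of_zero_deriv_ne_zero
        ((kc_zero 0).2 (Submodule.zero_mem _)) (deriv_PP_zero_ne rr_pos)]
    rfl
  · rw [(kc_an z).meromorphicOrderAt_eq, (kc_an z).analyticOrderAt_eq_zero.2
      (fun h1 => h ((kc_zero z).1 h1))]
    rfl

private def kE (α : O2) (z : ℂ) : ℂ :=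
  Real.pi * (I * (α.im : ℂ) * α * z ^ 2 + I * ((nH α : ℂ) - α) * z +
    (rr : ℂ) * ((nH α : ℂ) - 1) / 6)

private lemma kc_nH (α : O2) : (nH α : ℝ) = (α.re : ℝ) ^ 2 + rr ^ 2 * (α.im : ℝ) ^ 2 := by
  have h0 : rr ^ 2 = 2 := Real.sq_sqrt (by norm_num)
  have h1 : ((nH α : ℤ) : ℝ) = (Zsqrtd.norm α : ℝ) := by
    unfold nH
    rw [Int.natAbs_of_nonneg (norm_nonneg' α)]
  rw [h0]
  have h2 : (nH α : ℝ) = ((nH α : ℤ) : ℝ) := by push_cast; rfl
  rw [h2, h1, Zsqrtd.norm_def]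
  push_cast
  ring

private lemma kc_re (α : O2) (z : ℂ) : (kE α z).re = Real.pi * rr *
    (nH α * ((z.im / rr) ^ 2 - z.im / rr + 1 / 6) -
    ((((α : ℂ) * z).im / rr) ^ 2 - ((α : ℂ) * z).im / rr + 1 / 6)) := by
  have hr : rr ≠ 0 := rr_pos.ne'
  have h2 : kE α z = ((Real.pi : ℝ) : ℂ) * (I * ((α.im : ℝ) : ℂ) * (((α.re : ℝ) : ℂ) +
      ((α.im : ℝ) : ℂ) * ((rr : ℂ) * I)) *
      z ^ 2 + I * (((nH α : ℝ) : ℂ) - (((α.re : ℝ) : ℂ) + ((α.im : ℝ) : ℂ) * ((rr : ℂ) * I))) * z +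
      ((rr * ((nH α : ℝ) - 1) / 6 : ℝ) : ℂ)) := by
    unfold kE
    rw [coe_def, s2_eq]
    push_cast
    ring
  have h3 : (α : ℂ) * z = (((α.re : ℝ) : ℂ) + ((α.im : ℝ) : ℂ) * ((rr : ℂ) * I)) * z := by
    rw [coe_def, s2_eq]
    push_cast
    ring
  rw [h2, h3, kc_nH]
  simp only [pow_two, Complex.mul_re, Complex.add_re, Complex.mul_im, Complex.add_im,
    Complex.ofReal_re, Complex.ofReal_im, Complex.I_re, Complex.I_im, Complex.sub_re,
    Complex.sub_im]
  field_simp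
  ring

private def kF (α : O2) : ℂ → ℂ :=
  (PP rr ^ nH α) * (PP rr ∘ fun z => (α : ℂ) * z)⁻¹ * fun z => exp (-kE α z)

private lemma kE_an (α : O2) (z : ℂ) : AnalyticAt ℂ (kE α) z := by
  unfold kE
  fun_prop

private lemma kc_mul_an (α : O2) (z : ℂ) : AnalyticAt ℂ (fun z : ℂ => (α : ℂ) * z) z := by
  fun_prop

private lemma kc_comp_an (α : O2) (z : ℂ) : AnalyticAt ℂ (PP rr ∘ fun z => (α : ℂ) * z) z :=
  (kc_an _).comp (kc_mul_an α z)

private lemma kF_mer (α : O2) (z : ℂ) : MeromorphicAt (kF α) z := by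
  unfold kF
  exact (((kc_an z).meromorphicAt.pow _).mul (kc_comp_an α z).meromorphicAt.inv).mul
    ((kE_an α z).neg.cexp).meromorphicAt

private lemma kc_ne {α : O2} (hα : IsOddH α) : (α : ℂ) ≠ 0 := coe_ne_zero hα.ne_zero

private lemma kc_comp_ord {α : O2} (hα : IsOddH α) (z : ℂ) :
    meromorphicOrderAt (PP rr ∘ fun z => (α : ℂ) * z) z =
      ((if (α : ℂ) * z ∈ LH.lattice then 1 else 0 : ℤ) : WithTop ℤ) := by
  rw [meromorphicOrderAt_comp_of_deriv_ne_zero (kc_mul_an α z), kc_ord]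
  rw [deriv_const_mul_id]
  exact kc_ne hα

private lemma kF_ord {α : O2} (hα : IsOddH α) (z : ℂ) : meromorphicOrderAt (kF α) z =
    ((if z ∈ LH.lattice then (nH α : ℤ) - 1 else if α * z ∈ LH.lattice then -1 else 0 : ℤ) :
      WithTop ℤ) := by
  have h0 : AnalyticAt ℂ (fun z => exp (-kE α z)) z := (kE_an α z).neg.cexp
  have h1 : meromorphicOrderAt (kF α) z =
      meromorphicOrderAt ((PP rr ^ nH α) * (PP rr ∘ fun z => (α : ℂ) * z)⁻¹) z := by
    unfold kF
    rw [mul_comm, meromorphicOrderAt_mul_of_ne_zero h0 (Complex.exp_ne_zero _)]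
  rw [h1, meromorphicOrderAt_mul ((kc_an z).meromorphicAt.pow _)
    (kc_comp_an α z).meromorphicAt.inv, meromorphicOrderAt_pow (kc_an z).meromorphicAt,
    meromorphicOrderAt_inv, kc_comp_ord hα, kc_ord]
  by_cases h2 : z ∈ LH.lattice
  · rw [if_pos h2, if_pos (mul_mem_LH α h2), if_pos h2]
    norm_cast
    simp [Int.subNatNat_eq_coe, sub_eq_add_neg]
  · rw [if_neg h2, if_neg h2]
    split_ifs
    · norm_cast
    · norm_cast

private lemma kF_ne {α : O2} {z : ℂ} (hz : (α : ℂ) * z ∉ LH.lattice) : kF α z ≠ 0 := by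
  have h1 : z ∉ LH.lattice := fun h => hz (mul_mem_LH α h)
  unfold kF
  refine mul_ne_zero (mul_ne_zero (pow_ne_zero _ ?_) (inv_ne_zero ?_)) (Complex.exp_ne_zero _)
  · exact fun h => h1 ((kc_zero z).1 h)
  · exact fun h => hz ((kc_zero _).1 h)

private lemma kF_an {α : O2} {z : ℂ} (hz : (α : ℂ) * z ∉ LH.lattice) :
    AnalyticAt ℂ (kF α) z := by
  unfold kF
  refine (((kc_an z).pow _).mul ((kc_comp_an α z).inv ?_)).mul ((kE_an α z).neg.cexp)
  exact fun h => hz ((kc_zero _).1 h)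

private lemma kF_log {α : O2} {z : ℂ} (hz : (α : ℂ) * z ∉ LH.lattice) :
    nH α * BB rr z - BB rr (α * z) = -2 * Real.log ‖kF α z‖ := by
  have h1 : z ∉ LH.lattice := fun h => hz (mul_mem_LH α h)
  have h2 : ‖PP rr z‖ ≠ 0 := norm_ne_zero_iff.2 fun h => h1 ((kc_zero z).1 h)
  have h3 : ‖PP rr (α * z)‖ ≠ 0 := norm_ne_zero_iff.2 fun h => hz ((kc_zero _).1 h)
  have h4 : ‖kF α z‖ = ‖PP rr z‖ ^ nH α * ‖PP rr (α * z)‖⁻¹ * Real.exp (-(kE α z).re) := by
    unfold kF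
    simp only [Pi.mul_apply, Pi.pow_apply, Pi.inv_apply, Function.comp_apply, norm_mul, norm_pow,
      norm_inv, Complex.norm_exp, Complex.neg_re]
  rw [h4, Real.log_mul (mul_ne_zero (pow_ne_zero _ h2) (inv_ne_zero h3)) (Real.exp_pos _).ne',
    Real.log_mul (pow_ne_zero _ h2) (inv_ne_zero h3), Real.log_pow, Real.log_inv, Real.log_exp,
    kc_re]
  unfold BB
  ring

private lemma kF_per {α : O2} {z l : ℂ} (hz : (α : ℂ) * z ∉ LH.lattice) (hl : l ∈ LH.lattice) :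
    ‖kF α (z + l)‖ = ‖kF α z‖ := by
  have h0 : (α : ℂ) * (z + l) ∉ LH.lattice := by
    intro h
    apply hz
    have := Submodule.sub_mem _ h (mul_mem_LH α hl)
    rwa [show (α : ℂ) * (z + l) - α * l = α * z by ring] at this
  have h1 := kF_log hz
  have h2 := kF_log h0
  have hp : ∀ {w m : ℂ}, w ∉ LH.lattice → m ∈ LH.lattice → BB rr (w + m) = BB rr w := by
    intro w m hw hm
    obtain ⟨a, b, rfl⟩ := kc_mem.1 hm
    have := BB_periodic rr_pos (z := w) (fun h => hw ((kc_zero w).1 h)) a b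
    rw [← this, s2_eq]
    congr 1
    ring
  rw [mul_add, hp hz (mul_mem_LH α hl), hp (fun h => hz (mul_mem_LH α h)) hl, h1] at h2
  have h3 : Real.log ‖kF α (z + l)‖ = Real.log ‖kF α z‖ := by linarith
  exact Real.log_injOn_pos (norm_pos_iff.2 (kF_ne h0)) (norm_pos_iff.2 (kF_ne hz)) h3

private lemma kc_codiscrete {α : O2} (hα : IsOddH α) :
    ∀ᶠ z in codiscrete ℂ, (α : ℂ) * z ∉ LH.lattice := by
  have h1 : {z : ℂ | (α : ℂ) * z ∉ LH.lattice} ∈ codiscrete ℂ := by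
    rw [mem_codiscrete]
    intro z
    rw [disjoint_principal_right, compl_compl]
    have h2 : meromorphicOrderAt (PP rr ∘ fun z => (α : ℂ) * z) z ≠ ⊤ := by
      rw [kc_comp_ord hα]
      exact WithTop.coe_ne_top
    have h3 := (meromorphicOrderAt_ne_top_iff_eventually_ne_zero
      (kc_comp_an α z).meromorphicAt).1 h2
    filter_upwards [h3] with y hy
    exact fun h => hy ((kc_zero _).2 h)
  exact h1

private lemma kc_nhdsNE {P : ℂ → Prop} (h : ∀ᶠ z in codiscrete ℂ, P z) (z : ℂ) :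
    ∀ᶠ y in 𝓝[≠] z, P y := by
  have h1 : {y | P y} ∈ codiscrete ℂ := h
  rw [mem_codiscrete] at h1
  have h2 := h1 z
  rw [disjoint_principal_right, compl_compl] at h2
  exact h2

theorem kron_const {α : O2} (hα : IsOddH α) : ∃ d : ℝ, ∀ z : ℂ, α * z ∉ LH.lattice →
    nH α * BB (Real.sqrt 2) z - BB (Real.sqrt 2) (α * z) + 2 * Real.log ‖PsiH α z‖ = d := by
  have hm : ∀ z, MeromorphicAt (kF α * (PsiH α)⁻¹) z := fun z =>
    (kF_mer α z).mul (PsiH_meromorphic α z).inv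
  have ho : ∀ z, 0 ≤ meromorphicOrderAt (kF α * (PsiH α)⁻¹) z := by
    intro z
    rw [meromorphicOrderAt_mul (kF_mer α z) (PsiH_meromorphic α z).inv, meromorphicOrderAt_inv,
      kF_ord hα, PsiH_order hα]
    norm_cast
    simp
  have hp : ∀ l ∈ LH.lattice, ∀ᶠ z in codiscrete ℂ,
      ‖(kF α * (PsiH α)⁻¹) (z + l)‖ = ‖(kF α * (PsiH α)⁻¹) z‖ := by
    intro l hl
    filter_upwards [kc_codiscrete hα] with z hz
    simp only [Pi.mul_apply, Pi.inv_apply, norm_mul, norm_inv]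
    rw [kF_per hz hl, PsiH_add_coe α z hl]
  obtain ⟨c, hc⟩ := liouville LH hm ho hp
  refine ⟨-2 * Real.log ‖c‖, fun z hz => ?_⟩
  have hcont : ContinuousAt (kF α * (PsiH α)⁻¹) z :=
    ((kF_an hz).mul ((PsiH_analytic hα hz).inv (PsiH_ne_zero hα hz))).continuousAt
  have h1 : (kF α * (PsiH α)⁻¹) z = c := by
    have h2 : Tendsto (kF α * (PsiH α)⁻¹) (𝓝[≠] z) (𝓝 ((kF α * (PsiH α)⁻¹) z)) :=
      hcont.tendsto.mono_left nhdsWithin_le_nhds
    have h3 : Tendsto (kF α * (PsiH α)⁻¹) (𝓝[≠] z) (𝓝 c) :=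
      tendsto_const_nhds.congr' ((kc_nhdsNE hc z).mono fun y hy => hy.symm)
    exact tendsto_nhds_unique h2 h3
  rw [kF_log hz, ← h1]
  simp only [Pi.mul_apply, Pi.inv_apply, norm_mul, norm_inv]
  rw [Real.log_mul (norm_ne_zero_iff.2 (kF_ne hz))
    (inv_ne_zero (norm_ne_zero_iff.2 (PsiH_ne_zero hα hz))), Real.log_inv]
  ring

end Pool.Agent.CMH
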