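import Pool.Agent.StarkRQ.Klein

/-!
# The Klein four case with the continuation of `ζ(s, σ) - ζ(s, R σ)` constructed

The proof is the one of `StarkRQ/Klein.lean`.
-/

open NumberField Module

namespace Pool.Agent.StarkRQ

section

variable {M K k₁ k₂ M₁ M₂ H : Type}
    [Field M] [NumberField M] [IsGalois ℚ M]
    [Field M₁] [NumberField M₁] [IsGalois ℚ M₁] [Field M₂] [NumberField M₂] [IsGalois ℚ M₂]
    [Field K] [NumberField K] [Field k₁] [NumberField k₁] [Field k₂] [NumberField k₂]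
    [Field H] [NumberField H]
    [Algebra M₁ M] [Algebra M₂ M] [Algebra K M] [Algebra K M₁] [Algebra K M₂]
    [Algebra k₁ M₁] [Algebra k₂ M₂] [Algebra K H] [Algebra H M]
    [IsScalarTower K M₁ M] [IsScalarTower K M₂ M] [IsScalarTower K H M]

/-- Version of `klein` in which the continuations of the differences are constructed. -/
theorem klein_cont [IsTotallyReal K] [IsTotallyComplex k₁] [IsTotallyComplex k₂]
    (hK : finrank ℚ K = 2) (hk₁ : finrank ℚ k₁ = 2) (hk₂ : finrank ℚ k₂ = 2)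
    [IsAbelianGalois K M] [IsAbelianGalois k₁ M₁] [IsAbelianGalois k₂ M₂]
    {f : ℕ} (hf : 2 < f) (hf4 : f % 4 ≠ 2) {ζ : M} (hζ : IsPrimitiveRoot ζ f)
    (hmax : ∀ x : M, (∀ σ τ : Gal(M/ℚ), σ (τ x) = τ (σ x)) → x ∈ IntermediateField.adjoin ℚ {ζ})
    (hdeg : finrank ℚ M = 4 * f.totient) (hdeg₁ : finrank ℚ M₁ = 2 * f.totient)
    (hdeg₂ : finrank ℚ M₂ = 2 * f.totient) (hζ₁ : ζ ∈ (algebraMap M₁ M).range)
    (hζ₂ : ζ ∈ (algebraMap M₂ M).range) (hne : (algebraMap M₁ M).range ≠ (algebraMap M₂ M).range)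
    (hram : ∀ p : ℕ, p.Prime → (p : ℤ) ∣ discr M → p ∣ f)
    (ι : M →+* ℂ) (hH : ∀ y : H, (ι (algebraMap H M y)).im = 0)
    (η₁ : (𝓞 M₁)ˣ) (hη₁ : IsStarkUnit k₁ (ι.comp (algebraMap M₁ M)) f (algebraMap (𝓞 M₁) M₁ η₁))
    (η₂ : (𝓞 M₂)ˣ) (hη₂ : IsStarkUnit k₂ (ι.comp (algebraMap M₂ M)) f (algebraMap (𝓞 M₂) M₂ η₂))
    : ∃ (R : Gal(H/K)) (W : Gal(H/K) → ℂ → ℂ),
      (∀ σ, IsCont (fun n => (zcoeff f σ n : ℂ) - zcoeff f (R * σ) n) (W σ)) ∧
      ∃ ε : Gal(H/K) → (𝓞 H)ˣ,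
      (∀ σ, ι (algebraMap H M (ε σ : 𝓞 H)) = Complex.exp (-deriv (W σ) 0)) ∧
      (∀ ρ σ, ρ ((ε σ : 𝓞 H) : H) = ((ε (ρ * σ) : 𝓞 H) : H)) ∧
      ∀ g : H →+* ℂ, (∃ x : K, g (algebraMap K H x) ≠ ι (algebraMap K M x)) →
        (∀ y, g (R y) = starRingEnd ℂ (g y)) ∧ ∀ σ, ‖g ((ε σ : 𝓞 H) : H)‖ = 1 := by
  classical
  have : NeZero f := ⟨by omega⟩
  have : IsAbelianGalois K H := IsAbelianGalois.tower_bot K H M
  have : IsAbelianGalois K M₁ := IsAbelianGalois.tower_bot K M₁ M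
  have : IsAbelianGalois K M₂ := IsAbelianGalois.tower_bot K M₂ M
  have hA : ∀ σ τ : Gal(M/K), σ * τ = τ * σ := fun σ τ => mul_comm' σ τ
  have hB₁ : ∀ σ τ : Gal(M₁/k₁), σ * τ = τ * σ := fun σ τ => mul_comm' σ τ
  have hB₂ : ∀ σ τ : Gal(M₂/k₂), σ * τ = τ * σ := fun σ τ => mul_comm' σ τ
  have hφ0 : f.totient ≠ 0 := (Nat.totient_pos.2 (by omega)).ne'
  -- normalise the root of unity
  obtain ⟨j, j', hζp, hιζ, hjj⟩ := exists_zeta hζ ι
  have hmax' : ∀ x : M, (∀ σ τ : Gal(M/ℚ), σ (τ x) = τ (σ x)) →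
      x ∈ IntermediateField.adjoin ℚ {ζ ^ j} := by
    intro x hx
    have h1 : IntermediateField.adjoin ℚ {ζ} ≤ IntermediateField.adjoin ℚ {ζ ^ j} := by
      rw [IntermediateField.adjoin_simple_le_iff]
      have h2 := pow_mem (IntermediateField.mem_adjoin_simple_self ℚ (ζ ^ j)) j'
      rwa [hjj] at h2
    exact h1 (hmax x hx)
  have hζ₁' : ζ ^ j ∈ (algebraMap M₁ M).range := pow_mem hζ₁ j
  have hζ₂' : ζ ^ j ∈ (algebraMap M₂ M).range := pow_mem hζ₂ j
  clear hmax hζ₁ hζ₂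
  generalize ζ ^ j = ξ at hζp hιζ hmax' hζ₁' hζ₂'
  clear hjj hζ
  clear j j'
  -- complex conjugation
  obtain ⟨c, hc⟩ := exists_cc ι
  have hcc : c * c = 1 := by
    ext x
    apply ι.injective
    change ι (c (c x)) = ι x
    rw [hc, hc, Complex.conj_conj]
  have hcK : c ∈ fixG K M := cc_mem_fixG hc
  have hc₁ : ∀ x : M₁, (ι.comp (algebraMap M₁ M)) (res M₁ M c x) =
      starRingEnd ℂ ((ι.comp (algebraMap M₁ M)) x) := by
    intro x
    rw [RingHom.comp_apply, res_apply, hc, RingHom.comp_apply]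
  have hc₂ : ∀ x : M₂, (ι.comp (algebraMap M₂ M)) (res M₂ M c x) =
      starRingEnd ℂ ((ι.comp (algebraMap M₂ M)) x) := by
    intro x
    rw [RingHom.comp_apply, res_apply, hc, RingHom.comp_apply]
  have hcB₁ : res M₁ M c ∉ fixG k₁ M₁ := cc_notMem_fixG hc₁
  have hcB₂ : res M₂ M c ∉ fixG k₂ M₂ := cc_notMem_fixG hc₂
  have hker : (res M₁ M).ker ≠ (res M₂ M).ker := by
    intro h
    apply hne
    ext x
    rw [mem_range_iff_res, mem_range_iff_res]
    have h' : ∀ g, res M₁ M g = 1 ↔ res M₂ M g = 1 := by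
      intro g
      rw [← MonoidHom.mem_ker, ← MonoidHom.mem_ker, h]
    constructor
    · intro hx g hg
      exact hx g ((h' g).2 hg)
    · intro hx g hg
      exact hx g ((h' g).1 hg)
  obtain ⟨b, z, n₁, n₂, hbA, hb₁, hb₂, hconjA, hzA, hzz, hzc, hz₁, hz₂, hz1₁, hz1₂, hn₁, hn₂,
      hn₁1, hn₂1, hnn, a₀, ha₀A, ha₀₁, ha₀₂⟩ :=
    klein_group (res M₁ M) (res M₂ M) res_surjective res_surjective (fixG K M)
      (fixG_index (M := M) hK) (fixG_comm hA) (fixG K M₁) (fixG k₁ M₁) (fixG K M₂) (fixG k₂ M₂)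
      (by ext g; exact mem_fixG_iff_res g) (by ext g; exact mem_fixG_iff_res g)
      (fixG_index hk₁) (fixG_index hk₂) (fixG_comm hB₁) (fixG_comm hB₂) hcK hcc hcB₁ hcB₂
      (card_ker_res hφ0 hdeg hdeg₁) (card_ker_res hφ0 hdeg hdeg₂) hker
      (card_commutator hζp hmax' hdeg)
  have hzb : z = b * c * b⁻¹ * c⁻¹ := by rw [hconjA b hbA, mul_inv_cancel_right]
  have hzroot : ∀ u : M, ∀ m : ℕ, 0 < m → u ^ m = 1 → z u = u := by
    intro u m hm hu
    have : NeZero m := ⟨hm.ne'⟩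
    have := commutator_fixes (w := m) b c u hu
    rwa [← hzb] at this
  have hzξ : z ξ = ξ := hzroot ξ f (by omega) hζp.pow_eq_one
  have hpp : ¬ IsPrimePow f := by
    obtain ⟨ξ₁, hξ₁⟩ := hζ₁'
    obtain ⟨ξ₂, hξ₂⟩ := hζ₂'
    have hp₁ : IsPrimitiveRoot ξ₁ f :=
      IsPrimitiveRoot.of_map_of_injective (f := algebraMap M₁ M) (by rw [hξ₁]; exact hζp)
        (algebraMap M₁ M).injective
    have hp₂ : IsPrimitiveRoot ξ₂ f :=
      IsPrimitiveRoot.of_map_of_injective (f := algebraMap M₂ M) (by rw [hξ₂]; exact hζp)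
        (algebraMap M₂ M).injective
    have hfix : ∀ g : Gal(M/ℚ), g ∈ (hζp.autToPow ℚ).ker → g ξ = ξ := by
      intro g hg
      rw [MonoidHom.mem_ker] at hg
      have h1 := hζp.autToPow_spec ℚ g
      rw [hg] at h1
      have : Fact (1 < f) := ⟨by omega⟩
      rw [Units.val_one, ZMod.val_one, pow_one] at h1
      exact h1.symm
    have hf₁ : ∀ g : Gal(M/ℚ), g ξ = ξ → res M₁ M g = 1 ∨ res M₁ M g = res M₁ M z := by
      intro g hg
      refine eq_one_or_of_fix hp₁ hdeg₁ hz1₁ ?_ ?_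
      · apply (algebraMap M₁ M).injective
        rw [res_apply, hξ₁, hzξ]
      · apply (algebraMap M₁ M).injective
        rw [res_apply, hξ₁, hg]
    have hf₂ : ∀ g : Gal(M/ℚ), g ξ = ξ → res M₂ M g = 1 ∨ res M₂ M g = res M₂ M z := by
      intro g hg
      refine eq_one_or_of_fix hp₂ hdeg₂ hz1₂ ?_ ?_
      · apply (algebraMap M₂ M).injective
        rw [res_apply, hξ₂, hzξ]
      · apply (algebraMap M₂ M).injective
        rw [res_apply, hξ₂, hg]
    refine exists_three (hζp.autToPow ℚ) (chi_surjective hζp) (fixG K M)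
      ((fixG k₁ M₁).comap (res M₁ M)) ((fixG k₂ M₂).comap (res M₂ M)) (fixG_index (M := M) hK)
      (by rw [Subgroup.index_comap_of_surjective _ res_surjective]; exact fixG_index hk₁)
      (by rw [Subgroup.index_comap_of_surjective _ res_surjective]; exact fixG_index hk₂)
      ?_ ?_ ?_ (a := a₀) (b := b) (c := c) ha₀A ha₀₁ ha₀₂ hbA hb₁ hb₂ hcK hcB₁
    · intro g hg
      rw [mem_fixG_iff_res (M₁ := M₁)]
      rcases hf₁ g (hfix g hg) with h | h
      · rw [h]; exact Subgroup.one_mem _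
      · rw [h]; exact hz₁.mem_A
    · intro g hg
      rw [Subgroup.mem_comap]
      rcases hf₁ g (hfix g hg) with h | h
      · rw [h]; exact Subgroup.one_mem _
      · rw [h]; exact hz₁.mem_B
    · intro g hg
      rw [Subgroup.mem_comap]
      rcases hf₂ g (hfix g hg) with h | h
      · rw [h]; exact Subgroup.one_mem _
      · rw [h]; exact hz₂.mem_B
  obtain ⟨zK, hzK⟩ := id hzA
  obtain ⟨z₁, hzk₁⟩ := id hz₁.mem_B
  obtain ⟨z₂, hzk₂⟩ := id hz₂.mem_B
  obtain ⟨n, hnodd, hncop, hbn⟩ := exists_pow_action b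
  have hnf : n.Coprime f :=
    Nat.Coprime.coprime_dvd_right (Units.dvd_torsionOrder_of_isPrimitiveRoot hζp) hncop
  -- the two units
  obtain ⟨κ₁, hκ₁, x₁, hx₁w, hcx₁, hx₁z, hx₁0, hx₁i, hx₁i', a₁, ha₁0, ha₁s, ha₁l⟩ :=
    branch_in (K := K) hK hk₁ hc hf hf4 hpp hram hζp hιζ hζ₁' hdeg₁ hz₁ hz1₁ hzξ hb₁ hbA hnodd
      hbn hη₁
  obtain ⟨κ₂, hκ₂, x₂, hx₂w, hcx₂, hx₂z, hx₂0, hx₂i, hx₂i', a₂, ha₂0, ha₂s, ha₂l⟩ :=
    branch_in (K := K) hK hk₂ hc hf hf4 hpp hram hζp hιζ hζ₂' hdeg₂ hz₂ hz1₂ hzξ hb₂ hbA hnodd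
      hbn hη₂
  obtain ⟨v, hv, hvl⟩ := exists_pos hf hζp hιζ κ₁ κ₂ hκ₁ hκ₂ hnodd hnf
  have him : ∀ u : M, c u = u → (ι u).im = 0 := by
    intro u hu
    have h1 := hc u
    rw [hu] at h1
    exact Complex.conj_eq_iff_im.1 h1.symm
  obtain ⟨q, hqq, hqg, hpos⟩ := sign_const (P := fun g => g ∈ fixG K M) (Subgroup.one_mem _)
    ha₁0 ha₂0 ha₁s ha₂s (him _ hcx₁) (him _ hcx₂) hv (by
      rw [ha₁l, ha₂l, hvl, ← mul_add, ← Finset.sum_add_distrib]
      congr 1
      refine Finset.sum_congr rfl fun u _ => ?_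
      ring)
  set X₁ := algebraMap M₁ M x₁ with hX₁
  set X₂ := algebraMap M₂ M x₂ with hX₂
  set X := q * (X₁ * X₂) with hX
  have hX₁0 : X₁ ≠ 0 := fun h => hx₁0 ((algebraMap M₁ M).injective (by rw [← hX₁, h, map_zero]))
  have hX₂0 : X₂ ≠ 0 := fun h => hx₂0 ((algebraMap M₂ M).injective (by rw [← hX₂, h, map_zero]))
  have hq0 : q ≠ 0 := by
    rintro rfl
    rw [zero_mul] at hqq
    exact zero_ne_one hqq
  have hX0 : X ≠ 0 := mul_ne_zero hq0 (mul_ne_zero hX₁0 hX₂0)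
  have hcX : c X = X := by
    rw [hX, map_mul, hqg, map_mul, hcx₁, hcx₂]
  have hXz : X * z X = 1 := by
    rw [hX, map_mul, hqg, map_mul]
    have : q * (X₁ * X₂) * (q * (z X₁ * z X₂)) = (q * q) * (X₁ * z X₁) * (X₂ * z X₂) := by ring
    rw [this, hqq, hx₁z, hx₂z, one_mul, one_mul]
  have hqint : IsIntegral ℤ q := IsIntegral.of_pow (n := 2) (by norm_num) (by
    rw [pow_two, hqq]; exact isIntegral_one)
  have hqinv : q⁻¹ = q := by
    symm
    exact eq_inv_of_mul_eq_one_left hqq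
  have hXint : IsIntegral ℤ X := by
    refine hqint.mul (IsIntegral.mul ?_ ?_)
    · exact hx₁i.map (algebraMap M₁ M).toIntAlgHom
    · exact hx₂i.map (algebraMap M₂ M).toIntAlgHom
  have hXint' : IsIntegral ℤ X⁻¹ := by
    rw [hX, mul_inv, hqinv, mul_inv, hX₁, hX₂, ← map_inv₀, ← map_inv₀]
    refine hqint.mul (IsIntegral.mul ?_ ?_)
    · exact hx₁i'.map (algebraMap M₁ M).toIntAlgHom
    · exact hx₂i'.map (algebraMap M₂ M).toIntAlgHom
  have hmapint : ∀ (g : Gal(M/ℚ)) {u : M}, IsIntegral ℤ u → IsIntegral ℤ (g u) := by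
    intro g u hu
    exact hu.map (g : M →ₐ[ℚ] M).toRingHom.toIntAlgHom
  have hne0 : ∀ (g : Gal(M/ℚ)) {u : M}, u ≠ 0 → g u ≠ 0 := fun g u hu h =>
    hu (g.injective (by rw [h, map_zero]))
  -- lifts
  have hsurj := AlgEquiv.restrictNormalHom_surjective (F := K) (K₁ := H) M
  obtain ⟨cK, hcK'⟩ := id hcK
  have hcy : ∀ y : H, c (algebraMap H M y) = algebraMap H M y := by
    intro y
    apply ι.injective
    rw [hc]
    exact Complex.conj_eq_iff_im.2 (hH y)
  have hcKH : AlgEquiv.restrictNormalHom H cK = 1 := by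
    ext y
    apply (algebraMap H M).injective
    rw [restrict_apply]
    have := hcy y
    rw [← hcK'] at this
    exact this
  have hccom : ∀ (s : Gal(M/K)) (u : M), c (toG K M s u) = toG K M s (c u) := by
    intro s u
    rw [← hcK']
    change (toG K M cK * toG K M s) u = (toG K M s * toG K M cK) u
    rw [← map_mul, ← map_mul, hA]
  set p₁ : Gal(M/K) → Prop := fun a => res M₁ M (toG K M a) ∈ fixG k₁ M₁ with hp₁
  set p₂ : Gal(M/K) → Prop := fun a => res M₂ M (toG K M a) ∈ fixG k₂ M₂ with hp₂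
  have hp₁c : ∀ a, p₁ (cK * a) ↔ ¬ p₁ a := by
    intro a
    simp only [hp₁]
    rw [map_mul, map_mul, hcK', Subgroup.mul_mem_iff_of_index_two (fixG_index hk₁)]
    exact ⟨fun h h' => hcB₁ (h.2 h'), fun h => ⟨fun h' => absurd h' hcB₁, fun h' => absurd h' h⟩⟩
  have hp₂c : ∀ a, p₂ (cK * a) ↔ ¬ p₂ a := by
    intro a
    simp only [hp₂]
    rw [map_mul, map_mul, hcK', Subgroup.mul_mem_iff_of_index_two (fixG_index hk₂)]
    exact ⟨fun h h' => hcB₂ (h.2 h'), fun h => ⟨fun h' => absurd h' hcB₂, fun h' => absurd h' h⟩⟩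
  have hcKcK : ∀ a : Gal(M/K), cK * (cK * a) = a := by
    intro a
    have : cK * cK = 1 := toG_injective (by rw [map_mul, hcK', hcc, map_one])
    rw [← mul_assoc, this, one_mul]
  set T : Gal(H/K) → Finset Gal(M/K) := fun σ =>
    Finset.univ.filter fun a => AlgEquiv.restrictNormalHom H a = σ with hT
  have hTmem : ∀ σ a, a ∈ T σ ↔ AlgEquiv.restrictNormalHom H a = σ := by
    intro σ a
    simp [hT]
  set Y : Gal(H/K) → M := fun σ => ∏ a ∈ (T σ).filter p₁, toG K M a X with hY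
  have hYdef : ∀ σ, Y σ = ∏ a ∈ (T σ).filter p₁, toG K M a X := fun σ => rfl
  have hYc : ∀ σ, c (Y σ) = Y σ := by
    intro σ
    rw [hYdef, map_prod]
    refine Finset.prod_congr rfl fun a _ => ?_
    rw [hccom, hcX]
  have hequiB : ∀ (τ : Gal(M/K)) (σ : Gal(H/K)), p₁ τ →
      toG K M τ (Y σ) = Y (AlgEquiv.restrictNormalHom H τ * σ) := by
    intro τ σ hτ
    rw [hYdef, hYdef, map_prod]
    refine Finset.prod_bij (fun a _ => τ * a) ?_ ?_ ?_ ?_
    · intro a ha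
      rw [Finset.mem_filter, hTmem] at ha ⊢
      refine ⟨by rw [map_mul, ha.1], ?_⟩
      change res M₁ M (toG K M (τ * a)) ∈ fixG k₁ M₁
      rw [map_mul, map_mul]
      exact Subgroup.mul_mem _ hτ ha.2
    · intro a _ a' _ h
      exact mul_left_cancel h
    · intro a ha
      refine ⟨τ⁻¹ * a, ?_, mul_inv_cancel_left _ _⟩
      rw [Finset.mem_filter, hTmem] at ha ⊢
      refine ⟨by rw [map_mul, map_inv, ha.1, inv_mul_cancel_left], ?_⟩
      change res M₁ M (toG K M (τ⁻¹ * a)) ∈ fixG k₁ M₁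
      rw [map_mul, map_mul, map_inv, map_inv]
      exact Subgroup.mul_mem _ (Subgroup.inv_mem _ hτ) ha.2
    · intro a _
      rw [map_mul (toG K M)]
      rfl
  have hequi : ∀ (τ : Gal(M/K)) (σ : Gal(H/K)),
      τ (Y σ) = Y (AlgEquiv.restrictNormalHom H τ * σ) := by
    intro τ σ
    by_cases h : p₁ τ
    · exact hequiB τ σ h
    · have h1 := hequiB (cK * τ) σ ((hp₁c τ).2 h)
      rw [map_mul (toG K M), map_mul (AlgEquiv.restrictNormalHom H), hcKH, one_mul, hcK'] at h1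
      have h2 : c (τ (Y σ)) = Y (AlgEquiv.restrictNormalHom H τ * σ) := h1
      have h3 := congrArg c h2
      rw [hYc] at h3
      rw [← h3]
      change _ = (c * c) _
      rw [hcc]
      rfl
  have hY0 : ∀ σ, Y σ ≠ 0 := fun σ => Finset.prod_ne_zero_iff.2 fun a _ => hne0 _ hX0
  have hYint : ∀ σ, IsIntegral ℤ (Y σ) := fun σ => IsIntegral.prod _ fun a _ => hmapint _ hXint
  have hYint' : ∀ σ, IsIntegral ℤ (Y σ)⁻¹ := by
    intro σ
    rw [hYdef, ← Finset.prod_inv_distrib]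
    refine IsIntegral.prod _ fun a _ => ?_
    rw [← map_inv₀]
    exact hmapint _ hXint'
  -- descent to `H`
  have hdesc : ∀ σ, ∃ u : (𝓞 H)ˣ, algebraMap H M (u : 𝓞 H) = Y σ := by
    intro σ
    have : IsGalois H M := IsGalois.tower_top_of_isGalois K H M
    have h1 : ∀ ρ : Gal(M/H), ρ (Y σ) = Y σ := by
      intro ρ
      have h2 := hequi (ρ.restrictScalars K) σ
      have h3 : AlgEquiv.restrictNormalHom H (ρ.restrictScalars K) = 1 := by
        ext y
        apply (algebraMap H M).injective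
        rw [restrict_apply]
        exact ρ.commutes y
      rw [h3, one_mul] at h2
      exact h2
    obtain ⟨v, hv'⟩ := (InfiniteGalois.mem_range_algebraMap_iff_fixed (Y σ)).mpr h1
    have hinj : Function.Injective (algebraMap H M) := (algebraMap H M).injective
    have hvint : IsIntegral ℤ v := by
      have := hYint σ
      rw [← hv'] at this
      exact (isIntegral_algebraMap_iff (A := H) (B := M) hinj).1 this
    have hvint' : IsIntegral ℤ v⁻¹ := by
      have := hYint' σ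
      rw [← hv', ← map_inv₀] at this
      exact (isIntegral_algebraMap_iff (A := H) (B := M) hinj).1 this
    have hv0 : v ≠ 0 := by
      rintro rfl
      rw [map_zero] at hv'
      exact hY0 σ hv'.symm
    refine ⟨⟨⟨v, hvint⟩, ⟨v⁻¹, hvint'⟩, ?_, ?_⟩, hv'⟩
    · apply RingOfIntegers.ext
      change v * v⁻¹ = 1
      exact mul_inv_cancel₀ hv0
    · apply RingOfIntegers.ext
      change v⁻¹ * v = 1
      exact inv_mul_cancel₀ hv0
  choose u hu using hdesc
  have hmain : ∀ σ : Gal(H/K), ∃ V : ℂ → ℂ,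
      IsCont (fun n => (zcoeff f σ n : ℂ) -
        zcoeff f (AlgEquiv.restrictNormalHom H zK * σ) n) V ∧
      ι (algebraMap H M (u σ : 𝓞 H)) = Complex.exp (-deriv V 0) := by
    intro σ
    rw [hu]
    choose W₁ hW₁ hdW₁ using hη₁.deriv_zeta
    choose W₂ hW₂ hdW₂ using hη₂.deriv_zeta
    -- the elements `s₁`, `s₂`
    have hexs₁ : ∀ a : Gal(M/K), ∃ s : Gal(M₁/k₁), p₁ a → toG k₁ M₁ s = res M₁ M (toG K M a) := by
      intro a
      by_cases h : p₁ a
      · obtain ⟨s, hs⟩ := h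
        exact ⟨s, fun _ => hs⟩
      · exact ⟨1, fun h' => absurd h' h⟩
    have hexs₂ : ∀ a : Gal(M/K), ∃ s : Gal(M₂/k₂), p₂ a → toG k₂ M₂ s = res M₂ M (toG K M a) := by
      intro a
      by_cases h : p₂ a
      · obtain ⟨s, hs⟩ := h
        exact ⟨s, fun _ => hs⟩
      · exact ⟨1, fun h' => absurd h' h⟩
    choose s₁ hs₁ using hexs₁
    choose s₂ hs₂ using hexs₂
    have hcoef := zcoeff_klein (H := H) hK hk₁ hk₂ hA hB₁ hB₂ (f := f) (by omega) hram hzz hzc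
      hn₁1 hn₂1 hnn hn₁ hn₂ hz₁ hz₂ hzK hzk₁ hzk₂ s₁ hs₁ s₂ hs₂ σ ((T σ).filter p₁)
      ((T σ).filter p₂) (by intro a; rw [Finset.mem_filter, hTmem])
      (by intro a; rw [Finset.mem_filter, hTmem])
    have hR₁ := IsCont.sum ((T σ).filter p₁)
      (a := fun a n => (zcoeff f (s₁ a) n : ℂ) - (zcoeff f (z₁ * s₁ a) n : ℂ))
      (Z := fun a s => W₁ (s₁ a) s - W₁ (z₁ * s₁ a) s)
      (fun a _ => ((hW₁ (s₁ a)).isCont.sub (hW₁ (z₁ * s₁ a)).isCont))
    have hR₂ := IsCont.sum ((T σ).filter p₂)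
      (a := fun a n => (zcoeff f (s₂ a) n : ℂ) - (zcoeff f (z₂ * s₂ a) n : ℂ))
      (Z := fun a s => W₂ (s₂ a) s - W₂ (z₂ * s₂ a) s)
      (fun a _ => ((hW₂ (s₂ a)).isCont.sub (hW₂ (z₂ * s₂ a)).isCont))
    have hRR := hR₁.add hR₂
    have hder : deriv (fun s => (∑ a ∈ (T σ).filter p₁, (W₁ (s₁ a) s - W₁ (z₁ * s₁ a) s)) +
        ∑ a ∈ (T σ).filter p₂, (W₂ (s₂ a) s - W₂ (z₂ * s₂ a) s)) 0 =
        ∑ a ∈ (T σ).filter p₁, (deriv (W₁ (s₁ a)) 0 - deriv (W₁ (z₁ * s₁ a)) 0) +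
        ∑ a ∈ (T σ).filter p₂, (deriv (W₂ (s₂ a)) 0 - deriv (W₂ (z₂ * s₂ a)) 0) := by
      rw [hR₁.deriv_add hR₂]
      rw [IsCont.deriv_sum ((T σ).filter p₁)
        (a := fun a n => (zcoeff f (s₁ a) n : ℂ) - (zcoeff f (z₁ * s₁ a) n : ℂ))
        (Z := fun a s => W₁ (s₁ a) s - W₁ (z₁ * s₁ a) s)
        (fun a _ => ((hW₁ (s₁ a)).isCont.sub (hW₁ (z₁ * s₁ a)).isCont)),
        IsCont.deriv_sum ((T σ).filter p₂)
        (a := fun a n => (zcoeff f (s₂ a) n : ℂ) - (zcoeff f (z₂ * s₂ a) n : ℂ))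
        (Z := fun a s => W₂ (s₂ a) s - W₂ (z₂ * s₂ a) s)
        (fun a _ => ((hW₂ (s₂ a)).isCont.sub (hW₂ (z₂ * s₂ a)).isCont))]
      congr 1
      · exact Finset.sum_congr rfl fun a _ => (hW₁ (s₁ a)).isCont.deriv_sub
          (hW₁ (z₁ * s₁ a)).isCont
      · exact Finset.sum_congr rfl fun a _ => (hW₂ (s₂ a)).isCont.deriv_sub
          (hW₂ (z₂ * s₂ a)).isCont
    set V : ℂ → ℂ := fun s => (∑ a ∈ (T σ).filter p₁, (W₁ (s₁ a) s - W₁ (z₁ * s₁ a) s)) +
        ∑ a ∈ (T σ).filter p₂, (W₂ (s₂ a) s - W₂ (z₂ * s₂ a) s) with hV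
    have hVd : DifferentiableAt ℂ V 0 := hRR.differentiableAt
    refine ⟨fun s => (1 / 2 : ℂ) * V s, ⟨hRR.diff.const_mul _, fun s hs =>
      ((zcoeff_summable f σ hs).sub (zcoeff_summable f _ hs)), fun s hs => ?_⟩, ?_⟩
    · have e1 := hRR.eq s hs
      have e2 : LSeries (∑ a ∈ (T σ).filter p₁, (fun n => (zcoeff f (s₁ a) n : ℂ) -
            (zcoeff f (z₁ * s₁ a) n : ℂ)) +
          ∑ a ∈ (T σ).filter p₂, fun n => (zcoeff f (s₂ a) n : ℂ) -
            (zcoeff f (z₂ * s₂ a) n : ℂ)) s =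
          LSeries ((2 : ℂ) • fun n => (zcoeff f σ n : ℂ) -
            zcoeff f (AlgEquiv.restrictNormalHom H zK * σ) n) s := by
        refine LSeries_congr (fun {n} hn => ?_) s
        have h3 := congrArg (fun m : ℤ => (m : ℂ)) (hcoef n hn)
        push_cast at h3
        simp only [Pi.add_apply, Finset.sum_apply, Pi.smul_apply, smul_eq_mul]
        rw [h3]
      rw [LSeries_smul] at e2
      change (1 / 2 : ℂ) * V s = _
      rw [e1, e2, ← mul_assoc]
      norm_num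
    rw [deriv_const_mul (1 / 2 : ℂ) hVd]
    -- each term
    have hterm₁ : ∀ a ∈ (T σ).filter p₁, deriv (W₁ (s₁ a)) 0 - deriv (W₁ (z₁ * s₁ a)) 0 =
        ((-2 * Real.log ‖ι (toG K M a X₁)‖ : ℝ) : ℂ) := by
      intro a ha
      rw [Finset.mem_filter] at ha
      rw [hdW₁, hdW₁]
      exact term_eq ι hη₁.ne_zero hx₁w hzk₁ (hs₁ a ha.2) hzc
    have hterm₂ : ∀ a ∈ (T σ).filter p₂, deriv (W₂ (s₂ a)) 0 - deriv (W₂ (z₂ * s₂ a)) 0 =
        ((-2 * Real.log ‖ι (toG K M a X₂)‖ : ℝ) : ℂ) := by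
      intro a ha
      rw [Finset.mem_filter] at ha
      rw [hdW₂, hdW₂]
      exact term_eq ι hη₂.ne_zero hx₂w hzk₂ (hs₂ a ha.2) hzc
    rw [Finset.sum_congr rfl hterm₁, Finset.sum_congr rfl hterm₂, ← Complex.ofReal_sum,
      ← Complex.ofReal_sum] at hder
    have hhalf : ∑ a ∈ (T σ).filter p₂, (-2 * Real.log ‖ι (toG K M a X₂)‖) =
        ∑ a ∈ (T σ).filter p₁, (-2 * Real.log ‖ι (toG K M a X₂)‖) := by
      refine sum_filter_half (T σ) (fun a => cK * a) hcKcK ?_ p₂ p₁ hp₂c hp₁c _ ?_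
      · intro a ha
        rw [hTmem] at ha ⊢
        rw [map_mul, hcKH, one_mul, ha]
      · intro a
        have : toG K M (cK * a) X₂ = toG K M a X₂ := by
          rw [map_mul, hcK']
          change c (toG K M a X₂) = _
          rw [hccom, hcx₂]
        rw [this]
    rw [hhalf, ← Complex.ofReal_add, ← Finset.sum_add_distrib] at hder
    have hterm : ∀ a ∈ (T σ).filter p₁, (-2 * Real.log ‖ι (toG K M a X₁)‖) +
        (-2 * Real.log ‖ι (toG K M a X₂)‖) = -2 * Real.log ‖ι (toG K M a X)‖ := by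
      intro a _
      have e1 : ‖ι (toG K M a X)‖ = ‖ι (toG K M a X₁)‖ * ‖ι (toG K M a X₂)‖ := by
        have e2 : ‖ι q‖ = 1 := by
          have e3 : ‖ι q‖ * ‖ι q‖ = 1 := by
            rw [← norm_mul, ← map_mul, hqq, map_one, norm_one]
          have e4 : ‖ι q‖ ^ 2 = 1 := by rw [pow_two, e3]
          exact (pow_eq_one_iff_of_nonneg (norm_nonneg _) two_ne_zero).1 e4
        rw [hX, map_mul, hqg, map_mul, map_mul, map_mul, norm_mul, norm_mul, e2, one_mul]
      have e5 : ∀ {y : M}, y ≠ 0 → ‖ι (toG K M a y)‖ ≠ 0 := by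
        intro y hy
        rw [norm_ne_zero_iff]
        exact fun h => hne0 (toG K M a) hy (ι.injective (by rw [h, map_zero]))
      rw [e1, Real.log_mul (e5 hX₁0) (e5 hX₂0)]
      ring
    rw [Finset.sum_congr rfl hterm, ← Finset.mul_sum] at hder
    have hfin : -(1 / 2 * deriv V 0) =
        ((∑ a ∈ (T σ).filter p₁, Real.log ‖ι (toG K M a X)‖ : ℝ) : ℂ) := by
      rw [hder]
      push_cast
      ring
    rw [hfin, ← Complex.ofReal_exp, Real.exp_sum, hYdef, map_prod]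
    push_cast
    refine Finset.prod_congr rfl fun a _ => ?_
    obtain ⟨r, hr0, hr⟩ := hpos (toG K M a) ⟨a, rfl⟩
    rw [hr, Complex.norm_real, Real.norm_of_nonneg hr0.le, ← Complex.ofReal_exp,
      Real.exp_log hr0]
  choose W hW hWu using hmain
  refine ⟨AlgEquiv.restrictNormalHom H zK, W, hW, u, hWu, ?_, ?_⟩
  · -- equivariance
    intro ρ σ
    apply (algebraMap H M).injective
    change algebraMap H M (ρ ((u σ : (𝓞 H)ˣ) : 𝓞 H)) =
      algebraMap H M ((u (ρ * σ) : (𝓞 H)ˣ) : 𝓞 H)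
    obtain ⟨s, hs⟩ := hsurj ρ
    have h1 := restrict_apply (M := M) s (((u σ : (𝓞 H)ˣ) : 𝓞 H) : H)
    rw [hs] at h1
    rw [h1, hu, hu, hequi, hs]
  · -- the other embeddings
    intro g ⟨x₀, hx₀⟩
    obtain ⟨γ, hγ⟩ : ∃ γ : Gal(M/ℚ), ∀ y : H, g y = ι (γ (algebraMap H M y)) := by
      let _ : Algebra H ℂ := g.toAlgebra
      have : Algebra.IsAlgebraic H M := Algebra.IsAlgebraic.of_finite H M
      obtain ⟨γ, hγ⟩ := exists_comp ι (IsAlgClosed.lift : M →ₐ[H] ℂ).toRingHom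
      refine ⟨γ, fun y => ?_⟩
      rw [← hγ]
      exact ((IsAlgClosed.lift : M →ₐ[H] ℂ).commutes y).symm
    have hγK : γ ∉ fixG K M := by
      intro h
      rw [mem_fixG] at h
      apply hx₀
      rw [hγ, ← IsScalarTower.algebraMap_apply, h]
    have hconj : γ * c = z * c * γ := by
      rw [← hconjA γ hγK, inv_mul_cancel_right]
    constructor
    · intro y
      rw [hγ, hγ, restrict_apply, ← hc]
      congr 1
      have e1 : zK (algebraMap H M y) = z (algebraMap H M y) := by rw [← hzK]; rfl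
      rw [e1]
      have e2 : γ (z (algebraMap H M y)) = z (γ (algebraMap H M y)) := by
        change (γ * z) _ = (z * γ) _
        rw [hzc]
      rw [e2]
      have e3 : γ (c (algebraMap H M y)) = z (c (γ (algebraMap H M y))) := by
        change (γ * c) _ = (z * c * γ) _
        rw [hconj]
      rw [hcy] at e3
      rw [congrArg z e3]
      change (z * z) _ = _
      rw [hzz]; rfl
    · intro σ
      change ‖g ((u σ : (𝓞 H)ˣ) : 𝓞 H)‖ = 1
      rw [hγ, hu, hYdef, map_prod, map_prod, norm_prod]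
      refine Finset.prod_eq_one fun a _ => ?_
      have e3 : c (γ (toG K M a X)) = γ (toG K M a (z X)) := by
        have h1 : c * γ = γ * (z * c) := by
          have h2 : z * (γ * c) = c * γ := by
            rw [hconj, ← mul_assoc, ← mul_assoc, hzz, one_mul]
          rw [← h2, ← mul_assoc, hzc γ, mul_assoc]
        have h3 : c (γ (toG K M a X)) = γ (z (c (toG K M a X))) := by
          change (c * γ) _ = (γ * (z * c)) _
          rw [h1]
        rw [h3, hccom, hcX]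
        congr 1
        change (z * toG K M a) X = (toG K M a * z) X
        rw [hzc]
      have e4 : ι (γ (toG K M a X)) * starRingEnd ℂ (ι (γ (toG K M a X))) = 1 := by
        rw [← hc, e3, ← map_mul, ← map_mul, ← map_mul, hXz, map_one, map_one, map_one]
      rw [Complex.mul_conj, Complex.normSq_eq_norm_sq] at e4
      have e5 : ‖ι (γ (toG K M a X))‖ ^ 2 = 1 := by exact_mod_cast e4
      exact (pow_eq_one_iff_of_nonneg (norm_nonneg _) two_ne_zero).1 e5

end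

end Pool.Agent.StarkRQ
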