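import Pool.Agent.CMH.StarkGen
import Pool.Agent.CMH.KleinW

/-!
# The Klein four case, unconditionally over `ℚ(i)` and `ℚ(√-2)`
-/

set_option autoImplicit false

noncomputable section

open NumberField Module Pool.Agent.StarkRQ Pool.Agent.CMG

namespace Pool.Agent.CMH

theorem I_sq' : Complex.I ^ 2 = -((1 : ℕ) : ℂ) := by
  rw [Complex.I_sq, Nat.cast_one]

theorem s2_sq' : s2 ^ 2 = -((2 : ℕ) : ℂ) := by
  rw [sq, s2_mul_s2]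
  norm_num

/-- Stark units over `ℚ(i)` and `ℚ(√-2)` -/
theorem exists_stark_gauss {M : Type} [Field M] [NumberField M] [IsGalois ℚ M] (ι : M →+* ℂ)
    (hcM : ∃ j : M, ι j = Complex.I) {N : ℕ} (hN : N ≠ 0) (h4 : 4 ∣ N)
    (hM : ∀ x : M, ι x ∈ IntermediateField.adjoin ℚ {Complex.I, CMG.hG (1 / N)})
    (hram : ∀ p : ℕ, p.Prime → (p : ℤ) ∣ discr M → p ∣ N) :
    ∃ (k : IntermediateField ℚ M), finrank ℚ k = 2 ∧ (∀ x : M, ι x = Complex.I → x ∈ k) ∧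
      IsTotallyComplex k ∧ IsAbelianGalois k M ∧
      ∃ η : M, IsStarkUnit k ι N η ∧ (¬ IsPrimePow N → IsIntegral ℤ η ∧ IsIntegral ℤ η⁻¹) :=
  exists_stark_gen ι one_pos I_sq' hcM
    (fun _ _ _ _ hk hj => CMG.exists_ellData hk hj) hN h4 hM hram

theorem exists_stark_sqrt2 {M : Type} [Field M] [NumberField M] [IsGalois ℚ M] (ι : M →+* ℂ)
    (hcM : ∃ j : M, ι j = s2) {N : ℕ} (hN : N ≠ 0) (h4 : 4 ∣ N)
    (hM : ∀ x : M, ι x ∈ IntermediateField.adjoin ℚ {s2, XH (1 / N)})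
    (hram : ∀ p : ℕ, p.Prime → (p : ℤ) ∣ discr M → p ∣ N) :
    ∃ (k : IntermediateField ℚ M), finrank ℚ k = 2 ∧ (∀ x : M, ι x = s2 → x ∈ k) ∧
      IsTotallyComplex k ∧ IsAbelianGalois k M ∧
      ∃ η : M, IsStarkUnit k ι N η ∧ (¬ IsPrimePow N → IsIntegral ℤ η ∧ IsIntegral ℤ η⁻¹) :=
  exists_stark_gen ι two_pos s2_sq' hcM
    (fun _ _ _ _ hk hj => CMH.exists_ellData hk hj) hN h4 hM hram

/-- a unit of the ring of integers -/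
theorem exists_unit {M : Type} [Field M] [NumberField M] {η : M} (h0 : η ≠ 0)
    (h : IsIntegral ℤ η) (h' : IsIntegral ℤ η⁻¹) : ∃ u : (𝓞 M)ˣ, algebraMap (𝓞 M) M u = η :=
  ⟨⟨⟨η, h⟩, ⟨η⁻¹, h'⟩, RingOfIntegers.ext (mul_inv_cancel₀ h0),
    RingOfIntegers.ext (inv_mul_cancel₀ h0)⟩, rfl⟩

theorem klein_uncond {M K H : Type} [Field M] [NumberField M] [IsGalois ℚ M]
    [Field K] [NumberField K] [Field H] [NumberField H]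
    [Algebra K M] [Algebra K H] [Algebra H M] [IsScalarTower K H M]
    [IsTotallyReal K] (hK : finrank ℚ K = 2) [IsAbelianGalois K M] (ι : M →+* ℂ)
    (hH : ∀ y : H, (ι (algebraMap H M y)).im = 0) {N f : ℕ} (hN : N ≠ 0) (h4 : 4 ∣ N)
    (hpp : ¬ IsPrimePow N) (hfN : ∀ p : ℕ, p.Prime → (p ∣ N ↔ p ∣ f)) (hf : 2 < f)
    (hf4 : f % 4 ≠ 2) {ζ : M} (hζ : IsPrimitiveRoot ζ f)
    (hmax : ∀ x : M, (∀ σ τ : Gal(M/ℚ), σ (τ x) = τ (σ x)) → x ∈ IntermediateField.adjoin ℚ {ζ})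
    (hdeg : finrank ℚ M = 4 * f.totient)
    (hram : ∀ p : ℕ, p.Prime → (p : ℤ) ∣ discr M → p ∣ N)
    (M₁ M₂ : IntermediateField ℚ M) [IsGalois ℚ M₁] [IsGalois ℚ M₂]
    (hdeg₁ : finrank ℚ M₁ = 2 * f.totient) (hdeg₂ : finrank ℚ M₂ = 2 * f.totient)
    (hζ₁ : ζ ∈ M₁) (hζ₂ : ζ ∈ M₂) (hne : M₁ ≠ M₂)
    (hK₁ : ∀ x : K, algebraMap K M x ∈ M₁) (hK₂ : ∀ x : K, algebraMap K M x ∈ M₂)
    (hi : ∃ j : M, j ∈ M₁ ∧ ι j = Complex.I) (hs : ∃ j : M, j ∈ M₂ ∧ ι j = s2)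
    (hM₁ : ∀ x ∈ M₁, ι x ∈ IntermediateField.adjoin ℚ {Complex.I, CMG.hG (1 / N)})
    (hM₂ : ∀ x ∈ M₂, ι x ∈ IntermediateField.adjoin ℚ {s2, XH (1 / N)}) :
    ∃ (R : Gal(H/K)) (W : Gal(H/K) → ℂ → ℂ),
      (∀ σ, IsCont (fun n => (zcoeff N σ n : ℂ) - zcoeff N (R * σ) n) (W σ)) ∧
      ∃ ε : Gal(H/K) → (𝓞 H)ˣ,
      (∀ σ, ι (algebraMap H M (ε σ : 𝓞 H)) = Complex.exp (-deriv (W σ) 0)) ∧
      (∀ ρ σ, ρ ((ε σ : 𝓞 H) : H) = ((ε (ρ * σ) : 𝓞 H) : H)) ∧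
      ∀ g : H →+* ℂ, (∃ x : K, g (algebraMap K H x) ≠ ι (algebraMap K M x)) →
        (∀ y, g (R y) = starRingEnd ℂ (g y)) ∧ ∀ σ, ‖g ((ε σ : 𝓞 H) : H)‖ = 1 := by
  let _ : Algebra K M₁ := ((algebraMap K M).codRestrict M₁.toSubfield hK₁).toAlgebra
  let _ : Algebra K M₂ := ((algebraMap K M).codRestrict M₂.toSubfield hK₂).toAlgebra
  have hst₁ : IsScalarTower K M₁ M := IsScalarTower.of_algebraMap_eq fun x => rfl
  have hst₂ : IsScalarTower K M₂ M := IsScalarTower.of_algebraMap_eq fun x => rfl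
  have hr₁ : ∀ p : ℕ, p.Prime → (p : ℤ) ∣ discr M₁ → p ∣ N := fun p hp h =>
    hram p hp (h.trans (NumberField.discr_dvd_discr M₁ M))
  have hr₂ : ∀ p : ℕ, p.Prime → (p : ℤ) ∣ discr M₂ → p ∣ N := fun p hp h =>
    hram p hp (h.trans (NumberField.discr_dvd_discr M₂ M))
  obtain ⟨k₁, hk₁, -, htc₁, hab₁, η₁, hη₁, hη₁'⟩ := exists_stark_gauss
    (ι.comp (algebraMap M₁ M)) (by
      obtain ⟨j, hj, hj'⟩ := hi
      exact ⟨⟨j, hj⟩, hj'⟩) hN h4 (fun x => hM₁ _ x.2) hr₁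
  obtain ⟨k₂, hk₂, -, htc₂, hab₂, η₂, hη₂, hη₂'⟩ := exists_stark_sqrt2
    (ι.comp (algebraMap M₂ M)) (by
      obtain ⟨j, hj, hj'⟩ := hs
      exact ⟨⟨j, hj⟩, hj'⟩) hN h4 (fun x => hM₂ _ x.2) hr₂
  obtain ⟨u₁, hu₁⟩ := exists_unit hη₁.ne_zero (hη₁' hpp).1 (hη₁' hpp).2
  obtain ⟨u₂, hu₂⟩ := exists_unit hη₂.ne_zero (hη₂' hpp).1 (hη₂' hpp).2
  obtain ⟨R, W, hW, ε, h1, h2, h3⟩ := klein_cont (M := M) (K := K) (k₁ := k₁) (k₂ := k₂)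
    (M₁ := M₁) (M₂ := M₂) (H := H) hK hk₁ hk₂ hf hf4 hζ hmax hdeg hdeg₁ hdeg₂
    ⟨⟨ζ, hζ₁⟩, rfl⟩ ⟨⟨ζ, hζ₂⟩, rfl⟩ (by
      intro h
      apply hne
      ext x
      constructor
      · intro hx
        have : x ∈ (algebraMap M₁ M).range := ⟨⟨x, hx⟩, rfl⟩
        rw [h] at this
        obtain ⟨y, hy⟩ := this
        rw [← hy]
        exact y.2
      · intro hx
        have : x ∈ (algebraMap M₂ M).range := ⟨⟨x, hx⟩, rfl⟩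
        rw [← h] at this
        obtain ⟨y, hy⟩ := this
        rw [← hy]
        exact y.2)
    (fun p hp h => (hfN p hp).1 (hram p hp h)) ι hH u₁
    (by rw [hu₁]; exact isStarkUnit_of_primes hfN hη₁) u₂
    (by rw [hu₂]; exact isStarkUnit_of_primes hfN hη₂)
  refine ⟨R, W, fun σ => ?_, ε, h1, h2, h3⟩
  have := hW σ
  simpa only [← zcoeff_eq_of_primes hfN] using this

end Pool.Agent.CMH
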