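import Pool.Agent.CMH.XTau
import Pool.Agent.CMH.Tors
import Pool.Agent.CMH.Ind

/-!
# Galois action on torsion points

Copy of `CMG/Sigma.lean`. `sigma_mul`: call the statement `P(α)`. `P(0)`, `P(1)` clear, `P(α) → P(-α)`.
Claim: `P(α), P(β), P(α-β) → P(α+β)`. If `αz ∈ L` (equivalently `αz' ∈ L`) or `βz ∈ L`: clear by
periodicity. Else put `u = αz`, `v = βz`, `u' = αz'`, `v' = βz'`. If `X u ≠ X v`: then `X u' ≠ X v'`
(`σ` is injective), `u ± v, u' ± v' ∉ L` and `XH_sum` gives the claim. If `X u = X v`: then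
`u ± v ∈ L` for one sign (`XH_inj`), same for `u', v'`. If `u - v ∈ L` then `u' - v' ∈ L`,
`X(u+v) = X(2u)`, `XH_dup`, `XH_two_mul_mem_iff`. If `u - v ∉ L` then `u' - v' ∉ L` by `P(α-β)`, so
`u + v ∈ L` and `u' + v' ∈ L`. Then `o2_induction`; `P(√-2)` is `XH_mul_s` together with
`sz ∈ L ↔ XH z = 0` for `z ∉ L` (`mem_or_tau`, `XH_eq_zero_iff`); `P(1+√-2)` is `XH_one_add_s` with
`one_add_s_mem_iff`.
`exists_sigma`: if `n` is a unit take `c = 1`. Otherwise `σ (XH (1/n)) = XH w`, `w ∉ L`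
(`XH_surj`); `nw ∈ L` by `sigma_mul`, so `w = c/n`; `c` is prime to `n` because `αw ∈ L ↔ n ∣ α`.
For `a` use `sigma_mul` with `α = a`.
-/

set_option autoImplicit false

noncomputable section

open Complex Filter Topology
open scoped PeriodPair Classical

namespace Pool.Agent.CMH

section Rel

variable (K : Subfield ℂ) (σ : K →+* ℂ)

/-- `w ↦ w'` is compatible with `σ` -/
private def Rl (w w' : ℂ) : Prop :=
  (w ∈ LH.lattice ↔ w' ∈ LH.lattice) ∧ ∃ h : XH w ∈ K, σ ⟨XH w, h⟩ = XH w'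

private lemma XH_congr {w w₁ : ℂ} (h : w - w₁ ∈ LH.lattice) : XH w = XH w₁ := by
  have h1 := XH_add_coe w₁ h
  rwa [add_sub_cancel] at h1

variable {K σ}

private lemma Rl.mk' {w w' x y : ℂ} (h : w ∈ LH.lattice ↔ w' ∈ LH.lattice) (hx : XH w = x)
    (hy : XH w' = y) (hK : x ∈ K) (hσ : σ ⟨x, hK⟩ = y) : Rl K σ w w' := by
  subst hx
  subst hy
  exact ⟨h, hK, hσ⟩

private lemma Rl.of_mem {w w' : ℂ} (hw : w ∈ LH.lattice) (hw' : w' ∈ LH.lattice) :
    Rl K σ w w' := by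
  have h1 : (-4 / 3 : ℂ) = (((-4 / 3 : ℚ) : K) : ℂ) := by
    push_cast
    rfl
  refine Rl.mk' ⟨fun _ => hw', fun _ => hw⟩ ((XH_of_mem hw).trans h1) (XH_of_mem hw')
    (Subtype.prop _) ?_
  rw [Subtype.coe_eta, map_ratCast]
  push_cast
  rfl

private lemma Rl.congr {w w' w₁ w₁' : ℂ} (h : Rl K σ w₁ w₁') (h1 : w - w₁ ∈ LH.lattice)
    (h2 : w' - w₁' ∈ LH.lattice) : Rl K σ w w' := by
  obtain ⟨ha, hb, hc⟩ := h
  refine Rl.mk' ?_ (XH_congr h1) (XH_congr h2) hb hc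
  constructor
  · intro hw
    have h3 : w₁ ∈ LH.lattice := by
      have := sub_mem hw h1
      rwa [sub_sub_cancel] at this
    have := add_mem h2 (ha.1 h3)
    rwa [sub_add_cancel] at this
  · intro hw
    have h3 : w₁' ∈ LH.lattice := by
      have := sub_mem hw h2
      rwa [sub_sub_cancel] at this
    have := add_mem h1 (ha.2 h3)
    rwa [sub_add_cancel] at this

private lemma Rl.neg {w w' : ℂ} (h : Rl K σ w w') : Rl K σ (-w) (-w') := by
  obtain ⟨ha, hb, hc⟩ := h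
  exact Rl.mk' (by rw [neg_mem_iff, neg_mem_iff, ha]) (XH_neg w) (XH_neg w') hb hc

private lemma Rl.add {u v u' v' : ℂ} (hu : Rl K σ u u') (hv : Rl K σ v v')
    (hd : Rl K σ (u - v) (u' - v')) : Rl K σ (u + v) (u' + v') := by
  by_cases hu0 : u ∈ LH.lattice
  · refine hv.congr ?_ ?_
    · rwa [add_sub_cancel_right]
    · rw [add_sub_cancel_right]
      exact hu.1.1 hu0
  by_cases hv0 : v ∈ LH.lattice
  · refine hu.congr ?_ ?_
    · rwa [add_sub_cancel_left]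
    · rw [add_sub_cancel_left]
      exact hv.1.1 hv0
  have hu0' : u' ∉ LH.lattice := fun h => hu0 (hu.1.2 h)
  have hv0' : v' ∉ LH.lattice := fun h => hv0 (hv.1.2 h)
  obtain ⟨hua, hub, huc⟩ := hu
  obtain ⟨hva, hvb, hvc⟩ := hv
  obtain ⟨hda, hdb, hdc⟩ := hd
  by_cases hX : XH u = XH v
  · have hX' : XH u' = XH v' := by
      rw [← huc, ← hvc]
      congr 1
      exact Subtype.ext hX
    by_cases hd0 : u - v ∈ LH.lattice
    · have hd0' := hda.1 hd0
      have hcong : Rl K σ (2 * u) (2 * u') := by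
        have e3 : XH u ^ 3 + 4 * XH u ^ 2 + 2 * XH u =
            (((⟨XH u, hub⟩ : K) ^ 3 + 4 * (⟨XH u, hub⟩ : K) ^ 2 + 2 * (⟨XH u, hub⟩ : K) : K) : ℂ) := by
          push_cast
          rfl
        have e4 : σ ((⟨XH u, hub⟩ : K) ^ 3 + 4 * (⟨XH u, hub⟩ : K) ^ 2 + 2 * (⟨XH u, hub⟩ : K)) =
            XH u' ^ 3 + 4 * XH u' ^ 2 + 2 * XH u' := by
          simp only [map_add, map_mul, map_pow, huc, map_ofNat]
        have e5 : XH u ^ 3 + 4 * XH u ^ 2 + 2 * XH u = 0 ↔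
            XH u' ^ 3 + 4 * XH u' ^ 2 + 2 * XH u' = 0 := by
          rw [← e4, e3]
          constructor
          · intro h
            have h1 : ((⟨XH u, hub⟩ : K) ^ 3 + 4 * (⟨XH u, hub⟩ : K) ^ 2 +
                2 * (⟨XH u, hub⟩ : K)) = 0 := Subtype.ext h
            rw [h1, map_zero]
          · intro h
            have h1 := (map_eq_zero σ).1 h
            exact congrArg Subtype.val h1
        by_cases h20 : 2 * u ∈ LH.lattice
        · exact Rl.of_mem h20 ((XH_two_mul_mem_iff hu0').2 (e5.1 ((XH_two_mul_mem_iff hu0).1 h20)))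
        · have h20' : 2 * u' ∉ LH.lattice := fun h =>
            h20 ((XH_two_mul_mem_iff hu0).2 (e5.2 ((XH_two_mul_mem_iff hu0').1 h)))
          have h6 : XH u ^ 3 + 4 * XH u ^ 2 + 2 * XH u ≠ 0 :=
            fun h => h20 ((XH_two_mul_mem_iff hu0).2 h)
          have h6' : XH u' ^ 3 + 4 * XH u' ^ 2 + 2 * XH u' ≠ 0 :=
            fun h => h20' ((XH_two_mul_mem_iff hu0').2 h)
          have h7 : XH (2 * u) = (XH u ^ 2 - 2) ^ 2 /
              (4 * (XH u ^ 3 + 4 * XH u ^ 2 + 2 * XH u)) := by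
            rw [eq_div_iff (mul_ne_zero (by norm_num) h6)]
            exact XH_dup hu0 h20
          have h7' : XH (2 * u') = (XH u' ^ 2 - 2) ^ 2 /
              (4 * (XH u' ^ 3 + 4 * XH u' ^ 2 + 2 * XH u')) := by
            rw [eq_div_iff (mul_ne_zero (by norm_num) h6')]
            exact XH_dup hu0' h20'
          have h8 : (XH u ^ 2 - 2) ^ 2 / (4 * (XH u ^ 3 + 4 * XH u ^ 2 + 2 * XH u)) =
              (((⟨XH u, hub⟩ : K) ^ 2 - 2) ^ 2 / (4 * ((⟨XH u, hub⟩ : K) ^ 3 +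
                4 * (⟨XH u, hub⟩ : K) ^ 2 + 2 * (⟨XH u, hub⟩ : K))) : K) := by
            push_cast
            rfl
          refine Rl.mk' ⟨fun h => absurd h h20, fun h => absurd h h20'⟩ (h7.trans h8) h7'
            (Subtype.prop _) ?_
          rw [Subtype.coe_eta]
          simp only [map_div₀, map_pow, map_add, map_mul, map_sub, huc, map_ofNat]
      refine hcong.congr ?_ ?_
      · have : u + v - 2 * u = -(u - v) := by ring
        rw [this]
        exact neg_mem hd0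
      · have : u' + v' - 2 * u' = -(u' - v') := by ring
        rw [this]
        exact neg_mem hd0'
    · have hd0' : u' - v' ∉ LH.lattice := fun h => hd0 (hda.2 h)
      exact Rl.of_mem ((XH_inj hu0 hv0 hX).resolve_left hd0)
        ((XH_inj hu0' hv0' hX').resolve_left hd0')
  · have hX' : XH u' ≠ XH v' := by
      intro h
      apply hX
      rw [← huc, ← hvc] at h
      have := σ.injective h
      exact congrArg Subtype.val this
    have aux : ∀ {u v : ℂ}, XH u ≠ XH v → u - v ∉ LH.lattice ∧ u + v ∉ LH.lattice := by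
      intro u v h
      refine ⟨fun h1 => h (XH_congr h1), fun h1 => h ?_⟩
      have : u - (-v) ∈ LH.lattice := by rwa [sub_neg_eq_add]
      rw [XH_congr this, XH_neg]
    obtain ⟨h1, h2⟩ := aux hX
    obtain ⟨h1', h2'⟩ := aux hX'
    have h3 : XH u - XH v ≠ 0 := sub_ne_zero.2 hX
    have h3' : XH u' - XH v' ≠ 0 := sub_ne_zero.2 hX'
    have h4 : XH (u + v) = 2 * ((XH u * XH v + 2) * (XH u + XH v) + 8 * (XH u * XH v)) /
        (XH u - XH v) ^ 2 - XH (u - v) := by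
      rw [eq_sub_iff_add_eq, eq_div_iff (pow_ne_zero 2 h3)]
      exact XH_sum hu0 hv0 h2 h1
    have h4' : XH (u' + v') = 2 * ((XH u' * XH v' + 2) * (XH u' + XH v') + 8 * (XH u' * XH v')) /
        (XH u' - XH v') ^ 2 - XH (u' - v') := by
      rw [eq_sub_iff_add_eq, eq_div_iff (pow_ne_zero 2 h3')]
      exact XH_sum hu0' hv0' h2' h1'
    have h8 : 2 * ((XH u * XH v + 2) * (XH u + XH v) + 8 * (XH u * XH v)) /
        (XH u - XH v) ^ 2 - XH (u - v) =
        ((2 * (((⟨XH u, hub⟩ : K) * (⟨XH v, hvb⟩ : K) + 2) * ((⟨XH u, hub⟩ : K) +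
          (⟨XH v, hvb⟩ : K)) + 8 * ((⟨XH u, hub⟩ : K) * (⟨XH v, hvb⟩ : K))) /
            ((⟨XH u, hub⟩ : K) - (⟨XH v, hvb⟩ : K)) ^ 2 -
            (⟨XH (u - v), hdb⟩ : K) : K) : ℂ) := by
      push_cast
      rfl
    refine Rl.mk' ⟨fun h => absurd h h2, fun h => absurd h h2'⟩ (h4.trans h8) h4'
      (Subtype.prop _) ?_
    rw [Subtype.coe_eta]
    simp only [map_div₀, map_pow, map_add, map_mul, map_sub, huc, hvc, hdc, map_ofNat]

private lemma s2_mul_mem_iff {z : ℂ} (hz : z ∉ LH.lattice) :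
    s2 * z ∈ LH.lattice ↔ XH z = 0 := by
  rw [XH_eq_zero_iff hz]
  constructor
  · intro h
    exact (mem_or_tau h).resolve_left hz
  · intro h
    have h1 : (-1 : ℂ) ∈ LH.lattice := mem_LH.2 ⟨-1, by rw [map_neg, map_one]⟩
    have h2 := add_mem (s2_mul_mem h) h1
    rwa [← s2_mul_tau, ← mul_add, sub_add_cancel] at h2

private lemma Rl.s_mul {z z' : ℂ} (hz : z ∉ LH.lattice)
    (hz' : z' ∉ LH.lattice) (hK : XH z ∈ K) (h : σ ⟨XH z, hK⟩ = XH z') :
    Rl K σ (s2 * z) (s2 * z') := by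
  have h0 : XH z = 0 ↔ XH z' = 0 := by
    rw [← h]
    constructor
    · intro h1
      have : (⟨XH z, hK⟩ : K) = 0 := Subtype.ext h1
      rw [this, map_zero]
    · intro h1
      exact congrArg Subtype.val ((map_eq_zero σ).1 h1)
  by_cases h1 : XH z = 0
  · exact Rl.of_mem ((s2_mul_mem_iff hz).2 h1) ((s2_mul_mem_iff hz').2 (h0.1 h1))
  · have h1' : XH z' ≠ 0 := fun h => h1 (h0.2 h)
    have h2 : s2 * z ∉ LH.lattice := fun h => h1 ((s2_mul_mem_iff hz).1 h)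
    have h2' : s2 * z' ∉ LH.lattice := fun h => h1' ((s2_mul_mem_iff hz').1 h)
    have h3 : 2 * XH z ≠ 0 := mul_ne_zero two_ne_zero h1
    have h3' : 2 * XH z' ≠ 0 := mul_ne_zero two_ne_zero h1'
    have h4 : XH (s2 * z) = (-(XH z ^ 2 + 4 * XH z + 2)) / (2 * XH z) := by
      rw [eq_div_iff h3, ← XH_mul_s h2]
      ring
    have h4' : XH (s2 * z') = (-(XH z' ^ 2 + 4 * XH z' + 2)) / (2 * XH z') := by
      rw [eq_div_iff h3', ← XH_mul_s h2']
      ring
    have h8 : (-(XH z ^ 2 + 4 * XH z + 2)) / (2 * XH z) =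
        (((-((⟨XH z, hK⟩ : K) ^ 2 + 4 * (⟨XH z, hK⟩ : K) + 2)) / (2 * (⟨XH z, hK⟩ : K)) : K) : ℂ) := by
      push_cast
      rfl
    refine Rl.mk' ⟨fun h => absurd h h2, fun h => absurd h h2'⟩ (h4.trans h8) h4'
      (Subtype.prop _) ?_
    rw [Subtype.coe_eta]
    simp only [map_div₀, map_pow, map_mul, map_add, map_neg, h, map_ofNat]

private lemma Rl.one_add_s {z z' : ℂ} (hI : s2 ∈ K) (hσ : σ ⟨s2, hI⟩ = s2) (hz : z ∉ LH.lattice)
    (hz' : z' ∉ LH.lattice) (hK : XH z ∈ K) (h : σ ⟨XH z, hK⟩ = XH z') :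
    Rl K σ ((1 + s2) * z) ((1 + s2) * z') := by
  have e3 : (1 + s2) * XH z + s2 =
      (((1 + (⟨s2, hI⟩ : K)) * (⟨XH z, hK⟩ : K) + (⟨s2, hI⟩ : K) : K) : ℂ) := by
    push_cast
    rfl
  have e4 : σ ((1 + (⟨s2, hI⟩ : K)) * (⟨XH z, hK⟩ : K) + (⟨s2, hI⟩ : K)) =
      (1 + s2) * XH z' + s2 := by
    simp only [map_add, map_mul, map_one, h, hσ]
  have h0 : (1 + s2) * XH z + s2 = 0 ↔ (1 + s2) * XH z' + s2 = 0 := by
    rw [← e4, e3]
    constructor
    · intro h1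
      have : ((1 + (⟨s2, hI⟩ : K)) * (⟨XH z, hK⟩ : K) + (⟨s2, hI⟩ : K)) = 0 := Subtype.ext h1
      rw [this, map_zero]
    · intro h1
      exact congrArg Subtype.val ((map_eq_zero σ).1 h1)
  by_cases h1 : (1 + s2) * XH z + s2 = 0
  · exact Rl.of_mem ((one_add_s_mem_iff hz).2 h1) ((one_add_s_mem_iff hz').2 (h0.1 h1))
  · have h1' : (1 + s2) * XH z' + s2 ≠ 0 := fun h => h1 (h0.2 h)
    have h2 : (1 + s2) * z ∉ LH.lattice := fun h => h1 ((one_add_s_mem_iff hz).1 h)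
    have h2' : (1 + s2) * z' ∉ LH.lattice := fun h => h1' ((one_add_s_mem_iff hz').1 h)
    have h3 : ((1 + s2) * XH z + s2) ^ 2 ≠ 0 := pow_ne_zero 2 h1
    have h3' : ((1 + s2) * XH z' + s2) ^ 2 ≠ 0 := pow_ne_zero 2 h1'
    have h4 : XH ((1 + s2) * z) = XH z * (XH z + 2 - s2) ^ 2 / ((1 + s2) * XH z + s2) ^ 2 := by
      rw [eq_div_iff h3, ← XH_one_add_s h2]
    have h4' : XH ((1 + s2) * z') =
        XH z' * (XH z' + 2 - s2) ^ 2 / ((1 + s2) * XH z' + s2) ^ 2 := by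
      rw [eq_div_iff h3', ← XH_one_add_s h2']
    have h8 : XH z * (XH z + 2 - s2) ^ 2 / ((1 + s2) * XH z + s2) ^ 2 =
        (((⟨XH z, hK⟩ : K) * ((⟨XH z, hK⟩ : K) + 2 - (⟨s2, hI⟩ : K)) ^ 2 /
          ((1 + (⟨s2, hI⟩ : K)) * (⟨XH z, hK⟩ : K) + (⟨s2, hI⟩ : K)) ^ 2 : K) : ℂ) := by
      push_cast
      rfl
    refine Rl.mk' ⟨fun h => absurd h h2, fun h => absurd h h2'⟩ (h4.trans h8) h4'
      (Subtype.prop _) ?_
    rw [Subtype.coe_eta]
    simp only [map_div₀, map_pow, map_mul, map_add, map_sub, map_one, h, hσ, map_ofNat]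

end Rel

/-- the key step: `X (αz) ↦ X (αz')` if `X z ↦ X z'` -/
theorem sigma_mul (K : Subfield ℂ) (σ : K →+* ℂ) (hI : s2 ∈ K) (hσ : σ ⟨s2, hI⟩ = s2) {z z' : ℂ}
    (hz : z ∉ LH.lattice) (hz' : z' ∉ LH.lattice) (hK : XH z ∈ K) (h : σ ⟨XH z, hK⟩ = XH z')
    (α : O2) : (α * z ∈ LH.lattice ↔ α * z' ∈ LH.lattice) ∧
      ∃ hα : XH (α * z) ∈ K, σ ⟨XH (α * z), hα⟩ = XH (α * z') := by
  change Rl K σ (α * z) (α * z')
  refine o2_induction (P := fun α : O2 => Rl K σ (α * z) (α * z')) ?_ ?_ ?_ ?_ ?_ ?_ α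
  · refine Rl.of_mem ?_ ?_
    · simp
    · simp
  · have h1 : Rl K σ z z' := ⟨⟨fun h => absurd h hz, fun h => absurd h hz'⟩, hK, h⟩
    simpa using h1
  · rw [coe_sqrtd]
    exact Rl.s_mul hz hz' hK h
  · have h1 := Rl.one_add_s hI hσ hz hz' hK h
    rw [coe_def]
    simpa using h1
  · intro α hα
    have h1 := hα.neg
    rw [map_neg, neg_mul, neg_mul]
    exact h1
  · intro α β hα hβ hd
    rw [map_sub, sub_mul, sub_mul] at hd
    have h1 := Rl.add hα hβ hd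
    rw [map_add, add_mul, add_mul]
    exact h1

theorem exists_sigma {n : O2} (hn : n ≠ 0) (K : Subfield ℂ) (σ : K →+* ℂ) (hI : s2 ∈ K)
    (hσ : σ ⟨s2, hI⟩ = s2) (hK : XH (1 / n) ∈ K) : ∃ c : O2, IsCoprime c n ∧
      ∀ a : O2, ∃ h : XH (a / n) ∈ K, σ ⟨XH (a / n), h⟩ = XH (c * a / n) := by
  have hn' : (n : ℂ) ≠ 0 := coe_ne_zero hn
  by_cases hu : IsUnit n
  · refine ⟨1, isCoprime_one_left, fun a => ?_⟩
    have h1 : (a : ℂ) / n ∈ LH.lattice := (div_mem_iff hn).2 (hu.dvd)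
    have h2 : ((1 : O2) : ℂ) * a / n ∈ LH.lattice := by
      rw [map_one, one_mul]
      exact h1
    exact (Rl.of_mem (K := K) (σ := σ) h1 h2).2
  · have hz : 1 / (n : ℂ) ∉ LH.lattice := by
      intro h
      apply hu
      have h1 := (div_mem_iff (a := 1) hn).1 (by simpa using h)
      exact isUnit_of_dvd_one h1
    obtain ⟨w, hw, hw'⟩ := XH_surj (σ ⟨XH (1 / n), hK⟩)
    have key := sigma_mul K σ hI hσ hz hw hK hw'.symm
    have h1 : (n : ℂ) * w ∈ LH.lattice := by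
      rw [← (key n).1, mul_one_div_cancel hn']
      exact mem_LH.2 ⟨1, map_one _⟩
    obtain ⟨c, hc⟩ := mem_LH.1 h1
    have hwc : w = c / n := by
      rw [hc]
      field_simp
    refine ⟨c, ?_, fun a => ?_⟩
    · refine isCoprime_of_irreducible_dvd (fun h => hn h.2) ?_
      rintro p hp ⟨c₁, hc₁⟩ ⟨n₁, hn₁⟩
      have h2 : ((n₁ : ℂ)) * w ∈ LH.lattice := by
        rw [hwc, ← mul_div_assoc, ← map_mul]
        rw [div_mem_iff hn]
        exact ⟨c₁, by rw [hc₁, hn₁]; ring⟩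
      have h3 := (key n₁).1.2 h2
      rw [mul_one_div, div_mem_iff hn] at h3
      obtain ⟨d, hd⟩ := h3
      have hn₁0 : n₁ ≠ 0 := by
        rintro rfl
        exact hn (by rw [hn₁, mul_zero])
      apply hp.not_isUnit
      refine IsUnit.of_mul_eq_one d ?_
      apply mul_left_cancel₀ hn₁0
      rw [hn₁] at hd
      linear_combination -hd
    · obtain ⟨h2, h3⟩ := (key a).2
      have h4 : (a : ℂ) * (1 / n) = a / n := by rw [mul_one_div]
      have h5 : (a : ℂ) * w = c * a / n := by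
        rw [hwc]
        ring
      rw [h5] at h3
      simp only [h4] at h2 h3
      exact ⟨h2, h3⟩

end Pool.Agent.CMH
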