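import Pool.Agent.CMH.Sigma

/-!
# Galois action on PsiH

Copy of `CMG/SigmaPsi.lean`. By `exists_sigma` with `n = α`: `σ (XH (a/α)) = XH (c a/α)`, `c` prime to
`α`, so `σ` maps the set `HSH α` onto itself (`w ∉ L`, `αw ∈ L` means `w ≡ a/α`, `α ∤ a`). Hence
`σ (∏_{t ∈ HSH α} 2t/(XH z - t)) = ∏_{t ∈ HSH α} 2t/(XH w - t)`.
-/

set_option autoImplicit false

noncomputable section

open Complex Filter Topology
open scoped PeriodPair Classical

namespace Pool.Agent.CMH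

/-- the action on the set `HSH α` -/
private theorem sigma_HSH {α : O2} (hα : IsOddH α) (K : Subfield ℂ) (σ : K →+* ℂ) (hI : s2 ∈ K)
    (hσ : σ ⟨s2, hI⟩ = s2) (hK : ∀ z : ℂ, (∃ m : O2, m ≠ 0 ∧ m * z ∈ LH.lattice) → XH z ∈ K)
    {t : ℂ} (ht : t ∈ HSH α) : ∃ h : t ∈ K, σ ⟨t, h⟩ ∈ HSH α := by
  have hα0 : α ≠ 0 := hα.ne_zero
  have hαC : (α : ℂ) ≠ 0 := coe_ne_zero hα0
  have h1 : XH (1 / α) ∈ K := by
    refine hK _ ⟨α, hα0, ?_⟩
    rw [mul_one_div_cancel hαC]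
    exact mem_LH.2 ⟨1, map_one _⟩
  obtain ⟨c, hc, hcx⟩ := exists_sigma hα0 K σ hI hσ h1
  obtain ⟨v, ⟨hv1, hv2⟩, rfl⟩ := ht
  obtain ⟨b, hb⟩ := mem_LH.1 hv2
  have hvb : v = b / α := by
    rw [hb]
    field_simp
  obtain ⟨hbK, hb2⟩ := hcx b
  have hXv : XH v ∈ K := by rw [hvb]; exact hbK
  refine ⟨hXv, ?_⟩
  have h2 : σ ⟨XH v, hXv⟩ = XH (c * b / α) := by
    rw [← hb2]
    congr 1
    apply Subtype.ext
    change XH v = XH (b / α)
    rw [hvb]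
  rw [h2]
  refine ⟨c * b / α, ⟨?_, ?_⟩, rfl⟩
  · intro h3
    apply hv1
    rw [hvb, div_mem_iff hα0]
    have h4 : ((c * b : O2) : ℂ) / α ∈ LH.lattice := by
      rw [map_mul]
      exact h3
    rw [div_mem_iff hα0] at h4
    exact hc.symm.dvd_of_dvd_mul_left h4
  · rw [mul_div_cancel₀ _ hαC]
    exact mem_LH.2 ⟨c * b, by rw [map_mul]⟩

theorem sigma_PsiH {α : O2} (hα : IsOddH α) (K : Subfield ℂ) (σ : K →+* ℂ) (hI : s2 ∈ K)
    (hσ : σ ⟨s2, hI⟩ = s2) (hK : ∀ z : ℂ, (∃ m : O2, m ≠ 0 ∧ m * z ∈ LH.lattice) → XH z ∈ K)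
    {z w : ℂ} (hz : ∃ m : O2, m ≠ 0 ∧ m * z ∈ LH.lattice) (hw : σ ⟨XH z, hK z hz⟩ = XH w) :
    ∃ h : PsiH α z ∈ K, σ ⟨PsiH α z, h⟩ = PsiH α w := by
  have hα0 : α ≠ 0 := hα.ne_zero
  have hfin := HSH_finite hα0
  have hS := fun t (ht : t ∈ hfin.toFinset) =>
    sigma_HSH hα K σ hI hσ hK ((hfin.mem_toFinset).1 ht)
  choose hSK hSσ using hS
  let g : ℂ → ℂ := fun t => if h : t ∈ K then σ ⟨t, h⟩ else 0
  have hg : ∀ t (h : t ∈ K), g t = σ ⟨t, h⟩ := fun t h => dif_pos h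
  have hinj : Set.InjOn g (hfin.toFinset : Set ℂ) := by
    intro t ht s hs h
    rw [hg t (hSK t ht), hg s (hSK s hs)] at h
    have := σ.injective h
    exact congrArg Subtype.val this
  have himg : hfin.toFinset.image g = hfin.toFinset := by
    apply Finset.eq_of_subset_of_card_le
    · intro s hs
      obtain ⟨t, ht, rfl⟩ := Finset.mem_image.1 hs
      rw [hg t (hSK t ht), hfin.mem_toFinset]
      exact hSσ t ht
    · rw [Finset.card_image_of_injOn hinj]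
  let hzK : K := ⟨XH z, hK z hz⟩
  let PK : K := ∏ t ∈ hfin.toFinset.attach,
    (2 * (⟨t.1, hSK t.1 t.2⟩ : K) / (hzK - ⟨t.1, hSK t.1 t.2⟩))
  have hPK : (PK : ℂ) = PsiH α z := by
    rw [PsiH, finprod_mem_eq_finite_toFinset_prod _ hfin]
    have e1 : (PK : ℂ) = K.subtype PK := rfl
    rw [e1]
    simp only [PK, map_prod, map_div₀, map_mul, map_sub, map_ofNat]
    exact Finset.prod_attach hfin.toFinset (fun t => 2 * t / (XH z - t))
  have hσP : σ PK = PsiH α w := by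
    rw [PsiH, finprod_mem_eq_finite_toFinset_prod _ hfin]
    simp only [PK, map_prod, map_div₀, map_mul, map_sub, map_ofNat]
    have e1 : ∀ t ∈ hfin.toFinset.attach,
        2 * σ ⟨t.1, hSK t.1 t.2⟩ / (σ hzK - σ ⟨t.1, hSK t.1 t.2⟩) =
          2 * g t.1 / (XH w - g t.1) := by
      intro t _
      rw [hg t.1 (hSK t.1 t.2)]
      change _ / (σ ⟨XH z, _⟩ - _) = _
      rw [hw]
    rw [Finset.prod_congr rfl e1,
      Finset.prod_attach hfin.toFinset (fun t => 2 * g t / (XH w - g t))]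
    conv_rhs => rw [← himg]
    rw [Finset.prod_image hinj]
  have hmem : PsiH α z ∈ K := hPK ▸ PK.2
  refine ⟨hmem, ?_⟩
  have h1 : (⟨PsiH α z, hmem⟩ : K) = PK := Subtype.ext hPK.symm
  rw [h1, hσP]

end Pool.Agent.CMH
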