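import Pool.Agent.CMG.Final
import Pool.Agent.CMH.EllH

/-!
# Stark units for the subfields of `ℚ(i, h(1/N))` and of `ℚ(√-2, x(1/N))`
-/

set_option autoImplicit false

noncomputable section

open NumberField Module Pool.Agent.StarkRQ Pool.Agent.CMG

namespace Pool.Agent.CMH

/-- the coefficients depend only on the prime divisors of `N` -/
theorem zcoeff_eq_of_primes {F L : Type} [Field F] [NumberField F] [Field L] [NumberField L]
    [Algebra F L] {N f : ℕ} (h : ∀ p : ℕ, p.Prime → (p ∣ N ↔ p ∣ f)) (σ : Gal(L/F)) (n : ℕ) :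
    zcoeff N σ n = zcoeff f σ n := by
  have h1 : n.Coprime N ↔ n.Coprime f := by
    rw [← not_iff_not, Nat.Prime.not_coprime_iff_dvd, Nat.Prime.not_coprime_iff_dvd]
    constructor
    · rintro ⟨p, hp, h2, h3⟩
      exact ⟨p, hp, h2, (h p hp).1 h3⟩
    · rintro ⟨p, hp, h2, h3⟩
      exact ⟨p, hp, h2, (h p hp).2 h3⟩
  unfold zcoeff
  rw [if_congr h1 rfl rfl]

theorem isPartialZeta_of_primes {F L : Type} [Field F] [NumberField F] [Field L] [NumberField L]
    [Algebra F L] {N f : ℕ} (h : ∀ p : ℕ, p.Prime → (p ∣ N ↔ p ∣ f)) {σ : Gal(L/F)} {Z : ℂ → ℂ}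
    (hZ : IsPartialZeta N σ Z) : IsPartialZeta f σ Z := by
  refine ⟨hZ.1, fun s hs => ?_⟩
  rw [hZ.2 s hs]
  congr 1
  ext n
  rw [zcoeff_eq_of_primes h]

theorem isStarkUnit_of_primes {F L : Type} [Field F] [NumberField F] [Field L] [NumberField L]
    [Algebra F L] {N f : ℕ} (h : ∀ p : ℕ, p.Prime → (p ∣ N ↔ p ∣ f)) {ι : L →+* ℂ} {η : L}
    (hη : IsStarkUnit F ι N η) : IsStarkUnit F ι f η where
  ne_zero := hη.ne_zero
  isIntegral := hη.isIntegral
  deriv_zeta := fun σ => by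
    obtain ⟨Z, hZ, hd⟩ := hη.deriv_zeta σ
    exact ⟨Z, isPartialZeta_of_primes h hZ, hd⟩
  abelian := hη.abelian

/-- existence of Stark units, for an abelian extension `M` of `ℚ(√-n)` contained in
`ℚ(√-n, h(1/N))` -/
theorem exists_stark_gen {M : Type} [Field M] [NumberField M] [IsGalois ℚ M] (ι : M →+* ℂ)
    {c : ℂ} {n : ℕ} (hn : 0 < n) (hc : c ^ 2 = -(n : ℂ)) (hcM : ∃ j : M, ι j = c) {h : ℂ → ℂ}
    (hD : ∀ (k : Type) [Field k] [NumberField k] [Algebra k ℂ], finrank ℚ k = 2 →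
      (∃ j : k, algebraMap k ℂ j = c) → ∃ D : EllData k, D.N₀ = 4 ∧ D.m = 1 ∧ D.h = h)
    {N : ℕ} (hN : N ≠ 0) (h4 : 4 ∣ N)
    (hM : ∀ x : M, ι x ∈ IntermediateField.adjoin ℚ {c, h (1 / N)})
    (hram : ∀ p : ℕ, p.Prime → (p : ℤ) ∣ discr M → p ∣ N) :
    ∃ (k : IntermediateField ℚ M), finrank ℚ k = 2 ∧ (∀ x : M, ι x = c → x ∈ k) ∧
      IsTotallyComplex k ∧ IsAbelianGalois k M ∧
      ∃ η : M, IsStarkUnit k ι N η ∧ (¬ IsPrimePow N → IsIntegral ℤ η ∧ IsIntegral ℤ η⁻¹) := by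
  obtain ⟨j, hj⟩ := hcM
  have hj2 : j ^ 2 = -(n : M) := by
    apply ι.injective
    rw [map_pow, hj, hc, map_neg, map_natCast]
  let k := IntermediateField.adjoin ℚ {j}
  let _ : Algebra k ℂ := (ι.comp (algebraMap k M)).toAlgebra
  have hint : IsIntegral ℚ j := IsIntegral.of_finite ℚ j
  have hk : finrank ℚ k = 2 := by
    rw [IntermediateField.adjoin.finrank hint]
    have h1 : minpoly ℚ j = Polynomial.X ^ 2 + Polynomial.C (n : ℚ) := by
      refine (minpoly.eq_of_irreducible_of_monic ?_ ?_ ?_).symm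
      · have h2 : (Polynomial.X ^ 2 + Polynomial.C (n : ℚ) : Polynomial ℚ).natDegree = 2 := by
          compute_degree!
        refine (Polynomial.Monic.irreducible_iff_roots_eq_zero_of_degree_le_three
          (by monicity!) (by rw [h2]) (by rw [h2]; norm_num)).2 ?_
        refine Multiset.eq_zero_of_forall_notMem fun x hx => ?_
        have h3 := (Polynomial.mem_roots'.1 hx).2
        simp only [Polynomial.IsRoot.def, Polynomial.eval_add, Polynomial.eval_pow,
          Polynomial.eval_X, Polynomial.eval_C] at h3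
        have h4 : (0 : ℚ) < n := by exact_mod_cast hn
        nlinarith [sq_nonneg x]
      · simp [hj2]
      · monicity!
    rw [h1]
    compute_degree!
  have hI : ∃ j' : k, algebraMap k ℂ j' = c :=
    ⟨⟨j, IntermediateField.mem_adjoin_simple_self ℚ j⟩, hj⟩
  obtain ⟨D, hD1, hD2, hD3⟩ := hD k hk hI
  have hDN : D.N₀ ∣ N := by rwa [hD1]
  have hpt : pt (1 : 𝓞 k) N = 1 / (N : ℂ) := by
    simp [pt]
  have hM' : ∀ x : M, ι x ∈ IntermediateField.adjoin k {D.h (pt (1 : 𝓞 k) N)} := by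
    intro x
    rw [hD3, hpt]
    have h1 : IntermediateField.adjoin ℚ {c, h (1 / N)} ≤
        (IntermediateField.adjoin k {h (1 / N)}).restrictScalars ℚ := by
      rw [IntermediateField.adjoin_le_iff]
      rintro y (rfl | rfl)
      · obtain ⟨j', hj'⟩ := hI
        rw [← hj']
        exact (IntermediateField.adjoin k {h (1 / N)}).algebraMap_mem j'
      · exact IntermediateField.mem_adjoin_simple_self k _
    exact h1 (hM x)
  have hab := isAbelian_of_mem D hDN hN ι (fun x => rfl) hM'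
  have htc : IsTotallyComplex k := D.isComplex
  obtain ⟨η, hη, hη'⟩ := exists_stark D hDN hN ι (fun x => rfl) hM' hram
  refine ⟨k, hk, ?_, htc, hab, η, hη, hη'⟩
  intro x hx
  have : x = j := ι.injective (hx.trans hj.symm)
  rw [this]
  exact IntermediateField.mem_adjoin_simple_self ℚ j

end Pool.Agent.CMH
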