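import Pool.Agent.CMH.XTau
import Pool.Agent.CMH.Tors

/-!
# product of XH over translates by E[α]

Write `s = s2`, `N = nH α`. `F(z) = ∏_q XH (z + torH α q)`, `G(z) = XH (α z)`. Orders (`XH_order_sub` with
`v = τ`, `XH τ = 0`: the order of `XH` is `-2` on `L`, `2` on `τ + L`, `0` elsewhere): if `α z ∈ L` exactly one
`z + torH α q` is in `L` and none in `τ + L` (`α τ ≡ τ ∉ L`), so both orders are `-2`; if `α z ∈ τ + L` both are
`2`; otherwise `0`. `F/G` is `L`-periodic, so `F = c G` (`liouville`). Value of `c` (this is the new point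
compared with `CMG/TFive.lean`): let `z₁ = s/4`, so `2z₁ = τ`, `z₁ + τ ≡ -z₁`. For `w ∈ E[α] ∖ 0`:
`XH (z₁ + w) XH (z₁ - w) = XH (z₁ + w) XH (-z₁ + w) = XH (z₁ + w) XH (z₁ + w + τ) = 2` (`XH_add_tau`), so
`F(z₁) = XH(z₁) 2^{(N-1)/2}` (the nonzero classes are `(N-1)/2` pairs `{q, -q}`). With `α = a + bs`, `a` odd:
`αz₁ = a s/4 - b/2`, `a s/4 ≡ ± s/4`; if `b` is even `XH (αz₁) = XH z₁` and `4 ∣ N - 1`; if `b` is odd
`XH (αz₁) = XH (s/4 + 1/2) = -XH z₁` (`XH_quarter`) and `N ≡ 3` mod `4`. As `XH z₁ ≠ 0`, in both cases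
`c = (-2)^{(N-1)/2} = s^{N-1}`. Dividing `F = cG` by `XH z` and `z → 0` (`XH_tendsto`):
`∏_{q≠0} = c/α²`.
-/

set_option autoImplicit false

noncomputable section

open Complex Filter Topology
open scoped PeriodPair Classical

namespace Pool.Agent.CMH

open Pool.Agent.CMG (liouville)

theorem tfive_two_tau : 2 * tauH ∈ LH.lattice := by
  rw [mem_LH]
  refine ⟨⟨0, 1⟩, ?_⟩
  rw [coe_sqrtd]
  unfold tauH
  ring

theorem tfive_order (z : ℂ) : meromorphicOrderAt XH z =
    ((if z ∈ LH.lattice then -2 else if z - tauH ∈ LH.lattice then 2 else 0 : ℤ) : WithTop ℤ) := by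
  have h := XH_order_sub tau_notMem z
  simp only [XH_tau, sub_zero] at h
  rw [h]
  have h2 : (z - tauH ∈ LH.lattice ∨ z + tauH ∈ LH.lattice) ↔ z - tauH ∈ LH.lattice := by
    refine ⟨?_, Or.inl⟩
    rintro (h3 | h3)
    · exact h3
    · have := LH.lattice.sub_mem h3 tfive_two_tau
      rwa [show z + tauH - 2 * tauH = z - tauH by ring] at this
  simp only [h2, if_pos tfive_two_tau]

theorem tfive_tau_mem_iff {α : O2} (hα : IsOddH α) : (α : ℂ) * tauH ∉ LH.lattice := by
  intro h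
  have h1 := LH.lattice.sub_mem h (odd_mul_tau hα)
  rw [sub_sub_cancel] at h1
  exact tau_notMem h1

theorem tfive_quarter {α : O2} (hα : IsOddH α) : (α : ℂ) * (s2 / 4) ∉ LH.lattice := by
  intro h
  have h1 := LH.lattice.add_mem h h
  rw [show (α : ℂ) * (s2 / 4) + α * (s2 / 4) = α * tauH by unfold tauH; ring] at h1
  exact tfive_tau_mem_iff hα h1

theorem tfive_quarter_tau {α : O2} (hα : IsOddH α) : (α : ℂ) * (s2 / 4 + tauH) ∉ LH.lattice := by
  intro h
  have h1 := LH.lattice.add_mem h h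
  have h2 := LH.lattice.sub_mem h1 (mul_mem_LH α tfive_two_tau)
  rw [show (α : ℂ) * (s2 / 4 + tauH) + α * (s2 / 4 + tauH) - α * (2 * tauH) = α * tauH by
    unfold tauH; ring] at h2
  exact tfive_tau_mem_iff hα h2

section

variable {α : O2}

theorem tfive_mul_tor (hα : IsOddH α) (z : ℂ) (q : O2 ⧸ Ideal.span {α}) :
    (α : ℂ) * (z + torH α q) ∈ LH.lattice ↔ (α : ℂ) * z ∈ LH.lattice := by
  have h := mul_tor_mem hα.ne_zero q
  rw [mul_add]
  exact ⟨fun h1 => by simpa using LH.lattice.sub_mem h1 h, fun h1 => LH.lattice.add_mem h1 h⟩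

theorem tfive_tau (hα : IsOddH α) (z : ℂ) :
    (α : ℂ) * (z - tauH) ∈ LH.lattice ↔ (α : ℂ) * z - tauH ∈ LH.lattice := by
  have h := odd_mul_tau hα
  constructor
  · intro h1
    have := LH.lattice.add_mem h1 h
    rwa [show (α : ℂ) * (z - tauH) + ((α : ℂ) * tauH - tauH) = (α : ℂ) * z - tauH by ring] at this
  · intro h1
    have := LH.lattice.sub_mem h1 h
    rwa [show (α : ℂ) * z - tauH - ((α : ℂ) * tauH - tauH) = (α : ℂ) * (z - tauH) by ring] at this

theorem tfive_unique (hα : IsOddH α) {z : ℂ} (hz : (α : ℂ) * z ∈ LH.lattice) :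
    ∃! q : O2 ⧸ Ideal.span {α}, z + torH α q ∈ LH.lattice := by
  have h : (α : ℂ) * (-z) ∈ LH.lattice := by
    rw [mul_neg]
    exact LH.lattice.neg_mem hz
  have h2 := exists_tor hα.ne_zero h
  convert h2 using 2 with q
  constructor
  · intro h3
    rw [show -z - torH α q = -(z + torH α q) by ring]
    exact LH.lattice.neg_mem h3
  · intro h3
    rw [show z + torH α q = -(-z - torH α q) by ring]
    exact LH.lattice.neg_mem h3

theorem tfive_sum (hα : IsOddH α) [Fintype (O2 ⧸ Ideal.span {α})] (z : ℂ) :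
    ∑ q : O2 ⧸ Ideal.span {α}, (if z + torH α q ∈ LH.lattice then -2 else
      if z + torH α q - tauH ∈ LH.lattice then 2 else 0 : ℤ) =
    (if (α : ℂ) * z ∈ LH.lattice then -2 else if (α : ℂ) * z - tauH ∈ LH.lattice then 2 else 0) := by
  by_cases h1 : (α : ℂ) * z ∈ LH.lattice
  · rw [if_pos h1]
    obtain ⟨q₀, hq₀, hu⟩ := tfive_unique hα h1
    rw [Finset.sum_eq_single q₀]
    · rw [if_pos hq₀]
    · intro q _ hq
      rw [if_neg fun h => hq (hu q h), if_neg]
      intro h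
      have h2 := mul_mem_LH α h
      rw [tfive_tau hα, mul_add] at h2
      have h3 := LH.lattice.sub_mem (LH.lattice.add_mem h1 (mul_tor_mem hα.ne_zero q)) h2
      rw [sub_sub_cancel] at h3
      exact tau_notMem h3
    · intro h
      exact absurd (Finset.mem_univ _) h
  · rw [if_neg h1]
    by_cases h2 : (α : ℂ) * z - tauH ∈ LH.lattice
    · rw [if_pos h2]
      rw [← tfive_tau hα] at h2
      obtain ⟨q₀, hq₀, hu⟩ := tfive_unique hα h2
      have hn : ∀ q : O2 ⧸ Ideal.span {α}, z + torH α q ∉ LH.lattice := by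
        intro q h
        exact h1 ((tfive_mul_tor hα z q).1 (mul_mem_LH α h))
      rw [Finset.sum_eq_single q₀]
      · rw [if_neg (hn q₀), if_pos]
        rwa [show z + torH α q₀ - tauH = z - tauH + torH α q₀ by ring]
      · intro q _ hq
        rw [if_neg (hn q), if_neg]
        intro h
        rw [show z + torH α q - tauH = z - tauH + torH α q by ring] at h
        exact hq (hu q h)
      · intro h
        exact absurd (Finset.mem_univ _) h
    · rw [if_neg h2]
      refine Finset.sum_eq_zero fun q _ => ?_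
      rw [if_neg, if_neg]
      · intro h
        rw [show z + torH α q - tauH = z - tauH + torH α q by ring] at h
        exact h2 ((tfive_tau hα z).1 ((tfive_mul_tor hα _ q).1 (mul_mem_LH α h)))
      · intro h
        exact h1 ((tfive_mul_tor hα z q).1 (mul_mem_LH α h))

theorem tfive_coe_ne (hα : IsOddH α) : (α : ℂ) ≠ 0 := coe_ne_zero hα.ne_zero

theorem tfive_mero_G (z : ℂ) : MeromorphicAt (fun z => XH ((α : ℂ) * z)) z :=
  (XH_meromorphic _).comp_analyticAt (by fun_prop)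

theorem tfive_order_G (hα : IsOddH α) (z : ℂ) : meromorphicOrderAt (fun z => XH ((α : ℂ) * z)) z =
    ((if (α : ℂ) * z ∈ LH.lattice then -2 else if (α : ℂ) * z - tauH ∈ LH.lattice then 2 else 0 : ℤ) :
      WithTop ℤ) := by
  have h : meromorphicOrderAt (XH ∘ fun z => (α : ℂ) * z) z = meromorphicOrderAt XH ((α : ℂ) * z) := by
    apply meromorphicOrderAt_comp_of_deriv_ne_zero
    · fun_prop
    · simp [tfive_coe_ne hα]
  rw [tfive_order] at h
  exact h

theorem tfive_mero_F [Fintype (O2 ⧸ Ideal.span {α})] (z : ℂ) :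
    MeromorphicAt (fun z => ∏ q : O2 ⧸ Ideal.span {α}, XH (z + torH α q)) z := by
  refine MeromorphicAt.fun_prod fun q _ => ?_
  exact (XH_meromorphic _).comp_analyticAt (by fun_prop)

theorem tfive_order_F (hα : IsOddH α) [Fintype (O2 ⧸ Ideal.span {α})] (z : ℂ) :
    meromorphicOrderAt (fun z => ∏ q : O2 ⧸ Ideal.span {α}, XH (z + torH α q)) z =
    ((if (α : ℂ) * z ∈ LH.lattice then -2 else if (α : ℂ) * z - tauH ∈ LH.lattice then 2 else 0 : ℤ) :
      WithTop ℤ) := by
  have h0 : ∀ q ∈ (Finset.univ : Finset (O2 ⧸ Ideal.span {α})),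
      MeromorphicAt ((fun (q : O2 ⧸ Ideal.span {α}) (z : ℂ) => XH (z + torH α q)) q) z :=
    fun q _ => (XH_meromorphic _).comp_analyticAt (by fun_prop)
  rw [meromorphicOrderAt_fun_prod h0, ← tfive_sum hα z]
  push_cast
  refine Finset.sum_congr rfl fun q _ => ?_
  have h : meromorphicOrderAt (XH ∘ (· + torH α q)) z = meromorphicOrderAt XH (z + torH α q) :=
    meromorphicOrderAt_comp_add_const_eq_meromorphicOrderAt
  rw [tfive_order] at h
  have h2 : (fun z => XH (z + torH α q)) = XH ∘ (· + torH α q) := rfl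
  rw [h2, h]

theorem tfive_eventually {P : ℂ → Prop} (h : ∀ᶠ z in codiscrete ℂ, P z) (z : ℂ) :
    ∀ᶠ y in 𝓝[≠] z, P y := by
  have h1 : {y | P y} ∈ codiscrete ℂ := h
  rw [mem_codiscrete] at h1
  have h2 := h1 z
  rw [disjoint_principal_right, compl_compl] at h2
  exact h2

/-- the two functions are proportional -/
theorem tfive_const (hα : IsOddH α) [Fintype (O2 ⧸ Ideal.span {α})] : ∃ c : ℂ,
    ∀ z : ℂ, ∀ᶠ y in 𝓝[≠] z, ∏ q : O2 ⧸ Ideal.span {α}, XH (y + torH α q) =
      c * XH (α * y) := by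
  obtain ⟨c, hc⟩ := liouville LH
    (F := fun z => (∏ q : O2 ⧸ Ideal.span {α}, XH (z + torH α q)) / XH ((α : ℂ) * z))
    (fun z => (tfive_mero_F z).fun_div (tfive_mero_G z))
    (fun z => by
      rw [fun_meromorphicOrderAt_div (tfive_mero_F z) (tfive_mero_G z), tfive_order_F hα,
        tfive_order_G hα, ← WithTop.LinearOrderedAddCommGroup.coe_sub, sub_self]
      exact le_rfl)
    (fun l hl => by
      refine Eventually.of_forall fun z => ?_
      have h1 : ∀ q : O2 ⧸ Ideal.span {α}, XH (z + l + torH α q) = XH (z + torH α q) := by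
        intro q
        rw [show z + l + torH α q = z + torH α q + l by ring, XH_add_coe _ hl]
      simp only [h1]
      rw [mul_add, XH_add_coe _ (mul_mem_LH α hl)])
  refine ⟨c, fun z => ?_⟩
  have h2 : meromorphicOrderAt (fun z => XH ((α : ℂ) * z)) z ≠ ⊤ := by
    rw [tfive_order_G hα]
    exact WithTop.coe_ne_top
  have h3 := (meromorphicOrderAt_ne_top_iff_eventually_ne_zero (tfive_mero_G z)).1 h2
  filter_upwards [tfive_eventually hc z, h3] with y h4 h5
  rw [← h4, div_mul_cancel₀ _ h5]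

theorem tfive_cont {z : ℂ} (hz : z ∉ LH.lattice) : ContinuousAt XH z :=
  ((XH_diff z hz).differentiableAt (LH.isClosed_lattice.isOpen_compl.mem_nhds hz)).continuousAt

theorem tfive_tor_neg (hα : IsOddH α) (q : O2 ⧸ Ideal.span {α}) :
    torH α (-q) + torH α q ∈ LH.lattice := by
  have h1 : (Ideal.Quotient.mk (Ideal.span {α})) (Quotient.out (-q) + Quotient.out q) = 0 := by
    rw [map_add, Ideal.Quotient.mk_out, Ideal.Quotient.mk_out]
    ring
  rw [Ideal.Quotient.eq_zero_iff_mem, Ideal.mem_span_singleton] at h1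
  obtain ⟨b, hb⟩ := h1
  rw [mem_LH]
  refine ⟨b, ?_⟩
  unfold torH
  rw [← add_div, ← map_add toC, hb, map_mul]
  field_simp [tfive_coe_ne hα]

theorem tfive_two_tor (hα : IsOddH α) {w : ℂ} (h2 : w + w ∈ LH.lattice)
    (h : (α : ℂ) * w ∈ LH.lattice) : w ∈ LH.lattice := by
  obtain ⟨k, hk⟩ : Odd (Zsqrtd.norm α) := by
    have : Odd (Zsqrtd.norm α).natAbs := hα
    rwa [Int.natAbs_odd] at this
  refine mem_of_coprime (α := α) (β := 2) ⟨star α, -k, ?_⟩ h ?_
  · have h3 : star α * α = (Zsqrtd.norm α : O2) := by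
      rw [Zsqrtd.norm_eq_mul_conj, mul_comm]
    rw [h3, hk]
    push_cast
    ring
  · rw [map_ofNat, two_mul]
    exact h2

theorem tfive_neg_ne (hα : IsOddH α) {q : O2 ⧸ Ideal.span {α}} (hq : q ≠ 0) : -q ≠ q := by
  intro h
  have h1 := tfive_tor_neg hα q
  rw [h] at h1
  exact hq ((tor_mem_iff hα.ne_zero q).1 (tfive_two_tor hα h1 (mul_tor_mem hα.ne_zero q)))

theorem tfive_pair (hα : IsOddH α) (q : O2 ⧸ Ideal.span {α}) :
    XH (s2 / 4 + torH α q) * XH (s2 / 4 + torH α (-q)) = 2 := by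
  have hw := mul_tor_mem hα.ne_zero q
  have h1 : s2 / 4 + torH α q ∉ LH.lattice := fun h =>
    tfive_quarter hα ((tfive_mul_tor hα _ q).1 (mul_mem_LH α h))
  have h2 : s2 / 4 + torH α q + tauH ∉ LH.lattice := by
    intro h
    rw [show s2 / 4 + torH α q + tauH = s2 / 4 + tauH + torH α q by ring] at h
    exact tfive_quarter_tau hα ((tfive_mul_tor hα _ q).1 (mul_mem_LH α h))
  have h3 : XH (s2 / 4 + torH α (-q)) = XH (s2 / 4 + torH α q + tauH) := by
    rw [← XH_neg, show s2 / 4 + torH α q + tauH = -(s2 / 4 + torH α (-q)) +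
      (2 * tauH + (torH α (-q) + torH α q)) by unfold tauH; ring,
      XH_add_coe _ (LH.lattice.add_mem tfive_two_tau (tfive_tor_neg hα q))]
  rw [h3, mul_comm]
  exact XH_add_tau h1 h2

theorem tfive_prod (hα : IsOddH α) [Fintype (O2 ⧸ Ideal.span {α})] :
    ∏ q ∈ Finset.univ.erase (0 : O2 ⧸ Ideal.span {α}), XH (s2 / 4 + torH α q) =
      2 ^ ((nH α - 1) / 2) := by
  set r : ℂ := ((Real.sqrt 2 : ℝ) : ℂ) with hr
  have hr2 : r * r = 2 := by
    rw [hr, ← Complex.ofReal_mul, Real.mul_self_sqrt (by norm_num)]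
    norm_num
  have hr0 : r ≠ 0 := by
    intro h
    rw [h] at hr2
    norm_num at hr2
  have h1 : ∏ q ∈ Finset.univ.erase (0 : O2 ⧸ Ideal.span {α}), (XH (s2 / 4 + torH α q) / r) = 1 := by
    refine Finset.prod_involution (fun q _ => -q) ?_ ?_ ?_ ?_
    · intro q _
      rw [div_mul_div_comm, tfive_pair hα q, hr2]
      norm_num
    · intro q hq _
      exact tfive_neg_ne hα (Finset.ne_of_mem_erase hq)
    · intro q hq
      rw [Finset.mem_erase]
      exact ⟨neg_ne_zero.2 (Finset.ne_of_mem_erase hq), Finset.mem_univ _⟩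
    · intro q _
      exact neg_neg q
  rw [Finset.prod_div_distrib, Finset.prod_const, Finset.card_erase_of_mem (Finset.mem_univ _),
    Finset.card_univ, ← Nat.card_eq_fintype_card, card_quot hα.ne_zero,
    div_eq_one_iff_eq (pow_ne_zero _ hr0)] at h1
  rw [h1]
  obtain ⟨k, hk⟩ : Odd (nH α) := hα
  rw [hk, show 2 * k + 1 - 1 = 2 * k by omega, Nat.mul_div_cancel_left _ (by norm_num), pow_mul,
    pow_two, hr2]

/-- the value at `α s/4` -/
theorem tfive_value (hα : IsOddH α) :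
    (-1) ^ ((nH α - 1) / 2) * XH (α * (s2 / 4)) = XH (s2 / 4) := by
  obtain ⟨m, hm⟩ := isOddH_iff.1 hα
  set b := α.im with hb
  have hN : (nH α : ℤ) = α.re ^ 2 + 2 * b ^ 2 := by
    unfold nH
    rw [Int.natAbs_of_nonneg (norm_nonneg' α), Zsqrtd.norm_def]
    ring
  have hc : (α : ℂ) * (s2 / 4) = (2 * m + 1 : ℤ) * (s2 / 4) - (b : ℂ) / 2 := by
    rw [coe_def, hm, ← hb]
    linear_combination ((b : ℂ) / 4) * s2_mul_s2
  -- reduction of the first part
  have h1 : ∃ l ∈ LH.lattice, (((2 * m + 1 : ℤ) : ℂ) * (s2 / 4) = s2 / 4 + l ∨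
      ((2 * m + 1 : ℤ) : ℂ) * (s2 / 4) = -(s2 / 4) + l) := by
    rcases Int.even_or_odd' m with ⟨k, rfl | rfl⟩
    · refine ⟨toC ⟨0, k⟩, mem_LH.2 ⟨_, rfl⟩, Or.inl ?_⟩
      rw [coe_def]
      push_cast
      ring
    · refine ⟨toC ⟨0, k + 1⟩, mem_LH.2 ⟨_, rfl⟩, Or.inr ?_⟩
      rw [coe_def]
      push_cast
      ring
  obtain ⟨l, hl, h1⟩ := h1
  rcases Int.even_or_odd' b with ⟨k, hk | hk⟩
  · have h2 : XH (α * (s2 / 4)) = XH (s2 / 4) := by
      have hk' : ((⟨-k, 0⟩ : O2) : ℂ) ∈ LH.lattice := mem_LH.2 ⟨_, rfl⟩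
      rw [coe_def] at hk'
      push_cast at hk'
      have hc' : (α : ℂ) * (s2 / 4) = (2 * m + 1 : ℤ) * (s2 / 4) + (-(k : ℂ) + 0 * s2) := by
        rw [hc, hk]
        push_cast
        ring
      rw [hc', XH_add_coe _ hk']
      rcases h1 with h1 | h1
      · rw [h1, XH_add_coe _ hl]
      · rw [h1, XH_add_coe _ hl, XH_neg]
    have h3 : Even ((nH α - 1) / 2) := by
      have : (nH α : ℤ) = 4 * (m * (m + 1)) + 8 * k ^ 2 + 1 := by rw [hN, hm, hk]; ring
      have h4 := Int.even_mul_succ_self m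
      obtain ⟨j, hj⟩ := h4
      rw [hj] at this
      rw [Nat.even_iff]
      omega
    rw [h3.neg_one_pow, one_mul, h2]
  · have h2 : XH (α * (s2 / 4)) = - XH (s2 / 4) := by
      rw [← XH_quarter.2]
      rcases h1 with h1 | h1
      · have hk' : ((⟨-k - 1, 0⟩ : O2) : ℂ) ∈ LH.lattice := mem_LH.2 ⟨_, rfl⟩
        rw [coe_def] at hk'
        have hc' : (α : ℂ) * (s2 / 4) = s2 / 4 + 1 / 2 +
            (l + (((⟨-k - 1, 0⟩ : O2).re : ℂ) + ((⟨-k - 1, 0⟩ : O2).im : ℂ) * s2)) := by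
          rw [hc, h1, hk]
          push_cast
          ring
        rw [hc', XH_add_coe _ (LH.lattice.add_mem hl hk')]
      · have hk' : ((⟨-k, 0⟩ : O2) : ℂ) ∈ LH.lattice := mem_LH.2 ⟨_, rfl⟩
        rw [coe_def] at hk'
        have hc' : (α : ℂ) * (s2 / 4) = -(s2 / 4 + 1 / 2) +
            (l + (((⟨-k, 0⟩ : O2).re : ℂ) + ((⟨-k, 0⟩ : O2).im : ℂ) * s2)) := by
          rw [hc, h1, hk]
          push_cast
          ring
        rw [hc', XH_add_coe _ (LH.lattice.add_mem hl hk'), XH_neg]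
    have h3 : Odd ((nH α - 1) / 2) := by
      have : (nH α : ℤ) = 4 * (m * (m + 1)) + 8 * (k * (k + 1)) + 3 := by rw [hN, hm, hk]; ring
      have h4 := Int.even_mul_succ_self m
      obtain ⟨j, hj⟩ := h4
      rw [hj] at this
      rw [Nat.odd_iff]
      omega
    rw [h3.neg_one_pow, h2]
    ring

theorem tfive_s_pow (hα : IsOddH α) :
    s2 ^ (nH α - 1) = 2 ^ ((nH α - 1) / 2) * (-1) ^ ((nH α - 1) / 2) := by
  obtain ⟨k, hk⟩ : Odd (nH α) := hα
  rw [hk, show 2 * k + 1 - 1 = 2 * k by omega, Nat.mul_div_cancel_left _ (by norm_num), pow_mul,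
    pow_two, s2_mul_s2, ← mul_pow]
  norm_num

theorem T5 {α : O2} (hα : IsOddH α) :
    (∀ z : ℂ, α * z ∉ LH.lattice →
      ∏ᶠ q : O2 ⧸ Ideal.span {α}, XH (z + torH α q) = s2 ^ (nH α - 1) * XH (α * z)) ∧
    ∏ᶠ (q : O2 ⧸ Ideal.span {α}) (_ : q ≠ 0), XH (torH α q) = s2 ^ (nH α - 1) / α ^ 2 := by
  have := finite_quot hα.ne_zero
  have := Fintype.ofFinite (O2 ⧸ Ideal.span {α})
  have hα0 := tfive_coe_ne hα
  obtain ⟨c, hc⟩ := tfive_const hα
  -- everywhere
  have hall : ∀ z : ℂ, α * z ∉ LH.lattice →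
      ∏ q : O2 ⧸ Ideal.span {α}, XH (z + torH α q) = c * XH (α * z) := by
    intro z hz
    have h1 : Tendsto (fun y => ∏ q : O2 ⧸ Ideal.span {α}, XH (y + torH α q)) (𝓝[≠] z)
        (𝓝 (∏ q : O2 ⧸ Ideal.span {α}, XH (z + torH α q))) := by
      refine Tendsto.mono_left ?_ nhdsWithin_le_nhds
      refine tendsto_finsetProd _ fun q _ => ?_
      have h2 : z + torH α q ∉ LH.lattice := fun h =>
        hz ((tfive_mul_tor hα z q).1 (mul_mem_LH α h))
      have h3 : ContinuousAt (fun y => XH (y + torH α q)) z :=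
        ContinuousAt.comp (f := fun y => y + torH α q) (tfive_cont h2) (by fun_prop)
      exact h3
    have h4 : Tendsto (fun y => c * XH (α * y)) (𝓝[≠] z) (𝓝 (c * XH (α * z))) := by
      refine Tendsto.mono_left ?_ nhdsWithin_le_nhds
      have h3 : ContinuousAt (fun y => XH (α * y)) z :=
        ContinuousAt.comp (f := fun y => (α : ℂ) * y) (tfive_cont hz) (by fun_prop)
      exact h3.const_mul c
    exact tendsto_nhds_unique (h1.congr' (hc z)) h4
  have hval : c = s2 ^ (nH α - 1) := by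
    have h1 := hall (s2 / 4) (tfive_quarter hα)
    rw [← Finset.mul_prod_erase _ _ (Finset.mem_univ (0 : O2 ⧸ Ideal.span {α})),
      XH_add_coe _ ((tor_mem_iff hα.ne_zero 0).2 rfl), tfive_prod hα] at h1
    have h2 := tfive_value hα
    have h3 : XH (s2 / 4) ≠ 0 := by
      intro h
      have h4 := XH_quarter.1
      rw [h] at h4
      norm_num at h4
    have h5 : ((-1 : ℂ) ^ ((nH α - 1) / 2)) * (-1) ^ ((nH α - 1) / 2) = 1 := by
      rw [← mul_pow]
      norm_num
    rw [tfive_s_pow hα]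
    refine mul_right_cancel₀ h3 ?_
    calc c * XH (s2 / 4) = c * ((-1) ^ ((nH α - 1) / 2) * XH (α * (s2 / 4))) := by rw [h2]
      _ = (-1) ^ ((nH α - 1) / 2) * (c * XH (α * (s2 / 4))) := by ring
      _ = (-1) ^ ((nH α - 1) / 2) * (XH (s2 / 4) * 2 ^ ((nH α - 1) / 2)) := by rw [h1]
      _ = _ := by ring
  rw [← hval]
  refine ⟨?_, ?_⟩
  · intro z hz
    rw [finprod_eq_prod_of_fintype]
    exact hall z hz
  · rw [finprod_cond_eq_prod_of_cond_iff (t := Finset.univ.erase 0) _ (fun _ => by simp)]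
    have hX := XH_tendsto
    have he : ℘[LH] tauH ≠ 0 := g_eq.1
    -- the value near `0`
    have hne : ∀ᶠ y in 𝓝[≠] (0 : ℂ), y ≠ 0 := self_mem_nhdsWithin
    have h1 : Tendsto (fun y : ℂ => y ^ 2 * ∏ q : O2 ⧸ Ideal.span {α}, XH (y + torH α q))
        (𝓝[≠] 0) (𝓝 ((4 / (3 * ℘[LH] tauH)) *
          ∏ q ∈ Finset.univ.erase (0 : O2 ⧸ Ideal.span {α}), XH (torH α q))) := by
      have h2 : ∀ y : ℂ, y ^ 2 * ∏ q : O2 ⧸ Ideal.span {α}, XH (y + torH α q) =
          (y ^ 2 * XH y) *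
            ∏ q ∈ Finset.univ.erase (0 : O2 ⧸ Ideal.span {α}), XH (y + torH α q) := by
        intro y
        rw [← Finset.mul_prod_erase _ _ (Finset.mem_univ (0 : O2 ⧸ Ideal.span {α})),
          XH_add_coe _ ((tor_mem_iff hα.ne_zero 0).2 rfl)]
        ring
      simp only [h2]
      refine hX.mul (Tendsto.mono_left ?_ nhdsWithin_le_nhds)
      refine tendsto_finsetProd _ fun q hq => ?_
      have h3 : torH α q ∉ LH.lattice := fun h =>
        (Finset.ne_of_mem_erase hq) ((tor_mem_iff hα.ne_zero q).1 h)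
      have h4 : ContinuousAt (fun y => XH (y + torH α q)) 0 :=
        ContinuousAt.comp (g := XH) (f := fun y => y + torH α q) (x := 0)
          (by simp only [zero_add]; exact tfive_cont h3) (by fun_prop)
      have h5 := h4.tendsto
      simp only [zero_add] at h5
      exact h5
    have h6 : Tendsto (fun y : ℂ => y ^ 2 * (c * XH (α * y))) (𝓝[≠] 0)
        (𝓝 (c / α ^ 2 * (4 / (3 * ℘[LH] tauH)))) := by
      have h7 : Tendsto (fun y : ℂ => (α : ℂ) * y) (𝓝[≠] 0) (𝓝[≠] 0) := by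
        refine tendsto_nhdsWithin_iff.2 ⟨?_, ?_⟩
        · have : Tendsto (fun y : ℂ => (α : ℂ) * y) (𝓝 0) (𝓝 ((α : ℂ) * 0)) :=
            (continuous_const.mul continuous_id).tendsto 0
          rw [mul_zero] at this
          exact this.mono_left nhdsWithin_le_nhds
        · filter_upwards [self_mem_nhdsWithin] with y hy
          exact mul_ne_zero hα0 hy
      have h8 := (hX.comp h7).const_mul (c / (α : ℂ) ^ 2)
      refine h8.congr fun y => ?_
      simp only [Function.comp]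
      field_simp
    have h9 := tendsto_nhds_unique (h1.congr' ((hc 0).mono fun y hy => by rw [hy])) h6
    have h10 : (4 / (3 * ℘[LH] tauH)) ≠ 0 := div_ne_zero (by norm_num) (mul_ne_zero (by norm_num) he)
    rw [mul_comm] at h9
    exact mul_right_cancel₀ h10 h9

end

end Pool.Agent.CMH
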