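import Pool.Agent.CMH.XTau

/-!
# valuations: the subgroup InH and congruences

Copy of `CMG/ValE.lean` with the formulas of the curve `y² = x³ + 4x² + 2x`. Write `a = XH u`, `b = XH w`,
`T = XH (u+w)`, `T' = XH (u-w)`, `s = T + T' = 2((ab+2)(a+b) + 8ab)/(a-b)²`, `p = TT' = (ab-2)²/(a-b)²`
(`XH_sum`, `XH_prod`). `v` the valuation; note `v(n) ≤ 1` for integers `n`.
`add`: `v(a), v(b) > 1`, `u ± w ∉ L`: `y = 1/T` satisfies `y² = (s/p) y - 1/p` with
`s/p = 2((ab+2)(a+b) + 8ab)/(ab-2)²`, `1/p = (a-b)²/(ab-2)²`, both of valuation `< 1`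
(`v(ab - 2) = v(ab)`), so `v(y) < 1` (if `v y ≥ 1` then `v(y²) ≤ max(v(s/p) v(y), v(1/p)) < v(y)²`); first
`T, T' ≠ 0` as `p ≠ 0`. If `u - w ∈ L`: `XH_dup`, `v(XH(2u)) = v(a)⁴/(v(4) v(a)³) > 1`. (If `a = b` then
`u ± w ∈ L`.)
`mul`: `o2_induction`-like: natural numbers and `s2` (`XH_mul_s`: `v(XH(su)) = v(a)/v(2) > 1`) and sums.
`XH_add_InH`: `w ∈ L` clear; otherwise `v(a) ≤ 1 < v(b)` and
`s - 2a = 2(3a²b + 2a + 2b + 8ab - a³)/(a-b)²`, `p - a² = (4 - 4ab - a⁴ + 2a³b)/(a-b)²` have valuation
`≤ 1/v(b) < 1`; `T² = sT - p` gives `v(T) ≤ 1`, and `(T-a)² = (s-2a)T - (p-a²)`.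
`InH_of_XH_sub`: if `u ± w ∈ L` clear. Otherwise `T, T'` with `v ≤ 1` would give `v(ab-2) < 1` (from
`TT'(a-b)² = (ab-2)²`) and `v((ab+2)(a+b) + 8ab) < 1`; modulo the maximal ideal `b = a`, `a² = 2`,
`4·2a + 16 = 0`, `a = -2`, `4 = 2`: contradiction to `v(2) = 1`.
-/

set_option autoImplicit false

noncomputable section

open Complex Filter Topology
open scoped PeriodPair Classical

namespace Pool.Agent.CMH

section val

private theorem ve_lt {Γ : Type*} [LinearOrderedCommGroupWithZero Γ] {a b : Γ} (ha : 1 < a)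
    (hb : 1 < b) : a < a * b := by
  have h0 : 0 < a := zero_lt_one.trans ha
  calc a = a * 1 := (mul_one a).symm
    _ < a * b := mul_lt_mul_of_pos_left hb h0

variable (V : ValuationSubring ℂ)

private theorem ve_nat (n : ℕ) : V.valuation (n : ℂ) ≤ 1 :=
  (V.valuation_le_one_iff _).2 (natCast_mem V n)

private theorem ve_ofNat (n : ℕ) [n.AtLeastTwo] : V.valuation (OfNat.ofNat n : ℂ) ≤ 1 := by
  rw [← Nat.cast_ofNat (R := ℂ)]
  exact ve_nat V _

/-- the points which reduce to `0` -/
def InH (u : ℂ) : Prop := u ∈ LH.lattice ∨ 1 < V.valuation (XH u)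

variable {V}

/-- the quadratic equation of `XH (u + w)` -/
private theorem ve_quad {u w : ℂ} (hu : u ∉ LH.lattice) (hw : w ∉ LH.lattice)
    (h1 : u + w ∉ LH.lattice) (h2 : u - w ∉ LH.lattice) :
    XH (u + w) * (2 * ((XH u * XH w + 2) * (XH u + XH w) + 8 * (XH u * XH w)) -
      XH (u + w) * (XH u - XH w) ^ 2) = (XH u * XH w - 2) ^ 2 := by
  linear_combination XH_prod hu hw h1 h2 - XH (u + w) * XH_sum hu hw h1 h2

theorem InH.neg {u : ℂ} (hu : InH V u) : InH V (-u) := by
  rcases hu with hu | hu
  · exact Or.inl (neg_mem hu)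
  · right
    rwa [XH_neg]

theorem InH.add {u w : ℂ} (hu : InH V u) (hw : InH V w) : InH V (u + w) := by
  by_cases huL : u ∈ LH.lattice
  · rcases hw with hw | hw
    · exact Or.inl (add_mem huL hw)
    · right
      rwa [add_comm, XH_add_coe w huL]
  by_cases hwL : w ∈ LH.lattice
  · rcases hu with hu | hu
    · exact absurd hu huL
    · right
      rwa [XH_add_coe u hwL]
  by_cases h1 : u + w ∈ LH.lattice
  · exact Or.inl h1
  right
  replace hu : 1 < V.valuation (XH u) := hu.resolve_left huL
  replace hw : 1 < V.valuation (XH w) := hw.resolve_left hwL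
  by_cases h2 : u - w ∈ LH.lattice
  · -- `u ≡ w`
    have h3 : XH (u + w) = XH (2 * w) := by
      rw [show u + w = 2 * w + (u - w) by ring, XH_add_coe _ h2]
    have h4 : 2 * w ∉ LH.lattice := by
      intro h
      apply h1
      rw [show u + w = 2 * w + (u - w) by ring]
      exact add_mem h h2
    have h5 := XH_dup hwL h4
    rw [← h3] at h5
    have hw2 : V.valuation (XH w) < V.valuation (XH w) * V.valuation (XH w) := ve_lt hw hw
    have hw3 : V.valuation (XH w) * V.valuation (XH w) <
        V.valuation (XH w) * V.valuation (XH w) * V.valuation (XH w) :=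
      ve_lt (hw.trans (ve_lt hw hw)) hw
    have h6 : V.valuation (XH w ^ 2 - 2) = V.valuation (XH w) ^ 2 := by
      rw [sub_eq_add_neg, Valuation.map_add_eq_of_lt_left, map_pow]
      rw [map_pow, Valuation.map_neg]
      exact (ve_ofNat V 2).trans_lt (one_lt_pow₀ hw (by norm_num))
    have h7 : V.valuation (XH w ^ 3 + 4 * XH w ^ 2 + 2 * XH w) = V.valuation (XH w) ^ 3 := by
      rw [add_assoc, Valuation.map_add_eq_of_lt_left, map_pow]
      rw [map_pow, show V.valuation (XH w) ^ 3 = V.valuation (XH w) * V.valuation (XH w) *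
        V.valuation (XH w) by rw [pow_succ, pow_two]]
      refine (Valuation.map_add _ _ _).trans_lt (max_lt ?_ ?_)
      · rw [map_mul, map_pow, pow_two]
        calc V.valuation 4 * (V.valuation (XH w) * V.valuation (XH w))
            ≤ 1 * (V.valuation (XH w) * V.valuation (XH w)) := mul_le_mul_left (ve_ofNat V 4) _
          _ = V.valuation (XH w) * V.valuation (XH w) := one_mul _
          _ < _ := hw3
      · rw [map_mul]
        calc V.valuation 2 * V.valuation (XH w)
            ≤ 1 * V.valuation (XH w) := mul_le_mul_left (ve_ofNat V 2) _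
          _ = V.valuation (XH w) := one_mul _
          _ < V.valuation (XH w) * V.valuation (XH w) := hw2
          _ < _ := hw3
    have h8 := congrArg V.valuation h5
    rw [map_mul, map_mul, h7, map_pow, h6] at h8
    have h9 : V.valuation (4 : ℂ) ≤ 1 := ve_ofNat V 4
    have hpos : 0 < V.valuation (XH w) ^ 3 := pow_pos (zero_lt_one.trans hw) 3
    have h10 : V.valuation (XH w) * V.valuation (XH w) ^ 3 ≤
        V.valuation (XH (u + w)) * V.valuation (XH w) ^ 3 := by
      calc V.valuation (XH w) * V.valuation (XH w) ^ 3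
          = (V.valuation (XH w) ^ 2) ^ 2 := by rw [← pow_mul, ← pow_succ']
        _ = V.valuation (XH (u + w)) * (V.valuation 4 * V.valuation (XH w) ^ 3) := h8.symm
        _ ≤ V.valuation (XH (u + w)) * (1 * V.valuation (XH w) ^ 3) :=
          mul_le_mul_right (mul_le_mul_left h9 _) _
        _ = V.valuation (XH (u + w)) * V.valuation (XH w) ^ 3 := by rw [one_mul]
    exact hw.trans_le (le_of_mul_le_mul_right h10 hpos)
  · by_contra hcon
    push Not at hcon
    have h3 := ve_quad huL hwL h1 h2
    set a := V.valuation (XH u) with ha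
    set b := V.valuation (XH w) with hb
    have hab : 1 < a * b := hu.trans (ve_lt hu hw)
    have h4 : V.valuation (XH u * XH w - 2) = a * b := by
      rw [sub_eq_add_neg, Valuation.map_add_eq_of_lt_left, map_mul]
      rw [map_mul, Valuation.map_neg]
      exact (ve_ofNat V 2).trans_lt hab
    have h5 : V.valuation (XH u * XH w + 2) = a * b := by
      rw [Valuation.map_add_eq_of_lt_left, map_mul]
      rw [map_mul]
      exact (ve_ofNat V 2).trans_lt hab
    have h6 : V.valuation (XH u + XH w) < a * b := by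
      refine (Valuation.map_add _ _ _).trans_lt (max_lt (ve_lt hu hw) ?_)
      rw [mul_comm]
      exact ve_lt hw hu
    have h7 : V.valuation (XH u - XH w) < a * b := by
      refine (Valuation.map_sub _ _ _).trans_lt (max_lt (ve_lt hu hw) ?_)
      rw [mul_comm]
      exact ve_lt hw hu
    have hpos : 0 < a * b := zero_lt_one.trans hab
    have h8 := congrArg V.valuation h3
    rw [map_mul, map_pow, h4] at h8
    have h9 : V.valuation (2 * ((XH u * XH w + 2) * (XH u + XH w) + 8 * (XH u * XH w)) -
        XH (u + w) * (XH u - XH w) ^ 2) < (a * b) ^ 2 := by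
      refine (Valuation.map_sub _ _ _).trans_lt (max_lt ?_ ?_)
      · rw [map_mul]
        calc V.valuation 2 * V.valuation ((XH u * XH w + 2) * (XH u + XH w) + 8 * (XH u * XH w))
            ≤ 1 * V.valuation ((XH u * XH w + 2) * (XH u + XH w) + 8 * (XH u * XH w)) :=
              mul_le_mul_left (ve_ofNat V 2) _
          _ = V.valuation ((XH u * XH w + 2) * (XH u + XH w) + 8 * (XH u * XH w)) := one_mul _
          _ < (a * b) ^ 2 := by
            refine (Valuation.map_add _ _ _).trans_lt (max_lt ?_ ?_)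
            · rw [map_mul, h5, sq]
              exact mul_lt_mul_of_pos_left h6 hpos
            · rw [map_mul, map_mul, sq]
              calc V.valuation 8 * (a * b) ≤ 1 * (a * b) := mul_le_mul_left (ve_ofNat V 8) _
                _ = a * b := one_mul _
                _ < (a * b) * (a * b) := ve_lt hab hab
      · rw [map_mul, map_pow]
        calc V.valuation (XH (u + w)) * V.valuation (XH u - XH w) ^ 2
            ≤ 1 * V.valuation (XH u - XH w) ^ 2 := mul_le_mul_left hcon _
          _ = V.valuation (XH u - XH w) ^ 2 := one_mul _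
          _ < (a * b) ^ 2 := pow_lt_pow_left₀ h7 zero_le (by norm_num)
    have h10 : V.valuation (XH (u + w)) * V.valuation (2 * ((XH u * XH w + 2) * (XH u + XH w) +
        8 * (XH u * XH w)) - XH (u + w) * (XH u - XH w) ^ 2) ≤
        V.valuation (2 * ((XH u * XH w + 2) * (XH u + XH w) + 8 * (XH u * XH w)) -
        XH (u + w) * (XH u - XH w) ^ 2) := by
      calc _ ≤ 1 * V.valuation (2 * ((XH u * XH w + 2) * (XH u + XH w) + 8 * (XH u * XH w)) -
        XH (u + w) * (XH u - XH w) ^ 2) := mul_le_mul_left hcon _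
        _ = _ := one_mul _
    rw [h8] at h10
    exact absurd h9 h10.not_gt

private theorem ve_zero : InH V 0 := Or.inl (zero_mem _)

private theorem ve_int {u : ℂ} (hu : InH V u) (n : ℤ) : InH V (n * u) := by
  have h : ∀ n : ℕ, InH V (n * u) := by
    intro n
    induction n with
    | zero => simpa using ve_zero
    | succ n ih =>
      rw [Nat.cast_succ, add_mul, one_mul]
      exact ih.add hu
  obtain ⟨m, rfl | rfl⟩ := n.eq_nat_or_neg
  · simpa using h m
  · have := (h m).neg
    simpa using this

private theorem ve_s {u : ℂ} (hu : InH V u) : InH V (s2 * u) := by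
  rcases hu with hu | hu
  · exact Or.inl (s2_mul_mem hu)
  · by_cases hL : s2 * u ∈ LH.lattice
    · exact Or.inl hL
    right
    have h1 := congrArg V.valuation (XH_mul_s hL)
    have hu2 : V.valuation (XH u) < V.valuation (XH u) * V.valuation (XH u) := ve_lt hu hu
    have h2 : V.valuation (-(XH u ^ 2 + 4 * XH u + 2)) =
        V.valuation (XH u) * V.valuation (XH u) := by
      rw [Valuation.map_neg, add_assoc, Valuation.map_add_eq_of_lt_left, map_pow, pow_two]
      rw [map_pow, pow_two]
      refine (Valuation.map_add _ _ _).trans_lt (max_lt ?_ ?_)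
      · rw [map_mul]
        calc V.valuation 4 * V.valuation (XH u)
            ≤ 1 * V.valuation (XH u) := mul_le_mul_left (ve_ofNat V 4) _
          _ = V.valuation (XH u) := one_mul _
          _ < _ := hu2
      · exact (ve_ofNat V 2).trans_lt (hu.trans hu2)
    rw [h2, map_mul, map_mul] at h1
    have hpos : 0 < V.valuation (XH u) := zero_lt_one.trans hu
    have h3 : V.valuation (XH u) * V.valuation (XH u) ≤
        V.valuation (XH u) * V.valuation (XH (s2 * u)) := by
      rw [← h1]
      calc V.valuation 2 * V.valuation (XH u) * V.valuation (XH (s2 * u))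
          ≤ 1 * V.valuation (XH u) * V.valuation (XH (s2 * u)) :=
            mul_le_mul_left (mul_le_mul_left (ve_ofNat V 2) _) _
        _ = V.valuation (XH u) * V.valuation (XH (s2 * u)) := by rw [one_mul]
    exact hu.trans_le (le_of_mul_le_mul_left h3 hpos)

theorem InH.mul {u : ℂ} (hu : InH V u) (α : O2) : InH V (α * u) := by
  rw [coe_def, add_mul, mul_assoc]
  exact (ve_int hu _).add (ve_int (ve_s hu) _)

theorem XH_add_InH {u w : ℂ} (hu : ¬ InH V u) (hw : InH V w) :
    V.valuation (XH (u + w) - XH u) < 1 := by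
  have huL : u ∉ LH.lattice := fun h => hu (Or.inl h)
  by_cases hwL : w ∈ LH.lattice
  · rw [XH_add_coe u hwL, sub_self, map_zero]
    exact zero_lt_one
  have h1 : u + w ∉ LH.lattice := by
    intro h
    apply hu
    have h2 : InH V (u + w) := Or.inl h
    have h3 := h2.add hw.neg
    rwa [add_neg_cancel_right] at h3
  have h2 : u - w ∉ LH.lattice := by
    intro h
    apply hu
    have h2 : InH V (u - w) := Or.inl h
    have h3 := h2.add hw
    rwa [sub_add_cancel] at h3
  have hw' : 1 < V.valuation (XH w) := hw.resolve_left hwL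
  have hu' : V.valuation (XH u) ≤ 1 := by
    by_contra h
    push Not at h
    exact hu (Or.inr h)
  have h3 := ve_quad huL hwL h1 h2
  set T := XH (u + w) with hT
  set a := XH u with ha
  set b := XH w with hb
  have h4 : (T - a) ^ 2 * (a - b) ^ 2 =
      (T - a) * (6 * a ^ 2 * b + 4 * a + 4 * b + 16 * a * b - 2 * a ^ 3) +
      (4 * a * b * (a ^ 2 + 4 * a + 2) - (a ^ 2 - 2) ^ 2) := by
    linear_combination -h3
  by_contra hcon
  push Not at hcon
  have hV : ∀ x : ℂ, x ∈ V ↔ V.valuation x ≤ 1 := fun x => (V.valuation_le_one_iff x).symm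
  have haV : a ∈ V := (hV a).2 hu'
  have h5 : V.valuation (a - b) = V.valuation b := by
    rw [sub_eq_add_neg, Valuation.map_add_eq_of_lt_right, Valuation.map_neg]
    rw [Valuation.map_neg]
    exact hu'.trans_lt hw'
  have hn : ∀ n : ℕ, (n : ℂ) ∈ V := fun n => natCast_mem V n
  have h6V : (6 : ℂ) ∈ V := by simpa using hn 6
  have h2V : (2 : ℂ) ∈ V := by simpa using hn 2
  have h4V : (4 : ℂ) ∈ V := by simpa using hn 4
  have h16V : (16 : ℂ) ∈ V := by simpa using hn 16
  have h6 : V.valuation (6 * a ^ 2 * b + 4 * a + 4 * b + 16 * a * b - 2 * a ^ 3) ≤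
      V.valuation b := by
    have e : 6 * a ^ 2 * b + 4 * a + 4 * b + 16 * a * b - 2 * a ^ 3 =
        (6 * a ^ 2 + 4 + 16 * a) * b + (4 * a - 2 * a ^ 3) := by ring
    rw [e]
    refine (Valuation.map_add _ _ _).trans (max_le ?_ ?_)
    · rw [map_mul]
      calc _ ≤ 1 * V.valuation b := mul_le_mul_left ((hV _).1
            (add_mem (add_mem (mul_mem h6V (pow_mem haV 2)) h4V) (mul_mem h16V haV))) _
        _ = V.valuation b := one_mul _
    · exact ((hV _).1 (sub_mem (mul_mem h4V haV) (mul_mem h2V (pow_mem haV 3)))).trans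
        hw'.le
  have h7 : V.valuation (4 * a * b * (a ^ 2 + 4 * a + 2) - (a ^ 2 - 2) ^ 2) ≤
      V.valuation b := by
    have e : 4 * a * b * (a ^ 2 + 4 * a + 2) - (a ^ 2 - 2) ^ 2 =
        (4 * a * (a ^ 2 + 4 * a + 2)) * b + (-(a ^ 2 - 2) ^ 2) := by ring
    rw [e]
    refine (Valuation.map_add _ _ _).trans (max_le ?_ ?_)
    · rw [map_mul]
      calc _ ≤ 1 * V.valuation b := mul_le_mul_left ((hV _).1
            (mul_mem (mul_mem h4V haV) (add_mem (add_mem (pow_mem haV 2) (mul_mem h4V haV)) h2V))) _
        _ = V.valuation b := one_mul _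
    · exact ((hV _).1 (neg_mem (pow_mem (sub_mem (pow_mem haV 2) h2V) 2))).trans hw'.le
  have h8 := congrArg V.valuation h4
  rw [map_mul, map_pow, map_pow, h5] at h8
  have hd0 : 0 < V.valuation (T - a) := zero_lt_one.trans_le hcon
  have hb0 : 0 < V.valuation b := zero_lt_one.trans hw'
  have h9 : V.valuation (T - a) ^ 2 * V.valuation b ^ 2 ≤ V.valuation (T - a) * V.valuation b := by
    rw [h8]
    refine (Valuation.map_add _ _ _).trans (max_le ?_ ?_)
    · rw [map_mul]
      exact mul_le_mul_right h6 _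
    · refine h7.trans ?_
      calc V.valuation b = 1 * V.valuation b := (one_mul _).symm
        _ ≤ V.valuation (T - a) * V.valuation b := mul_le_mul_left hcon _
  have h10 : V.valuation (T - a) * V.valuation b <
      V.valuation (T - a) ^ 2 * V.valuation b ^ 2 := by
    have h11 : 1 < V.valuation (T - a) * V.valuation b :=
      calc 1 < V.valuation b := hw'
        _ = 1 * V.valuation b := (one_mul _).symm
        _ ≤ V.valuation (T - a) * V.valuation b := mul_le_mul_left hcon _
    calc V.valuation (T - a) * V.valuation b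
        < (V.valuation (T - a) * V.valuation b) * (V.valuation (T - a) * V.valuation b) :=
          ve_lt h11 h11
      _ = V.valuation (T - a) ^ 2 * V.valuation b ^ 2 := by rw [sq, sq, mul_mul_mul_comm]
  exact absurd h10 h9.not_gt

private theorem ve_mul_lt {x y : ℂ} (hx : V.valuation x < 1) (hy : V.valuation y ≤ 1) :
    V.valuation (x * y) < 1 := by
  rw [map_mul]
  calc V.valuation x * V.valuation y ≤ V.valuation x * 1 := mul_le_mul_right hy _
    _ = V.valuation x := mul_one _
    _ < 1 := hx

private theorem ve_add_lt {x y : ℂ} (hx : V.valuation x < 1) (hy : V.valuation y < 1) :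
    V.valuation (x + y) < 1 := (Valuation.map_add _ _ _).trans_lt (max_lt hx hy)

private theorem ve_sub_lt {x y : ℂ} (hx : V.valuation x < 1) (hy : V.valuation y < 1) :
    V.valuation (x - y) < 1 := (Valuation.map_sub _ _ _).trans_lt (max_lt hx hy)

theorem InH_of_XH_sub {u w : ℂ} (h2 : V.valuation (2 : ℂ) = 1) (hu : ¬ InH V u) (hw : ¬ InH V w)
    (h : V.valuation (XH u - XH w) < 1) : InH V (u + w) ∨ InH V (u - w) := by
  by_contra hcon
  push Not at hcon
  obtain ⟨hp, hm⟩ := hcon
  have huL : u ∉ LH.lattice := fun h => hu (Or.inl h)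
  have hwL : w ∉ LH.lattice := fun h => hw (Or.inl h)
  have hpL : u + w ∉ LH.lattice := fun h => hp (Or.inl h)
  have hmL : u - w ∉ LH.lattice := fun h => hm (Or.inl h)
  have hT : V.valuation (XH (u + w)) ≤ 1 := by
    by_contra h
    push Not at h
    exact hp (Or.inr h)
  have hT' : V.valuation (XH (u - w)) ≤ 1 := by
    by_contra h
    push Not at h
    exact hm (Or.inr h)
  have hw1 : V.valuation (XH w) ≤ 1 := by
    by_contra h
    push Not at h
    exact hw (Or.inr h)
  have hu1 : V.valuation (XH u) ≤ 1 := by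
    by_contra h
    push Not at h
    exact hu (Or.inr h)
  have h3 := congrArg V.valuation (XH_prod huL hwL hpL hmL)
  have h4 := congrArg V.valuation (XH_sum huL hwL hpL hmL)
  have hsq : V.valuation (XH u - XH w) ^ 2 < 1 := pow_lt_one₀ zero_le h (by norm_num)
  rw [map_mul, map_mul, map_pow, map_pow] at h3
  rw [map_mul, map_mul, map_pow, h2, one_mul] at h4
  have h5 : V.valuation (XH u * XH w - 2) < 1 := by
    have h6 : V.valuation (XH u * XH w - 2) ^ 2 < 1 := by
      rw [← h3]
      calc V.valuation (XH (u + w)) * V.valuation (XH (u - w)) * V.valuation (XH u - XH w) ^ 2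
          ≤ 1 * V.valuation (XH u - XH w) ^ 2 := mul_le_mul_left (mul_le_one' hT hT') _
        _ = V.valuation (XH u - XH w) ^ 2 := one_mul _
        _ < 1 := hsq
    by_contra h7
    push Not at h7
    exact absurd h6 (one_le_pow₀ h7).not_gt
  have h7 : V.valuation ((XH u * XH w + 2) * (XH u + XH w) + 8 * (XH u * XH w)) < 1 := by
    rw [← h4]
    calc V.valuation (XH (u + w) + XH (u - w)) * V.valuation (XH u - XH w) ^ 2
        ≤ 1 * V.valuation (XH u - XH w) ^ 2 :=
          mul_le_mul_left ((Valuation.map_add _ _ _).trans (max_le hT hT')) _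
      _ = V.valuation (XH u - XH w) ^ 2 := one_mul _
      _ < 1 := hsq
  have h8 : V.valuation (8 * (XH u + 2)) < 1 := by
    have e : 8 * (XH u + 2) = ((XH u * XH w + 2) * (XH u + XH w) + 8 * (XH u * XH w)) -
        ((XH u * XH w - 2) * (XH u + XH w + 8) - (XH u - XH w) * 4) := by ring
    rw [e]
    refine ve_sub_lt h7 (ve_sub_lt (ve_mul_lt h5 ?_) (ve_mul_lt h (ve_ofNat V 4)))
    exact (Valuation.map_add _ _ _).trans (max_le ((Valuation.map_add _ _ _).trans
      (max_le hu1 hw1)) (ve_ofNat V 8))
  have h9 : V.valuation (XH u + 2) < 1 := by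
    rw [map_mul, show (8 : ℂ) = 2 ^ 3 by norm_num, map_pow, h2, one_pow, one_mul] at h8
    exact h8
  have h10 : V.valuation (2 : ℂ) < 1 := by
    have e : (2 : ℂ) = (XH u * XH w - 2) + (XH u - XH w) * XH u - (XH u + 2) * (XH u - 2) := by
      ring
    rw [e]
    refine ve_sub_lt (ve_add_lt h5 (ve_mul_lt h hu1)) (ve_mul_lt h9 ?_)
    exact (Valuation.map_sub _ _ _).trans (max_le hu1 (ve_ofNat V 2))
  exact absurd h2 h10.ne

end val

end Pool.Agent.CMH
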