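import Pool.Agent.CMH.ValE
import Pool.Agent.CMH.TFive

/-!
# valuations: torsion points in InH

Copy of `CMG/ValTors.lean`. Every element of `ℤ[√-2]` has `v ≤ 1`. For a prime `π` and `w ∉ L`, `πw ∈ L`,
the multiples of `w` are all of `E[π]` (`ℤ[√-2]/π` is a field).
`mem_of_InH`: suppose `w ∉ L`. Factor `α` into primes: there are `δ`, `π ∣ α` prime with `δw ∉ L`,
`πδw ∈ L`, `δw ∈ InH` (`InH.mul`), `v(π) = 1`. Then all nonzero points of `E[π]` are in `InH`, i.e.
`v(XH) > 1`. If `π` is odd this contradicts `∏_{q≠0} XH (torH π q) = s2^{Nπ-1} π⁻²` (`T5`), whose valuation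
is `≤ 1` (the product is not empty). If `π` divides `√-2`: `δw ≡ τ` and `XH τ = 0`.
`InH_of_prime`: `π ∣ Nπ` is odd, so `v(2) = 1` and `v(s2) = 1`;
`∏ v(XH (torH π q)) = v(π)⁻² > 1`, so some nonzero `torH π q` is in `InH`, and `w` is a multiple of it.
-/

set_option autoImplicit false

noncomputable section

open Complex Filter Topology
open scoped PeriodPair Classical

namespace Pool.Agent.CMH

section val

variable {V : ValuationSubring ℂ}

private theorem vt_sq {x : V.ValueGroup} (h : x ^ 2 = 1) : x = 1 := by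
  rcases lt_trichotomy x 1 with h1 | h1 | h1
  · exfalso
    have h2 : x * x ≤ x := mul_le_of_le_one_right' h1.le
    rw [← pow_two, h] at h2
    exact absurd h1 (not_lt.2 h2)
  · exact h1
  · exfalso
    have h2 : x ≤ x * x := le_mul_of_one_le_right' h1.le
    rw [← pow_two, h] at h2
    exact absurd h1 (not_lt.2 h2)

private theorem vt_two_le : V.valuation (2 : ℂ) ≤ 1 := by
  have h := natCast_mem V 2
  rw [← V.valuation_le_one_iff] at h
  simpa using h

private theorem vt_s2_sq : V.valuation s2 ^ 2 = V.valuation (2 : ℂ) := by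
  rw [← map_pow, pow_two, s2_mul_s2, Valuation.map_neg]

private theorem vt_s2_le : V.valuation s2 ≤ 1 := by
  by_contra h
  push Not at h
  have h1 : 1 < V.valuation s2 ^ 2 := one_lt_pow₀ h (by norm_num)
  rw [vt_s2_sq] at h1
  exact absurd vt_two_le (not_le.2 h1)

theorem val_coe_le (α : O2) : V.valuation (α : ℂ) ≤ 1 := by
  rw [ValuationSubring.valuation_le_one_iff, coe_def]
  have h1 : s2 ∈ V := (V.valuation_le_one_iff _).1 (vt_s2_le (V := V))
  exact V.add_mem _ _ (intCast_mem V _) (V.mul_mem _ _ (intCast_mem V _) h1)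

private theorem vt_norm (π : O2) : ((nH π : ℕ) : ℂ) = (π : ℂ) * ((star π : O2) : ℂ) := by
  have h1 : ((nH π : ℕ) : ℤ) = Zsqrtd.norm π := by
    unfold nH
    rw [Int.natCast_natAbs, abs_of_nonneg (norm_nonneg' π)]
  have h2 := congrArg toC (Zsqrtd.norm_eq_mul_conj π)
  rw [map_mul, map_intCast, ← h1] at h2
  rw [← h2]
  push_cast
  rfl

/-- an odd element of the maximal ideal excludes `2` -/
theorem val_two_of_odd {π : O2} (hπ' : IsOddH π) (hV : V.valuation (π : ℂ) < 1) :
    V.valuation (2 : ℂ) = 1 ∧ V.valuation s2 = 1 := by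
  have h2 : V.valuation (2 : ℂ) = 1 := by
    refine le_antisymm vt_two_le ?_
    by_contra hcon
    push Not at hcon
    obtain ⟨k, hk⟩ := hπ'
    have h3 := vt_norm π
    rw [hk] at h3
    have h4 : (1 : ℂ) = (π : ℂ) * ((star π : O2) : ℂ) - 2 * (k : ℂ) := by
      rw [← h3]
      push_cast
      ring
    have hk1 : V.valuation (k : ℂ) ≤ 1 := (V.valuation_le_one_iff _).2 (natCast_mem V k)
    have h5 : V.valuation (1 : ℂ) < 1 := by
      rw [h4]
      refine (Valuation.map_sub _ _ _).trans_lt (max_lt ?_ ?_)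
      · rw [map_mul]
        exact (mul_le_of_le_one_right' (val_coe_le _)).trans_lt hV
      · rw [map_mul]
        exact (mul_le_of_le_one_right' hk1).trans_lt hcon
    rw [map_one] at h5
    exact lt_irrefl _ h5
  refine ⟨h2, vt_sq ?_⟩
  rw [vt_s2_sq, h2]

private theorem InH_congr {u w : ℂ} (hu : InH V u) (h : w - u ∈ LH.lattice) : InH V w := by
  rcases hu with hu | hu
  · left
    have := LH.lattice.add_mem hu h
    rwa [add_sub_cancel] at this
  · right
    have h1 := XH_add_coe u h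
    rw [add_sub_cancel] at h1
    rwa [h1]

private theorem vt_tor {π : O2} (hπ : Prime π) {w : ℂ} (hw : π * w ∈ LH.lattice)
    (hw' : w ∉ LH.lattice) (q : O2 ⧸ Ideal.span {π}) :
    ∃ β : O2, torH π q - β * w ∈ LH.lattice := by
  have h0 : (π : ℂ) ≠ 0 := coe_ne_zero hπ.ne_zero
  obtain ⟨q₀, hq₀, -⟩ := exists_tor hπ.ne_zero hw
  set a : O2 := Quotient.out q₀ with ha
  set b : O2 := Quotient.out q with hb
  have hq₀' : q₀ ≠ 0 := by
    intro h
    have h1 := (tor_mem_iff hπ.ne_zero q₀).2 h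
    have h2 := LH.lattice.add_mem hq₀ h1
    rw [sub_add_cancel] at h2
    exact hw' h2
  have hdvd : ¬ π ∣ a := by
    intro h
    have h1 := (div_mem_iff (a := a) hπ.ne_zero).2 h
    exact hq₀' ((tor_mem_iff hπ.ne_zero q₀).1 h1)
  have hcop : IsCoprime π a := hπ.irreducible.coprime_iff_not_dvd.2 hdvd
  obtain ⟨s, t, hst⟩ := hcop
  refine ⟨b * t, ?_⟩
  have h1 : (s : ℂ) * π + t * a = 1 := by
    rw [← map_mul, ← map_mul, ← map_add, hst, map_one]
  have h2 : ((b * t : O2) : ℂ) * (w - torH π q₀) ∈ LH.lattice := mul_mem_LH _ hq₀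
  have h3 : ((b * s : O2) : ℂ) ∈ LH.lattice := mem_LH.2 ⟨_, rfl⟩
  have h4 : torH π q - ((b * t : O2) : ℂ) * w =
      ((b * s : O2) : ℂ) - ((b * t : O2) : ℂ) * (w - torH π q₀) := by
    have e1 : torH π q = (b : ℂ) / π := rfl
    have e2 : torH π q₀ = (a : ℂ) / π := rfl
    rw [e1, e2, map_mul, map_mul]
    field_simp
    linear_combination (-(b : ℂ)) * h1
  rw [h4]
  exact LH.lattice.sub_mem h3 h2

private theorem vt_one_le {ι : Type*} (f : ι → V.ValueGroup) (s : Finset ι)
    (h : ∀ i ∈ s, 1 ≤ f i) : 1 ≤ ∏ i ∈ s, f i := by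
  induction s using Finset.induction_on with
  | empty => simp
  | insert a s ha ih =>
    rw [Finset.prod_insert ha]
    exact one_le_mul (h a (Finset.mem_insert_self _ _))
      (ih fun i hi => h i (Finset.mem_insert_of_mem hi))

private theorem vt_le_one {ι : Type*} (f : ι → V.ValueGroup) (s : Finset ι)
    (h : ∀ i ∈ s, f i ≤ 1) : ∏ i ∈ s, f i ≤ 1 := by
  induction s using Finset.induction_on with
  | empty => simp
  | insert a s ha ih =>
    rw [Finset.prod_insert ha]
    exact mul_le_one' (h a (Finset.mem_insert_self _ _))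
      (ih fun i hi => h i (Finset.mem_insert_of_mem hi))

/-- the product over the nonzero points of `E[π]` -/
private theorem vt_prod {π : O2} (hπ0 : π ≠ 0) (hπ' : IsOddH π) :
    ∃ _ : Fintype (O2 ⧸ Ideal.span {π}),
      (∏ q : O2 ⧸ Ideal.span {π}, if q ≠ 0 then V.valuation (XH (torH π q)) else 1) *
        V.valuation (π : ℂ) ^ 2 = V.valuation s2 ^ (nH π - 1) := by
  have hfin := finite_quot hπ0
  refine ⟨Fintype.ofFinite _, ?_⟩
  obtain ⟨-, h⟩ := T5 hπ'
  have h0 : (π : ℂ) ≠ 0 := coe_ne_zero hπ0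
  letI := Fintype.ofFinite (O2 ⧸ Ideal.span {π})
  rw [finprod_eq_prod_of_fintype] at h
  simp only [finprod_eq_if] at h
  have h1 := congrArg V.valuation h
  rw [map_prod, map_div₀, map_pow, map_pow] at h1
  have h3 : ∀ q : O2 ⧸ Ideal.span {π},
      V.valuation (if q ≠ 0 then XH (torH π q) else 1) =
        if q ≠ 0 then V.valuation (XH (torH π q)) else 1 := by
    intro q
    split_ifs
    · rfl
    · exact map_one _
  simp only [h3] at h1
  have h4 : V.valuation (π : ℂ) ≠ 0 := by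
    rw [Ne, map_eq_zero]
    exact h0
  rw [h1, div_mul_cancel₀ _ (pow_ne_zero 2 h4)]

private theorem vt_even {π : O2} (hπ : Prime π) (h : ¬ IsOddH π) {w : ℂ}
    (hw : π * w ∈ LH.lattice) : s2 * w ∈ LH.lattice := by
  have h1 : Even π.re := by
    have h2 : Even (nH π) := Nat.not_odd_iff_even.1 h
    have h3 : Even (Zsqrtd.norm π) := by
      rw [← Int.natAbs_even]
      exact h2
    rw [Zsqrtd.norm_def] at h3
    have h4 : π.re * π.re - -2 * π.im * π.im = π.re * π.re + 2 * (π.im * π.im) := by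
      ring
    rw [h4, Int.even_add] at h3
    have h5 := h3.2 (even_two_mul _)
    rw [Int.even_mul] at h5
    tauto
  obtain ⟨u, hu⟩ := h1
  have hfac : π = (⟨0, 1⟩ : O2) * ⟨π.im, -u⟩ := by
    rw [Zsqrtd.ext_iff]
    simp only [Zsqrtd.re_mul, Zsqrtd.im_mul]
    constructor
    · rw [hu]
      ring
    · ring
  have hnu : ¬ IsUnit (⟨0, 1⟩ : O2) := by
    intro hu'
    have h6 := Zsqrtd.norm_eq_one_iff.2 hu'
    simp [Zsqrtd.norm_def] at h6
  rcases hπ.irreducible.isUnit_or_isUnit hfac with h7 | h7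
  · exact absurd h7 hnu
  · obtain ⟨c, hc⟩ := h7
    have h8 : ((c⁻¹ : O2ˣ) : O2) * π = ⟨0, 1⟩ := by
      rw [hfac, ← hc, mul_comm (⟨0, 1⟩ : O2), ← mul_assoc, Units.inv_mul, one_mul]
    have h9 : ((((c⁻¹ : O2ˣ) : O2)) : ℂ) * (π : ℂ) = s2 := by
      rw [← map_mul, h8, coe_sqrtd]
    rw [← h9, mul_assoc]
    exact mul_mem_LH _ hw

private theorem vt_prime {π : O2} (hπ : Prime π) (hα : V.valuation (π : ℂ) = 1) {w : ℂ}
    (hw : π * w ∈ LH.lattice) (h : InH V w) : w ∈ LH.lattice := by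
  by_contra hw'
  by_cases hodd : IsOddH π
  · obtain ⟨_, hp⟩ := vt_prod (V := V) hπ.ne_zero hodd
    rw [hα, one_pow, mul_one] at hp
    have hall : ∀ q : O2 ⧸ Ideal.span {π}, q ≠ 0 → 1 < V.valuation (XH (torH π q)) := by
      intro q hq
      obtain ⟨β, hβ⟩ := vt_tor hπ hw hw' q
      rcases InH_congr (h.mul β) hβ with h1 | h1
      · exact absurd ((tor_mem_iff hπ.ne_zero q).1 h1) hq
      · exact h1
    obtain ⟨q₀, hq₀, -⟩ := exists_tor hπ.ne_zero hw
    have hq₀' : q₀ ≠ 0 := by
      intro h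
      have h1 := (tor_mem_iff hπ.ne_zero q₀).2 h
      have h2 := LH.lattice.add_mem hq₀ h1
      rw [sub_add_cancel] at h2
      exact hw' h2
    have h1 := vt_one_le (V := V) (fun q : O2 ⧸ Ideal.span {π} =>
      if q ≠ 0 then V.valuation (XH (torH π q)) else 1) (Finset.univ.erase q₀) (by
        intro q _
        split_ifs with h2
        · exact (hall q h2).le
        · exact le_rfl)
    rw [← Finset.mul_prod_erase Finset.univ _ (Finset.mem_univ q₀), if_pos hq₀'] at hp
    have h2 : V.valuation (XH (torH π q₀)) ≤ 1 := by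
      have h3 : V.valuation s2 ^ (nH π - 1) ≤ 1 := pow_le_one₀ zero_le vt_s2_le
      rw [← hp] at h3
      exact (le_mul_of_one_le_right' h1).trans h3
    exact absurd (hall q₀ hq₀') (not_lt.2 h2)
  · rcases mem_or_tau (vt_even hπ hodd hw) with h1 | h1
    · exact hw' h1
    · rcases h with h2 | h2
      · exact hw' h2
      · have h3 := XH_add_coe tauH h1
        rw [add_sub_cancel, XH_tau] at h3
        rw [h3, map_zero] at h2
        exact absurd h2 (not_lt.2 zero_le_one)

theorem mem_of_InH {α : O2} (hα : V.valuation (α : ℂ) = 1) {w : ℂ} (hw : α * w ∈ LH.lattice)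
    (h : InH V w) : w ∈ LH.lattice := by
  induction α using UniqueFactorizationMonoid.induction_on_prime generalizing w with
  | h₁ =>
    rw [map_zero, map_zero] at hα
    exact absurd hα zero_ne_one
  | h₂ α hu =>
    obtain ⟨c, rfl⟩ := hu
    have h1 := mul_mem_LH ((c⁻¹ : O2ˣ) : O2) hw
    rw [← mul_assoc, ← map_mul, Units.inv_mul, map_one, one_mul] at h1
    exact h1
  | h₃ β π hβ hπ ih =>
    have h1 : V.valuation (π : ℂ) * V.valuation (β : ℂ) = 1 := by
      rw [← map_mul, ← map_mul]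
      exact hα
    have h2 := val_coe_le (V := V) π
    have h3 := val_coe_le (V := V) β
    have h4 : V.valuation (π : ℂ) = 1 := by
      refine le_antisymm h2 ?_
      rw [← h1]
      exact mul_le_of_le_one_right' h3
    have h5 : V.valuation (β : ℂ) = 1 := by
      rw [h4, one_mul] at h1
      exact h1
    refine ih h5 (vt_prime hπ h4 ?_ (h.mul β)) h
    rw [← mul_assoc, ← map_mul]
    exact hw

theorem InH_of_prime {π : O2} (hπ : Prime π) (hπ' : IsOddH π) (hV : V.valuation (π : ℂ) < 1)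
    {w : ℂ} (hw : π * w ∈ LH.lattice) : InH V w := by
  by_cases hw' : w ∈ LH.lattice
  · exact Or.inl hw'
  obtain ⟨_, hp⟩ := vt_prod (V := V) hπ.ne_zero hπ'
  rw [(val_two_of_odd hπ' hV).2, one_pow] at hp
  have h1 : ∃ q : O2 ⧸ Ideal.span {π}, q ≠ 0 ∧ 1 < V.valuation (XH (torH π q)) := by
    by_contra hcon
    push Not at hcon
    have h2 := vt_le_one (V := V) (fun q : O2 ⧸ Ideal.span {π} =>
      if q ≠ 0 then V.valuation (XH (torH π q)) else 1) Finset.univ (by
        intro q _
        split_ifs with h2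
        · exact hcon q h2
        · exact le_rfl)
    have h3 : V.valuation (π : ℂ) ^ 2 < 1 := by
      rw [pow_two]
      exact (mul_le_of_le_one_right' hV.le).trans_lt hV
    have h4 : (∏ q : O2 ⧸ Ideal.span {π}, if q ≠ 0 then V.valuation (XH (torH π q)) else 1) *
        V.valuation (π : ℂ) ^ 2 < 1 := (mul_le_of_le_one_left' h2).trans_lt h3
    rw [hp] at h4
    exact lt_irrefl _ h4
  obtain ⟨q, hq, hqv⟩ := h1
  have hq' : torH π q ∉ LH.lattice := fun h2 => hq ((tor_mem_iff hπ.ne_zero q).1 h2)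
  obtain ⟨q₀, hq₀, -⟩ := exists_tor hπ.ne_zero hw
  obtain ⟨β, hβ⟩ := vt_tor hπ (mul_tor_mem hπ.ne_zero q) hq' q₀
  have h2 : InH V (torH π q) := Or.inr hqv
  exact InH_congr (InH_congr (h2.mul β) hβ) hq₀

end val

end Pool.Agent.CMH
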