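import Pool.Agent.CMH.XTau
import Pool.Agent.CMH.Tors

/-!
# valuations over 2: points of odd order

Compare `CMG/ValTwo.lean`. Write `s = s2`, `v(2) = 2^{-1}` additively: `e(x) = -log v(x)`, `e(2) = 1`,
`e(s) = 1/2`. `s^m ≡ 1` mod `β` for some `m ≥ 1`, so `x_j = XH (s^j w)` is periodic, and
`2 x_j x_{j+1} = -(x_j² + 4 x_j + 2)` (`XH_mul_s`; no `s^j w` is in `L`, all `x_j ≠ 0` since `XH u = 0` iff
`u ≡ τ`). If `e(x_j) < 0` then `e(x_{j+1}) = e(x_j) - 1`, decreasing forever, a contradiction to periodicity.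
If `0 ≤ e(x_j) < 1/2` then `e(x_{j+1}) = e(x_j) - 1 < 0`; if `e(x_j) > 1/2` then `e(x_{j+1}) = -e(x_j) < 0`. So
`e(x_j) = 1/2`, i.e. `v(x_j)² = v(2)`. Then `e(x_j² + 4x_j + 2) = 2` and `e(4 x_j) = 5/2`, so
`e(x_j² + 2) = 2`. `x_j² - 2 = -2 (x_j x_{j+1} + 2 + 2 x_j)`, and we need `e(x_j x_{j+1} + 2) > 1`: as
`x_j² + 2 = (x_j - s)(x_j + s)` has `e = 2` and the difference of the factors `2s` has `e = 3/2`, both
factors have `e = 1`; so `x_j = s + δ_j`, `e(δ_j) = 1`, `x_j x_{j+1} = -2 + s(δ_j + δ_{j+1}) + δ_j δ_{j+1}` and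
`e(x_j x_{j+1} + 2) ≥ 3/2`. So `e(x_j² - 2) ≥ 5/2 > 2`, i.e. `v(x_j² - 2) < v(4)`.
`T_sub`: algebra from `XH_mul_s`. `val_odd_odd`: `y_j = XH (s^j w')`, `d_j = e(x_j - y_j) < ∞`
(`s^j w ≡ ± s^j w'` would give `w ≡ ± w'`, as `s` is invertible on `E[β]`), periodic in `j`;
`T_sub`: `d_{j+1} + 2 = d_j + e(x_j y_j - 2)`, `xy - 2 = y(x - y) + (y² - 2)`, `e(y) = 1/2`. If `d_j < 3/2` then
`e(xy-2) = d_j + 1/2 < 2` and `d_{j+1} < d_j`, decreasing forever; if `d_j > 3/2` then `e(xy-2) > 2` and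
`d_{j+1} > d_j`, increasing forever. So `d_j = 3/2`, i.e. `v(x_j - y_j)² = v(8)`.
(Squares avoid roots: `v(a)² < v(b)²` iff `v(a) < v(b)`.)
-/

set_option autoImplicit false

noncomputable section

open Complex Filter Topology
open scoped PeriodPair Classical

namespace Pool.Agent.CMH

section aux

private theorem no_incr {Γ : Type*} [LinearOrder Γ] (f : ℕ → Γ) (c : Γ) {m : ℕ} (hm : 0 < m)
    (hper : ∀ j, f (j + m) = f j) (h : ∀ j, c < f j → f j < f (j + 1)) (j : ℕ) : f j ≤ c := by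
  by_contra hj
  rw [not_le] at hj
  have h1 : ∀ k, f j < f (j + (k + 1)) := by
    intro k
    induction k with
    | zero => exact h j hj
    | succ k ih => exact ih.trans (h _ (hj.trans ih))
  have h2 := h1 (m - 1)
  rw [Nat.sub_add_cancel hm, hper] at h2
  exact lt_irrefl _ h2

private theorem no_decr {Γ : Type*} [LinearOrder Γ] (f : ℕ → Γ) (c : Γ) {m : ℕ} (hm : 0 < m)
    (hper : ∀ j, f (j + m) = f j) (h : ∀ j, f j < c → f (j + 1) < f j) (j : ℕ) : c ≤ f j :=
  no_incr (Γ := Γᵒᵈ) f c hm hper h j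

/-- the element `√-2` of `ℤ[√-2]` -/
private def ss : O2 := ⟨0, 1⟩

private theorem ss_coe : ((ss : O2) : ℂ) = s2 := coe_sqrtd

private theorem ss_coprime {β : O2} (hβ : IsOddH β) : IsCoprime ss β := by
  have h1 : IsCoprime (2 : ℤ) (Zsqrtd.norm β) := by
    rw [Int.isCoprime_iff_gcd_eq_one, Int.gcd_comm]
    have h2 : Odd (Zsqrtd.norm β).natAbs := hβ
    have h3 : Nat.Coprime (Zsqrtd.norm β).natAbs 2 := Nat.coprime_two_right.2 h2
    exact h3
  have h2 : IsCoprime ((2 : ℤ) : O2) ((Zsqrtd.norm β : ℤ) : O2) :=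
    h1.map (Int.castRingHom O2)
  have h3 : ((Zsqrtd.norm β : ℤ) : O2) = β * star β := Zsqrtd.norm_eq_mul_conj β
  rw [h3] at h2
  have h4 : ((2 : ℤ) : O2) = ss * ⟨0, -1⟩ := by
    rw [ss]
    decide
  rw [h4] at h2
  exact h2.of_mul_left_left.of_mul_right_left

/-- `s ^ m ≡ 1` on the points of order `β` -/
private theorem exists_period {β : O2} (hβ : IsOddH β) :
    ∃ m : ℕ, 0 < m ∧ ∀ w : ℂ, β * w ∈ LH.lattice → s2 ^ m * w - w ∈ LH.lattice := by
  have hfin : Finite (O2 ⧸ Ideal.span {β}) := finite_quot hβ.ne_zero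
  obtain ⟨a, b, hab⟩ := ss_coprime hβ
  have hu : IsUnit (Ideal.Quotient.mk (Ideal.span {β}) ss) := by
    refine IsUnit.of_mul_eq_one (Ideal.Quotient.mk (Ideal.span {β}) a) ?_
    rw [← map_mul, ← map_one (Ideal.Quotient.mk (Ideal.span {β})), Ideal.Quotient.eq,
      Ideal.mem_span_singleton]
    refine ⟨-b, ?_⟩
    rw [← hab]
    ring
  obtain ⟨u, hu⟩ := hu
  refine ⟨Nat.card (O2 ⧸ Ideal.span {β})ˣ, Nat.card_pos, fun w hw => ?_⟩
  have h1 : u ^ Nat.card (O2 ⧸ Ideal.span {β})ˣ = 1 := pow_card_eq_one'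
  generalize Nat.card (O2 ⧸ Ideal.span {β})ˣ = m at *
  have h2 : Ideal.Quotient.mk (Ideal.span {β}) (ss ^ m) = Ideal.Quotient.mk _ 1 := by
    rw [map_pow, ← hu, map_one, ← Units.val_pow_eq_pow_val, h1, Units.val_one]
  rw [Ideal.Quotient.eq, Ideal.mem_span_singleton] at h2
  obtain ⟨c, hc⟩ := h2
  have h3 := mul_mem_LH c hw
  have h4 : (c : ℂ) * (β * w) = s2 ^ m * w - w := by
    have h5 : ((ss ^ m - 1 : O2) : ℂ) = ((β * c : O2) : ℂ) := by rw [hc]
    rw [map_sub, map_pow, ss_coe, map_mul, map_one] at h5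
    linear_combination (-w) * h5
  rwa [h4] at h3

private theorem pow_notMem {β : O2} (hβ : IsOddH β) {w : ℂ} (hw : w ∉ LH.lattice)
    (h : β * w ∈ LH.lattice) (j : ℕ) : s2 ^ j * w ∉ LH.lattice := by
  intro h1
  apply hw
  refine mem_of_coprime (α := ss ^ j) (β := β) ((ss_coprime hβ).pow_left) ?_ h
  rwa [map_pow, ss_coe]

private theorem XH_per {β : O2} {m : ℕ}
    (hm : ∀ w : ℂ, β * w ∈ LH.lattice → s2 ^ m * w - w ∈ LH.lattice) {w : ℂ}
    (h : β * w ∈ LH.lattice) (j : ℕ) : XH (s2 ^ (j + m) * w) = XH (s2 ^ j * w) := by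
  have h1 := mul_mem_LH (ss ^ j) (hm w h)
  rw [map_pow, ss_coe] at h1
  rw [← XH_add_coe (s2 ^ j * w) h1]
  congr 1
  rw [pow_add]
  ring

private theorem XH_ne_zero' {z : ℂ} (hz : s2 * z ∉ LH.lattice) : XH z ≠ 0 := by
  have hz0 : z ∉ LH.lattice := fun h => hz (s2_mul_mem h)
  intro h
  have h1 := (XH_eq_zero_iff hz0).1 h
  apply hz
  have h3 := s2_mul_mem h1
  have h4 : (1 : ℂ) ∈ LH.lattice := mem_LH.2 ⟨1, map_one _⟩
  have h5 := LH.lattice.sub_mem h3 h4
  rwa [mul_sub, s2_mul_tau, show s2 * z - -1 - 1 = s2 * z by ring] at h5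

end aux

section val

variable {V : ValuationSubring ℂ}

private theorem v4 (V : ValuationSubring ℂ) :
    V.valuation (4 : ℂ) = V.valuation (2 : ℂ) ^ 2 := by
  rw [← map_pow]
  norm_num

private theorem v8 (V : ValuationSubring ℂ) :
    V.valuation (8 : ℂ) = V.valuation (2 : ℂ) ^ 3 := by
  rw [← map_pow]
  norm_num

private theorem v2_ne (V : ValuationSubring ℂ) : V.valuation (2 : ℂ) ≠ 0 := by
  rw [Valuation.ne_zero_iff]
  norm_num

private theorem vs2 (V : ValuationSubring ℂ) :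
    V.valuation s2 ^ 2 = V.valuation (2 : ℂ) := by
  rw [← map_pow, sq, s2_mul_s2, Valuation.map_neg]

/-- a step with `v(x)² > v(2)` -/
private theorem step_large {x x' : ℂ} (h2 : V.valuation (2 : ℂ) < 1)
    (hrec : 2 * x * x' = -(x ^ 2 + 4 * x + 2)) (hx : V.valuation (2 : ℂ) < V.valuation x ^ 2) :
    V.valuation (2 : ℂ) * V.valuation x' = V.valuation x := by
  have h2pos : 0 < V.valuation (2 : ℂ) := zero_lt_iff.2 (v2_ne V)
  have hx0 : V.valuation x ≠ 0 := by
    intro h
    rw [h, zero_pow two_ne_zero] at hx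
    exact not_lt_zero hx
  have hxpos : 0 < V.valuation x := zero_lt_iff.2 hx0
  -- `v(4x) < v(x)²`, since `v(2) < v(x)`.. `v(4) v(x) < v(x)²` iff `v(4) < v(x)`
  have h4x : V.valuation (4 : ℂ) < V.valuation x := by
    rw [v4]
    refine lt_of_pow_lt_pow_left' 2 (lt_of_le_of_lt ?_ hx)
    rw [← pow_mul]
    exact pow_le_of_le_one zero_le h2.le (by norm_num)
  have h3 : V.valuation (x ^ 2 + 4 * x + 2) = V.valuation x ^ 2 := by
    rw [add_assoc, Valuation.map_add_eq_of_lt_left, map_pow]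
    rw [map_pow]
    apply Valuation.map_add_lt
    · rw [map_mul, sq]
      exact mul_lt_mul_of_pos_right h4x hxpos
    · exact hx
  have h4 := congrArg V.valuation hrec
  rw [Valuation.map_neg, h3, map_mul, map_mul, sq, mul_right_comm] at h4
  exact mul_right_cancel₀ hx0 h4

/-- a step with `v(x)² < v(2)` -/
private theorem step_small {x x' : ℂ} (h2 : V.valuation (2 : ℂ) < 1)
    (hrec : 2 * x * x' = -(x ^ 2 + 4 * x + 2)) (hx : V.valuation x ^ 2 < V.valuation (2 : ℂ)) :
    V.valuation x * V.valuation x' = 1 := by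
  have h2pos : 0 < V.valuation (2 : ℂ) := zero_lt_iff.2 (v2_ne V)
  have hx1 : V.valuation x < 1 := by
    refine lt_of_pow_lt_pow_left' 2 ?_
    rw [one_pow]
    exact hx.trans h2
  have h3 : V.valuation (x ^ 2 + 4 * x + 2) = V.valuation (2 : ℂ) := by
    rw [Valuation.map_add_eq_of_lt_right]
    apply Valuation.map_add_lt
    · rwa [map_pow]
    · rw [map_mul, v4, sq, mul_assoc]
      refine mul_lt_of_lt_one_right h2pos ?_
      exact mul_lt_one_of_nonneg_of_lt_one_left zero_le h2 hx1.le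
  have h4 := congrArg V.valuation hrec
  rw [Valuation.map_neg, h3, map_mul, map_mul, mul_assoc] at h4
  exact (mul_right_eq_self₀.1 h4).resolve_right (v2_ne V)

private theorem val_step {w : ℂ} (h2 : V.valuation (2 : ℂ) < 1) (hw : w ∉ LH.lattice)
    {β : O2} (hβ : IsOddH β) (h : β * w ∈ LH.lattice) (j : ℕ) :
    V.valuation (XH (s2 ^ j * w)) ^ 2 = V.valuation (2 : ℂ) := by
  obtain ⟨m, hm, hper⟩ := exists_period hβ
  set x : ℕ → ℂ := fun j => XH (s2 ^ j * w) with hx
  have hx0 : ∀ j, x j ≠ 0 := fun j => XH_ne_zero' (by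
    rw [← mul_assoc, ← pow_succ']
    exact pow_notMem hβ hw h _)
  have hrec : ∀ j, 2 * x j * x (j + 1) = -(x j ^ 2 + 4 * x j + 2) := by
    intro j
    have h1 : s2 ^ (j + 1) * w = s2 * (s2 ^ j * w) := by
      rw [pow_succ']
      ring
    simp only [hx]
    rw [h1]
    apply XH_mul_s
    rw [← h1]
    exact pow_notMem hβ hw h _
  have hpos : ∀ j, 0 < V.valuation (x j) := fun j =>
    zero_lt_iff.2 ((Valuation.ne_zero_iff _).2 (hx0 j))
  have hup : ∀ j, 1 < V.valuation (x j) → V.valuation (x j) < V.valuation (x (j + 1)) := by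
    intro j hj
    have h3 := step_large h2 (hrec j) (h2.trans (one_lt_pow' hj two_ne_zero))
    rw [← h3]
    exact mul_lt_of_lt_one_left (hpos _) h2
  have hle : ∀ j, V.valuation (x j) ≤ 1 :=
    no_incr (fun j => V.valuation (x j)) 1 hm (fun j => by
      simp only [hx]
      rw [XH_per hper h]) hup
  have key : V.valuation (x j) ^ 2 = V.valuation (2 : ℂ) := by
    rcases lt_trichotomy (V.valuation (x j) ^ 2) (V.valuation (2 : ℂ)) with hlt | heq | hgt
    · exfalso
      have h3 := step_small h2 (hrec j) hlt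
      have hx1 : V.valuation (x j) < 1 := by
        refine lt_of_pow_lt_pow_left' 2 ?_
        rw [one_pow]
        exact hlt.trans h2
      have h5 := mul_lt_one_of_nonneg_of_lt_one_left zero_le hx1 (hle (j + 1))
      exact h5.ne h3
    · exact heq
    · exfalso
      have h3 := step_large h2 (hrec j) hgt
      have h4 : V.valuation (x j) ≤ V.valuation (2 : ℂ) := by
        rw [← h3]
        exact mul_le_of_le_one_right zero_le (hle (j + 1))
      have h5 : V.valuation (x j) ^ 2 ≤ V.valuation (2 : ℂ) ^ 2 := pow_le_pow_left' h4 2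
      have h6 : V.valuation (2 : ℂ) ^ 2 ≤ V.valuation (2 : ℂ) := pow_le_of_le_one zero_le h2.le two_ne_zero
      exact absurd (hgt.trans_le (h5.trans h6)) (lt_irrefl _)
  exact key

/-- `v(x - s) = v(2)` -/
private theorem val_sub_s {x x' : ℂ} (h2 : V.valuation (2 : ℂ) < 1)
    (hrec : 2 * x * x' = -(x ^ 2 + 4 * x + 2)) (hx : V.valuation x ^ 2 = V.valuation (2 : ℂ))
    (hx' : V.valuation x' ^ 2 = V.valuation (2 : ℂ)) :
    V.valuation (x - s2) = V.valuation (2 : ℂ) := by
  have h2pos : 0 < V.valuation (2 : ℂ) := zero_lt_iff.2 (v2_ne V)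
  have hx1 : V.valuation x < 1 := by
    refine lt_of_pow_lt_pow_left' 2 ?_
    rw [one_pow, hx]
    exact h2
  have h3 : V.valuation x * V.valuation x' = V.valuation (2 : ℂ) := by
    refine (pow_left_inj₀ zero_le zero_le two_ne_zero).1 ?_
    rw [mul_pow, hx, hx', sq]
  have h4 : V.valuation (x ^ 2 + 4 * x + 2) = V.valuation (2 : ℂ) ^ 2 := by
    rw [← Valuation.map_neg, ← hrec, map_mul, map_mul, mul_assoc, h3, sq]
  have h5 : V.valuation (x ^ 2 + 2) = V.valuation (2 : ℂ) ^ 2 := by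
    have e : x ^ 2 + 2 = (x ^ 2 + 4 * x + 2) - 4 * x := by ring
    rw [e, Valuation.map_sub_eq_of_lt_left, h4]
    rw [h4, map_mul, v4]
    exact mul_lt_of_lt_one_right (pow_pos h2pos 2) hx1
  have h6 : V.valuation (x - s2) * V.valuation (x + s2) = V.valuation (2 : ℂ) ^ 2 := by
    rw [← map_mul, ← h5]
    congr 1
    linear_combination -s2_mul_s2
  -- the difference
  have h7 : V.valuation (2 * s2) ^ 2 < V.valuation (2 : ℂ) ^ 2 := by
    rw [map_mul, mul_pow, vs2]
    exact mul_lt_of_lt_one_right (pow_pos h2pos 2) h2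
  have h7' : V.valuation (2 * s2) < V.valuation (2 : ℂ) := lt_of_pow_lt_pow_left' 2 h7
  have h8 : x + s2 = (x - s2) + 2 * s2 := by ring
  have h9 : x - s2 = (x + s2) - 2 * s2 := by ring
  rcases lt_trichotomy (V.valuation (x - s2)) (V.valuation (2 : ℂ)) with hlt | heq | hgt
  · exfalso
    have h10 : V.valuation (x + s2) < V.valuation (2 : ℂ) := by
      rw [h8]
      exact Valuation.map_add_lt _ hlt h7'
    have h11 : V.valuation (x - s2) * V.valuation (x + s2) < V.valuation (2 : ℂ) ^ 2 := by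
      rw [sq]
      exact mul_lt_mul'' hlt h10 zero_le zero_le
    exact h11.ne h6
  · exact heq
  · exfalso
    have h10 : V.valuation (x + s2) = V.valuation (x - s2) := by
      rw [h8]
      exact Valuation.map_add_eq_of_lt_left _ (h7'.trans hgt)
    rw [h10] at h6
    have h11 : V.valuation (2 : ℂ) ^ 2 < V.valuation (x - s2) * V.valuation (x - s2) := by
      rw [sq]
      exact mul_lt_mul'' hgt hgt zero_le zero_le
    exact h11.ne' h6

theorem val_odd {w : ℂ} (h2 : V.valuation (2 : ℂ) < 1) (hw : w ∉ LH.lattice) {β : O2}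
    (hβ : IsOddH β) (h : β * w ∈ LH.lattice) :
    V.valuation (XH w) ^ 2 = V.valuation (2 : ℂ) ∧
      V.valuation (XH w ^ 2 - 2) < V.valuation (4 : ℂ) := by
  have h2pos : 0 < V.valuation (2 : ℂ) := zero_lt_iff.2 (v2_ne V)
  have n1 : s2 * w ∉ LH.lattice := by
    have := pow_notMem hβ hw h 1
    rwa [pow_one] at this
  have n2 : s2 * (s2 * w) ∉ LH.lattice := by
    have := pow_notMem hβ hw h 2
    rwa [sq, mul_assoc] at this
  have w0 : V.valuation (XH w) ^ 2 = V.valuation (2 : ℂ) := by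
    have := val_step h2 hw hβ h 0
    rwa [pow_zero, one_mul] at this
  have w1 : V.valuation (XH (s2 * w)) ^ 2 = V.valuation (2 : ℂ) := by
    have := val_step h2 hw hβ h 1
    rwa [pow_one] at this
  have w2 : V.valuation (XH (s2 * (s2 * w))) ^ 2 = V.valuation (2 : ℂ) := by
    have := val_step h2 hw hβ h 2
    rwa [sq s2, mul_assoc] at this
  have r0 := XH_mul_s n1
  have r1 := XH_mul_s n2
  have d0 := val_sub_s h2 r0 w0 w1
  have d1 := val_sub_s h2 r1 w1 w2
  refine ⟨w0, ?_⟩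
  set x := XH w with hx
  set x' := XH (s2 * w) with hx'
  have hs1 : V.valuation s2 < 1 := by
    refine lt_of_pow_lt_pow_left' 2 ?_
    rw [one_pow, vs2]
    exact h2
  have hs2 : V.valuation (2 : ℂ) ≤ V.valuation s2 := by
    rw [← vs2]
    exact pow_le_of_le_one zero_le hs1.le two_ne_zero
  -- `v(x x' + 2) ≤ v(s) v(2)`
  have h3 : V.valuation (x * x' + 2) ≤ V.valuation s2 * V.valuation (2 : ℂ) := by
    have e : x * x' + 2 = s2 * ((x - s2) + (x' - s2)) + (x - s2) * (x' - s2) := by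
      linear_combination s2_mul_s2
    rw [e]
    apply Valuation.map_add_le
    · rw [map_mul]
      refine mul_le_mul' le_rfl ?_
      exact Valuation.map_add_le _ d0.le d1.le
    · rw [map_mul, d0, d1]
      exact mul_le_mul' hs2 le_rfl
  have hx1 : V.valuation x ≤ V.valuation s2 := by
    have : V.valuation x ^ 2 = V.valuation s2 ^ 2 := by rw [w0, vs2]
    exact ((pow_left_inj₀ zero_le zero_le two_ne_zero).1 this).le
  have h4 : V.valuation (x * x' + 2 + 2 * x) ≤ V.valuation s2 * V.valuation (2 : ℂ) := by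
    apply Valuation.map_add_le _ h3
    rw [map_mul, mul_comm]
    exact mul_le_mul' hx1 le_rfl
  have h5 : x ^ 2 - 2 = -(2 * (x * x' + 2 + 2 * x)) := by
    linear_combination r0
  rw [h5, Valuation.map_neg, map_mul, v4, sq]
  refine mul_lt_mul_of_pos_left (lt_of_le_of_lt h4 ?_) h2pos
  exact mul_lt_of_lt_one_left h2pos hs1

/-- the formula for the backward step -/
theorem T_sub {x y : ℂ} {z w : ℂ} (hx : x = XH z) (hy : y = XH w)
    (hz : s2 * z ∉ LH.lattice) (hw : s2 * w ∉ LH.lattice) :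
    2 * x * y * (XH (s2 * z) - XH (s2 * w)) = - ((x - y) * (x * y - 2)) := by
  have h1 := XH_mul_s hz
  have h2 := XH_mul_s hw
  rw [← hx] at h1
  rw [← hy] at h2
  linear_combination y * h1 - x * h2

theorem val_odd_odd {w w' : ℂ} (h2 : V.valuation (2 : ℂ) < 1) (hw : w ∉ LH.lattice)
    (hw' : w' ∉ LH.lattice) {β : O2} (hβ : IsOddH β) (h : β * w ∈ LH.lattice)
    (h' : β * w' ∈ LH.lattice) (hne : XH w ≠ XH w') :
    V.valuation (XH w - XH w') ^ 2 = V.valuation (8 : ℂ) := by
  obtain ⟨m, hm, hper⟩ := exists_period hβ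
  set x : ℕ → ℂ := fun j => XH (s2 ^ j * w) with hx
  set y : ℕ → ℂ := fun j => XH (s2 ^ j * w') with hy
  have h2pos : 0 < V.valuation (2 : ℂ) := zero_lt_iff.2 (v2_ne V)
  have hmem' : ∀ (l : ℂ), l ∈ LH.lattice → ∀ j, s2 ^ j * l ∈ LH.lattice := by
    intro l hl j
    have h3 := mul_mem_LH (ss ^ j) hl
    rwa [map_pow, ss_coe] at h3
  have hxy : ∀ j, x j - y j ≠ 0 := by
    intro j h3
    apply hne
    rw [XH_eq_iff hw hw']
    rcases (XH_eq_iff (pow_notMem hβ hw h j) (pow_notMem hβ hw' h' j)).1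
      (sub_eq_zero.1 h3) with h4 | h4
    · left
      refine mem_of_coprime (α := ss ^ j) (β := β) ((ss_coprime hβ).pow_left) ?_ ?_
      · rw [map_pow, ss_coe]
        rwa [show s2 ^ j * (w - w') = s2 ^ j * w - s2 ^ j * w' by ring]
      · rw [show (β : ℂ) * (w - w') = β * w - β * w' by ring]
        exact LH.lattice.sub_mem h h'
    · right
      refine mem_of_coprime (α := ss ^ j) (β := β) ((ss_coprime hβ).pow_left) ?_ ?_
      · rw [map_pow, ss_coe]
        rwa [show s2 ^ j * (w + w') = s2 ^ j * w + s2 ^ j * w' by ring]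
      · rw [show (β : ℂ) * (w + w') = β * w + β * w' by ring]
        exact LH.lattice.add_mem h h'
  have hmem : ∀ j, (β : ℂ) * (s2 ^ j * w') ∈ LH.lattice := by
    intro j
    have h3 := hmem' _ h' j
    rwa [show (β : ℂ) * (s2 ^ j * w') = s2 ^ j * (β * w') by ring]
  have hvx : ∀ j, V.valuation (x j) ^ 2 = V.valuation (2 : ℂ) := fun j => val_step h2 hw hβ h j
  have hvy : ∀ j, V.valuation (y j) ^ 2 = V.valuation (2 : ℂ) := fun j => val_step h2 hw' hβ h' j
  have hsx : ∀ j, V.valuation (x j) = V.valuation s2 := fun j => by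
    refine (pow_left_inj₀ zero_le zero_le two_ne_zero).1 ?_
    rw [hvx, vs2]
  have hsy : ∀ j, V.valuation (y j) = V.valuation s2 := fun j => by
    refine (pow_left_inj₀ zero_le zero_le two_ne_zero).1 ?_
    rw [hvy, vs2]
  have hvy2 : ∀ j, V.valuation (y j ^ 2 - 2) < V.valuation (4 : ℂ) := fun j =>
    (val_odd h2 (pow_notMem hβ hw' h' j) hβ (hmem j)).2
  have hrec : ∀ j, V.valuation (4 : ℂ) * V.valuation (x (j + 1) - y (j + 1)) =
      V.valuation (x j - y j) * V.valuation (x j * y j - 2) := by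
    intro j
    have h1 : ∀ w : ℂ, s2 ^ (j + 1) * w = s2 * (s2 ^ j * w) := by
      intro w
      rw [pow_succ']
      ring
    have h3 := T_sub (x := x j) (y := y j) (z := s2 ^ j * w) (w := s2 ^ j * w') rfl rfl
      (by rw [← h1]; exact pow_notMem hβ hw h _) (by rw [← h1]; exact pow_notMem hβ hw' h' _)
    have h4 := congrArg V.valuation h3
    rw [← h1, ← h1, map_mul, map_mul, map_mul, hsx, hsy, Valuation.map_neg,
      map_mul, mul_assoc (V.valuation (2 : ℂ)), ← sq, vs2, ← sq, ← v4] at h4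
    exact h4
  have hexp : ∀ j, x j * y j - 2 = y j * (x j - y j) + (y j ^ 2 - 2) := fun j => by ring
  have hperd : ∀ j, V.valuation (x (j + m) - y (j + m)) = V.valuation (x j - y j) := by
    intro j
    simp only [hx, hy]
    rw [XH_per hper h, XH_per hper h']
  have hpos : ∀ j, 0 < V.valuation (x j - y j) := fun j =>
    zero_lt_iff.2 ((Valuation.ne_zero_iff _).2 (hxy j))
  have hspos : 0 < V.valuation s2 := by
    rw [← hsx 0]
    refine zero_lt_iff.2 fun h0 => ?_
    have := hvx 0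
    rw [h0, zero_pow two_ne_zero] at this
    exact v2_ne V this.symm
  -- `r = v(s) v(2)`, `r² = v(8)`, `v(s) r = v(4)`
  set r := V.valuation s2 * V.valuation (2 : ℂ) with hr
  have hr2 : r ^ 2 = V.valuation (8 : ℂ) := by
    rw [hr, mul_pow, vs2, v8, ← pow_succ']
  have hr4 : V.valuation s2 * r = V.valuation (4 : ℂ) := by
    rw [hr, ← mul_assoc, ← sq, vs2, v4, sq]
  have h4pos : 0 < V.valuation (4 : ℂ) := by
    rw [v4]
    exact pow_pos h2pos 2
  have hup : ∀ j, r < V.valuation (x j - y j) →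
      V.valuation (x j - y j) < V.valuation (x (j + 1) - y (j + 1)) := by
    intro j hj
    have h5 : V.valuation (4 : ℂ) < V.valuation s2 * V.valuation (x j - y j) := by
      rw [← hr4]
      exact mul_lt_mul_of_pos_left hj hspos
    have h3 : V.valuation (x j * y j - 2) = V.valuation s2 * V.valuation (x j - y j) := by
      rw [hexp, Valuation.map_add_eq_of_lt_left]
      · rw [map_mul, hsy]
      · rw [map_mul, hsy]
        exact (hvy2 j).trans h5
    have h4 := hrec j
    rw [h3] at h4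
    refine lt_of_mul_lt_mul_left' (a := V.valuation (4 : ℂ)) ?_
    rw [h4, mul_comm]
    exact mul_lt_mul_of_pos_left h5 (hpos j)
  have hdown : ∀ j, V.valuation (x j - y j) < r →
      V.valuation (x (j + 1) - y (j + 1)) < V.valuation (x j - y j) := by
    intro j hj
    have h3 : V.valuation (x j * y j - 2) < V.valuation (4 : ℂ) := by
      rw [hexp]
      apply Valuation.map_add_lt
      · rw [map_mul, hsy, ← hr4]
        exact mul_lt_mul_of_pos_left hj hspos
      · exact hvy2 j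
    have h4 := hrec j
    refine lt_of_mul_lt_mul_left' (a := V.valuation (4 : ℂ)) ?_
    rw [h4, mul_comm]
    exact mul_lt_mul_of_pos_right h3 (hpos j)
  have r1 := no_incr (fun j => V.valuation (x j - y j)) _ hm hperd hup 0
  have r2 := no_decr (fun j => V.valuation (x j - y j)) _ hm hperd hdown 0
  have r3 : V.valuation (x 0 - y 0) = r := le_antisymm r1 r2
  simp only [hx, hy, pow_zero, one_mul] at r3
  rw [r3, hr2]

end val

end Pool.Agent.CMH
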