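import Pool.Agent.CMH.Isog

/-!
# the function XH: basic properties

`℘ = e + (3e/4) XH` with `e = ℘(τ) ≠ 0`; everything is the general theory (`P_sum`, `P_prod`, `P_dup`,
`P_inj`, `P_surj`, `P_order_sub` in `CMG/PSum, PProd, PInj`) with `g₂ = 15e²/2`, `g₃ = -7e³/2` (`g_eq`) in
the coordinate `XH`: `4℘³ - g₂℘ - g₃ = 4 (3e/4)³ (X³ + 4X² + 2X)`. Compare `CMG/XBasic.lean`.
`XH_deriv_sq`: `℘'² = 4℘³ - g₂℘ - g₃`.
-/

set_option autoImplicit false

noncomputable section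

open Complex Filter Topology
open scoped PeriodPair Classical

namespace Pool.Agent.CMH

private lemma xb_ne : ℘[LH] tauH ≠ 0 := g_eq.1

private lemma xb_P (z : ℂ) : ℘[LH] z = ℘[LH] tauH * (1 + 3 / 4 * XH z) := by
  have := xb_ne
  unfold XH
  field_simp
  ring

private lemma xb_P' {u : ℂ} (hu : u ∉ LH.lattice) :
    ℘'[LH] u ^ 2 = 27 / 16 * ℘[LH] tauH ^ 3 * (XH u ^ 3 + 4 * XH u ^ 2 + 2 * XH u) := by
  rw [LH.derivWeierstrassP_sq u hu, g_eq.2.1, g_eq.2.2, xb_P u]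
  ring

private lemma xb_s2_mem : s2 ∈ LH.lattice := LH.ω₂_mem_lattice

theorem XH_add_coe (z : ℂ) {l : ℂ} (hl : l ∈ LH.lattice) : XH (z + l) = XH z := by
  unfold XH
  rw [LH.weierstrassP_add_coe z ⟨l, hl⟩]

/-- the junk value on the lattice (`℘[L] l = 0` for `l ∈ L` in Mathlib) -/
theorem XH_of_mem {l : ℂ} (hl : l ∈ LH.lattice) : XH l = - 4 / 3 := by
  have := xb_ne
  have h : ℘[LH] l = 0 := LH.weierstrassP_coe ⟨l, hl⟩
  unfold XH
  rw [h]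
  field_simp
  ring

theorem XH_neg (z : ℂ) : XH (-z) = XH z := by
  unfold XH
  rw [LH.weierstrassP_neg]

theorem XH_tau : XH tauH = 0 := by
  unfold XH
  rw [sub_self, mul_zero, zero_div]

theorem XH_surj (c : ℂ) : ∃ z ∉ LH.lattice, XH z = c := by
  obtain ⟨z, hz, h⟩ := CMG.P_surj LH (℘[LH] tauH * (1 + 3 / 4 * c))
  refine ⟨z, hz, ?_⟩
  rw [xb_P] at h
  have h2 := mul_left_cancel₀ xb_ne h
  linear_combination (4 / 3 : ℂ) * h2

theorem XH_inj {u v : ℂ} (hu : u ∉ LH.lattice) (hv : v ∉ LH.lattice) (h : XH u = XH v) :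
    u - v ∈ LH.lattice ∨ u + v ∈ LH.lattice := by
  apply CMG.P_inj LH hu hv
  rw [xb_P u, xb_P v, h]

theorem XH_eq_iff {u v : ℂ} (hu : u ∉ LH.lattice) (hv : v ∉ LH.lattice) :
    XH u = XH v ↔ u - v ∈ LH.lattice ∨ u + v ∈ LH.lattice := by
  refine ⟨XH_inj hu hv, ?_⟩
  rintro (h | h)
  · have h2 := XH_add_coe v h
    rwa [add_sub_cancel] at h2
  · have h2 := XH_add_coe (-v) h
    rw [XH_neg] at h2
    rw [← h2]
    congr 1
    ring

theorem XH_eq_zero_iff {z : ℂ} (hz : z ∉ LH.lattice) : XH z = 0 ↔ z - tauH ∈ LH.lattice := by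
  rw [← XH_tau, XH_eq_iff hz tau_notMem]
  constructor
  · rintro (h | h)
    · exact h
    · have h2 := sub_mem h xb_s2_mem
      have e : z + tauH - s2 = z - tauH := by
        unfold tauH
        ring
      rwa [e] at h2
  · exact Or.inl

theorem XH_sum {u v : ℂ} (hu : u ∉ LH.lattice) (hv : v ∉ LH.lattice)
    (h1 : u + v ∉ LH.lattice) (h2 : u - v ∉ LH.lattice) :
    (XH (u + v) + XH (u - v)) * (XH u - XH v) ^ 2 =
      2 * ((XH u * XH v + 2) * (XH u + XH v) + 8 * (XH u * XH v)) := by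
  have h := CMG.P_sum LH hu hv h1 h2
  rw [g_eq.2.1, g_eq.2.2, xb_P u, xb_P v, xb_P (u + v), xb_P (u - v)] at h
  have h3 : 27 / 64 * ℘[LH] tauH ^ 3 ≠ 0 := mul_ne_zero (by norm_num) (pow_ne_zero 3 xb_ne)
  apply mul_left_cancel₀ h3
  linear_combination h

theorem XH_prod {u v : ℂ} (hu : u ∉ LH.lattice) (hv : v ∉ LH.lattice)
    (h1 : u + v ∉ LH.lattice) (h2 : u - v ∉ LH.lattice) :
    XH (u + v) * XH (u - v) * (XH u - XH v) ^ 2 = (XH u * XH v - 2) ^ 2 := by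
  have h := CMG.P_prod LH hu hv h1 h2
  have hs := XH_sum hu hv h1 h2
  rw [g_eq.2.1, g_eq.2.2, xb_P u, xb_P v, xb_P (u + v), xb_P (u - v)] at h
  have h3 : 81 / 256 * ℘[LH] tauH ^ 4 ≠ 0 := mul_ne_zero (by norm_num) (pow_ne_zero 4 xb_ne)
  apply mul_left_cancel₀ h3
  linear_combination h - (27 / 64 * ℘[LH] tauH ^ 4) * hs

theorem XH_dup {u : ℂ} (hu : u ∉ LH.lattice) (h2 : 2 * u ∉ LH.lattice) :
    XH (2 * u) * (4 * (XH u ^ 3 + 4 * XH u ^ 2 + 2 * XH u)) = (XH u ^ 2 - 2) ^ 2 := by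
  have h := CMG.P_dup LH hu h2
  rw [xb_P' hu, g_eq.2.1, g_eq.2.2, xb_P u, xb_P (2 * u)] at h
  have h3 : 81 / 256 * ℘[LH] tauH ^ 4 ≠ 0 := mul_ne_zero (by norm_num) (pow_ne_zero 4 xb_ne)
  apply mul_left_cancel₀ h3
  linear_combination h

theorem XH_two_mul_mem_iff {u : ℂ} (hu : u ∉ LH.lattice) :
    2 * u ∈ LH.lattice ↔ XH u ^ 3 + 4 * XH u ^ 2 + 2 * XH u = 0 := by
  rw [← CMG.P'_eq_zero_iff LH hu, ← sq_eq_zero_iff, xb_P' hu]
  have h3 : (27 / 16 : ℂ) * ℘[LH] tauH ^ 3 ≠ 0 := mul_ne_zero (by norm_num) (pow_ne_zero 3 xb_ne)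
  constructor
  · intro h
    exact (mul_eq_zero.1 h).resolve_left h3
  · intro h
    rw [h, mul_zero]

theorem XH_order_sub {v : ℂ} (hv : v ∉ LH.lattice) (z : ℂ) :
    meromorphicOrderAt (fun z => XH z - XH v) z =
      ((if z ∈ LH.lattice then -2 else if z - v ∈ LH.lattice ∨ z + v ∈ LH.lattice then
        (if 2 * v ∈ LH.lattice then 2 else 1) else 0 : ℤ) : WithTop ℤ) := by
  rw [← CMG.P_order_sub LH hv z]
  have e : (fun z => XH z - XH v) =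
      (fun _ : ℂ => 4 / (3 * ℘[LH] tauH)) * (fun z => ℘[LH] z - ℘[LH] v) := by
    funext w
    show XH w - XH v = 4 / (3 * ℘[LH] tauH) * (℘[LH] w - ℘[LH] v)
    unfold XH
    ring
  rw [e]
  exact meromorphicOrderAt_mul_of_ne_zero analyticAt_const
    (div_ne_zero (by norm_num) (mul_ne_zero (by norm_num) xb_ne))

theorem XH_diff : DifferentiableOn ℂ XH (LH.lattice : Set ℂ)ᶜ :=
  ((LH.differentiableOn_weierstrassP.sub_const _).const_mul _).div_const _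

theorem XH_meromorphic (z : ℂ) : MeromorphicAt XH z :=
  ((MeromorphicAt.const _ z).mul
    ((LH.meromorphic_weierstrassP z).sub (MeromorphicAt.const _ z))).div (MeromorphicAt.const _ z)

theorem XH_deriv_sq {z : ℂ} (hz : z ∉ LH.lattice) :
    deriv XH z ^ 2 = 3 * ℘[LH] tauH * (XH z ^ 3 + 4 * XH z ^ 2 + 2 * XH z) := by
  have hne := xb_ne
  have hA : AnalyticAt ℂ ℘[LH] z := LH.analyticOnNhd_weierstrassP z hz
  have hd : HasDerivAt ℘[LH] (℘'[LH] z) z := by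
    rw [← LH.deriv_weierstrassP]
    exact hA.differentiableAt.hasDerivAt
  have h1 : HasDerivAt XH (4 * ℘'[LH] z / (3 * ℘[LH] tauH)) z :=
    ((hd.sub_const (℘[LH] tauH)).const_mul 4).div_const _
  rw [h1.deriv, div_pow, mul_pow, xb_P' hz]
  field_simp
  ring

/-- `z² XH z → 4 / (3 e)` as `z → 0` -/
theorem XH_tendsto : Tendsto (fun z : ℂ => z ^ 2 * XH z) (𝓝[≠] 0) (𝓝 (4 / (3 * ℘[LH] tauH))) := by
  have hne := xb_ne
  have h1 : ContinuousAt ℘[LH - (0 : ℂ)] 0 := (LH.analyticAt_weierstrassPExcept 0).continuousAt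
  have h3 : ContinuousAt (fun z : ℂ => (z ^ 2 * (℘[LH - (0 : ℂ)] z - ℘[LH] tauH) + 1) *
      (4 / (3 * ℘[LH] tauH))) 0 :=
    (((continuousAt_id.pow 2).mul (h1.sub continuousAt_const)).add continuousAt_const).mul
      continuousAt_const
  have h2 := h3.tendsto.mono_left (nhdsWithin_le_nhds (s := {0}ᶜ))
  have e : ((0 : ℂ) ^ 2 * (℘[LH - (0 : ℂ)] 0 - ℘[LH] tauH) + 1) * (4 / (3 * ℘[LH] tauH)) =
      4 / (3 * ℘[LH] tauH) := by
    ring
  rw [e] at h2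
  refine h2.congr' ?_
  filter_upwards [self_mem_nhdsWithin] with z hz
  have hz' : z ≠ 0 := hz
  have h4 := LH.weierstrassPExcept_add 0 z
  unfold XH
  rw [← h4]
  show (z ^ 2 * (℘[LH - (0 : ℂ)] z - ℘[LH] tauH) + 1) * (4 / (3 * ℘[LH] tauH)) =
    z ^ 2 * (4 * ((℘[LH - (0 : ℂ)] z + (1 / (z - 0) ^ 2 - 1 / (0 : ℂ) ^ 2)) - ℘[LH] tauH) /
      (3 * ℘[LH] tauH))
  field_simp
  ring

end Pool.Agent.CMH
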